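import Mathlib

/-!
# Grids on the unit cube
-/

namespace Pool.Agent.K6.H24.KR

open MeasureTheory

/-- the index of the cell of side `1/(N+1)` of `[0,1]` which contains `t` -/
noncomputable def cell (N : ℕ) (t : ℝ) : Fin (N+1) :=
  ⟨min N ⌊((N:ℝ) + 1) * t⌋₊, Nat.lt_succ_of_le (min_le_left _ _)⟩

/-- the forward difference in direction `i` (zero if the neighbour is outside of the grid) -/
def dif {n N : ℕ} (F : (Fin n → Fin (N+1)) → ℝ) (i : Fin n) (b : Fin n → Fin (N+1)) : ℝ :=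
  if h : (b i).val + 1 < N + 1 then F (Function.update b i ⟨(b i).val + 1, h⟩) - F b else 0

/-- the mass of the cell with index `b` -/
noncomputable def mass {n : ℕ} (ρ : (Fin n → ℝ) → ℝ) (N : ℕ) (b : Fin n → Fin (N+1)) : ℝ :=
  ∫ x in {x : Fin n → ℝ | x ∈ Set.Icc (0 : Fin n → ℝ) 1 ∧ ∀ i, cell N (x i) = b i}, ρ x

end Pool.Agent.K6.H24.KR
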