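import Pool.Agent.K6.H24.KR.Defs

/-!
# Splines, random rounding to a grid, and Poincare inequalities in coordinates
-/

namespace Pool.Agent.K6.H24.KR

open MeasureTheory

/-- `φ k` (`k = 0, …, N`): a `C¹` partition of unity of the line, `φ k` near `k + 1/2`; `χ k`: hat
functions of the edges `(k, k+1)`. -/
structure Spl (N : ℕ) (φ χ : Fin (N+1) → ℝ → ℝ) : Prop where
  smooth : ∀ k, ContDiff ℝ 1 (φ k)
  nonneg : ∀ k t, 0 ≤ φ k t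
  one : ∀ t, ∑ k, φ k t = 1
  cont : ∀ k, Continuous (χ k)
  nonneg' : ∀ k t, 0 ≤ χ k t
  le_one : ∀ t, ∑ k, χ k t ≤ 1
  deriv : ∀ (g : Fin (N+1) → ℝ) (t : ℝ), HasDerivAt (fun t => ∑ k, g k * φ k t)
    (∑ k, (if h : k.val + 1 < N + 1 then g ⟨k.val + 1, h⟩ - g k else 0) * χ k t) t
  var : ∀ (g : Fin (N+1) → ℝ) (t : ℝ), ∑ k, φ k t * g k ^ 2 - (∑ k, φ k t * g k) ^ 2
    ≤ (1 / 2) * ∑ k, (if h : k.val + 1 < N + 1 then g ⟨k.val + 1, h⟩ - g k else 0) ^ 2 * χ k t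
  near : ∀ (k : Fin (N+1)) (t : ℝ), 0 ≤ t → t ≤ (N:ℝ) + 1 → φ k t ≠ 0 →
    |t - ((k.val : ℝ) + 1 / 2)| ≤ 3 / 2
  near' : ∀ (k : Fin (N+1)) (t : ℝ), 0 ≤ t → t ≤ (N:ℝ) + 1 → χ k t ≠ 0 →
    |t - ((k.val : ℝ) + 1 / 2)| ≤ 3 / 2

/-- mass of the grid point `b` after random rounding of `x` (spacing `h`, origin `a`) -/
noncomputable def mm {n N : ℕ} (μ : Measure (Fin n → ℝ)) (φ : Fin (N+1) → ℝ → ℝ) (h a : ℝ)
    (b : Fin n → Fin (N+1)) : ℝ :=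
  ∫ x, ∏ j, φ (b j) ((x j - a) / h) ∂μ

/-- weight of the edge from `b` in direction `i` -/
noncomputable def ee {n N : ℕ} (μ : Measure (Fin n → ℝ)) (φ χ : Fin (N+1) → ℝ → ℝ) (h a : ℝ)
    (i : Fin n) (b : Fin n → Fin (N+1)) : ℝ :=
  ∫ x, χ (b i) ((x i - a) / h) * ∏ j ∈ Finset.univ.erase i, φ (b j) ((x j - a) / h) ∂μ

/-- square of the Euclidean norm of the gradient -/
noncomputable def gsq {n : ℕ} (f : (Fin n → ℝ) → ℝ) (x : Fin n → ℝ) : ℝ :=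
  ∑ i, (fderiv ℝ f x (Pi.single i 1)) ^ 2

/-- Poincare inequality for bounded `C¹` functions with bounded gradient -/
def PB {n : ℕ} (μ : Measure (Fin n → ℝ)) (C : ℝ) : Prop :=
  ∀ f : (Fin n → ℝ) → ℝ, ContDiff ℝ 1 f → (∃ K, ∀ x, |f x| ≤ K) →
    (∃ K, ∀ x i, |fderiv ℝ f x (Pi.single i 1)| ≤ K) →
    ∫ x, f x ^ 2 ∂μ - (∫ x, f x ∂μ) ^ 2 ≤ C * ∫ x, gsq f x ∂μ

end Pool.Agent.K6.H24.KR
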