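import Pool.Agent.K6.H24.OP.A6

/-!
# A reversible chain carrying states with involutions
-/

namespace Pool.Agent.K6.H24.KR

open Finset Pool.Agent.K6.H24.OP

set_option linter.unusedSectionVars false
set_option linter.deprecated false

section generic

variable {Y S A : Type*} [Fintype Y] [Fintype S] [Fintype A]

/-- one step of the chain -/
noncomputable def OO (τ : A → S → S) (w : Y → ℝ) (c : Y → Y → ℝ) (s : Y → A → ℝ)
    (g : Y → S → ℝ) : Y → S → ℝ :=
  fun y x => g y x + (1 / w y) * (∑ y', c y y' * (g y' x - g y x)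
    + ∑ a, s y a * ((g y x + g y (τ a x)) / 2 - g y x))

/-- the weighted inner product -/
noncomputable def ip (w : Y → ℝ) (g h : Y → S → ℝ) : ℝ := ∑ y, w y * ∑ x, g y x * h y x

/-- the form of the moves in `Y` -/
noncomputable def fY (c : Y → Y → ℝ) (g h : Y → S → ℝ) : ℝ :=
  (1 / 2) * ∑ y, ∑ y', c y y' * ∑ x, (g y' x - g y x) * (h y' x - h y x)

/-- the form of the moves in `S` -/
noncomputable def fS (τ : A → S → S) (s : Y → A → ℝ) (g h : Y → S → ℝ) : ℝ :=
  (1 / 4) * ∑ y, ∑ a, s y a * ∑ x, (g y (τ a x) - g y x) * (h y (τ a x) - h y x)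

variable {τ : A → S → S} {w : Y → ℝ} {c : Y → Y → ℝ} {s : Y → A → ℝ}

lemma ip_comm (w : Y → ℝ) (g h : Y → S → ℝ) : ip w g h = ip w h g := by
  unfold ip
  refine Finset.sum_congr rfl fun y _ => ?_
  congr 1
  exact Finset.sum_congr rfl fun x _ => mul_comm _ _

lemma fY_comm (c : Y → Y → ℝ) (g h : Y → S → ℝ) : fY c g h = fY c h g := by
  unfold fY
  congr 1
  refine Finset.sum_congr rfl fun y _ => Finset.sum_congr rfl fun y' _ => ?_
  congr 1
  exact Finset.sum_congr rfl fun x _ => mul_comm _ _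

lemma fS_comm (τ : A → S → S) (s : Y → A → ℝ) (g h : Y → S → ℝ) : fS τ s g h = fS τ s h g := by
  unfold fS
  congr 1
  refine Finset.sum_congr rfl fun y _ => Finset.sum_congr rfl fun y' _ => ?_
  congr 1
  exact Finset.sum_congr rfl fun x _ => mul_comm _ _

lemma sum_inv (hτ : ∀ a x, τ a (τ a x) = x) (a : A) (g : S → ℝ) :
    ∑ x, g (τ a x) = ∑ x, g x :=
  Equiv.sum_comp (Function.Involutive.toPerm (τ a) (hτ a)) g

lemma y_part (hc : ∀ y y', c y y' = c y' y) (g h : Y → S → ℝ) :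
    ∑ y, ∑ x, (∑ y', c y y' * (g y' x - g y x)) * h y x = - fY c g h := by
  have e1 : ∑ y, ∑ x, (∑ y', c y y' * (g y' x - g y x)) * h y x
      = ∑ y, ∑ y', c y y' * ∑ x, (g y' x - g y x) * h y x := by
    refine Finset.sum_congr rfl fun y _ => ?_
    simp only [Finset.sum_mul, Finset.mul_sum]
    rw [Finset.sum_comm]
    exact Finset.sum_congr rfl fun y' _ => Finset.sum_congr rfl fun x _ => by ring
  have e2 : ∑ y, ∑ y', c y y' * ∑ x, (g y' x - g y x) * h y x
      = ∑ y, ∑ y', c y y' * ∑ x, (g y x - g y' x) * h y' x := by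
    rw [Finset.sum_comm]
    refine Finset.sum_congr rfl fun y _ => Finset.sum_congr rfl fun y' _ => ?_
    rw [hc]
  have e3 : fY c g h = (1 / 2) * (∑ y, ∑ y', c y y' * ∑ x, (g y x - g y' x) * h y x
      + ∑ y, ∑ y', c y y' * ∑ x, (g y' x - g y x) * h y' x) := by
    unfold fY
    congr 1
    rw [← Finset.sum_add_distrib]
    refine Finset.sum_congr rfl fun y _ => ?_
    rw [← Finset.sum_add_distrib]
    refine Finset.sum_congr rfl fun y' _ => ?_
    rw [← mul_add, ← Finset.sum_add_distrib]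
    congr 1
    exact Finset.sum_congr rfl fun x _ => by ring
  have e4 : ∑ y, ∑ y', c y y' * ∑ x, (g y x - g y' x) * h y x
      = - ∑ y, ∑ y', c y y' * ∑ x, (g y' x - g y x) * h y x := by
    rw [← Finset.sum_neg_distrib]
    refine Finset.sum_congr rfl fun y _ => ?_
    rw [← Finset.sum_neg_distrib]
    refine Finset.sum_congr rfl fun y' _ => ?_
    rw [← mul_neg, ← Finset.sum_neg_distrib]
    congr 1
    exact Finset.sum_congr rfl fun x _ => by ring
  have e5 : ∑ y, ∑ y', c y y' * ∑ x, (g y' x - g y x) * h y' x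
      = - ∑ y, ∑ y', c y y' * ∑ x, (g y x - g y' x) * h y' x := by
    rw [← Finset.sum_neg_distrib]
    refine Finset.sum_congr rfl fun y _ => ?_
    rw [← Finset.sum_neg_distrib]
    refine Finset.sum_congr rfl fun y' _ => ?_
    rw [← mul_neg, ← Finset.sum_neg_distrib]
    congr 1
    exact Finset.sum_congr rfl fun x _ => by ring
  rw [e1, e3, e4, e5, ← e2]
  ring

lemma s_part (hτ : ∀ a x, τ a (τ a x) = x) (g h : Y → S → ℝ) :
    ∑ y, ∑ x, (∑ a, s y a * ((g y x + g y (τ a x)) / 2 - g y x)) * h y x = - fS τ s g h := by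
  unfold fS
  rw [Finset.mul_sum, ← Finset.sum_neg_distrib]
  refine Finset.sum_congr rfl fun y _ => ?_
  simp only [Finset.sum_mul]
  rw [Finset.sum_comm, Finset.mul_sum, ← Finset.sum_neg_distrib]
  refine Finset.sum_congr rfl fun a _ => ?_
  have e1 : ∑ x, g y (τ a x) * h y (τ a x) = ∑ x, g y x * h y x :=
    sum_inv hτ a (fun x => g y x * h y x)
  have e2 : ∑ x, g y x * h y (τ a x) = ∑ x, g y (τ a x) * h y x := by
    rw [← sum_inv hτ a (fun x => g y (τ a x) * h y x)]
    refine Finset.sum_congr rfl fun x _ => ?_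
    simp only [hτ]
  have e3 : ∑ x, (g y (τ a x) - g y x) * (h y (τ a x) - h y x)
      = 2 * (∑ x, g y x * h y x - ∑ x, g y (τ a x) * h y x) := by
    have : ∑ x, (g y (τ a x) - g y x) * (h y (τ a x) - h y x)
        = ∑ x, g y (τ a x) * h y (τ a x) - ∑ x, g y (τ a x) * h y x
          - ∑ x, g y x * h y (τ a x) + ∑ x, g y x * h y x := by
      rw [← Finset.sum_sub_distrib, ← Finset.sum_sub_distrib, ← Finset.sum_add_distrib]
      exact Finset.sum_congr rfl fun x _ => by ring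
    rw [this, e1, e2]; ring
  rw [e3]
  have e4 : ∑ x, s y a * ((g y x + g y (τ a x)) / 2 - g y x) * h y x
      = s y a * ((1 / 2) * (∑ x, g y (τ a x) * h y x - ∑ x, g y x * h y x)) := by
    rw [← Finset.sum_sub_distrib, Finset.mul_sum, Finset.mul_sum]
    exact Finset.sum_congr rfl fun x _ => by ring
  rw [e4]; ring

lemma OO_form (hτ : ∀ a x, τ a (τ a x) = x) (hw : ∀ y, 0 < w y) (hc : ∀ y y', c y y' = c y' y)
    (g h : Y → S → ℝ) :
    ip w (OO τ w c s g) h = ip w g h - fY c g h - fS τ s g h := by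
  have e : ip w (OO τ w c s g) h = ip w g h
      + ∑ y, ∑ x, (∑ y', c y y' * (g y' x - g y x)) * h y x
      + ∑ y, ∑ x, (∑ a, s y a * ((g y x + g y (τ a x)) / 2 - g y x)) * h y x := by
    unfold ip OO
    rw [← Finset.sum_add_distrib, ← Finset.sum_add_distrib]
    refine Finset.sum_congr rfl fun y _ => ?_
    rw [Finset.mul_sum, Finset.mul_sum, ← Finset.sum_add_distrib, ← Finset.sum_add_distrib]
    refine Finset.sum_congr rfl fun x _ => ?_
    have := (hw y).ne'
    field_simp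
    ring
  rw [e, y_part hc, s_part hτ]
  ring

lemma OO_symm (hτ : ∀ a x, τ a (τ a x) = x) (hw : ∀ y, 0 < w y) (hc : ∀ y y', c y y' = c y' y)
    (g h : Y → S → ℝ) :
    ip w (OO τ w c s g) h = ip w g (OO τ w c s h) := by
  rw [OO_form hτ hw hc, ip_comm w g (OO τ w c s h), OO_form hτ hw hc, ip_comm w h g, fY_comm c h g,
    fS_comm τ s h g]

lemma OO_mean (hτ : ∀ a x, τ a (τ a x) = x) (hw : ∀ y, 0 < w y) (hc : ∀ y y', c y y' = c y' y)
    (g : Y → S → ℝ) :
    ∑ y, w y * ∑ x, OO τ w c s g y x = ∑ y, w y * ∑ x, g y x := by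
  have h := OO_form (s := s) hτ hw hc g (fun _ _ => 1)
  unfold ip fY fS at h
  simpa using h

lemma OO_add_smul (g h : Y → S → ℝ) (t : ℝ) :
    OO τ w c s (fun y x => g y x + t * h y x)
      = fun y x => OO τ w c s g y x + t * OO τ w c s h y x := by
  funext y x
  unfold OO
  have e1 : ∑ y', c y y' * (g y' x + t * h y' x - (g y x + t * h y x))
      = ∑ y', c y y' * (g y' x - g y x) + t * ∑ y', c y y' * (h y' x - h y x) := by
    rw [Finset.mul_sum, ← Finset.sum_add_distrib]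
    exact Finset.sum_congr rfl fun _ _ => by ring
  have e2 : ∑ a, s y a * ((g y x + t * h y x + (g y (τ a x) + t * h y (τ a x))) / 2
        - (g y x + t * h y x))
      = ∑ a, s y a * ((g y x + g y (τ a x)) / 2 - g y x)
        + t * ∑ a, s y a * ((h y x + h y (τ a x)) / 2 - h y x) := by
    rw [Finset.mul_sum, ← Finset.sum_add_distrib]
    exact Finset.sum_congr rfl fun _ _ => by ring
  rw [e1, e2]
  ring

lemma OO_add_const (g : Y → S → ℝ) (t : ℝ) :
    OO τ w c s (fun y x => g y x + t) = fun y x => OO τ w c s g y x + t := by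
  funext y x
  unfold OO
  have e1 : ∀ y', c y y' * (g y' x + t - (g y x + t)) = c y y' * (g y' x - g y x) :=
    fun _ => by ring
  have e2 : ∀ a, s y a * ((g y x + t + (g y (τ a x) + t)) / 2 - (g y x + t))
      = s y a * ((g y x + g y (τ a x)) / 2 - g y x) := fun _ => by ring
  simp only [e1, e2]
  ring

lemma OO_smul (g : Y → S → ℝ) (t : ℝ) :
    OO τ w c s (fun y x => t * g y x) = fun y x => t * OO τ w c s g y x := by
  have h := OO_add_smul (τ := τ) (w := w) (c := c) (s := s) (fun _ _ => 0) g t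
  simp only [zero_add] at h
  rw [h]
  funext y x
  have : OO τ w c s (fun _ _ => (0:ℝ)) y x = 0 := by unfold OO; simp
  rw [this, zero_add]

/-- contraction of the mean zero functions -/
lemma OO_contract (hτ : ∀ a x, τ a (τ a x) = x) (hw : ∀ y, 0 < w y)
    (hc : ∀ y y', c y y' = c y' y)
    (hpsd : ∀ g : Y → S → ℝ, fY c g g + fS τ s g g ≤ ip w g g) {lam : ℝ} (hlam : lam ≤ 1)
    (hgap : ∀ g : Y → S → ℝ, ∑ y, w y * ∑ x, g y x = 0 →
      lam * ip w g g ≤ fY c g g + fS τ s g g)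
    (g : Y → S → ℝ) (hg : ∑ y, w y * ∑ x, g y x = 0) :
    ip w (OO τ w c s g) (OO τ w c s g) ≤ (1 - lam) ^ 2 * ip w g g := by
  set h := OO τ w c s g with hh
  have hmean : ∑ y, w y * ∑ x, h y x = 0 := by rw [hh, OO_mean hτ hw hc, hg]
  have hnn : ∀ u : Y → S → ℝ, 0 ≤ ip w u u := fun u =>
    Finset.sum_nonneg fun y _ => mul_nonneg (hw y).le
      (Finset.sum_nonneg fun x _ => mul_self_nonneg _)
  have hcs : (ip w (OO τ w c s g) h) ^ 2
      ≤ ip w (OO τ w c s g) g * ip w (OO τ w c s h) h := by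
    apply cs_of_nonneg
    intro t
    have h1 : 0 ≤ ip w (OO τ w c s (fun y x => g y x + t * h y x)) (fun y x => g y x + t * h y x) := by
      rw [OO_form hτ hw hc]
      have := hpsd (fun y x => g y x + t * h y x)
      linarith
    rw [OO_add_smul] at h1
    refine h1.trans (le_of_eq ?_)
    have e : ip w (fun y x => OO τ w c s g y x + t * OO τ w c s h y x) (fun y x => g y x + t * h y x)
        = ip w (OO τ w c s g) g + t * ip w (OO τ w c s g) h + t * ip w (OO τ w c s h) g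
          + t ^ 2 * ip w (OO τ w c s h) h := by
      unfold ip
      simp only [Finset.mul_sum, ← Finset.sum_add_distrib]
      exact Finset.sum_congr rfl fun y _ => Finset.sum_congr rfl fun x _ => by ring
    have e2 : ip w (OO τ w c s h) g = ip w (OO τ w c s g) h := by
      rw [OO_symm hτ hw hc, ip_comm]
    rw [e, e2]
    ring
  have hhh : ip w (OO τ w c s g) h = ip w h h := by rw [← hh]
  rw [hhh] at hcs
  have a1 : ip w (OO τ w c s g) g ≤ (1 - lam) * ip w g g := by
    rw [OO_form hτ hw hc]; have := hgap g hg; linarith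
  have a2 : ip w (OO τ w c s h) h ≤ (1 - lam) * ip w h h := by
    rw [OO_form hτ hw hc]; have := hgap h hmean; linarith
  have a3 : 0 ≤ ip w (OO τ w c s h) h := by
    rw [OO_form hτ hw hc]; have := hpsd h; linarith
  have hθ : 0 ≤ 1 - lam := by linarith
  have h5 : (ip w h h) ^ 2 ≤ ((1 - lam) * ip w g g) * ((1 - lam) * ip w h h) :=
    hcs.trans (mul_le_mul a1 a2 a3 (mul_nonneg hθ (hnn g)))
  rcases (hnn h).eq_or_lt with h0 | h0
  · rw [← h0]; exact mul_nonneg (sq_nonneg _) (hnn g)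
  · have h6 : ip w h h * ip w h h ≤ ip w h h * ((1 - lam) ^ 2 * ip w g g) := by nlinarith
    exact le_of_mul_le_mul_left h6 h0

lemma iter_contract (hτ : ∀ a x, τ a (τ a x) = x) (hw : ∀ y, 0 < w y)
    (hc : ∀ y y', c y y' = c y' y)
    (hpsd : ∀ g : Y → S → ℝ, fY c g g + fS τ s g g ≤ ip w g g) {lam : ℝ} (hlam : lam ≤ 1)
    (hgap : ∀ g : Y → S → ℝ, ∑ y, w y * ∑ x, g y x = 0 →
      lam * ip w g g ≤ fY c g g + fS τ s g g)
    (g : Y → S → ℝ) (hg : ∑ y, w y * ∑ x, g y x = 0) (k : ℕ) :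
    ∑ y, w y * ∑ x, (OO τ w c s)^[k] g y x = 0 ∧
      ip w ((OO τ w c s)^[k] g) ((OO τ w c s)^[k] g) ≤ ((1 - lam) ^ k) ^ 2 * ip w g g := by
  induction k with
  | zero => simp [hg]
  | succ k ih =>
    rw [Function.iterate_succ_apply']
    refine ⟨by rw [OO_mean hτ hw hc]; exact ih.1, ?_⟩
    refine (OO_contract hτ hw hc hpsd hlam hgap _ ih.1).trans ?_
    calc (1 - lam) ^ 2 * ip w ((OO τ w c s)^[k] g) ((OO τ w c s)^[k] g)
        ≤ (1 - lam) ^ 2 * (((1 - lam) ^ k) ^ 2 * ip w g g) :=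
          mul_le_mul_of_nonneg_left ih.2 (sq_nonneg _)
      _ = _ := by ring

/-- pointwise decay -/
lemma iter_pt (hτ : ∀ a x, τ a (τ a x) = x) (hw : ∀ y, 0 < w y)
    (hc : ∀ y y', c y y' = c y' y)
    (hpsd : ∀ g : Y → S → ℝ, fY c g g + fS τ s g g ≤ ip w g g) {lam : ℝ} (hlam : lam ≤ 1)
    (hgap : ∀ g : Y → S → ℝ, ∑ y, w y * ∑ x, g y x = 0 →
      lam * ip w g g ≤ fY c g g + fS τ s g g)
    (g : Y → S → ℝ) (hg : ∑ y, w y * ∑ x, g y x = 0) :
    ∃ B : ℝ, 0 ≤ B ∧ ∀ k y x, |(OO τ w c s)^[k] g y x| ≤ B * (1 - lam) ^ k := by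
  have hnn : ∀ u : Y → S → ℝ, 0 ≤ ip w u u := fun u =>
    Finset.sum_nonneg fun y _ => mul_nonneg (hw y).le
      (Finset.sum_nonneg fun x _ => mul_self_nonneg _)
  have hθ : 0 ≤ 1 - lam := by linarith
  refine ⟨∑ y, √(ip w g g / w y), Finset.sum_nonneg fun y _ => Real.sqrt_nonneg _, ?_⟩
  intro k y x
  have h1 := (iter_contract hτ hw hc hpsd hlam hgap g hg k).2
  set G := (OO τ w c s)^[k] g with hG
  have h2 : w y * (G y x) ^ 2 ≤ ip w G G := by
    unfold ip
    calc w y * (G y x) ^ 2 ≤ w y * ∑ x, G y x * G y x := by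
          refine mul_le_mul_of_nonneg_left ?_ (hw y).le
          rw [sq]
          exact Finset.single_le_sum (f := fun x => G y x * G y x)
            (fun _ _ => mul_self_nonneg _) (Finset.mem_univ x)
      _ ≤ _ := Finset.single_le_sum (f := fun y => w y * ∑ x, G y x * G y x)
            (fun y _ => mul_nonneg (hw y).le (Finset.sum_nonneg fun x _ => mul_self_nonneg _))
            (Finset.mem_univ y)
  have h3 : (G y x) ^ 2 ≤ (√(ip w g g / w y) * (1 - lam) ^ k) ^ 2 := by
    rw [mul_pow, Real.sq_sqrt (div_nonneg (hnn g) (hw y).le), div_mul_eq_mul_div,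
      le_div_iff₀ (hw y)]
    calc G y x ^ 2 * w y = w y * (G y x) ^ 2 := by ring
      _ ≤ _ := h2.trans (h1.trans (le_of_eq (by ring)))
  have h4 := abs_le_of_sq_le_sq h3 (mul_nonneg (Real.sqrt_nonneg _) (pow_nonneg hθ k))
  refine h4.trans (mul_le_mul_of_nonneg_right ?_ (pow_nonneg hθ k))
  exact Finset.single_le_sum (f := fun y => √(ip w g g / w y)) (fun _ _ => Real.sqrt_nonneg _)
    (Finset.mem_univ y)

end generic

end Pool.Agent.K6.H24.KR
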