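import Pool.Agent.K6.H24.KR.J9

/-!
# Symmetric functions, the variance of the sum
-/

namespace Pool.Agent.K6.H24.KR

open MeasureTheory Filter Topology ProbabilityTheory Pool.Agent.K6.H24.OP

set_option linter.unusedSectionVars false

variable {n : ℕ} {μ : Measure (Fin n → ℝ)} [IsProbabilityMeasure μ]
  {R : Fin n → Fin n → Prop}

lemma int_cond (g : (Fin n → ℝ) → ℝ) : ∫ x, g x ∂(ProbabilityTheory.cond μ (cn R))
      = (μ.real (cn R))⁻¹ * ∫ x in cn R, g x ∂μ := by
  unfold ProbabilityTheory.cond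
  rw [integral_smul_measure, smul_eq_mul, ENNReal.toReal_inv]
  rfl

lemma cond_symm (hex : ∀ σ : Equiv.Perm (Fin n), Measure.map (fun x : Fin n → ℝ => x ∘ σ) μ = μ)
    (hties : ∀ i j : Fin n, i ≠ j → μ {x | x i = x j} = 0) (hpos : 0 < μ.real (cn R))
    {Ψ : (Fin n → ℝ) → ℝ} (hΨ : Integrable Ψ μ)
    (hs : ∀ (σ : Equiv.Perm (Fin n)) (x : Fin n → ℝ), Ψ (x ∘ σ) = Ψ x) :
    ∫ x, Ψ x ∂(ProbabilityTheory.cond μ (cn R)) = ∫ x, Ψ x ∂μ := by
  rw [int_cond]
  have h := symm_mean hex hties R hΨ hs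
  have h' : ∫ x in cn R, Ψ x ∂μ = μ.real (cn R) * ∫ x, Ψ x ∂μ := h
  rw [h', ← mul_assoc, inv_mul_cancel₀ hpos.ne', one_mul]

/-- a symmetric function which is square integrable after conditioning is square integrable -/
lemma memLp_of_cond
    (hex : ∀ σ : Equiv.Perm (Fin n), Measure.map (fun x : Fin n → ℝ => x ∘ σ) μ = μ)
    (hties : ∀ i j : Fin n, i ≠ j → μ {x | x i = x j} = 0) (hpos : 0 < μ.real (cn R))
    {T : (Fin n → ℝ) → ℝ} (hT : Continuous T)
    (hs : ∀ (σ : Equiv.Perm (Fin n)) (x : Fin n → ℝ), T (x ∘ σ) = T x)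
    (hm : MemLp T 2 (ProbabilityTheory.cond μ (cn R))) : MemLp T 2 μ := by
  have hne : μ (cn R) ≠ 0 := by
    intro h
    rw [Measure.real, h] at hpos
    simp at hpos
  have hprob : IsProbabilityMeasure (ProbabilityTheory.cond μ (cn R)) :=
    cond_isProbabilityMeasure hne
  rw [memLp_two_iff_integrable_sq hT.aestronglyMeasurable]
  have hI : Integrable (fun x => T x ^ 2) (ProbabilityTheory.cond μ (cn R)) := hm.integrable_sq
  set K := ∫ x, T x ^ 2 ∂(ProbabilityTheory.cond μ (cn R)) with hK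
  refine ⟨(hT.pow 2).aestronglyMeasurable, ?_⟩
  rw [hasFiniteIntegral_iff_ofReal (Filter.Eventually.of_forall fun x => sq_nonneg _)]
  have hmono : ∀ k : ℕ, ∫⁻ x, ENNReal.ofReal (min (T x ^ 2) k) ∂μ ≤ ENNReal.ofReal K := by
    intro k
    have hc : Continuous fun x => min (T x ^ 2) (k:ℝ) := (hT.pow 2).min continuous_const
    have hb : ∀ x, |min (T x ^ 2) (k:ℝ)| ≤ k := by
      intro x
      have h1 : 0 ≤ min (T x ^ 2) (k:ℝ) := le_min (sq_nonneg _) (Nat.cast_nonneg k)
      rw [abs_of_nonneg h1]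
      exact min_le_right _ _
    have hi : Integrable (fun x => min (T x ^ 2) (k:ℝ)) μ := bdd_int hc.aestronglyMeasurable hb
    rw [← ofReal_integral_eq_lintegral_ofReal hi (Filter.Eventually.of_forall fun x =>
      le_min (sq_nonneg _) (Nat.cast_nonneg k))]
    refine ENNReal.ofReal_le_ofReal ?_
    rw [← cond_symm hex hties hpos hi (fun σ x => by rw [hs])]
    refine integral_mono ?_ hI fun x => min_le_left _ _
    exact bdd_int hc.aestronglyMeasurable hb
  have hsup : ∫⁻ x, ENNReal.ofReal (T x ^ 2) ∂μ ≤ ENNReal.ofReal K := by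
    have h1 : ∀ x, ENNReal.ofReal (T x ^ 2) ≤ ⨆ k : ℕ, ENNReal.ofReal (min (T x ^ 2) k) := by
      intro x
      obtain ⟨k, hk⟩ := exists_nat_ge (T x ^ 2)
      refine le_trans ?_ (le_iSup _ k)
      rw [min_eq_left hk]
    calc ∫⁻ x, ENNReal.ofReal (T x ^ 2) ∂μ
        ≤ ∫⁻ x, ⨆ k : ℕ, ENNReal.ofReal (min (T x ^ 2) k) ∂μ := lintegral_mono h1
      _ = ⨆ k : ℕ, ∫⁻ x, ENNReal.ofReal (min (T x ^ 2) k) ∂μ := by
          refine lintegral_iSup (fun k => ?_) ?_
          · exact ((hT.pow 2).min continuous_const).measurable.ennreal_ofReal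
          · intro k l hkl x
            refine ENNReal.ofReal_le_ofReal (min_le_min le_rfl ?_)
            exact_mod_cast hkl
      _ ≤ ENNReal.ofReal K := iSup_le hmono
  exact lt_of_le_of_lt hsup ENNReal.ofReal_lt_top

/-- the variance of a symmetric function does not change -/
lemma var_cond
    (hex : ∀ σ : Equiv.Perm (Fin n), Measure.map (fun x : Fin n → ℝ => x ∘ σ) μ = μ)
    (hties : ∀ i j : Fin n, i ≠ j → μ {x | x i = x j} = 0) (hpos : 0 < μ.real (cn R))
    {T : (Fin n → ℝ) → ℝ} (hs : ∀ (σ : Equiv.Perm (Fin n)) (x : Fin n → ℝ), T (x ∘ σ) = T x)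
    (hm : MemLp T 2 μ) :
    variance T (ProbabilityTheory.cond μ (cn R)) = variance T μ := by
  have hne : μ (cn R) ≠ 0 := by
    intro h
    rw [Measure.real, h] at hpos
    simp at hpos
  have hprob : IsProbabilityMeasure (ProbabilityTheory.cond μ (cn R)) :=
    cond_isProbabilityMeasure hne
  have hm' : MemLp T 2 (ProbabilityTheory.cond μ (cn R)) := by
    unfold ProbabilityTheory.cond
    exact (hm.restrict _).smul_measure (ENNReal.inv_ne_top.2 hne)
  rw [variance_eq_sub hm, variance_eq_sub hm']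
  have h1 : ∫ x, (T ^ 2) x ∂(ProbabilityTheory.cond μ (cn R)) = ∫ x, (T ^ 2) x ∂μ :=
    cond_symm hex hties hpos hm.integrable_sq (fun σ x => by simp [hs])
  have h2 : ∫ x, T x ∂(ProbabilityTheory.cond μ (cn R)) = ∫ x, T x ∂μ :=
    cond_symm hex hties hpos (hm.integrable one_le_two) hs
  rw [h1, h2]

/-- the sum of the coordinates -/
def ts (x : Fin n → ℝ) : ℝ := ∑ i, x i

lemma ts_cont : Continuous (ts : (Fin n → ℝ) → ℝ) := by unfold ts; fun_prop

lemma ts_symm (σ : Equiv.Perm (Fin n)) (x : Fin n → ℝ) : ts (x ∘ σ) = ts x :=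
  Equiv.sum_comp σ x

/-- change of the signs -/
def flip (ε : Fin n → ℝ) (x : Fin n → ℝ) : Fin n → ℝ := fun i => ε i * x i

lemma flip_meas (ε : Fin n → ℝ) : Measurable (flip ε) :=
  measurable_pi_lambda _ fun i => (measurable_pi_apply i).const_mul _

/-- invariance under changes of signs: the second moments -/
lemma sq_sum
    (hex : ∀ σ : Equiv.Perm (Fin n), Measure.map (fun x : Fin n → ℝ => x ∘ σ) μ = μ)
    (hsg : ∀ ε : Fin n → ℝ, (∀ i, ε i = 1 ∨ ε i = -1) → Measure.map (flip ε) μ = μ)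
    (hm : MemLp (ts : (Fin n → ℝ) → ℝ) 2 μ) (i : Fin n) :
    MemLp (fun x : Fin n → ℝ => x i) 2 μ ∧ variance (ts : (Fin n → ℝ) → ℝ) μ
      = n * ∫ x, x i ^ 2 ∂μ := by
  classical
  have hfl : ∀ ε : Fin n → ℝ, (∀ i, ε i = 1 ∨ ε i = -1) → MemLp (fun x => ts (flip ε x)) 2 μ := by
    intro ε hε
    have h1 := hsg ε hε
    have h2 : MemLp (ts : (Fin n → ℝ) → ℝ) 2 (Measure.map (flip ε) μ) := by rw [h1]; exact hm
    exact (memLp_map_measure_iff ts_cont.aestronglyMeasurable (flip_meas ε).aemeasurable).1 h2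
  have hco : ∀ i : Fin n, MemLp (fun x : Fin n → ℝ => x i) 2 μ := by
    intro i
    have h1 := hfl (fun j => if j = i then 1 else -1) (fun j => by
      by_cases h : j = i <;> simp [h])
    have e : (fun x : Fin n → ℝ => x i)
        = fun x => (1 / 2) * (ts x + ts (flip (fun j => if j = i then 1 else -1) x)) := by
      funext x
      unfold ts flip
      rw [← Finset.sum_add_distrib, Finset.sum_eq_single i]
      · simp; ring
      · intro j _ hj
        simp [hj]
      · intro h; exact absurd (Finset.mem_univ i) h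
    rw [e]
    exact (hm.add h1).const_mul _
  refine ⟨hco i, ?_⟩
  have hflip_int : ∀ (k : Fin n) (g : (Fin n → ℝ) → ℝ), Continuous g →
      ∫ x, g (flip (fun j => if j = k then -1 else 1) x) ∂μ = ∫ x, g x ∂μ := by
    intro k g hg
    have h1 := hsg (fun j => if j = k then -1 else 1) (fun j => by
      by_cases h : j = k <;> simp [h])
    conv_rhs => rw [← h1]
    rw [integral_map (flip_meas _).aemeasurable hg.aestronglyMeasurable]
  have hmean : ∀ k : Fin n, ∫ x, x k ∂μ = 0 := by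
    intro k
    have h1 := hflip_int k (fun x => x k) (by fun_prop)
    simp only [flip, if_true] at h1
    have h2 : ∫ x : Fin n → ℝ, -1 * x k ∂μ = - ∫ x, x k ∂μ := by
      rw [integral_const_mul]; ring
    rw [h2] at h1
    linarith
  have hcross : ∀ k l : Fin n, k ≠ l → ∫ x, x k * x l ∂μ = 0 := by
    intro k l hkl
    have h1 := hflip_int k (fun x => x k * x l) (by fun_prop)
    simp only [flip, if_true, if_neg (Ne.symm hkl)] at h1
    have h2 : ∫ x : Fin n → ℝ, -1 * x k * (1 * x l) ∂μ = - ∫ x, x k * x l ∂μ := by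
      rw [← integral_neg]
      exact integral_congr_ae (Filter.Eventually.of_forall fun x => by ring)
    rw [h2] at h1
    linarith
  have hint : ∀ k l : Fin n, Integrable (fun x : Fin n → ℝ => x k * x l) μ :=
    fun k l => (hco k).integrable_mul (hco l)
  have hsame : ∀ k : Fin n, ∫ x, x k * x k ∂μ = ∫ x, x i ^ 2 ∂μ := by
    intro k
    have h1 := ex_int hex (Equiv.swap i k) (g := fun x => x i ^ 2) (by fun_prop)
    simp only [Function.comp, Equiv.swap_apply_left] at h1
    rw [← h1]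
    exact integral_congr_ae (Filter.Eventually.of_forall fun x => by ring)
  rw [variance_eq_sub hm]
  have e1 : ∫ x, (ts : (Fin n → ℝ) → ℝ) x ∂μ = 0 := by
    unfold ts
    rw [integral_finsetSum _ fun k _ => (hco k).integrable one_le_two]
    simp only [hmean, Finset.sum_const_zero]
  have e2 : ∫ x, ((ts : (Fin n → ℝ) → ℝ) ^ 2) x ∂μ = n * ∫ x, x i ^ 2 ∂μ := by
    have h1 : ∀ x : Fin n → ℝ, ((ts : (Fin n → ℝ) → ℝ) ^ 2) x = ∑ k, ∑ l, x k * x l := by
      intro x
      simp only [Pi.pow_apply, ts, sq, Finset.sum_mul_sum]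
    simp only [h1]
    rw [integral_finsetSum _ fun k _ => integrable_finsetSum _ fun l _ => hint k l]
    have h2 : ∀ k : Fin n, ∫ x : Fin n → ℝ, ∑ l, x k * x l ∂μ = ∫ x, x i ^ 2 ∂μ := by
      intro k
      rw [integral_finsetSum _ fun l _ => hint k l, Finset.sum_eq_single k]
      · exact hsame k
      · intro l _ hl
        exact hcross k l (Ne.symm hl)
      · intro h; exact absurd (Finset.mem_univ k) h
    simp only [h2, Finset.sum_const, Finset.card_univ, Fintype.card_fin, nsmul_eq_mul]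
  rw [e1, e2]
  ring

end Pool.Agent.K6.H24.KR
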