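import Pool.Agent.K6.H24.KR.J10
import Pool.Agent.K6.H24.OP.H2
import Pool.Agent.Results.MP_6d896a_gt.OneSymmetric

/-!
# 1-symmetric log-concave densities conditioned on order relations
-/

namespace Pool.Agent.K6.H24.KR

open MeasureTheory Filter Topology ProbabilityTheory Pool.Agent.K6.H24.OP
open Pool.Agent.Results.MP_6d896a_gt.OneSymmetric (SymDensity)
open scoped InnerProductSpace ENNReal

set_option linter.unusedSectionVars false

lemma wd_map {α β : Type*} [MeasurableSpace α] [MeasurableSpace β] {μ : Measure α} {ν : Measure β}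
    {φ : α → β} (hφ : MeasurePreserving φ μ ν) {g : β → ℝ≥0∞} (hg : Measurable g) :
    Measure.map φ (μ.withDensity fun x => g (φ x)) = ν.withDensity g := by
  ext s hs
  rw [Measure.map_apply hφ.measurable hs, withDensity_apply _ (hs.preimage hφ.measurable),
    withDensity_apply _ hs, ← hφ.map_eq, setLIntegral_map hs hg hφ.measurable]

variable {n : ℕ}

lemma vol_perm (σ : Equiv.Perm (Fin n)) :
    MeasurePreserving (fun x : Fin n → ℝ => x ∘ σ) volume volume := by
  have h := volume_measurePreserving_piCongrLeft (fun _ : Fin n => ℝ) σ.symm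
  have e : (fun x : Fin n → ℝ => x ∘ σ)
      = (MeasurableEquiv.piCongrLeft (fun _ : Fin n => ℝ) σ.symm : (Fin n → ℝ) → Fin n → ℝ) := by
    funext x i
    have := MeasurableEquiv.piCongrLeft_apply_apply (σ.symm) (β := fun _ => ℝ) x (σ i)
    simp only [Equiv.symm_apply_apply] at this
    exact this.symm
  rw [e]
  exact h

lemma vol_flip {ε : Fin n → ℝ} (hε : ∀ i, ε i = 1 ∨ ε i = -1) :
    MeasurePreserving (flip ε) volume volume := by
  rw [volume_pi]
  refine measurePreserving_pi (fun _ => volume) (fun _ => volume) (f := fun i t => ε i * t) fun i => ?_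
  rcases hε i with h | h
  · simp only [h, one_mul]
    exact MeasurePreserving.id _
  · simp only [h, neg_mul, one_mul]
    exact Measure.measurePreserving_neg volume

lemma vol_hyper {L : (Fin n → ℝ) →ₗ[ℝ] ℝ} {v : Fin n → ℝ} (hv : L v ≠ 0) :
    (volume : Measure (Fin n → ℝ)) {x | L x = 0} = 0 := by
  have h := Measure.addHaar_submodule (volume : Measure (Fin n → ℝ)) (LinearMap.ker L) (by
    intro h
    apply hv
    have : v ∈ LinearMap.ker L := by rw [h]; trivial
    exact LinearMap.mem_ker.1 this)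
  exact h

lemma vol_ties {i j : Fin n} (hij : i ≠ j) :
    (volume : Measure (Fin n → ℝ)) {x | x i = x j} = 0 := by
  have h := vol_hyper (L := (LinearMap.proj i : (Fin n → ℝ) →ₗ[ℝ] ℝ) - LinearMap.proj j)
    (v := Pi.single i 1) (by simp [hij.symm])
  refine measure_mono_null (fun x hx => ?_) h
  have hx' : x i = x j := hx
  simp [hx']

lemma vol_zero (i : Fin n) :
    (volume : Measure (Fin n → ℝ)) {x | x i = 0} = 0 := by
  have h := vol_hyper (L := (LinearMap.proj i : (Fin n → ℝ) →ₗ[ℝ] ℝ))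
    (v := Pi.single i 1) (by simp)
  exact h

/-- the density on the cone -/
noncomputable def dc (ρ : Eu n → ℝ) (R : Fin n → Fin n → Prop) : Eu n → ℝ := (cone R).indicator ρ

/-- normalised law in coordinates -/
noncomputable def lw (ρ : Eu n → ℝ) : Measure (Fin n → ℝ) :=
  volume.withDensity fun x => ENNReal.ofReal ((∫ y, ρ y)⁻¹ * ρ (WithLp.toLp 2 x))

section

variable {ρ : Eu n → ℝ} (hρ : SymDensity ρ) (hpos : 0 < ∫ x, ρ x)
include hρ hpos

lemma rho_int : Integrable ρ := by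
  by_contra h
  rw [integral_undef h] at hpos
  exact lt_irrefl _ hpos

lemma lw_map : Measure.map (WithLp.toLp 2) (lw ρ)
    = (volume : Measure (Eu n)).withDensity (fun x => ENNReal.ofReal ((∫ y, ρ y)⁻¹ * ρ x)) := by
  unfold lw
  exact wd_map (PiLp.volume_preserving_toLp (Fin n))
    (g := fun x => ENNReal.ofReal ((∫ y, ρ y)⁻¹ * ρ x)) (hρ.meas.const_mul _).ennreal_ofReal

lemma wd_prob : IsProbabilityMeasure
    ((volume : Measure (Eu n)).withDensity (fun x => ENNReal.ofReal ((∫ y, ρ y)⁻¹ * ρ x))) := by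
  constructor
  rw [withDensity_apply _ MeasurableSet.univ, Measure.restrict_univ,
    ← ofReal_integral_eq_lintegral_ofReal ((rho_int hρ hpos).const_mul _)
      (Filter.Eventually.of_forall fun x => mul_nonneg (inv_nonneg.2 hpos.le) (hρ.nonneg x)),
    integral_const_mul, inv_mul_cancel₀ hpos.ne', ENNReal.ofReal_one]

lemma lw_prob : IsProbabilityMeasure (lw ρ) := by
  have h := wd_prob hρ hpos
  rw [← lw_map hρ hpos] at h
  constructor
  have h1 := h.measure_univ
  rwa [Measure.map_apply meas_toLp MeasurableSet.univ, Set.preimage_univ] at h1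

lemma lw_perm (σ : Equiv.Perm (Fin n)) :
    Measure.map (fun x : Fin n → ℝ => x ∘ σ) (lw ρ) = lw ρ := by
  have h := wd_map (vol_perm σ)
    (g := fun x => ENNReal.ofReal ((∫ y, ρ y)⁻¹ * ρ (WithLp.toLp 2 x)))
    ((hρ.meas.comp meas_toLp).const_mul _).ennreal_ofReal
  have e : ∀ x : Fin n → ℝ, ρ (WithLp.toLp 2 (x ∘ σ)) = ρ (WithLp.toLp 2 x) := fun x =>
    hρ.inv σ _ _ fun i => rfl
  simp only [e] at h
  exact h

lemma lw_flip (ε : Fin n → ℝ) (hε : ∀ i, ε i = 1 ∨ ε i = -1) :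
    Measure.map (flip ε) (lw ρ) = lw ρ := by
  have h := wd_map (vol_flip hε)
    (g := fun x => ENNReal.ofReal ((∫ y, ρ y)⁻¹ * ρ (WithLp.toLp 2 x)))
    ((hρ.meas.comp meas_toLp).const_mul _).ennreal_ofReal
  have e : ∀ x : Fin n → ℝ, ρ (WithLp.toLp 2 (flip ε x)) = ρ (WithLp.toLp 2 x) := fun x =>
    hρ.inv 1 _ _ fun i => by
      change |ε i * x i| = |x i|
      rw [abs_mul]
      rcases hε i with h | h <;> simp [h]
  simp only [e] at h
  exact h

lemma lw_ac : lw ρ ≪ (volume : Measure (Fin n → ℝ)) := withDensity_absolutelyContinuous _ _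

lemma lw_ties (i j : Fin n) (hij : i ≠ j) : lw ρ {x | x i = x j} = 0 :=
  lw_ac hρ hpos (vol_ties hij)

/-- the normalised density on the cone is the conditioned law -/
lemma nrm_dc {R : Fin n → Fin n → Prop} (hR : 0 < (lw ρ).real (cn R)) :
    nrm (dc ρ R) = ProbabilityTheory.cond (Measure.map (WithLp.toLp 2) (lw ρ)) (cone R) := by
  have hp := lw_prob hρ hpos
  have hcm := (closed_cone R).measurableSet
  set c := ENNReal.ofReal (∫ y, ρ y) with hc
  have hc0 : c ≠ 0 := by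
    rw [hc]; simpa using hpos
  have hct : c ≠ ⊤ := by rw [hc]; exact ENNReal.ofReal_ne_top
  have h0 : (volume : Measure (Eu n)).withDensity (fun x => ENNReal.ofReal (ρ x))
      = c • Measure.map (WithLp.toLp 2) (lw ρ) := by
    rw [lw_map hρ hpos, ← withDensity_smul _ (hρ.meas.const_mul _).ennreal_ofReal]
    congr 1
    funext x
    simp only [Pi.smul_apply, smul_eq_mul]
    rw [hc, ← ENNReal.ofReal_mul hpos.le, ← mul_assoc, mul_inv_cancel₀ hpos.ne', one_mul]
  have h1 : (volume : Measure (Eu n)).withDensity (fun x => ENNReal.ofReal (dc ρ R x)) =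
      c • (Measure.map (WithLp.toLp 2) (lw ρ)).restrict (cone R) := by
    have e : (fun x => ENNReal.ofReal (dc ρ R x)) =
        (cone R).indicator (fun x => ENNReal.ofReal (ρ x)) := by
      funext x
      unfold dc
      by_cases hx : x ∈ cone R
      · rw [Set.indicator_of_mem hx, Set.indicator_of_mem hx]
      · rw [Set.indicator_of_notMem hx, Set.indicator_of_notMem hx, ENNReal.ofReal_zero]
    rw [e, withDensity_indicator hcm, ← restrict_withDensity hcm, h0, Measure.restrict_smul]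
  have h2 : ∫⁻ x, ENNReal.ofReal (dc ρ R x)
      = c * Measure.map (WithLp.toLp 2) (lw ρ) (cone R) := by
    have : ∫⁻ x, ENNReal.ofReal (dc ρ R x) =
        (volume : Measure (Eu n)).withDensity (fun x => ENNReal.ofReal (dc ρ R x)) Set.univ := by
      rw [withDensity_apply _ MeasurableSet.univ, Measure.restrict_univ]
    rw [this, h1, Measure.smul_apply, Measure.restrict_apply_univ, smul_eq_mul]
  unfold nrm ProbabilityTheory.cond
  rw [h1, h2, smul_smul]
  congr 1
  rw [ENNReal.mul_inv (Or.inl hc0) (Or.inl hct), mul_comm, ← mul_assoc,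
    ENNReal.mul_inv_cancel hc0 hct, one_mul]

lemma scaled : SymDensity (fun x => (∫ y, ρ y)⁻¹ * ρ x) := by
  have hc : 0 ≤ (∫ y, ρ y)⁻¹ := inv_nonneg.2 hpos.le
  refine ⟨fun x => mul_nonneg hc (hρ.nonneg x), hρ.meas.const_mul _, ?_, ?_⟩
  · intro x y t h0 h1
    rw [Real.mul_rpow hc (hρ.nonneg x), Real.mul_rpow hc (hρ.nonneg y)]
    have h2 := hρ.logc x y t h0 h1
    have h3 : (∫ y, ρ y)⁻¹ ^ (1 - t) * (∫ y, ρ y)⁻¹ ^ t = (∫ y, ρ y)⁻¹ := by
      rw [← Real.rpow_add (inv_pos.2 hpos)]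
      simp
    calc (∫ y, ρ y)⁻¹ ^ (1 - t) * ρ x ^ (1 - t) * ((∫ y, ρ y)⁻¹ ^ t * ρ y ^ t)
        = ((∫ y, ρ y)⁻¹ ^ (1 - t) * (∫ y, ρ y)⁻¹ ^ t) * (ρ x ^ (1 - t) * ρ y ^ t) := by ring
      _ = (∫ y, ρ y)⁻¹ * (ρ x ^ (1 - t) * ρ y ^ t) := by rw [h3]
      _ ≤ _ := mul_le_mul_of_nonneg_left h2 hc
  · intro σ x y h
    rw [hρ.inv σ x y h]

end

/-- Poincare inequality in coordinates from the theorem on 1-symmetric laws -/
lemma PB_of {C : ℝ} (hC : 0 < C)
    (hone : ∀ n : ℕ, 1 ≤ n → ∀ ρ : EuclideanSpace ℝ (Fin n) → ℝ, SymDensity ρ →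
      ∀ μ : Measure (EuclideanSpace ℝ (Fin n)),
      μ = volume.withDensity (fun x => ENNReal.ofReal (ρ x)) → IsProbabilityMeasure μ →
      ∀ s : ℝ, 0 < s → (∀ i, ∫⁻ x, ENNReal.ofReal (x i ^ 2) ∂μ ≤ ENNReal.ofReal s) →
      ∀ f : EuclideanSpace ℝ (Fin n) → ℝ, ContDiff ℝ 1 f → MemLp f 2 μ →
      ENNReal.ofReal (ProbabilityTheory.variance f μ) ≤
        ENNReal.ofReal (C * s) * ∫⁻ x, ENNReal.ofReal (‖fderiv ℝ f x‖ ^ 2) ∂μ)
    (hn : 1 ≤ n) {ρ : Eu n → ℝ} (hρ : SymDensity ρ) (hpos : 0 < ∫ x, ρ x) {s : ℝ} (hs : 0 < s)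
    (hm : ∀ i, ∫⁻ x, ENNReal.ofReal (x i ^ 2) ∂(lw ρ) ≤ ENNReal.ofReal s) :
    PB (lw ρ) (C * s) := by
  intro f hf ⟨K1, hK1⟩ ⟨K2, hK2⟩
  have hp := lw_prob hρ hpos
  set ν := Measure.map (WithLp.toLp 2 : (Fin n → ℝ) → Eu n) (lw ρ) with hν
  have hνp : IsProbabilityMeasure ν := Measure.isProbabilityMeasure_map meas_toLp.aemeasurable
  set g : Eu n → ℝ := fun y => f (WithLp.ofLp y) with hg
  have hgc : ContDiff ℝ 1 g :=
    hf.comp (PiLp.continuousLinearEquiv 2 ℝ (fun _ : Fin n => ℝ)).contDiff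
  have hgf : (fun y : Fin n → ℝ => g (WithLp.toLp 2 y)) = f := rfl
  have hgm : MemLp g 2 ν := MemLp.of_bound hgc.continuous.aestronglyMeasurable K1
    (Filter.Eventually.of_forall fun x => by rw [Real.norm_eq_abs]; exact hK1 _)
  have hres := hone n hn _ (scaled hρ hpos) ν (lw_map hρ hpos) hνp s hs (by
    intro i
    rw [hν, lintegral_map (by fun_prop) meas_toLp]
    exact hm i) g hgc hgm
  have hgrad : ∀ x : Fin n → ℝ, gsq f x = ‖fderiv ℝ g (WithLp.toLp 2 x)‖ ^ 2 := by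
    intro x
    have := gsq_toLp hgc x
    rwa [hgf] at this
  have hb : ∀ y : Eu n, ‖fderiv ℝ g y‖ ^ 2 ≤ n * K2 ^ 2 := by
    intro y
    have h1 := hgrad (WithLp.ofLp y)
    rw [WithLp.toLp_ofLp] at h1
    rw [← h1]
    unfold gsq
    calc ∑ i, (fderiv ℝ f (WithLp.ofLp y) (Pi.single i 1)) ^ 2 ≤ ∑ _i : Fin n, K2 ^ 2 := by
          refine Finset.sum_le_sum fun i _ => ?_
          rw [← sq_abs]
          exact pow_le_pow_left₀ (abs_nonneg _) (hK2 _ i) 2
      _ = n * K2 ^ 2 := by simp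
  have hcg : Continuous fun y => ‖fderiv ℝ g y‖ ^ 2 :=
    ((hgc.continuous_fderiv one_ne_zero).norm).pow 2
  have hint : Integrable (fun y => ‖fderiv ℝ g y‖ ^ 2) ν :=
    Integrable.of_bound hcg.aestronglyMeasurable (n * K2 ^ 2)
      (Filter.Eventually.of_forall fun y => by
        rw [Real.norm_eq_abs, abs_of_nonneg (sq_nonneg _)]; exact hb y)
  rw [← ofReal_integral_eq_lintegral_ofReal hint
    (Filter.Eventually.of_forall fun y => sq_nonneg _), ← ENNReal.ofReal_mul (by positivity)] at hres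
  have h2 := (ENNReal.ofReal_le_ofReal_iff (by
    have : 0 ≤ ∫ y, ‖fderiv ℝ g y‖ ^ 2 ∂ν := integral_nonneg fun y => sq_nonneg _
    positivity)).1 hres
  have e1 : ∫ y, ‖fderiv ℝ g y‖ ^ 2 ∂ν = ∫ x, gsq f x ∂(lw ρ) := by
    rw [hν, int_toLp hcg]
    exact integral_congr_ae (Filter.Eventually.of_forall fun x => (hgrad x).symm)
  have hfm : MemLp f 2 (lw ρ) := MemLp.of_bound hf.continuous.aestronglyMeasurable K1
    (Filter.Eventually.of_forall fun x => by rw [Real.norm_eq_abs]; exact hK1 _)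
  have e2 : variance g ν = ∫ x, f x ^ 2 ∂(lw ρ) - (∫ x, f x ∂(lw ρ)) ^ 2 := by
    rw [hν, var_toLp hgc.continuous, hgf, variance_eq_sub hfm]
    rfl
  rw [e1, e2] at h2
  exact h2

/-- **KLS for 1-symmetric log-concave densities conditioned on order relations** -/
theorem one_symm : ∃ C : ℝ, 0 < C ∧ ∀ (n : ℕ) (R : Fin n → Fin n → Prop) (ρ : Eu n → ℝ), 1 ≤ n →
    Ext R → SymDensity ρ → 0 < ∫ x, ρ x →
    IsProbabilityMeasure (nrm (dc ρ R)) ∧
    ∀ s : ℝ, (∀ θ : Eu n, ‖θ‖ = 1 →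
      evariance (fun x => ⟪x, θ⟫_ℝ) (nrm (dc ρ R)) ≤ ENNReal.ofReal s) →
      PI (nrm (dc ρ R)) (C * s) := by
  obtain ⟨C, hC, hone⟩ := Pool.Agent.Results.MP_6d896a_gt.OneSymmetric.result
  refine ⟨C, hC, ?_⟩
  intro n R ρ hn hR hρ hpos
  have hp := lw_prob hρ hpos
  have hex := lw_perm hρ hpos
  have hties := lw_ties hρ hpos
  have hR' : 0 < (lw ρ).real (cn R) := cone_pos hex hR
  have hne : lw ρ (cn R) ≠ 0 := by
    intro h
    rw [Measure.real, h] at hR'
    simp at hR'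
  have hcp : IsProbabilityMeasure (ProbabilityTheory.cond (lw ρ) (cn R)) :=
    cond_isProbabilityMeasure hne
  have heq := nrm_dc hρ hpos hR'
  have hmap : nrm (dc ρ R)
      = Measure.map (WithLp.toLp 2) (ProbabilityTheory.cond (lw ρ) (cn R)) := by
    rw [heq, cond_map]
  have hprob : IsProbabilityMeasure (nrm (dc ρ R)) := by
    rw [hmap]; exact Measure.isProbabilityMeasure_map meas_toLp.aemeasurable
  refine ⟨hprob, fun s hs => ?_⟩
  have hn0 : (0:ℝ) < n := by exact_mod_cast hn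
  -- the diagonal direction
  have h1 := hs (diag n) (diag_norm hn)
  have e : (fun x : Eu n => ⟪x, diag n⟫_ℝ) = fun x : Eu n => (Real.sqrt n)⁻¹ * ∑ i, x i := by
    funext x
    unfold diag
    rw [PiLp.inner_apply, Finset.mul_sum]
    refine Finset.sum_congr rfl fun i _ => ?_
    simp
  rw [e] at h1
  have hcont : Continuous fun x : Eu n => (Real.sqrt n)⁻¹ * ∑ i, x i := by fun_prop
  have hL : MemLp (fun x : Eu n => (Real.sqrt n)⁻¹ * ∑ i, x i) 2 (nrm (dc ρ R)) :=
    (evariance_lt_top_iff_memLp hcont.aestronglyMeasurable).1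
      (lt_of_le_of_lt h1 ENNReal.ofReal_lt_top)
  rw [hmap, memLp_toLp_iff hcont] at hL
  have hsq : (0:ℝ) < Real.sqrt n := Real.sqrt_pos.2 hn0
  have hT : MemLp (ts : (Fin n → ℝ) → ℝ) 2 (ProbabilityTheory.cond (lw ρ) (cn R)) := by
    have := hL.const_mul (Real.sqrt n)
    refine this.congr_norm ts_cont.aestronglyMeasurable (Filter.Eventually.of_forall fun x => ?_)
    simp only [ts]
    rw [← mul_assoc, mul_inv_cancel₀ hsq.ne', one_mul]
  have hTμ : MemLp (ts : (Fin n → ℝ) → ℝ) 2 (lw ρ) :=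
    memLp_of_cond hex hties hR' ts_cont ts_symm hT
  have hvar : ∀ i, variance (fun x : Eu n => (Real.sqrt n)⁻¹ * ∑ i, x i) (nrm (dc ρ R))
      = ∫ x, x i ^ 2 ∂(lw ρ) := by
    intro i
    have a1 : variance (fun x : Fin n → ℝ => (Real.sqrt n)⁻¹ * ts x)
        (ProbabilityTheory.cond (lw ρ) (cn R)) = ∫ x, x i ^ 2 ∂(lw ρ) := by
      rw [variance_const_mul, var_cond hex hties hR' ts_symm hTμ,
        (sq_sum hex (lw_flip hρ hpos) hTμ i).2, inv_pow, Real.sq_sqrt hn0.le, ← mul_assoc,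
        inv_mul_cancel₀ hn0.ne', one_mul]
    rw [hmap, var_toLp hcont]
    exact a1
  have hle : variance (fun x : Eu n => (Real.sqrt n)⁻¹ * ∑ i, x i) (nrm (dc ρ R)) ≤ max s 0 := by
    unfold ProbabilityTheory.variance
    refine ENNReal.toReal_le_of_le_ofReal (le_max_right _ _) (h1.trans ?_)
    exact ENNReal.ofReal_le_ofReal (le_max_left _ _)
  have i0 : Fin n := ⟨0, hn⟩
  have hco : ∀ i, Integrable (fun x : Fin n → ℝ => x i ^ 2) (lw ρ) := fun i =>
    ((sq_sum hex (lw_flip hρ hpos) hTμ i).1).integrable_sq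
  have hposv : 0 < ∫ x, x i0 ^ 2 ∂(lw ρ) := by
    rw [integral_pos_iff_support_of_nonneg (fun x => sq_nonneg _) (hco i0)]
    have h2 : (lw ρ) {x | x i0 = 0} = 0 := lw_ac hρ hpos (vol_zero i0)
    have h3 : Function.support (fun x : Fin n → ℝ => x i0 ^ 2) = {x | x i0 = 0}ᶜ := by
      ext x; simp
    rw [h3, measure_compl (measurableSet_eq_fun (measurable_pi_apply i0) measurable_const)
      (measure_ne_top _ _), h2, measure_univ]
    simp
  have hs0 : 0 < s := by
    have := hvar i0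
    rw [← this] at hposv
    by_contra hc
    push Not at hc
    rw [max_eq_right hc] at hle
    linarith
  rw [max_eq_left hs0.le] at hle
  have hPB := PB_of hC hone hn hρ hpos hs0 (fun i => by
    rw [← ofReal_integral_eq_lintegral_ofReal (hco i)
      (Filter.Eventually.of_forall fun x => sq_nonneg _)]
    refine ENNReal.ofReal_le_ofReal ?_
    rw [← hvar i]; exact hle)
  rw [heq]
  exact PI_cond hn hex hties (by positivity) hPB hR'

end Pool.Agent.K6.H24.KR
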