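import Pool.Agent.K6.H24.KR.J1

/-!
# The gap of the chain with order constraints is at least the gap with one label
-/

namespace Pool.Agent.K6.H24.KR

open Finset Pool.Agent.K6.H24.OP

set_option linter.unusedSectionVars false
set_option linter.deprecated false

variable {ι : Type*} [Fintype ι] [DecidableEq ι] {m : ℕ} {R : ι → ι → Prop}
variable {Y : Type*} [Fintype Y] {w : Y → ℝ} {c : Y → Y → ℝ} {s : Y → Fin m → ℝ}

/-- the moves of one label -/
def sg (m : ℕ) : Fin m → Fin (m+1) → Fin (m+1) := fun a t => sw a t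

lemma sg_sg (a : Fin m) (t : Fin (m+1)) : sg m a (sg m a t) = t := sw_sw a t

lemma OO_eq {S A : Type*} [Fintype S] [Fintype A] (τ : A → S → S) (w : Y → ℝ) (c : Y → Y → ℝ)
    (s : Y → A → ℝ) (g : Y → S → ℝ) (y : Y) (x : S) :
    OO τ w c s g y x = (1 - (1 / w y) * (∑ y', c y y' + ∑ a, s y a)) * g y x
      + (1 / w y) * (∑ y', c y y' * g y' x + ∑ a, s y a * ((g y x + g y (τ a x)) / 2)) := by
  unfold OO
  have e1 : ∑ y', c y y' * (g y' x - g y x)
      = ∑ y', c y y' * g y' x - (∑ y', c y y') * g y x := by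
    rw [Finset.sum_mul, ← Finset.sum_sub_distrib]
    exact Finset.sum_congr rfl fun _ _ => by ring
  have e2 : ∑ a, s y a * ((g y x + g y (τ a x)) / 2 - g y x)
      = ∑ a, s y a * ((g y x + g y (τ a x)) / 2) - (∑ a, s y a) * g y x := by
    rw [Finset.sum_mul, ← Finset.sum_sub_distrib]
    exact Finset.sum_congr rfl fun _ _ => by ring
  rw [e1, e2]
  ring

lemma D_OO (ψ : Y → Fin (m+1) → ℝ) (y : Y) (x x' : ι → Fin (m+1)) :
    D (OO (sg m) w c s ψ y) x x' = (1 - (1 / w y) * (∑ y', c y y' + ∑ a, s y a)) * D (ψ y) x x'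
      + (1 / w y) * (∑ y', c y y' * D (ψ y') x x' + ∑ a, s y a * D (ea a (ψ y)) x x') := by
  unfold D
  have h : ∀ i, OO (sg m) w c s ψ y (max (x i) (x' i)) - OO (sg m) w c s ψ y (min (x i) (x' i))
      = (1 - (1 / w y) * (∑ y', c y y' + ∑ a, s y a))
          * (ψ y (max (x i) (x' i)) - ψ y (min (x i) (x' i)))
        + (1 / w y) * (∑ y', c y y' * (ψ y' (max (x i) (x' i)) - ψ y' (min (x i) (x' i)))
          + ∑ a, s y a * (ea a (ψ y) (max (x i) (x' i)) - ea a (ψ y) (min (x i) (x' i)))) := by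
    intro i
    rw [OO_eq, OO_eq]
    simp only [mul_sub, Finset.sum_sub_distrib]
    have e : ∀ t, ∑ a, s y a * ((ψ y t + ψ y (sg m a t)) / 2) = ∑ a, s y a * ea a (ψ y) t :=
      fun t => Finset.sum_congr rfl fun a _ => rfl
    rw [e, e]
    ring
  simp only [h, Finset.sum_add_distrib, ← Finset.mul_sum]
  congr 2
  congr 1
  · rw [Finset.sum_comm]
    exact Finset.sum_congr rfl fun y' _ => by rw [Finset.mul_sum]
  · rw [Finset.sum_comm]
    exact Finset.sum_congr rfl fun y' _ => by rw [Finset.mul_sum]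

lemma OO_mono (hw : ∀ y, 0 < w y) (hc0 : ∀ y y', 0 ≤ c y y') (hs0 : ∀ y a, 0 ≤ s y a)
    (hsub : ∀ y, ∑ y', c y y' + ∑ a, s y a ≤ w y)
    {ψ : Y → Fin (m+1) → ℝ} (hψ : ∀ y, Monotone (ψ y)) (y : Y) :
    Monotone (OO (sg m) w c s ψ y) := by
  intro t t' htt
  rw [OO_eq, OO_eq]
  have h1 : 0 ≤ 1 / w y := (one_div_pos.2 (hw y)).le
  have h2 : 0 ≤ 1 - (1 / w y) * (∑ y', c y y' + ∑ a, s y a) := by
    rw [sub_nonneg, one_div, inv_mul_le_iff₀ (hw y), mul_one]
    exact hsub y
  refine add_le_add (mul_le_mul_of_nonneg_left (hψ y htt) h2)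
    (mul_le_mul_of_nonneg_left (add_le_add ?_ ?_) h1)
  · exact Finset.sum_le_sum fun y' _ => mul_le_mul_of_nonneg_left (hψ y' htt) (hc0 y y')
  · refine Finset.sum_le_sum fun a _ => mul_le_mul_of_nonneg_left ?_ (hs0 y a)
    exact ea_mono a (hψ y) htt

lemma OO_lip (hw : ∀ y, 0 < w y) (hc0 : ∀ y y', 0 ≤ c y y') (hs0 : ∀ y a, 0 ≤ s y a)
    (hsub : ∀ y, ∑ y', c y y' + ∑ a, s y a ≤ w y)
    {ψ : Y → Fin (m+1) → ℝ} (hψ : ∀ y, Monotone (ψ y)) {f : Y → Cfg R m → ℝ}
    (hf : ∀ y, Lip (ψ y) (f y)) (y : Y) :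
    Lip (OO (sg m) w c s ψ y) (OO (tau (R := R)) w c s f y) := by
  intro x x'
  rw [OO_eq, OO_eq, D_OO]
  have h1 : 0 ≤ 1 / w y := (one_div_pos.2 (hw y)).le
  have h2 : 0 ≤ 1 - (1 / w y) * (∑ y', c y y' + ∑ a, s y a) := by
    rw [sub_nonneg, one_div, inv_mul_le_iff₀ (hw y), mul_one]
    exact hsub y
  set q := 1 - (1 / w y) * (∑ y', c y y' + ∑ a, s y a)
  have e : q * f y x + (1 / w y) * (∑ y', c y y' * f y' x
        + ∑ a, s y a * ((f y x + f y (tau a x)) / 2))
      - (q * f y x' + (1 / w y) * (∑ y', c y y' * f y' x'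
        + ∑ a, s y a * ((f y x' + f y (tau a x')) / 2)))
      = q * (f y x - f y x') + (1 / w y) * (∑ y', c y y' * (f y' x - f y' x')
        + ∑ a, s y a * (E a (f y) x - E a (f y) x')) := by
    simp only [mul_sub, Finset.sum_sub_distrib]
    have e' : ∀ t, ∑ a, s y a * ((f y t + f y (tau a t)) / 2) = ∑ a, s y a * E a (f y) t :=
      fun t => Finset.sum_congr rfl fun a _ => rfl
    rw [e', e']
    ring
  rw [e]
  refine (abs_add_le _ _).trans (add_le_add ?_ ?_)
  · rw [abs_mul, abs_of_nonneg h2]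
    exact mul_le_mul_of_nonneg_left (hf y x x') h2
  · rw [abs_mul, abs_of_nonneg h1]
    refine mul_le_mul_of_nonneg_left ?_ h1
    refine (abs_add_le _ _).trans (add_le_add ?_ ?_)
    · refine (Finset.abs_sum_le_sum_abs _ _).trans (Finset.sum_le_sum fun y' _ => ?_)
      rw [abs_mul, abs_of_nonneg (hc0 y y')]
      exact mul_le_mul_of_nonneg_left (hf y' x x') (hc0 y y')
    · refine (Finset.abs_sum_le_sum_abs _ _).trans (Finset.sum_le_sum fun a _ => ?_)
      rw [abs_mul, abs_of_nonneg (hs0 y a)]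
      exact mul_le_mul_of_nonneg_left (lip_E a (hψ y) (hf y) x x') (hs0 y a)

lemma iter_lip (hw : ∀ y, 0 < w y) (hc0 : ∀ y y', 0 ≤ c y y') (hs0 : ∀ y a, 0 ≤ s y a)
    (hsub : ∀ y, ∑ y', c y y' + ∑ a, s y a ≤ w y)
    {ψ : Y → Fin (m+1) → ℝ} (hψ : ∀ y, Monotone (ψ y)) {f : Y → Cfg R m → ℝ}
    (hf : ∀ y, Lip (ψ y) (f y)) (k : ℕ) :
    (∀ y, Monotone ((OO (sg m) w c s)^[k] ψ y)) ∧
      ∀ y, Lip ((OO (sg m) w c s)^[k] ψ y) ((OO (tau (R := R)) w c s)^[k] f y) := by
  induction k with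
  | zero => exact ⟨hψ, hf⟩
  | succ k ih =>
    rw [Function.iterate_succ_apply', Function.iterate_succ_apply']
    exact ⟨OO_mono hw hc0 hs0 hsub ih.1, OO_lip hw hc0 hs0 hsub ih.1 ih.2⟩

lemma iter_smul_const (K : ℝ) (cst : ℝ) (ψ : Y → Fin (m+1) → ℝ) (k : ℕ) :
    (OO (sg m) w c s)^[k] (fun y t => K * (ψ y t + cst))
      = fun y t => K * ((OO (sg m) w c s)^[k] ψ y t + cst) := by
  induction k with
  | zero => rfl
  | succ k ih =>
    rw [Function.iterate_succ_apply', ih, OO_smul, OO_add_const, Function.iterate_succ_apply']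

/-- The sums over the configurations follow the chain with one label. -/
lemma sum_cfg (f : Y → Cfg R m → ℝ) :
    (fun (y : Y) (_ : Fin (m+1)) => ∑ x, OO (tau (R := R)) w c s f y x)
      = OO (sg m) w c s (fun y _ => ∑ x, f y x) := by
  funext y t
  unfold OO
  rw [Finset.sum_add_distrib, ← Finset.mul_sum, Finset.sum_add_distrib]
  congr 2
  congr 1
  · rw [Finset.sum_comm]
    refine Finset.sum_congr rfl fun y' _ => ?_
    rw [← Finset.mul_sum, Finset.sum_sub_distrib]
  · rw [Finset.sum_comm]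
    have : ∀ a, ∑ x, s y a * ((f y x + f y (tau a x)) / 2 - f y x) = 0 := by
      intro a
      rw [← Finset.mul_sum, Finset.sum_sub_distrib, ← Finset.sum_div, Finset.sum_add_distrib,
        sum_tau a (f y)]
      ring
    simp only [this]
    simp

lemma iter_sum_cfg (f : Y → Cfg R m → ℝ) (k : ℕ) :
    (fun (y : Y) (_ : Fin (m+1)) => ∑ x, (OO (tau (R := R)) w c s)^[k] f y x)
      = (OO (sg m) w c s)^[k] (fun y _ => ∑ x, f y x) := by
  induction k with
  | zero => rfl
  | succ k ih =>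
    rw [Function.iterate_succ_apply', Function.iterate_succ_apply', ← ih, sum_cfg]

lemma form_le_ip {S A : Type*} [Fintype S] [Fintype A] {τ : A → S → S}
    (hτ : ∀ a x, τ a (τ a x) = x) {s : Y → A → ℝ} (hc : ∀ y y', c y y' = c y' y)
    (hc0 : ∀ y y', 0 ≤ c y y') (hs0 : ∀ y a, 0 ≤ s y a)
    (hsub : ∀ y, ∑ y', c y y' + ∑ a, s y a ≤ w y / 2) (g : Y → S → ℝ) :
    fY c g g + fS τ s g g ≤ ip w g g := by
  have h1 : fY c g g ≤ 2 * ∑ y, (∑ y', c y y') * ∑ x, g y x * g y x := by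
    unfold fY
    have a1 : ∑ y, ∑ y', c y y' * ∑ x, (g y' x - g y x) * (g y' x - g y x)
        ≤ ∑ y, ∑ y', c y y' * (2 * ∑ x, g y' x * g y' x + 2 * ∑ x, g y x * g y x) := by
      refine Finset.sum_le_sum fun y _ => Finset.sum_le_sum fun y' _ =>
        mul_le_mul_of_nonneg_left ?_ (hc0 y y')
      rw [Finset.mul_sum, Finset.mul_sum, ← Finset.sum_add_distrib]
      exact Finset.sum_le_sum fun x _ => by nlinarith [sq_nonneg (g y' x + g y x)]
    have a2 : ∑ y, ∑ y', c y y' * (2 * ∑ x, g y' x * g y' x + 2 * ∑ x, g y x * g y x)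
        = 4 * ∑ y, (∑ y', c y y') * ∑ x, g y x * g y x := by
      have b1 : ∑ y, ∑ y', c y y' * (2 * ∑ x, g y' x * g y' x + 2 * ∑ x, g y x * g y x)
          = ∑ y, ∑ y', c y y' * (2 * ∑ x, g y' x * g y' x)
            + ∑ y, ∑ y', c y y' * (2 * ∑ x, g y x * g y x) := by
        rw [← Finset.sum_add_distrib]
        refine Finset.sum_congr rfl fun y _ => ?_
        rw [← Finset.sum_add_distrib]
        exact Finset.sum_congr rfl fun y' _ => by ring
      have b2 : ∑ y, ∑ y', c y y' * (2 * ∑ x, g y' x * g y' x)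
          = ∑ y, ∑ y', c y y' * (2 * ∑ x, g y x * g y x) := by
        rw [Finset.sum_comm]
        exact Finset.sum_congr rfl fun y _ => Finset.sum_congr rfl fun y' _ => by rw [hc]
      have b3 : ∑ y, ∑ y', c y y' * (2 * ∑ x, g y x * g y x)
          = 2 * ∑ y, (∑ y', c y y') * ∑ x, g y x * g y x := by
        rw [Finset.mul_sum]
        refine Finset.sum_congr rfl fun y _ => ?_
        rw [← Finset.sum_mul]; ring
      rw [b1, b2, b3]; ring
    linarith
  have h2 : fS τ s g g ≤ ∑ y, (∑ a, s y a) * ∑ x, g y x * g y x := by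
    unfold fS
    rw [Finset.mul_sum]
    refine Finset.sum_le_sum fun y _ => ?_
    rw [Finset.mul_sum, Finset.sum_mul]
    refine Finset.sum_le_sum fun a _ => ?_
    have e1 : ∑ x, g y (τ a x) * g y (τ a x) = ∑ x, g y x * g y x :=
      sum_inv hτ a (fun x => g y x * g y x)
    have e2 : ∑ x, (g y (τ a x) - g y x) * (g y (τ a x) - g y x) ≤ 4 * ∑ x, g y x * g y x := by
      calc _ ≤ ∑ x, (2 * (g y (τ a x) * g y (τ a x)) + 2 * (g y x * g y x)) :=
            Finset.sum_le_sum fun x _ => by nlinarith [sq_nonneg (g y (τ a x) + g y x)]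
        _ = _ := by rw [Finset.sum_add_distrib, ← Finset.mul_sum, ← Finset.mul_sum, e1]; ring
    have e3 := mul_le_mul_of_nonneg_left e2 (hs0 y a)
    linarith
  have h3 : 2 * ∑ y, (∑ y', c y y') * ∑ x, g y x * g y x + ∑ y, (∑ a, s y a) * ∑ x, g y x * g y x
      ≤ ip w g g := by
    unfold ip
    rw [Finset.mul_sum, ← Finset.sum_add_distrib]
    refine Finset.sum_le_sum fun y _ => ?_
    have n1 : 0 ≤ ∑ x, g y x * g y x := Finset.sum_nonneg fun x _ => mul_self_nonneg _
    have n2 : 0 ≤ ∑ a, s y a := Finset.sum_nonneg fun a _ => hs0 y a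
    have := hsub y
    have h4 : 2 * (∑ y', c y y') + ∑ a, s y a ≤ w y := by linarith
    calc _ = (2 * (∑ y', c y y') + ∑ a, s y a) * ∑ x, g y x * g y x := by ring
      _ ≤ _ := mul_le_mul_of_nonneg_right h4 n1
  linarith

lemma ip_cs {S : Type*} [Fintype S] (hw : ∀ y, 0 < w y) (g h : Y → S → ℝ) :
    (ip w g h) ^ 2 ≤ ip w g g * ip w h h := by
  apply cs_of_nonneg
  intro t
  have h1 : 0 ≤ ip w (fun y x => g y x + t * h y x) (fun y x => g y x + t * h y x) :=
    Finset.sum_nonneg fun y _ => mul_nonneg (hw y).le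
      (Finset.sum_nonneg fun x _ => mul_self_nonneg _)
  refine h1.trans (le_of_eq ?_)
  have e : ip w (fun y x => g y x + t * h y x) (fun y x => g y x + t * h y x)
      = ip w g g + 2 * t * ip w g h + t ^ 2 * ip w h h := by
    unfold ip
    simp only [Finset.mul_sum, ← Finset.sum_add_distrib]
    exact Finset.sum_congr rfl fun y _ => Finset.sum_congr rfl fun x _ => by ring
  rw [e]

lemma exists_lip' {ψ : Fin (m+1) → ℝ} (hψ : StrictMono ψ) (f : Y → Cfg R m → ℝ) :
    ∃ K : ℝ, 0 ≤ K ∧ ∀ y, Lip (fun t => K * ψ t) (f y) := by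
  choose K hK0 hK using fun y => exists_lip (R := R) hψ (f y)
  refine ⟨∑ y, K y, Finset.sum_nonneg fun y _ => hK0 y, fun y x x' => ?_⟩
  have hD : ∀ k : ℝ, D (fun t => k * ψ t) x.1 x'.1 = k * D ψ x.1 x'.1 := by
    intro k
    unfold D
    rw [Finset.mul_sum]
    exact Finset.sum_congr rfl fun i _ => by ring
  refine (hK y x x').trans ?_
  rw [hD, hD]
  exact mul_le_mul_of_nonneg_right (Finset.single_le_sum (fun z _ => hK0 z) (Finset.mem_univ y))
    (D_nonneg hψ.monotone _ _)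

/-- The gap when the step is already small. -/
theorem gap_small (hw : ∀ y, 0 < w y) (hc : ∀ y y', c y y' = c y' y)
    (hc0 : ∀ y y', 0 ≤ c y y') (hs0 : ∀ y a, 0 ≤ s y a)
    (hsub : ∀ y, ∑ y', c y y' + ∑ a, s y a ≤ w y / 2) {lam : ℝ} (hlam : lam ≤ 1)
    (hone : ∀ g : Y → Fin (m+1) → ℝ, ∑ y, w y * ∑ t, g y t = 0 →
      lam * ip w g g ≤ fY c g g + fS (sg m) s g g)
    (f : Y → Cfg R m → ℝ) (hf : ∑ y, w y * ∑ x, f y x = 0) :
    lam * ip w f f ≤ fY c f f + fS (tau (R := R)) s f f := by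
  have hsub' : ∀ y, ∑ y', c y y' + ∑ a, s y a ≤ w y := fun y => by
    have := hsub y; have := hw y; linarith
  have hpsd := fun g : Y → Fin (m+1) → ℝ => form_le_ip (sg_sg (m := m)) hc hc0 hs0 hsub g
  have hθ : 0 ≤ 1 - lam := by linarith
  set θ := 1 - lam with hθdef
  -- the strictly monotone function
  set n : ℝ := (m:ℝ) + 1 with hn
  have hn0 : 0 < n := by positivity
  set c₀ : ℝ := (∑ t : Fin (m+1), (t.val : ℝ)) / n with hc₀
  set g : Fin (m+1) → ℝ := fun t => (t.val : ℝ) - c₀ with hg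
  have hgsum : ∑ t, g t = 0 := by
    rw [hg]
    simp only [Finset.sum_sub_distrib, Finset.sum_const, Finset.card_univ, Fintype.card_fin,
      nsmul_eq_mul]
    rw [hc₀, hn]
    push_cast
    field_simp
    ring
  have hmono : StrictMono g := by
    intro s t hst
    rw [hg]
    have : ((s.val : ℕ) : ℝ) < t.val := by exact_mod_cast hst
    simp only
    linarith
  obtain ⟨K, hK0, hKL⟩ := exists_lip' (R := R) hmono f
  obtain ⟨B1, hB10, hB1⟩ := iter_pt (sg_sg (m := m)) hw hc hpsd hlam hone (fun _ => g)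
    (by simp only [hgsum, mul_zero, Finset.sum_const_zero])
  have hfm : ∑ y, w y * ∑ _t : Fin (m+1), ∑ x, f y x = 0 := by
    simp only [Finset.sum_const, Finset.card_univ, Fintype.card_fin, nsmul_eq_mul]
    have : ∑ y, w y * (((m+1 : ℕ) : ℝ) * ∑ x, f y x) = ((m+1 : ℕ) : ℝ) * ∑ y, w y * ∑ x, f y x := by
      rw [Finset.mul_sum]; exact Finset.sum_congr rfl fun y _ => by ring
    rw [this, hf, mul_zero]
  obtain ⟨B2, hB20, hB2⟩ := iter_pt (sg_sg (m := m)) hw hc hpsd hlam hone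
    (fun y _ => ∑ x, f y x) hfm
  set F : ℕ → Y → Cfg R m → ℝ := fun k => (OO (tau (R := R)) w c s)^[k] f with hF
  have hF0 : F 0 = f := rfl
  have hFs : ∀ k, F (k+1) = OO (tau (R := R)) w c s (F k) := fun k => by
    simp only [hF]; rw [Function.iterate_succ_apply']
  set N : ℕ → ℝ := fun k => ip w (F k) (F k) with hN
  have hNnn : ∀ k, 0 ≤ N k := fun k => Finset.sum_nonneg fun y _ => mul_nonneg (hw y).le
      (Finset.sum_nonneg fun x _ => mul_self_nonneg _)
  have hlc : ∀ k, N (k+1) ^ 2 ≤ N k * N (k+2) := by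
    intro k
    have h1 : N (k+1) = ip w (F k) (F (k+2)) := by
      simp only [hN]
      have := OO_symm (τ := tau (R := R)) (s := s) tau_tau hw hc (F k) (F (k+1))
      rw [← hFs, ← hFs] at this
      exact this
    rw [h1]
    exact ip_cs hw _ _
  have hbd : ∀ k y x, |F k y x| ≤ (Fintype.card ι * (K * (2 * B1)) + B2) * θ ^ k := by
    intro k y x
    obtain ⟨h1, h2⟩ := iter_lip (R := R) hw hc0 hs0 hsub'
      (ψ := fun _ t => K * (g t + 0))
      (fun _ t t' h => by
        simp only [add_zero]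
        exact mul_le_mul_of_nonneg_left (hmono.monotone h) hK0)
      (f := f) (by simpa using hKL) k
    have h3 : ∀ x', |F k y x - F k y x'| ≤ Fintype.card ι * (K * (2 * B1)) * θ ^ k := by
      intro x'
      refine (h2 y x x').trans ((D_le_card (h1 y) _ _).trans ?_)
      rw [iter_smul_const K 0 (fun _ => g) k]
      simp only [add_zero]
      have b1 := hB1 k y (Fin.last m)
      have b2 := hB1 k y 0
      rw [abs_le] at b1 b2
      have b3 : K * (OO (sg m) w c s)^[k] (fun _ => g) y (Fin.last m)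
          - K * (OO (sg m) w c s)^[k] (fun _ => g) y 0 ≤ K * (2 * B1 * θ ^ k) := by
        rw [← mul_sub]
        exact mul_le_mul_of_nonneg_left (by linarith [b1.2, b2.1]) hK0
      calc _ ≤ (Fintype.card ι : ℝ) * (K * (2 * B1 * θ ^ k)) :=
            mul_le_mul_of_nonneg_left b3 (by positivity)
        _ = _ := by ring
    have hsum : |∑ x', F k y x'| ≤ B2 * θ ^ k := by
      have h4 := hB2 k y 0
      rw [← iter_sum_cfg (R := R) (w := w) (c := c) (s := s) f k] at h4
      exact h4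
    have hcard : 1 ≤ (Fintype.card (Cfg R m) : ℝ) := by
      have : 0 < Fintype.card (Cfg R m) := Fintype.card_pos_iff.2 ⟨x⟩
      exact_mod_cast this
    have h5 : (Fintype.card (Cfg R m) : ℝ) * F k y x
        = ∑ x', (F k y x - F k y x') + ∑ x', F k y x' := by
      rw [Finset.sum_sub_distrib]; simp
    have h6 : |(Fintype.card (Cfg R m) : ℝ) * F k y x|
        ≤ Fintype.card (Cfg R m) * (Fintype.card ι * (K * (2 * B1)) * θ ^ k) + B2 * θ ^ k := by
      rw [h5]
      refine (abs_add_le _ _).trans (add_le_add ?_ hsum)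
      refine (Finset.abs_sum_le_sum_abs _ _).trans ?_
      calc ∑ x', |F k y x - F k y x'|
          ≤ ∑ _x' : Cfg R m, Fintype.card ι * (K * (2 * B1)) * θ ^ k :=
            Finset.sum_le_sum fun x' _ => h3 x'
        _ = _ := by simp
    rw [abs_mul, abs_of_pos (by linarith : (0:ℝ) < Fintype.card (Cfg R m))] at h6
    have h7 : 0 ≤ B2 * θ ^ k := mul_nonneg hB20 (pow_nonneg hθ k)
    have h8 : (Fintype.card (Cfg R m) : ℝ) * |F k y x|
        ≤ Fintype.card (Cfg R m) * ((Fintype.card ι * (K * (2 * B1)) + B2) * θ ^ k) := by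
      refine h6.trans ?_
      rw [add_mul, mul_add]
      refine add_le_add le_rfl ?_
      nlinarith
    exact le_of_mul_le_mul_left h8 (by linarith)
  set M := (Fintype.card ι * (K * (2 * B1)) + B2) with hM
  have hNk : ∀ k, N k ≤ ((∑ y, w y) * (Fintype.card (Cfg R m) * M ^ 2)) * (θ ^ 2) ^ k := by
    intro k
    calc N k ≤ ∑ y, w y * ∑ _x : Cfg R m, (M * θ ^ k) ^ 2 := by
          refine Finset.sum_le_sum fun y _ => mul_le_mul_of_nonneg_left ?_ (hw y).le
          refine Finset.sum_le_sum fun x _ => ?_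
          rw [← sq, ← sq_abs]
          exact pow_le_pow_left₀ (abs_nonneg _) (hbd k y x) 2
      _ = _ := by
          simp only [Finset.sum_const, Finset.card_univ, nsmul_eq_mul]
          rw [← Finset.sum_mul]
          ring
  have hratio : N 1 ≤ θ ^ 2 * N 0 := logconvex_ratio hNnn (sq_nonneg θ) hlc hNk
  have hin : ip w f (F 1) ≤ θ * N 0 := by
    have h7 : (ip w f (F 1)) ^ 2 ≤ (θ * N 0) ^ 2 := by
      calc _ ≤ N 0 * N 1 := ip_cs hw _ _
        _ ≤ N 0 * (θ ^ 2 * N 0) := mul_le_mul_of_nonneg_left hratio (hNnn 0)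
        _ = (θ * N 0) ^ 2 := by ring
    exact (abs_le_of_sq_le_sq' h7 (mul_nonneg hθ (hNnn 0))).2
  have hfin : ip w f (F 1) = ip w f f - fY c f f - fS (tau (R := R)) s f f := by
    have e1 : F 1 = OO (tau (R := R)) w c s f := hFs 0
    rw [e1, ip_comm, OO_form tau_tau hw hc]
  have hN0 : N 0 = ip w f f := rfl
  rw [hfin, hN0] at hin
  have : θ * ip w f f = ip w f f - lam * ip w f f := by rw [hθdef]; ring
  linarith

/-- **The gap with order constraints is at least the gap with one label.** -/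
theorem gap_chain (hw : ∀ y, 0 < w y) (hc : ∀ y y', c y y' = c y' y)
    (hc0 : ∀ y y', 0 ≤ c y y') (hs0 : ∀ y a, 0 ≤ s y a) {lam : ℝ} (hlam : 0 ≤ lam)
    (hone : ∀ g : Y → Fin (m+1) → ℝ, ∑ y, w y * ∑ t, g y t = 0 →
      lam * ip w g g ≤ fY c g g + fS (sg m) s g g)
    (f : Y → Cfg R m → ℝ) (hf : ∑ y, w y * ∑ x, f y x = 0) :
    lam * ip w f f ≤ fY c f f + fS (tau (R := R)) s f f := by
  have hT : ∀ y, 0 ≤ ∑ y', c y y' + ∑ a, s y a := fun y =>
    add_nonneg (Finset.sum_nonneg fun y' _ => hc0 y y') (Finset.sum_nonneg fun a _ => hs0 y a)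
  have hT2 : 0 ≤ ∑ y, 2 * (∑ y', c y y' + ∑ a, s y a) / w y :=
    Finset.sum_nonneg fun y _ => div_nonneg (mul_nonneg (by norm_num) (hT y)) (hw y).le
  set κ : ℝ := 1 / (1 + lam + ∑ y, 2 * (∑ y', c y y' + ∑ a, s y a) / w y) with hκ
  have hden : 0 < 1 + lam + ∑ y, 2 * (∑ y', c y y' + ∑ a, s y a) / w y := by linarith
  have hκ0 : 0 < κ := by rw [hκ]; positivity
  have hκ1 : κ * (1 + lam + ∑ y, 2 * (∑ y', c y y' + ∑ a, s y a) / w y) = 1 := by
    rw [hκ]; field_simp
  have hκl : κ * lam ≤ 1 := by nlinarith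
  have hκT : ∀ y, κ * (∑ y', c y y' + ∑ a, s y a) ≤ w y / 2 := by
    intro y
    have h1 : 2 * (∑ y', c y y' + ∑ a, s y a) / w y
        ≤ ∑ y, 2 * (∑ y', c y y' + ∑ a, s y a) / w y :=
      Finset.single_le_sum (f := fun y => 2 * (∑ y', c y y' + ∑ a, s y a) / w y)
        (fun y _ => div_nonneg (mul_nonneg (by norm_num) (hT y)) (hw y).le) (Finset.mem_univ y)
    have h2 : κ * (2 * (∑ y', c y y' + ∑ a, s y a) / w y) ≤ 1 := by nlinarith
    rw [← mul_div_assoc, div_le_one (hw y)] at h2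
    linarith
  have key := gap_small (R := R) (w := w) (c := fun y y' => κ * c y y')
    (s := fun y a => κ * s y a) hw (fun y y' => by rw [hc]) (fun y y' => mul_nonneg hκ0.le (hc0 y y'))
    (fun y a => mul_nonneg hκ0.le (hs0 y a))
    (fun y => by rw [← Finset.mul_sum, ← Finset.mul_sum, ← mul_add]; exact hκT y) hκl
    (fun g hg => by
      have h1 := hone g hg
      have e1 : fY (fun y y' => κ * c y y') g g = κ * fY c g g := by
        unfold fY
        simp only [mul_assoc, ← Finset.mul_sum]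
        ring
      have e2 : fS (sg m) (fun y a => κ * s y a) g g = κ * fS (sg m) s g g := by
        unfold fS
        simp only [mul_assoc, ← Finset.mul_sum]
        ring
      rw [e1, e2]
      nlinarith [mul_le_mul_of_nonneg_left h1 hκ0.le]) f hf
  have e1 : fY (fun y y' => κ * c y y') f f = κ * fY c f f := by
    unfold fY
    simp only [mul_assoc, ← Finset.mul_sum]
    ring
  have e2 : fS (tau (R := R)) (fun y a => κ * s y a) f f = κ * fS (tau (R := R)) s f f := by
    unfold fS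
    simp only [mul_assoc, ← Finset.mul_sum]
    ring
  rw [e1, e2] at key
  have h2 : κ * (lam * ip w f f) ≤ κ * (fY c f f + fS (tau (R := R)) s f f) := by linarith
  exact le_of_mul_le_mul_left h2 hκ0

end Pool.Agent.K6.H24.KR
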