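import Pool.Agent.K6.H24.KR.J2
import Pool.Agent.K6.H24.KR.Defs

/-!
# The chain on sorted grid points with labels
-/

namespace Pool.Agent.K6.H24.KR

open Finset Pool.Agent.K6.H24.OP

set_option linter.unusedSectionVars false
set_option linter.deprecated false

variable {m N : ℕ}

/-- the neighbour in direction `i` (the point itself at the boundary of the grid) -/
def up {n N : ℕ} (b : Fin n → Fin (N+1)) (i : Fin n) : Fin n → Fin (N+1) :=
  if h : (b i).val + 1 < N + 1 then Function.update b i ⟨(b i).val + 1, h⟩ else b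

lemma dif_eq {n N : ℕ} (F : (Fin n → Fin (N+1)) → ℝ) (i : Fin n) (b : Fin n → Fin (N+1)) :
    dif F i b = F (up b i) - F b := by
  unfold dif up
  by_cases h : (b i).val + 1 < N + 1
  · rw [dif_pos h, dif_pos h]
  · rw [dif_neg h, dif_neg h, sub_self]

lemma up_comp {n N : ℕ} (b : Fin n → Fin (N+1)) (z : Equiv.Perm (Fin n)) (i : Fin n) :
    up (b ∘ z) i = up b (z i) ∘ z := by
  unfold up
  by_cases h : (b (z i)).val + 1 < N + 1
  · have h' : ((b ∘ z) i).val + 1 < N + 1 := h
    rw [dif_pos h, dif_pos h']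
    funext j
    by_cases hj : j = i
    · subst hj; simp
    · have : z j ≠ z i := fun hc => hj (z.injective hc)
      simp [Function.update_of_ne hj, Function.update_of_ne this]
  · have h' : ¬ ((b ∘ z) i).val + 1 < N + 1 := h
    rw [dif_neg h, dif_neg h']

/-- the sorted grid points -/
abbrev Srt (m N : ℕ) : Type := {y : Fin (m+1) → Fin (N+1) // Monotone y}

noncomputable instance (m N : ℕ) : Fintype (Srt m N) := by
  classical
  exact inferInstance

open Classical in
/-- indicator that `z` sorts `x` -/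
noncomputable def is (x : Fin (m+1) → Fin (N+1)) (z : Equiv.Perm (Fin (m+1))) : ℝ :=
  if Monotone (x ∘ z.symm) then 1 else 0

lemma is_nonneg (x : Fin (m+1) → Fin (N+1)) (z : Equiv.Perm (Fin (m+1))) : 0 ≤ is x z := by
  unfold is; split_ifs <;> norm_num

lemma is_comp (x : Fin (m+1) → Fin (N+1)) (σ z : Equiv.Perm (Fin (m+1))) :
    is (x ∘ σ) z = is x (z * σ⁻¹) := by
  unfold is
  have : (x ∘ σ) ∘ z.symm = x ∘ (z * σ⁻¹).symm := by
    funext j
    rfl
  rw [this]

/-- number of permutations which sort `x` -/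
noncomputable def SS (x : Fin (m+1) → Fin (N+1)) : ℝ := ∑ z : Equiv.Perm (Fin (m+1)), is x z

/-- number of permutations which sort `x` and its neighbour -/
noncomputable def SE (x : Fin (m+1) → Fin (N+1)) (i : Fin (m+1)) : ℝ :=
  ∑ z : Equiv.Perm (Fin (m+1)), is x z * is (up x i) z

lemma SS_comp (x : Fin (m+1) → Fin (N+1)) (σ : Equiv.Perm (Fin (m+1))) : SS (x ∘ σ) = SS x := by
  unfold SS
  simp only [is_comp]
  exact Equiv.sum_comp (Equiv.mulRight σ⁻¹) (fun z => is x z)

lemma SE_comp (x : Fin (m+1) → Fin (N+1)) (σ : Equiv.Perm (Fin (m+1))) (i : Fin (m+1)) :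
    SE (x ∘ σ) i = SE x (σ i) := by
  unfold SE
  simp only [up_comp, is_comp]
  exact Equiv.sum_comp (Equiv.mulRight σ⁻¹) (fun z => is x z * is (up x (σ i)) z)

lemma is_one {x : Fin (m+1) → Fin (N+1)} {z : Equiv.Perm (Fin (m+1))}
    (h : Monotone (x ∘ z.symm)) : is x z = 1 := by unfold is; rw [if_pos h]

lemma SS_pos (x : Fin (m+1) → Fin (N+1)) : 0 < SS x := by
  have h1 : is x (Tuple.sort x).symm = 1 := is_one (by
    rw [Equiv.symm_symm]; exact Tuple.monotone_sort x)
  have h2 : is x (Tuple.sort x).symm ≤ SS x :=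
    Finset.single_le_sum (f := fun z => is x z) (fun z _ => is_nonneg x z) (Finset.mem_univ _)
  linarith

lemma SE_pos (x : Fin (m+1) → Fin (N+1)) (i : Fin (m+1)) : 0 < SE x i := by
  let k : Fin (m+1) → ℕ := fun j => 2 * (x j).val + if j = i then 1 else 0
  have hk := Tuple.monotone_sort k
  set σ := Tuple.sort k with hσ
  have h1 : is x σ.symm = 1 := is_one (by
    rw [Equiv.symm_symm]
    intro a b hab
    have := hk hab
    simp only [Function.comp, k] at this ⊢
    rw [Fin.le_def]
    split_ifs at this <;> omega)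
  have h2 : is (up x i) σ.symm = 1 := is_one (by
    rw [Equiv.symm_symm]
    by_cases h : (x i).val + 1 < N + 1
    · have e : ∀ j, (up x i j).val = (x j).val + if j = i then 1 else 0 := by
        intro j
        unfold up
        rw [dif_pos h]
        by_cases hj : j = i
        · subst hj; simp
        · simp [hj]
      intro a b hab
      have := hk hab
      simp only [Function.comp, k] at this ⊢
      rw [Fin.le_def, e, e]
      split_ifs at this ⊢ <;> omega
    · have e : up x i = x := by unfold up; rw [dif_neg h]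
      rw [e]
      intro a b hab
      have := hk hab
      simp only [Function.comp, k] at this ⊢
      rw [Fin.le_def]
      split_ifs at this <;> omega)
  have h3 : is x σ.symm * is (up x i) σ.symm ≤ SE x i :=
    Finset.single_le_sum (f := fun z => is x z * is (up x i) z)
      (fun z _ => mul_nonneg (is_nonneg x z) (is_nonneg _ z)) (Finset.mem_univ _)
  rw [h1, h2] at h3
  linarith

/-- sums over the sorted points, composed with `z` -/
lemma sum_srt (z : Equiv.Perm (Fin (m+1))) (h : (Fin (m+1) → Fin (N+1)) → ℝ) :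
    ∑ y : Srt m N, h (y.1 ∘ z) = ∑ x, is x z * h x := by
  classical
  have e1 : ∑ x, is x z * h x
      = ∑ x : Fin (m+1) → Fin (N+1), is (x ∘ z) z * h (x ∘ z) :=
    (Equiv.sum_comp (Equiv.arrowCongr z.symm (Equiv.refl (Fin (N+1))))
      (fun x => is x z * h x)).symm
  have e2 : ∀ x : Fin (m+1) → Fin (N+1), is (x ∘ z) z * h (x ∘ z)
      = if Monotone x then h (x ∘ z) else 0 := by
    intro x
    unfold is
    have : (x ∘ z) ∘ z.symm = x := by funext j; simp
    rw [this]
    by_cases hx : Monotone x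
    · rw [if_pos hx, if_pos hx, one_mul]
    · rw [if_neg hx, if_neg hx, zero_mul]
  rw [e1]
  simp only [e2]
  rw [← Finset.sum_filter]
  exact (Finset.sum_subtype (Finset.univ.filter fun x : Fin (m+1) → Fin (N+1) => Monotone x)
    (by simp) (fun x => h (x ∘ z))).symm

/-- the weight of a sorted point -/
noncomputable def wS (μ : (Fin (m+1) → Fin (N+1)) → ℝ) (y : Srt m N) : ℝ := μ y.1 / SS y.1

open Classical in
/-- directed conductances -/
noncomputable def cD (ν : Fin (m+1) → (Fin (m+1) → Fin (N+1)) → ℝ) (y y' : Srt m N) : ℝ :=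
  ∑ k, if y'.1 = up y.1 k then ν k y.1 / SE y.1 k else 0

/-- conductances -/
noncomputable def cS (ν : Fin (m+1) → (Fin (m+1) → Fin (N+1)) → ℝ) (y y' : Srt m N) : ℝ :=
  cD ν y y' + cD ν y' y

open Classical in
/-- label conductances -/
noncomputable def sS (m N : ℕ) (Γ : ℝ) (y : Srt m N) (a : Fin m) : ℝ :=
  if y.1 a.castSucc = y.1 a.succ then Γ else 0

lemma fY_eq {S : Type*} [Fintype S] (ν : Fin (m+1) → (Fin (m+1) → Fin (N+1)) → ℝ) (g : Srt m N → S → ℝ) :
    fY (cS ν) g g = ∑ y, ∑ y', cD ν y y' * ∑ x, (g y' x - g y x) * (g y' x - g y x) := by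
  unfold fY cS
  have e1 : ∑ y, ∑ y', (cD ν y y' + cD ν y' y) * ∑ x, (g y' x - g y x) * (g y' x - g y x)
      = ∑ y, ∑ y', cD ν y y' * ∑ x, (g y' x - g y x) * (g y' x - g y x)
        + ∑ y, ∑ y', cD ν y' y * ∑ x, (g y' x - g y x) * (g y' x - g y x) := by
    rw [← Finset.sum_add_distrib]
    refine Finset.sum_congr rfl fun y _ => ?_
    rw [← Finset.sum_add_distrib]
    exact Finset.sum_congr rfl fun y' _ => by ring
  have e2 : ∑ y, ∑ y', cD ν y' y * ∑ x, (g y' x - g y x) * (g y' x - g y x)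
      = ∑ y, ∑ y', cD ν y y' * ∑ x, (g y' x - g y x) * (g y' x - g y x) := by
    rw [Finset.sum_comm]
    refine Finset.sum_congr rfl fun y _ => Finset.sum_congr rfl fun y' _ => ?_
    congr 1
    exact Finset.sum_congr rfl fun x _ => by ring
  rw [e1, e2]
  ring

/-- The energy in `Y` when the state is a permutation-like label and the function comes from the
grid. -/
lemma sum_edges {ν : Fin (m+1) → (Fin (m+1) → Fin (N+1)) → ℝ}
    (hνs : ∀ (x : Fin (m+1) → Fin (N+1)) (σ : Equiv.Perm (Fin (m+1))) (i : Fin (m+1)),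
      ν i (x ∘ σ) = ν (σ i) x)
    (z : Equiv.Perm (Fin (m+1))) (G : (Fin (m+1) → Fin (N+1)) → ℝ) :
    ∑ y : Srt m N, ∑ y', cD ν y y' * ((G (y'.1 ∘ z) - G (y.1 ∘ z)) * (G (y'.1 ∘ z) - G (y.1 ∘ z)))
      = ∑ i, ∑ x, is x z * is (up x i) z * (ν i x / SE x i) * (G (up x i) - G x) ^ 2 := by
  classical
  have e1 : ∀ y : Srt m N, ∑ y', cD ν y y' *
        ((G (y'.1 ∘ z) - G (y.1 ∘ z)) * (G (y'.1 ∘ z) - G (y.1 ∘ z)))
      = ∑ i, is (up (y.1 ∘ z) i) z * (ν i (y.1 ∘ z) / SE (y.1 ∘ z) i)
          * (G (up (y.1 ∘ z) i) - G (y.1 ∘ z)) ^ 2 := by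
    intro y
    unfold cD
    simp only [Finset.sum_mul]
    rw [Finset.sum_comm]
    rw [← Equiv.sum_comp z]
    refine Finset.sum_congr rfl fun i _ => ?_
    rw [up_comp, SE_comp, hνs]
    have e3 : is (up y.1 (z i) ∘ z) z = if Monotone (up y.1 (z i)) then 1 else 0 := by
      unfold is
      have : (up y.1 (z i) ∘ z) ∘ z.symm = up y.1 (z i) := by funext j; simp
      rw [this]
    rw [e3]
    by_cases h : Monotone (up y.1 (z i))
    · rw [if_pos h, Finset.sum_eq_single (⟨up y.1 (z i), h⟩ : Srt m N)]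
      · simp only [if_true]
        ring
      · intro y' _ hy'
        rw [if_neg, zero_mul]
        intro hc
        exact hy' (Subtype.ext hc)
      · intro hc; exact absurd (Finset.mem_univ _) hc
    · rw [if_neg h, zero_mul, zero_mul]
      refine Finset.sum_eq_zero fun y' _ => ?_
      rw [if_neg, zero_mul]
      intro hc
      exact h (hc ▸ y'.2)
  simp only [e1]
  rw [Finset.sum_comm]
  refine Finset.sum_congr rfl fun i _ => ?_
  rw [sum_srt z (fun x => is (up x i) z * (ν i x / SE x i) * (G (up x i) - G x) ^ 2)]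
  exact Finset.sum_congr rfl fun x _ => by ring

lemma sum_weights {μ : (Fin (m+1) → Fin (N+1)) → ℝ}
    (hμs : ∀ (x : Fin (m+1) → Fin (N+1)) (σ : Equiv.Perm (Fin (m+1))), μ (x ∘ σ) = μ x)
    (z : Equiv.Perm (Fin (m+1))) (G : (Fin (m+1) → Fin (N+1)) → ℝ) :
    ∑ y : Srt m N, wS μ y * G (y.1 ∘ z) = ∑ x, is x z * (μ x / SS x) * G x := by
  have e : ∀ y : Srt m N, wS μ y * G (y.1 ∘ z) = μ (y.1 ∘ z) / SS (y.1 ∘ z) * G (y.1 ∘ z) := by
    intro y
    unfold wS
    rw [SS_comp, hμs]
  simp only [e]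
  rw [sum_srt z (fun x => μ x / SS x * G x)]
  exact Finset.sum_congr rfl fun x _ => by ring

end Pool.Agent.K6.H24.KR
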