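import Pool.Agent.K6.H24.KR.Defs

namespace Pool.Agent.K6.H24.KR

open MeasureTheory Filter

/-- PIECE C: Finsler's lemma with a constraint. -/
theorem finsler {X : Type*} [Fintype X] (w : X → ℝ) (hw : ∀ x, 0 < w x)
    (Q T : (X → ℝ) → ℝ) (hQ : Continuous Q) (hT : Continuous T)
    (hQ2 : ∀ (c : ℝ) g, Q (fun x => c * g x) = c ^ 2 * Q g)
    (hT2 : ∀ (c : ℝ) g, T (fun x => c * g x) = c ^ 2 * T g)
    (hT0 : ∀ g, 0 ≤ T g)
    (hpos : ∀ g : X → ℝ, ∑ x, w x * g x = 0 → g ≠ 0 → T g = 0 → 0 < Q g) :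
    ∃ Γ : ℝ, 0 < Γ ∧ ∀ g : X → ℝ, ∑ x, w x * g x = 0 → 0 ≤ Q g + Γ * T g := by
  set S : Set (X → ℝ) := Metric.sphere 0 1 ∩ {g | ∑ x, w x * g x = 0} with hS
  have hSc : IsCompact S := (isCompact_sphere (0 : X → ℝ) 1).inter_right
    (isClosed_eq (by fun_prop) continuous_const)
  by_contra hcon
  push Not at hcon
  have h1 : ∀ k : ℕ, ∃ g ∈ S, Q g + ((k:ℝ)+1) * T g < 0 := by
    intro k
    obtain ⟨g, hg0, hg⟩ := hcon ((k:ℝ)+1) (by positivity)
    have hgne : g ≠ 0 := by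
      rintro rfl
      have e1 := hQ2 0 (0 : X → ℝ)
      have e2 := hT2 0 (0 : X → ℝ)
      have e3 : (fun x => (0:ℝ) * (0 : X → ℝ) x) = 0 := by
        funext x; simp
      rw [e3] at e1 e2
      rw [e1, e2] at hg
      norm_num at hg
    have hn : 0 < ‖g‖ := norm_pos_iff.2 hgne
    refine ⟨fun x => ‖g‖⁻¹ * g x, ⟨?_, ?_⟩, ?_⟩
    · rw [mem_sphere_zero_iff_norm]
      have e : (fun x => ‖g‖⁻¹ * g x) = ‖g‖⁻¹ • g := by
        funext x; simp
      rw [e, norm_smul, norm_inv, norm_norm]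
      field_simp
    · show ∑ x, w x * (‖g‖⁻¹ * g x) = 0
      have e : ∑ x, w x * (‖g‖⁻¹ * g x) = ‖g‖⁻¹ * ∑ x, w x * g x := by
        rw [Finset.mul_sum]
        exact Finset.sum_congr rfl fun x _ => by ring
      rw [e, hg0, mul_zero]
    · rw [hQ2, hT2]
      have : (‖g‖⁻¹) ^ 2 * Q g + ((k:ℝ)+1) * ((‖g‖⁻¹) ^ 2 * T g)
          = (‖g‖⁻¹) ^ 2 * (Q g + ((k:ℝ)+1) * T g) := by ring
      rw [this]
      exact mul_neg_of_pos_of_neg (by positivity) hg
  choose g hgS hg using h1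
  obtain ⟨a, haS, φ, hφ, hlim⟩ := hSc.tendsto_subseq hgS
  have hQl : Tendsto (fun k => Q (g (φ k))) atTop (nhds (Q a)) := (hQ.tendsto a).comp hlim
  have hTl : Tendsto (fun k => T (g (φ k))) atTop (nhds (T a)) := (hT.tendsto a).comp hlim
  have hQa : Q a ≤ 0 := by
    refine le_of_tendsto hQl (Eventually.of_forall fun k => ?_)
    have h2 := hg (φ k)
    have h3 : 0 ≤ ((φ k : ℝ) + 1) * T (g (φ k)) := mul_nonneg (by positivity) (hT0 _)
    linarith
  have hTa : T a ≤ 0 := by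
    have h4 : Tendsto (fun k => -Q (g (φ k)) * (((φ k : ℕ) : ℝ) + 1)⁻¹) atTop (nhds (-Q a * 0)) := by
      refine hQl.neg.mul ?_
      refine tendsto_inv_atTop_zero.comp ?_
      exact tendsto_atTop_add_const_right _ _
        (tendsto_natCast_atTop_atTop.comp hφ.tendsto_atTop)
    rw [mul_zero] at h4
    refine le_of_tendsto_of_tendsto' hTl h4 fun k => ?_
    have h2 := hg (φ k)
    have h5 : (0:ℝ) < (φ k : ℝ) + 1 := by positivity
    rw [← div_eq_mul_inv, le_div_iff₀ h5]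
    linarith
  have hane : a ≠ 0 := by
    rintro rfl
    have := haS.1
    rw [mem_sphere_zero_iff_norm] at this
    simp at this
  have := hpos a haS.2 hane (le_antisymm hTa (hT0 a))
  linarith

end Pool.Agent.K6.H24.KR
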