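import Pool.Agent.K6.H24.KR.J3
import Pool.Agent.K6.H24.KR.PieceC

/-!
# Gap on the grid implies gap with order relations
-/

namespace Pool.Agent.K6.H24.KR

open Finset Pool.Agent.K6.H24.OP

set_option linter.unusedSectionVars false
set_option linter.deprecated false

variable {m N : ℕ} {R : Fin (m+1) → Fin (m+1) → Prop}

/-- a configuration as a permutation -/
noncomputable def P (z : Cfg R m) : Equiv.Perm (Fin (m+1)) :=
  Equiv.ofBijective z.1 (Finite.injective_iff_bijective.1 z.2.1)

lemma P_coe (z : Cfg R m) : (P z : Fin (m+1) → Fin (m+1)) = z.1 := rfl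

lemma P_inj : Function.Injective (P (R := R) (m := m)) := by
  intro z z' h
  apply Subtype.ext
  rw [← P_coe, ← P_coe, h]

/-- share of the sorting permutations which respect `R` -/
noncomputable def kR (R : Fin (m+1) → Fin (m+1) → Prop) (x : Fin (m+1) → Fin (N+1)) : ℝ :=
  (∑ z : Cfg R m, is x (P z)) / SS x

/-- share for an edge -/
noncomputable def kE (R : Fin (m+1) → Fin (m+1) → Prop) (x : Fin (m+1) → Fin (N+1))
    (i : Fin (m+1)) : ℝ :=
  (∑ z : Cfg R m, is x (P z) * is (up x i) (P z)) / SE x i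

lemma sum_cfg_le (φ : Equiv.Perm (Fin (m+1)) → ℝ) (h0 : ∀ z, 0 ≤ φ z) :
    ∑ z : Cfg R m, φ (P z) ≤ ∑ z, φ z := by
  classical
  rw [← Finset.sum_image (f := φ) (g := P (R := R) (m := m)) (s := Finset.univ)
    (fun z _ z' _ h => P_inj h)]
  exact Finset.sum_le_sum_of_subset_of_nonneg (Finset.subset_univ _) fun z _ _ => h0 z

lemma kR_nonneg (x : Fin (m+1) → Fin (N+1)) : 0 ≤ kR R x :=
  div_nonneg (Finset.sum_nonneg fun z _ => is_nonneg _ _) (SS_pos x).le

lemma kR_le_one (x : Fin (m+1) → Fin (N+1)) : kR R x ≤ 1 := by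
  unfold kR
  rw [div_le_one (SS_pos x)]
  exact sum_cfg_le (fun z => is x z) fun z => is_nonneg x z

lemma kE_nonneg (x : Fin (m+1) → Fin (N+1)) (i : Fin (m+1)) : 0 ≤ kE R x i :=
  div_nonneg (Finset.sum_nonneg fun z _ => mul_nonneg (is_nonneg _ _) (is_nonneg _ _))
    (SE_pos x i).le

lemma kE_le_one (x : Fin (m+1) → Fin (N+1)) (i : Fin (m+1)) : kE R x i ≤ 1 := by
  unfold kE
  rw [div_le_one (SE_pos x i)]
  exact sum_cfg_le (fun z => is x z * is (up x i) z)
    fun z => mul_nonneg (is_nonneg x z) (is_nonneg _ z)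

/-- invariance at ties spreads over the blocks -/
lemma tie_chain {y : Fin (m+1) → Fin (N+1)} (hy : Monotone y) {g : Fin (m+1) → ℝ}
    (hg : ∀ a : Fin m, y a.castSucc = y a.succ → g a.castSucc = g a.succ) :
    ∀ s t, y s = y t → g s = g t := by
  have key : ∀ t s, s ≤ t → y s = y t → g s = g t := by
    intro t
    induction t using Fin.induction with
    | zero =>
      intro s hs _
      rw [Fin.le_zero_iff.1 hs]
    | succ a ih =>
      intro s hs hst
      rcases hs.eq_or_lt with h | h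
      · rw [h]
      · have h1 : s ≤ a.castSucc := by
          rw [Fin.lt_def] at h; rw [Fin.le_def]
          simp only [Fin.val_succ, Fin.val_castSucc] at h ⊢
          omega
        have h2 := hy h1
        have h3 := hy (castSucc_lt_succ' a).le
        have h4 : y a.castSucc = y a.succ := le_antisymm h3 (hst ▸ h2)
        rw [ih s h1 (hst.trans h4.symm), hg a h4]
  intro s t hst
  rcases le_total s t with h | h
  · exact key t s h hst
  · exact (key s t h hst.symm).symm

/-- sums over permutations of a function of one value -/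
lemma exists_K (m : ℕ) : ∃ K : ℝ, 0 < K ∧ ∀ h : Fin (m+1) → ℝ,
    ∑ z : Equiv.Perm (Fin (m+1)), h (z 0) = K * ∑ t, h t := by
  classical
  refine ⟨∑ z : Equiv.Perm (Fin (m+1)), if z 0 = 0 then (1:ℝ) else 0, ?_, ?_⟩
  · refine Finset.sum_pos' (fun z _ => by split_ifs <;> norm_num) ⟨1, Finset.mem_univ _, ?_⟩
    simp
  · intro h
    have e1 : ∀ t : Fin (m+1), ∑ z : Equiv.Perm (Fin (m+1)), (if z 0 = t then (1:ℝ) else 0)
        = ∑ z : Equiv.Perm (Fin (m+1)), if z 0 = 0 then (1:ℝ) else 0 := by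
      intro t
      rw [← Equiv.sum_comp (Equiv.mulLeft (Equiv.swap 0 t))
        (fun z : Equiv.Perm (Fin (m+1)) => if z 0 = t then (1:ℝ) else 0)]
      refine Finset.sum_congr rfl fun z _ => ?_
      have : ((Equiv.mulLeft (Equiv.swap 0 t)) z 0 = t) ↔ z 0 = 0 := by
        simp only [Equiv.coe_mulLeft, Equiv.Perm.mul_apply]
        constructor
        · intro hh
          have h2 := congrArg (Equiv.swap 0 t) hh
          rw [Equiv.swap_apply_self, Equiv.swap_apply_right] at h2
          exact h2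
        · intro hh
          rw [hh, Equiv.swap_apply_left]
      simp only [this]
    have e2 : ∀ z : Equiv.Perm (Fin (m+1)), h (z 0) = ∑ t, (if z 0 = t then (1:ℝ) else 0) * h t := by
      intro z
      simp
    simp only [e2]
    rw [Finset.sum_comm, Finset.mul_sum]
    refine Finset.sum_congr rfl fun t _ => ?_
    rw [← Finset.sum_mul, e1]

variable {μ : (Fin (m+1) → Fin (N+1)) → ℝ} {ν : Fin (m+1) → (Fin (m+1) → Fin (N+1)) → ℝ}

/-- a tie invariant function of the sorted point and one rank comes from the grid -/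
lemma exists_G {g : Srt m N → Fin (m+1) → ℝ}
    (hg : ∀ (y : Srt m N) (a : Fin m), y.1 a.castSucc = y.1 a.succ →
      g y a.castSucc = g y a.succ) :
    ∃ G : (Fin (m+1) → Fin (N+1)) → ℝ, ∀ (y : Srt m N) (z : Equiv.Perm (Fin (m+1))),
      G (y.1 ∘ z) = g y (z 0) := by
  refine ⟨fun x => g ⟨x ∘ Tuple.sort x, Tuple.monotone_sort x⟩ ((Tuple.sort x).symm 0), ?_⟩
  intro y z
  set σ := Tuple.sort (y.1 ∘ z) with hσ
  have h1 : (y.1 ∘ z) ∘ σ = (y.1 ∘ z) ∘ z.symm := by
    refine Tuple.unique_monotone (Tuple.monotone_sort _) ?_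
    have : (y.1 ∘ z) ∘ z.symm = y.1 := by funext j; simp
    rw [this]; exact y.2
  have h2 : (y.1 ∘ z) ∘ z.symm = y.1 := by funext j; simp
  have h3 : (⟨(y.1 ∘ z) ∘ σ, Tuple.monotone_sort _⟩ : Srt m N) = y :=
    Subtype.ext (h1.trans h2)
  change g ⟨(y.1 ∘ z) ∘ σ, _⟩ (σ.symm 0) = _
  rw [h3]
  refine tie_chain y.2 (hg y) _ _ ?_
  have h4 := congrFun (h1.trans h2) (σ.symm 0)
  simp only [Function.comp, Equiv.apply_symm_apply] at h4
  exact h4.symm

/-- the one label gap among tie invariant functions -/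
lemma tie_gap (hμs : ∀ (x : Fin (m+1) → Fin (N+1)) (σ : Equiv.Perm (Fin (m+1))), μ (x ∘ σ) = μ x)
    (hνs : ∀ (x : Fin (m+1) → Fin (N+1)) (σ : Equiv.Perm (Fin (m+1))) (i : Fin (m+1)),
      ν i (x ∘ σ) = ν (σ i) x)
    {lam : ℝ}
    (hG : ∀ G : (Fin (m+1) → Fin (N+1)) → ℝ, ∑ x, μ x * G x = 0 →
      lam * ∑ x, μ x * G x ^ 2 ≤ ∑ i, ∑ x, ν i x * (G (up x i) - G x) ^ 2)
    {g : Srt m N → Fin (m+1) → ℝ}
    (hg : ∀ (y : Srt m N) (a : Fin m), y.1 a.castSucc = y.1 a.succ →
      g y a.castSucc = g y a.succ)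
    (hm : ∑ y, wS μ y * ∑ t, g y t = 0) :
    lam * ip (wS μ) g g ≤ fY (cS ν) g g := by
  obtain ⟨G, hGg⟩ := exists_G hg
  obtain ⟨K, hK, hKs⟩ := exists_K m
  -- sums of functions of `G`
  have hs : ∀ φ : ℝ → ℝ, ∑ x, μ x * φ (G x) = K * ∑ y, wS μ y * ∑ t, φ (g y t) := by
    intro φ
    have e1 : ∑ z : Equiv.Perm (Fin (m+1)), ∑ y : Srt m N, wS μ y * φ (G (y.1 ∘ z))
        = ∑ x, μ x * φ (G x) := by
      have : ∀ z : Equiv.Perm (Fin (m+1)), ∑ y : Srt m N, wS μ y * φ (G (y.1 ∘ z))
          = ∑ x, is x z * (μ x / SS x) * φ (G x) :=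
        fun z => sum_weights hμs z (fun x => φ (G x))
      simp only [this]
      rw [Finset.sum_comm]
      refine Finset.sum_congr rfl fun x _ => ?_
      rw [← Finset.sum_mul, ← Finset.sum_mul]
      have h1 : ∑ z : Equiv.Perm (Fin (m+1)), is x z = SS x := rfl
      rw [h1, mul_div_cancel₀ _ (SS_pos x).ne']
    rw [← e1, Finset.sum_comm, Finset.mul_sum]
    refine Finset.sum_congr rfl fun y _ => ?_
    simp only [hGg]
    rw [← Finset.mul_sum, hKs (fun t => φ (g y t))]
    ring
  have hE : ∑ i, ∑ x, ν i x * (G (up x i) - G x) ^ 2 = K * fY (cS ν) g g := by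
    have e1 : ∑ z : Equiv.Perm (Fin (m+1)), ∑ y : Srt m N, ∑ y', cD ν y y' *
          ((G (y'.1 ∘ z) - G (y.1 ∘ z)) * (G (y'.1 ∘ z) - G (y.1 ∘ z)))
        = ∑ i, ∑ x, ν i x * (G (up x i) - G x) ^ 2 := by
      simp only [sum_edges hνs]
      rw [Finset.sum_comm]
      refine Finset.sum_congr rfl fun i _ => ?_
      rw [Finset.sum_comm]
      refine Finset.sum_congr rfl fun x _ => ?_
      rw [← Finset.sum_mul, ← Finset.sum_mul]
      have h1 : ∑ z : Equiv.Perm (Fin (m+1)), is x z * is (up x i) z = SE x i := rfl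
      rw [h1, mul_div_cancel₀ _ (SE_pos x i).ne']
    rw [← e1, fY_eq, Finset.mul_sum, Finset.sum_comm]
    refine Finset.sum_congr rfl fun y _ => ?_
    rw [Finset.mul_sum, Finset.sum_comm]
    refine Finset.sum_congr rfl fun y' _ => ?_
    simp only [hGg]
    rw [← Finset.mul_sum, hKs (fun t => (g y' t - g y t) * (g y' t - g y t))]
    ring
  have h1 := hG G (by
    have := hs id
    simp only [id] at this
    rw [this, hm, mul_zero])
  have h2 := hs (fun t => t ^ 2)
  have h3 : ∑ y, wS μ y * ∑ t, g y t ^ 2 = ip (wS μ) g g := by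
    unfold ip
    exact Finset.sum_congr rfl fun y _ => by
      congr 1
      exact Finset.sum_congr rfl fun t _ => sq _
  rw [h2, h3, hE] at h1
  have h4 : K * (lam * ip (wS μ) g g) ≤ K * fY (cS ν) g g := by linarith
  exact le_of_mul_le_mul_left h4 hK

lemma wS_pos (hμ : ∀ x, 0 < μ x) (y : Srt m N) : 0 < wS μ y := div_pos (hμ _) (SS_pos _)

lemma cD_nonneg (hν : ∀ i x, 0 ≤ ν i x) (y y' : Srt m N) : 0 ≤ cD ν y y' := by
  unfold cD
  refine Finset.sum_nonneg fun k _ => ?_
  split_ifs
  · exact div_nonneg (hν _ _) (SE_pos _ _).le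
  · exact le_rfl

/-- the one label gap with large label rates -/
lemma one_gap (hμ : ∀ x, 0 < μ x)
    (hμs : ∀ (x : Fin (m+1) → Fin (N+1)) (σ : Equiv.Perm (Fin (m+1))), μ (x ∘ σ) = μ x)
    (hνs : ∀ (x : Fin (m+1) → Fin (N+1)) (σ : Equiv.Perm (Fin (m+1))) (i : Fin (m+1)),
      ν i (x ∘ σ) = ν (σ i) x)
    {lam lam' : ℝ} (hll : lam' < lam)
    (hG : ∀ G : (Fin (m+1) → Fin (N+1)) → ℝ, ∑ x, μ x * G x = 0 →
      lam * ∑ x, μ x * G x ^ 2 ≤ ∑ i, ∑ x, ν i x * (G (up x i) - G x) ^ 2) :
    ∃ Γ : ℝ, 0 < Γ ∧ ∀ g : Srt m N → Fin (m+1) → ℝ, ∑ y, wS μ y * ∑ t, g y t = 0 →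
      lam' * ip (wS μ) g g ≤ fY (cS ν) g g + fS (sg m) (sS m N Γ) g g := by
  have hmean : ∀ g : Srt m N × Fin (m+1) → ℝ,
      ∑ x : Srt m N × Fin (m+1), wS μ x.1 * g x = ∑ y, wS μ y * ∑ t, g (y, t) := by
    intro g
    rw [Fintype.sum_prod_type]
    exact Finset.sum_congr rfl fun y _ => by rw [Finset.mul_sum]
  obtain ⟨Γ, hΓ, hfin⟩ := finsler (X := Srt m N × Fin (m+1)) (fun x => wS μ x.1)
    (fun x => wS_pos hμ x.1)
    (fun g => fY (cS ν) (fun y t => g (y, t)) (fun y t => g (y, t))
      - lam' * ip (wS μ) (fun y t => g (y, t)) (fun y t => g (y, t)))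
    (fun g => fS (sg m) (sS m N 1) (fun y t => g (y, t)) (fun y t => g (y, t)))
    (by unfold fY ip; fun_prop) (by unfold fS; fun_prop)
    (by
      intro c g
      unfold fY ip
      simp only [← mul_sub, Finset.mul_sum]
      rw [← Finset.sum_sub_distrib, ← Finset.sum_sub_distrib, Finset.mul_sum]
      refine Finset.sum_congr rfl fun y _ => ?_
      rw [mul_sub, Finset.mul_sum, Finset.mul_sum]
      congr 1
      · refine Finset.sum_congr rfl fun y' _ => ?_
        rw [Finset.mul_sum]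
        exact Finset.sum_congr rfl fun t _ => by ring
      · exact Finset.sum_congr rfl fun t _ => by ring)
    (by
      intro c g
      unfold fS
      simp only [← mul_sub, Finset.mul_sum]
      refine Finset.sum_congr rfl fun y _ => Finset.sum_congr rfl fun a _ =>
        Finset.sum_congr rfl fun t _ => by ring)
    (by
      intro g
      unfold fS sS
      refine mul_nonneg (by norm_num) (Finset.sum_nonneg fun y _ => Finset.sum_nonneg fun a _ =>
        mul_nonneg ?_ (Finset.sum_nonneg fun t _ => mul_self_nonneg _))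
      split_ifs <;> norm_num)
    (by
      intro g hg hne hT
      rw [hmean] at hg
      have htie : ∀ (y : Srt m N) (a : Fin m), y.1 a.castSucc = y.1 a.succ →
          g (y, a.castSucc) = g (y, a.succ) := by
        intro y a hya
        have h0 : ∀ (y : Srt m N) (a : Fin m), 0 ≤ sS m N 1 y a * ∑ t, (g (y, sg m a t) - g (y, t))
            * (g (y, sg m a t) - g (y, t)) := by
          intro y a
          refine mul_nonneg ?_ (Finset.sum_nonneg fun t _ => mul_self_nonneg _)
          unfold sS; split_ifs <;> norm_num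
        have h1 : ∑ y : Srt m N, ∑ a : Fin m, sS m N 1 y a * ∑ t, (g (y, sg m a t) - g (y, t))
            * (g (y, sg m a t) - g (y, t)) = 0 := by
          unfold fS at hT
          linarith
        have h2 := (Finset.sum_eq_zero_iff_of_nonneg
          (fun y _ => Finset.sum_nonneg fun a _ => h0 y a)).1 h1 y (Finset.mem_univ _)
        have h3 := (Finset.sum_eq_zero_iff_of_nonneg (fun a _ => h0 y a)).1 h2 a (Finset.mem_univ _)
        have h4 : sS m N 1 y a = 1 := by unfold sS; rw [if_pos hya]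
        rw [h4, one_mul] at h3
        have h5 := (Finset.sum_eq_zero_iff_of_nonneg (fun t _ => mul_self_nonneg _)).1 h3
          a.castSucc (Finset.mem_univ _)
        have h6 := mul_self_eq_zero.1 h5
        have h7 : sg m a a.castSucc = a.succ := sw_left a
        rw [h7] at h6
        linarith
      have h1 := tie_gap hμs hνs hG (g := fun y t => g (y, t)) htie hg
      have h2 : 0 < ip (wS μ) (fun y t => g (y, t)) (fun y t => g (y, t)) := by
        have : ∃ x, g x ≠ 0 := by
          by_contra hc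
          push Not at hc
          exact hne (funext hc)
        obtain ⟨⟨y, t⟩, hyt⟩ := this
        unfold ip
        refine Finset.sum_pos' (fun y _ => mul_nonneg (wS_pos hμ y).le
          (Finset.sum_nonneg fun t _ => mul_self_nonneg _)) ⟨y, Finset.mem_univ _, ?_⟩
        refine mul_pos (wS_pos hμ y) (Finset.sum_pos' (fun t _ => mul_self_nonneg _)
          ⟨t, Finset.mem_univ _, ?_⟩)
        exact mul_self_pos.2 hyt
      have h3 : (lam - lam') * ip (wS μ) (fun y t => g (y, t)) (fun y t => g (y, t)) > 0 :=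
        mul_pos (by linarith) h2
      linarith)
  refine ⟨Γ, hΓ, fun g hg => ?_⟩
  have h1 := hfin (fun x => g x.1 x.2) (by rw [hmean]; exact hg)
  simp only at h1
  have h2 : fS (sg m) (sS m N Γ) g g = Γ * fS (sg m) (sS m N 1) g g := by
    unfold fS sS
    simp only [Finset.mul_sum]
    refine Finset.sum_congr rfl fun y _ => Finset.sum_congr rfl fun a _ =>
        Finset.sum_congr rfl fun t _ => ?_
    split_ifs <;> ring
  rw [h2]
  linarith

/-- **Gap on the grid implies the gap with order relations.** -/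
theorem grid_order (hμ : ∀ x, 0 < μ x) (hν : ∀ i x, 0 ≤ ν i x)
    (hμs : ∀ (x : Fin (m+1) → Fin (N+1)) (σ : Equiv.Perm (Fin (m+1))), μ (x ∘ σ) = μ x)
    (hνs : ∀ (x : Fin (m+1) → Fin (N+1)) (σ : Equiv.Perm (Fin (m+1))) (i : Fin (m+1)),
      ν i (x ∘ σ) = ν (σ i) x)
    {lam : ℝ}
    (hG : ∀ G : (Fin (m+1) → Fin (N+1)) → ℝ, ∑ x, μ x * G x = 0 →
      lam * ∑ x, μ x * G x ^ 2 ≤ ∑ i, ∑ x, ν i x * (G (up x i) - G x) ^ 2)
    (G : (Fin (m+1) → Fin (N+1)) → ℝ) (hm : ∑ x, kR R x * μ x * G x = 0) :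
    lam * ∑ x, kR R x * μ x * G x ^ 2 ≤ ∑ i, ∑ x, kE R x i * ν i x * (G (up x i) - G x) ^ 2 := by
  have hB : 0 ≤ ∑ i, ∑ x, kE R x i * ν i x * (G (up x i) - G x) ^ 2 :=
    Finset.sum_nonneg fun i _ => Finset.sum_nonneg fun x _ =>
      mul_nonneg (mul_nonneg (kE_nonneg x i) (hν i x)) (sq_nonneg _)
  have hA : 0 ≤ ∑ x, kR R x * μ x * G x ^ 2 :=
    Finset.sum_nonneg fun x _ => mul_nonneg (mul_nonneg (kR_nonneg x) (hμ x).le) (sq_nonneg _)
  -- the inequality for smaller constants
  have key : ∀ lam', 0 ≤ lam' → lam' < lam → lam' * ∑ x, kR R x * μ x * G x ^ 2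
      ≤ ∑ i, ∑ x, kE R x i * ν i x * (G (up x i) - G x) ^ 2 := by
    intro lam' h0 hlt
    obtain ⟨Γ, hΓ, hone⟩ := one_gap hμ hμs hνs hlt hG
    have hw := wS_pos (μ := μ) hμ
    have hsum : ∀ φ : ℝ → ℝ, ∑ y : Srt m N, wS μ y * ∑ z : Cfg R m, φ (G (y.1 ∘ P z))
        = ∑ x, kR R x * μ x * φ (G x) := by
      intro φ
      have e1 : ∑ y : Srt m N, wS μ y * ∑ z : Cfg R m, φ (G (y.1 ∘ P z))
          = ∑ z : Cfg R m, ∑ y : Srt m N, wS μ y * φ (G (y.1 ∘ P z)) := by
        rw [Finset.sum_comm]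
        exact Finset.sum_congr rfl fun y _ => by rw [Finset.mul_sum]
      have e2 : ∀ z : Cfg R m, ∑ y : Srt m N, wS μ y * φ (G (y.1 ∘ P z))
          = ∑ x, is x (P z) * (μ x / SS x) * φ (G x) :=
        fun z => sum_weights hμs (P z) (fun x => φ (G x))
      rw [e1]
      simp only [e2]
      rw [Finset.sum_comm]
      refine Finset.sum_congr rfl fun x _ => ?_
      rw [← Finset.sum_mul, ← Finset.sum_mul]
      unfold kR
      ring
    have hgc := gap_chain (R := R) (w := wS μ) (c := cS ν) (s := sS m N Γ) hw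
      (fun y y' => by unfold cS; ring)
      (fun y y' => add_nonneg (cD_nonneg hν _ _) (cD_nonneg hν _ _))
      (fun y a => by unfold sS; split_ifs <;> linarith) h0 hone
      (fun y z => G (y.1 ∘ P z)) (by
        have := hsum id
        simp only [id] at this
        rw [this, hm])
    have e1 : ip (wS μ) (fun (y : Srt m N) (z : Cfg R m) => G (y.1 ∘ P z))
        (fun y z => G (y.1 ∘ P z)) = ∑ x, kR R x * μ x * G x ^ 2 := by
      have := hsum (fun t => t ^ 2)
      rw [← this]
      unfold ip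
      exact Finset.sum_congr rfl fun y _ => by
        congr 1
        exact Finset.sum_congr rfl fun t _ => (sq _).symm
    have e2 : fS (tau (R := R)) (sS m N Γ) (fun (y : Srt m N) (z : Cfg R m) => G (y.1 ∘ P z))
        (fun y z => G (y.1 ∘ P z)) = 0 := by
      unfold fS
      rw [Finset.sum_eq_zero, mul_zero]
      intro y _
      refine Finset.sum_eq_zero fun a _ => ?_
      by_cases hya : y.1 a.castSucc = y.1 a.succ
      · rw [Finset.sum_eq_zero, mul_zero]
        intro z _
        have hz : y.1 ∘ P (tau a z) = y.1 ∘ P z := by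
          rw [P_coe, P_coe]
          unfold tau
          split_ifs with hok
          · funext j
            simp only [Function.comp]
            by_cases h1 : z.1 j = a.castSucc
            · rw [h1, sw_left, hya]
            · by_cases h2 : z.1 j = a.succ
              · rw [h2, sw_right, hya]
              · rw [sw_other a h1 h2]
          · rfl
        simp only [hz, sub_self, mul_zero]
      · unfold sS
        rw [if_neg hya, zero_mul]
    have e3 : fY (cS ν) (fun (y : Srt m N) (z : Cfg R m) => G (y.1 ∘ P z))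
        (fun y z => G (y.1 ∘ P z)) = ∑ i, ∑ x, kE R x i * ν i x * (G (up x i) - G x) ^ 2 := by
      rw [fY_eq]
      have e4 : ∑ y : Srt m N, ∑ y' : Srt m N, cD ν y y' * ∑ z : Cfg R m,
          (G (y'.1 ∘ P z) - G (y.1 ∘ P z)) * (G (y'.1 ∘ P z) - G (y.1 ∘ P z))
          = ∑ z : Cfg R m, ∑ y : Srt m N, ∑ y' : Srt m N, cD ν y y' *
          ((G (y'.1 ∘ P z) - G (y.1 ∘ P z)) * (G (y'.1 ∘ P z) - G (y.1 ∘ P z))) := by
        symm
        rw [Finset.sum_comm]
        refine Finset.sum_congr rfl fun y _ => ?_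
        rw [Finset.sum_comm]
        refine Finset.sum_congr rfl fun y' _ => ?_
        rw [Finset.mul_sum]
      rw [e4]
      simp only [sum_edges hνs]
      rw [Finset.sum_comm]
      refine Finset.sum_congr rfl fun i _ => ?_
      rw [Finset.sum_comm]
      refine Finset.sum_congr rfl fun x _ => ?_
      rw [← Finset.sum_mul, ← Finset.sum_mul]
      unfold kE
      ring
    rw [e1, e2, e3, add_zero] at hgc
    exact hgc
  by_contra hcon
  push Not at hcon
  set A := ∑ x, kR R x * μ x * G x ^ 2 with hAd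
  set B := ∑ i, ∑ x, kE R x i * ν i x * (G (up x i) - G x) ^ 2 with hBd
  have hApos : 0 < A := by
    rcases hA.eq_or_lt with h | h
    · rw [← h, mul_zero] at hcon; linarith
    · exact h
  have hlt : B / A < lam := by rw [div_lt_iff₀ hApos]; exact hcon
  have h1 := key ((B / A + lam) / 2)
    (by have : 0 ≤ B / A := div_nonneg hB hApos.le
        linarith) (by linarith)
  have h2 : (B / A + lam) / 2 * A > B := by
    have : B / A * A = B := div_mul_cancel₀ _ hApos.ne'
    nlinarith
  linarith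

end Pool.Agent.K6.H24.KR
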