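import Pool.Agent.K6.H24.KR.J4

/-!
# Weights which may vanish
-/

namespace Pool.Agent.K6.H24.KR

open Finset Pool.Agent.K6.H24.OP

set_option linter.unusedSectionVars false

variable {m N : ℕ} {R : Fin (m+1) → Fin (m+1) → Prop}
variable {μ : (Fin (m+1) → Fin (N+1)) → ℝ} {ν : Fin (m+1) → (Fin (m+1) → Fin (N+1)) → ℝ}

lemma up_val {n N : ℕ} {x : Fin n → Fin (N+1)} {i : Fin n} (h : (x i).val + 1 < N + 1) (j : Fin n) :
    (up x i j).val = (x j).val + if j = i then 1 else 0 := by
  unfold up
  rw [dif_pos h]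
  by_cases hj : j = i
  · subst hj; simp
  · simp [hj]

/-- the grid is connected -/
lemma grid_conn {n N : ℕ} {G : (Fin n → Fin (N+1)) → ℝ} (hG : ∀ i x, G (up x i) = G x) :
    ∀ x y, G x = G y := by
  have key : ∀ k : ℕ, ∀ x : Fin n → Fin (N+1), ∑ i, (N - (x i).val) = k →
      G x = G (fun _ => Fin.last N) := by
    intro k
    induction k with
    | zero =>
      intro x hx
      have h1 : ∀ i, (x i).val = N := by
        intro i
        have := (Finset.sum_eq_zero_iff.1 hx) i (Finset.mem_univ i)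
        have := (x i).2
        omega
      have : x = fun _ => Fin.last N := by
        funext i; apply Fin.ext; rw [h1 i]; rfl
      rw [this]
    | succ k ih =>
      intro x hx
      have h1 : ∃ i, (x i).val + 1 < N + 1 := by
        by_contra hc
        push Not at hc
        have : ∑ i, (N - (x i).val) = 0 := Finset.sum_eq_zero fun i _ => by
          have := hc i; omega
        omega
      obtain ⟨i, hi⟩ := h1
      rw [← hG i x]
      apply ih
      have e1 := Finset.add_sum_erase Finset.univ (fun j => N - (x j).val) (Finset.mem_univ i)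
      have e2 := Finset.add_sum_erase Finset.univ (fun j => N - (up x i j).val) (Finset.mem_univ i)
      have e3 : ∑ j ∈ Finset.univ.erase i, (N - (up x i j).val)
          = ∑ j ∈ Finset.univ.erase i, (N - (x j).val) := by
        refine Finset.sum_congr rfl fun j hj => ?_
        rw [up_val hi, if_neg (Finset.ne_of_mem_erase hj), add_zero]
      rw [e3] at e2
      have e4 := up_val hi i
      rw [if_pos rfl] at e4
      omega
  intro x y
  rw [key _ x rfl, key _ y rfl]

/-- Poincare inequality with the counting measure, some constant -/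
lemma grid_some (n N : ℕ) : ∃ K : ℝ, 0 < K ∧ ∀ G : (Fin n → Fin (N+1)) → ℝ, ∑ x, G x = 0 →
    ∑ x, G x ^ 2 ≤ K * ∑ i, ∑ x, (G (up x i) - G x) ^ 2 := by
  obtain ⟨K, hK, h⟩ := finsler (X := Fin n → Fin (N+1)) (fun _ => 1) (fun _ => one_pos)
    (fun g => - ∑ x, g x ^ 2) (fun g => ∑ i, ∑ x, (g (up x i) - g x) ^ 2)
    (by fun_prop) (by fun_prop)
    (by
      intro c g
      simp only [mul_pow, ← Finset.mul_sum]; ring)
    (by
      intro c g
      simp only [Finset.mul_sum]
      exact Finset.sum_congr rfl fun i _ => Finset.sum_congr rfl fun x _ => by ring)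
    (fun g => Finset.sum_nonneg fun i _ => Finset.sum_nonneg fun x _ => sq_nonneg _)
    (by
      intro g hg hne hT
      exfalso
      have h1 : ∀ i x, g (up x i) = g x := by
        intro i x
        have h2 := (Finset.sum_eq_zero_iff_of_nonneg
          (fun i _ => Finset.sum_nonneg fun x _ => sq_nonneg _)).1 hT i (Finset.mem_univ _)
        have h3 := (Finset.sum_eq_zero_iff_of_nonneg (fun x _ => sq_nonneg _)).1 h2 x
          (Finset.mem_univ _)
        have := pow_eq_zero_iff (two_ne_zero) |>.1 h3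
        linarith
      have h4 := grid_conn h1
      apply hne
      funext x
      have h5 : ∑ y : Fin n → Fin (N+1), 1 * g y = Fintype.card (Fin n → Fin (N+1)) * g x := by
        have : ∀ y, 1 * g y = g x := fun y => by rw [one_mul, h4 y x]
        simp only [this]
        simp
      rw [h5] at hg
      have h6 : (0:ℝ) < Fintype.card (Fin n → Fin (N+1)) := by
        have : 0 < Fintype.card (Fin n → Fin (N+1)) := Fintype.card_pos_iff.2 ⟨x⟩
        exact_mod_cast this
      rcases mul_eq_zero.1 hg with h | h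
      · exact absurd h h6.ne'
      · exact h)
  refine ⟨K, hK, fun G hG => ?_⟩
  have := h G (by simpa using hG)
  linarith

/-- **Gap on the grid implies the gap with order relations**, weights which may vanish. -/
theorem grid_order0 (hμ : ∀ x, 0 ≤ μ x) (hμ1 : ∑ x, μ x = 1) (hν : ∀ i x, 0 ≤ ν i x)
    (hμs : ∀ (x : Fin (m+1) → Fin (N+1)) (σ : Equiv.Perm (Fin (m+1))), μ (x ∘ σ) = μ x)
    (hνs : ∀ (x : Fin (m+1) → Fin (N+1)) (σ : Equiv.Perm (Fin (m+1))) (i : Fin (m+1)),
      ν i (x ∘ σ) = ν (σ i) x)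
    {lam : ℝ} (hlam : 0 ≤ lam)
    (hG : ∀ G : (Fin (m+1) → Fin (N+1)) → ℝ,
      lam * (∑ x, μ x * G x ^ 2 - (∑ x, μ x * G x) ^ 2)
        ≤ ∑ i, ∑ x, ν i x * (G (up x i) - G x) ^ 2)
    (G : (Fin (m+1) → Fin (N+1)) → ℝ) (hm : ∑ x, kR R x * μ x * G x = 0) :
    lam * ∑ x, kR R x * μ x * G x ^ 2 ≤ ∑ i, ∑ x, kE R x i * ν i x * (G (up x i) - G x) ^ 2 := by
  obtain ⟨K, hK, hKs⟩ := grid_some (m+1) N
  set X : ℝ := (Fintype.card (Fin (m+1) → Fin (N+1)) : ℝ) with hX
  have hXpos : 0 < X := by
    have : 0 < Fintype.card (Fin (m+1) → Fin (N+1)) := Fintype.card_pos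
    rw [hX]; exact_mod_cast this
  set E1 : ((Fin (m+1) → Fin (N+1)) → ℝ) → ℝ := fun G => ∑ i, ∑ x, (G (up x i) - G x) ^ 2 with hE1
  -- counting variance around any mean
  have hcount : ∀ G : (Fin (m+1) → Fin (N+1)) → ℝ,
      ∑ x, (G x - ∑ y, μ y * G y) ^ 2 ≤ ((1 + X) * K) * E1 G := by
    intro G
    set av := (∑ x, G x) / X with hav
    have h1 : ∑ x, (G x - av) = 0 := by
      rw [Finset.sum_sub_distrib, Finset.sum_const, Finset.card_univ, nsmul_eq_mul, ← hX, hav]
      field_simp
      ring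
    have h2 := hKs (fun x => G x - av) h1
    have e1 : ∑ i, ∑ x, ((G (up x i) - av) - (G x - av)) ^ 2 = E1 G := by
      rw [hE1]
      exact Finset.sum_congr rfl fun i _ => Finset.sum_congr rfl fun x _ => by ring
    rw [e1] at h2
    have h3 : (∑ y, μ y * G y) - av = ∑ y, μ y * (G y - av) := by
      simp only [mul_sub, Finset.sum_sub_distrib, ← Finset.sum_mul, hμ1, one_mul]
    have h4 : (∑ y, μ y * (G y - av)) ^ 2 ≤ ∑ y, (G y - av) ^ 2 := by
      have c1 := Finset.sum_mul_sq_le_sq_mul_sq Finset.univ μ (fun y => G y - av)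
      have c2 : ∑ y, μ y ^ 2 ≤ 1 := by
        rw [← hμ1]
        refine Finset.sum_le_sum fun y _ => ?_
        have : μ y ≤ 1 := by
          rw [← hμ1]; exact Finset.single_le_sum (fun y _ => hμ y) (Finset.mem_univ y)
        nlinarith [hμ y]
      have c3 : 0 ≤ ∑ y, (G y - av) ^ 2 := Finset.sum_nonneg fun _ _ => sq_nonneg _
      nlinarith
    have h5 : ∑ x, (G x - ∑ y, μ y * G y) ^ 2
        = ∑ x, (G x - av) ^ 2 + X * ((∑ y, μ y * G y) - av) ^ 2 := by
      set c := (∑ y, μ y * G y) with hc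
      have : ∀ x, (G x - c) ^ 2 = (G x - av) ^ 2 - 2 * (c - av) * (G x - av) + (c - av) ^ 2 :=
        fun x => by ring
      simp only [this, Finset.sum_add_distrib, Finset.sum_sub_distrib, ← Finset.mul_sum, h1,
        Finset.sum_const, Finset.card_univ, nsmul_eq_mul]
      rw [← hX]
      ring
    rw [h5, h3]
    nlinarith
  -- perturbation
  have key : ∀ δ : ℝ, 0 < δ → lam * ∑ x, kR R x * μ x * G x ^ 2
      ≤ ∑ i, ∑ x, kE R x i * ν i x * (G (up x i) - G x) ^ 2
        + δ * ∑ i, ∑ x, kE R x i * (G (up x i) - G x) ^ 2 := by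
    intro δ hδ
    set D := lam * ((1 + X) * K) + 1 with hD
    have hDpos : 0 < D := by
      have : 0 ≤ lam * ((1 + X) * K) := by positivity
      rw [hD]; linarith
    set ε := δ / D with hε
    have hεpos : 0 < ε := div_pos hδ hDpos
    have hεD : ε * (lam * ((1 + X) * K)) ≤ δ := by
      have h1 : ε * D = δ := div_mul_cancel₀ _ hDpos.ne'
      have h2 : lam * ((1 + X) * K) ≤ D := by rw [hD]; linarith
      nlinarith
    set c := (∑ x, kR R x * (μ x + ε) * G x) / (∑ x, kR R x * (μ x + ε)) with hc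
    have hZ0 : 0 ≤ ∑ x, kR R x * (μ x + ε) := Finset.sum_nonneg fun x _ =>
      mul_nonneg (kR_nonneg x) (by linarith [hμ x])
    have hmean : ∑ x, kR R x * (μ x + ε) * (G x - c) = 0 := by
      have e : ∑ x, kR R x * (μ x + ε) * (G x - c)
          = ∑ x, kR R x * (μ x + ε) * G x - (∑ x, kR R x * (μ x + ε)) * c := by
        rw [Finset.sum_mul, ← Finset.sum_sub_distrib]
        exact Finset.sum_congr rfl fun x _ => by ring
      rw [e]
      rcases hZ0.eq_or_lt with h | h
      · have h0 : ∀ x, kR R x * (μ x + ε) = 0 := fun x =>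
          (Finset.sum_eq_zero_iff_of_nonneg (fun x _ => mul_nonneg (kR_nonneg x)
            (by linarith [hμ x]))).1 h.symm x (Finset.mem_univ x)
        simp [h0]
      · rw [hc]; field_simp; ring
    have hbase := grid_order (R := R) (μ := fun x => μ x + ε) (ν := fun i x => ν i x + δ)
      (fun x => by linarith [hμ x]) (fun i x => by linarith [hν i x])
      (fun x σ => by rw [hμs]) (fun x σ i => by rw [hνs]) (lam := lam)
      (by
        intro G hG0
        set c' := ∑ y, μ y * G y with hc'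
        have a1 : ∑ x, (μ x + ε) * G x ^ 2 ≤ ∑ x, (μ x + ε) * (G x - c') ^ 2 := by
          have : ∑ x, (μ x + ε) * (G x - c') ^ 2 = ∑ x, (μ x + ε) * G x ^ 2
              - 2 * c' * ∑ x, (μ x + ε) * G x + (∑ x, (μ x + ε)) * c' ^ 2 := by
            rw [Finset.mul_sum, Finset.sum_mul, ← Finset.sum_sub_distrib, ← Finset.sum_add_distrib]
            exact Finset.sum_congr rfl fun x _ => by ring
          rw [this, hG0]
          have : 0 ≤ ∑ x, (μ x + ε) := Finset.sum_nonneg fun x _ => by linarith [hμ x]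
          nlinarith [sq_nonneg c']
        have a2 : ∑ x, (μ x + ε) * (G x - c') ^ 2
            = (∑ x, μ x * G x ^ 2 - c' ^ 2) + ε * ∑ x, (G x - c') ^ 2 := by
          have b1 : ∑ x, (μ x + ε) * (G x - c') ^ 2
              = ∑ x, μ x * (G x - c') ^ 2 + ε * ∑ x, (G x - c') ^ 2 := by
            rw [Finset.mul_sum, ← Finset.sum_add_distrib]
            exact Finset.sum_congr rfl fun x _ => by ring
          have b2 : ∑ x, μ x * (G x - c') ^ 2 = ∑ x, μ x * G x ^ 2 - c' ^ 2 := by
            have : ∀ x, μ x * (G x - c') ^ 2 = μ x * G x ^ 2 - 2 * c' * (μ x * G x)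
                + μ x * c' ^ 2 := fun x => by ring
            simp only [this, Finset.sum_add_distrib, Finset.sum_sub_distrib, ← Finset.mul_sum,
              ← Finset.sum_mul, hμ1, one_mul]
            rw [← hc']; ring
          rw [b1, b2]
        have a3 := hG G
        have a4 := hcount G
        have a5 : ∑ i, ∑ x, (ν i x + δ) * (G (up x i) - G x) ^ 2
            = ∑ i, ∑ x, ν i x * (G (up x i) - G x) ^ 2 + δ * E1 G := by
          rw [hE1]
          simp only [Finset.mul_sum]
          rw [← Finset.sum_add_distrib]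
          refine Finset.sum_congr rfl fun i _ => ?_
          rw [← Finset.sum_add_distrib]
          exact Finset.sum_congr rfl fun x _ => by ring
        rw [a5]
        have hE0 : 0 ≤ E1 G := Finset.sum_nonneg fun _ _ => Finset.sum_nonneg fun _ _ => sq_nonneg _
        have a6 : lam * (ε * ∑ x, (G x - c') ^ 2) ≤ δ * E1 G := by
          calc lam * (ε * ∑ x, (G x - c') ^ 2)
              ≤ lam * (ε * (((1 + X) * K) * E1 G)) :=
                mul_le_mul_of_nonneg_left (mul_le_mul_of_nonneg_left a4 hεpos.le) hlam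
            _ = (ε * (lam * ((1 + X) * K))) * E1 G := by ring
            _ ≤ δ * E1 G := mul_le_mul_of_nonneg_right hεD hE0
        calc lam * ∑ x, (μ x + ε) * G x ^ 2
            ≤ lam * ((∑ x, μ x * G x ^ 2 - c' ^ 2) + ε * ∑ x, (G x - c') ^ 2) := by
              rw [← a2]; exact mul_le_mul_of_nonneg_left a1 hlam
          _ = lam * (∑ x, μ x * G x ^ 2 - c' ^ 2) + lam * (ε * ∑ x, (G x - c') ^ 2) := by ring
          _ ≤ _ := add_le_add a3 a6)
      (fun x => G x - c) hmean
    have e1 : ∑ i, ∑ x, kE R x i * (ν i x + δ) * ((G (up x i) - c) - (G x - c)) ^ 2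
        = ∑ i, ∑ x, kE R x i * ν i x * (G (up x i) - G x) ^ 2
          + δ * ∑ i, ∑ x, kE R x i * (G (up x i) - G x) ^ 2 := by
      simp only [Finset.mul_sum]
      rw [← Finset.sum_add_distrib]
      refine Finset.sum_congr rfl fun i _ => ?_
      rw [← Finset.sum_add_distrib]
      exact Finset.sum_congr rfl fun x _ => by ring
    rw [e1] at hbase
    refine le_trans (mul_le_mul_of_nonneg_left ?_ hlam) hbase
    have e2 : ∑ x, kR R x * μ x * (G x - c) ^ 2
        = ∑ x, kR R x * μ x * G x ^ 2 - 2 * c * ∑ x, kR R x * μ x * G x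
          + (∑ x, kR R x * μ x) * c ^ 2 := by
      rw [Finset.mul_sum, Finset.sum_mul, ← Finset.sum_sub_distrib, ← Finset.sum_add_distrib]
      exact Finset.sum_congr rfl fun x _ => by ring
    have e3 : 0 ≤ ∑ x, kR R x * μ x := Finset.sum_nonneg fun x _ => mul_nonneg (kR_nonneg x) (hμ x)
    calc ∑ x, kR R x * μ x * G x ^ 2 ≤ ∑ x, kR R x * μ x * (G x - c) ^ 2 := by
          rw [e2, hm]; nlinarith [sq_nonneg c]
      _ ≤ ∑ x, kR R x * (μ x + ε) * (G x - c) ^ 2 := by
          refine Finset.sum_le_sum fun x _ => mul_le_mul_of_nonneg_right ?_ (sq_nonneg _)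
          exact mul_le_mul_of_nonneg_left (by linarith) (kR_nonneg x)
  set B' := ∑ i, ∑ x, kE R x i * (G (up x i) - G x) ^ 2 with hB'
  have hB'0 : 0 ≤ B' := Finset.sum_nonneg fun i _ => Finset.sum_nonneg fun x _ =>
    mul_nonneg (kE_nonneg x i) (sq_nonneg _)
  refine le_of_forall_pos_le_add fun η hη => ?_
  have h1 := key (η / (B' + 1)) (by positivity)
  have h2 : η / (B' + 1) * B' ≤ η := by
    rw [div_mul_eq_mul_div, div_le_iff₀ (by linarith)]
    nlinarith
  linarith

end Pool.Agent.K6.H24.KR
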