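import Pool.Agent.K6.H24.KR.J5
import Pool.Agent.K6.H24.KR.Defs2

/-!
# Random rounding of an exchangeable law: symmetry and the behaviour near a point without ties
-/

namespace Pool.Agent.K6.H24.KR

open Finset MeasureTheory Pool.Agent.K6.H24.OP

set_option linter.unusedSectionVars false

variable {m N : ℕ} {R : Fin (m+1) → Fin (m+1) → Prop}

/-- a point which respects `R` strictly -/
lemma kR_one {b : Fin (m+1) → Fin (N+1)} (hb : ∀ i j, R i j → b i < b j) : kR R b = 1 := by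
  classical
  unfold kR
  have h : ∑ z : Cfg R m, is b (P z) = SS b := by
    unfold SS
    refine Finset.sum_of_injOn (fun z => P z) (fun z _ z' _ h => P_inj h)
      (fun z _ => Finset.mem_coe.2 (Finset.mem_univ _)) ?_ (fun z _ => rfl)
    intro z _ hz
    unfold is
    rw [if_neg]
    intro hmono
    apply hz
    have hok : Ok R (z : Fin (m+1) → Fin (m+1)) := by
      refine ⟨z.injective, fun i j hR => ?_⟩
      by_contra hc
      push Not at hc
      have h1 := hmono hc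
      simp only [Function.comp, Equiv.symm_apply_apply] at h1
      exact absurd (hb i j hR) (not_lt.2 h1)
    refine ⟨⟨z, hok⟩, Finset.mem_coe.2 (Finset.mem_univ _), ?_⟩
    apply Equiv.ext
    intro i
    rfl
  rw [h, div_self (SS_pos b).ne']

lemma is_zero {b : Fin (m+1) → Fin (N+1)} {i j : Fin (m+1)} (hR : R i j) (hb : b j < b i)
    (z : Cfg R m) : is b (P z) = 0 := by
  unfold is
  rw [if_neg]
  intro hmono
  have h1 : (P z) i ≤ (P z) j := (z.2.2 i j hR).le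
  have h2 := hmono h1
  simp only [Function.comp, Equiv.symm_apply_apply] at h2
  exact absurd hb (not_lt.2 h2)

/-- a point which violates `R` -/
lemma kR_zero {b : Fin (m+1) → Fin (N+1)} {i j : Fin (m+1)} (hR : R i j) (hb : b j < b i) :
    kR R b = 0 := by
  unfold kR
  rw [Finset.sum_eq_zero, zero_div]
  exact fun z _ => is_zero hR hb z

lemma kE_zero {b : Fin (m+1) → Fin (N+1)} {i j : Fin (m+1)} (hR : R i j) (hb : b j < b i)
    (k : Fin (m+1)) : kE R b k = 0 := by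
  unfold kE
  rw [Finset.sum_eq_zero, zero_div]
  intro z _
  rw [is_zero hR hb z, zero_mul]

variable {φ χ : Fin (N+1) → ℝ → ℝ} {h a : ℝ}

/-- product weight -/
noncomputable def wq {n : ℕ} (φ : Fin (N+1) → ℝ → ℝ) (h a : ℝ) (b : Fin n → Fin (N+1))
    (x : Fin n → ℝ) : ℝ := ∏ j, φ (b j) ((x j - a) / h)

/-- edge weight -/
noncomputable def wf {n : ℕ} (φ χ : Fin (N+1) → ℝ → ℝ) (h a : ℝ) (i : Fin n)
    (b : Fin n → Fin (N+1)) (x : Fin n → ℝ) : ℝ :=
  χ (b i) ((x i - a) / h) * ∏ j ∈ Finset.univ.erase i, φ (b j) ((x j - a) / h)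

lemma wq_nonneg {n : ℕ} (hS : Spl N φ χ) (b : Fin n → Fin (N+1)) (x : Fin n → ℝ) :
    0 ≤ wq φ h a b x := Finset.prod_nonneg fun j _ => hS.nonneg _ _

lemma wf_nonneg {n : ℕ} (hS : Spl N φ χ) (i : Fin n) (b : Fin n → Fin (N+1)) (x : Fin n → ℝ) :
    0 ≤ wf φ χ h a i b x := mul_nonneg (hS.nonneg' _ _) (Finset.prod_nonneg fun j _ => hS.nonneg _ _)

lemma wq_cont {n : ℕ} (hS : Spl N φ χ) (b : Fin n → Fin (N+1)) : Continuous (wq φ h a b) := by
  unfold wq
  refine continuous_finsetProd _ fun j _ => ?_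
  exact (hS.smooth (b j)).continuous.comp (by fun_prop : Continuous fun x : Fin n → ℝ => (x j - a) / h)

lemma wf_cont {n : ℕ} (hS : Spl N φ χ) (i : Fin n) (b : Fin n → Fin (N+1)) :
    Continuous (wf φ χ h a i b) := by
  unfold wf
  refine ((hS.cont (b i)).comp (by fun_prop : Continuous fun x : Fin n → ℝ => (x i - a) / h)).mul ?_
  refine continuous_finsetProd _ fun j _ => ?_
  exact (hS.smooth (b j)).continuous.comp (by fun_prop : Continuous fun x : Fin n → ℝ => (x j - a) / h)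

lemma wq_sum {n : ℕ} (hS : Spl N φ χ) (x : Fin n → ℝ) :
    ∑ b : Fin n → Fin (N+1), wq φ h a b x = 1 := by
  unfold wq
  have := Finset.prod_univ_sum (fun _ : Fin n => (Finset.univ : Finset (Fin (N+1))))
    (fun j k => φ k ((x j - a) / h))
  rw [Fintype.piFinset_univ] at this
  rw [← this]
  simp only [hS.one, Finset.prod_const_one]

lemma wf_eq {n : ℕ} (i : Fin n) (b : Fin n → Fin (N+1)) (x : Fin n → ℝ) :
    wf φ χ h a i b x = ∏ j, (if j = i then χ (b j) ((x j - a) / h) else φ (b j) ((x j - a) / h)) := by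
  unfold wf
  rw [← Finset.mul_prod_erase Finset.univ _ (Finset.mem_univ i), if_pos rfl]
  congr 1
  refine Finset.prod_congr rfl fun j hj => ?_
  rw [if_neg (Finset.ne_of_mem_erase hj)]

lemma wf_sum {n : ℕ} (hS : Spl N φ χ) (i : Fin n) (x : Fin n → ℝ) :
    ∑ b : Fin n → Fin (N+1), wf φ χ h a i b x ≤ 1 := by
  simp only [wf_eq]
  have := Finset.prod_univ_sum (fun _ : Fin n => (Finset.univ : Finset (Fin (N+1))))
    (fun j k => if j = i then χ k ((x j - a) / h) else φ k ((x j - a) / h))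
  rw [Fintype.piFinset_univ] at this
  rw [← this]
  refine Finset.prod_le_one (fun j _ => ?_) (fun j _ => ?_)
  · refine Finset.sum_nonneg fun k _ => ?_
    split_ifs
    · exact hS.nonneg' _ _
    · exact hS.nonneg _ _
  · split_ifs
    · exact hS.le_one _
    · exact (hS.one _).le

lemma wq_le_one {n : ℕ} (hS : Spl N φ χ) (b : Fin n → Fin (N+1)) (x : Fin n → ℝ) :
    wq φ h a b x ≤ 1 := by
  rw [← wq_sum (h := h) (a := a) hS x]
  exact Finset.single_le_sum (fun b _ => wq_nonneg hS b x) (Finset.mem_univ b)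

lemma wf_le_one {n : ℕ} (hS : Spl N φ χ) (i : Fin n) (b : Fin n → Fin (N+1)) (x : Fin n → ℝ) :
    wf φ χ h a i b x ≤ 1 :=
  (Finset.single_le_sum (f := fun b => wf φ χ h a i b x) (fun b _ => wf_nonneg hS i b x)
    (Finset.mem_univ b)).trans (wf_sum hS i x)

lemma wq_near {n : ℕ} (hS : Spl N φ χ) {b : Fin n → Fin (N+1)} {x : Fin n → ℝ}
    (hx : ∀ j, 0 ≤ (x j - a) / h ∧ (x j - a) / h ≤ (N:ℝ) + 1) (hne : wq φ h a b x ≠ 0) (j : Fin n) :
    |(x j - a) / h - (((b j).val : ℝ) + 1 / 2)| ≤ 3 / 2 := by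
  refine hS.near (b j) _ (hx j).1 (hx j).2 ?_
  exact (Finset.prod_ne_zero_iff.1 hne) j (Finset.mem_univ j)

lemma wf_near {n : ℕ} (hS : Spl N φ χ) {i : Fin n} {b : Fin n → Fin (N+1)} {x : Fin n → ℝ}
    (hx : ∀ j, 0 ≤ (x j - a) / h ∧ (x j - a) / h ≤ (N:ℝ) + 1) (hne : wf φ χ h a i b x ≠ 0)
    (j : Fin n) :
    |(x j - a) / h - (((b j).val : ℝ) + 1 / 2)| ≤ 3 / 2 := by
  rw [wf_eq] at hne
  have h1 := (Finset.prod_ne_zero_iff.1 hne) j (Finset.mem_univ j)
  by_cases hj : j = i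
  · rw [if_pos hj] at h1
    exact hS.near' (b j) _ (hx j).1 (hx j).2 h1
  · rw [if_neg hj] at h1
    exact hS.near (b j) _ (hx j).1 (hx j).2 h1

lemma wq_comp {n : ℕ} (b : Fin n → Fin (N+1)) (σ : Equiv.Perm (Fin n)) (x : Fin n → ℝ) :
    wq φ h a (b ∘ σ) (x ∘ σ) = wq φ h a b x := by
  unfold wq
  exact Equiv.prod_comp σ (fun j => φ (b j) ((x j - a) / h))

lemma wf_comp {n : ℕ} (i : Fin n) (b : Fin n → Fin (N+1)) (σ : Equiv.Perm (Fin n))
    (x : Fin n → ℝ) :
    wf φ χ h a i (b ∘ σ) (x ∘ σ) = wf φ χ h a (σ i) b x := by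
  rw [wf_eq, wf_eq,
    ← Equiv.prod_comp σ (fun j => if j = σ i then χ (b j) ((x j - a) / h)
      else φ (b j) ((x j - a) / h))]
  refine Finset.prod_congr rfl fun j _ => ?_
  simp only [Function.comp, EmbeddingLike.apply_eq_iff_eq]

variable {n : ℕ} {μ : Measure (Fin n → ℝ)}

lemma meas_perm (σ : Equiv.Perm (Fin n)) : Measurable (fun x : Fin n → ℝ => x ∘ σ) :=
  measurable_pi_lambda _ fun i => measurable_pi_apply (σ i)

lemma ex_int (hex : ∀ σ : Equiv.Perm (Fin n), Measure.map (fun x : Fin n → ℝ => x ∘ σ) μ = μ)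
    (σ : Equiv.Perm (Fin n)) {g : (Fin n → ℝ) → ℝ} (hg : Continuous g) :
    ∫ x, g (x ∘ σ) ∂μ = ∫ x, g x ∂μ := by
  conv_rhs => rw [← hex σ]
  rw [integral_map (meas_perm σ).aemeasurable hg.aestronglyMeasurable]

lemma mm_eq (b : Fin n → Fin (N+1)) : mm μ φ h a b = ∫ x, wq φ h a b x ∂μ := rfl

lemma ee_eq (i : Fin n) (b : Fin n → Fin (N+1)) : ee μ φ χ h a i b = ∫ x, wf φ χ h a i b x ∂μ := rfl

lemma mm_symm (hS : Spl N φ χ)
    (hex : ∀ σ : Equiv.Perm (Fin n), Measure.map (fun x : Fin n → ℝ => x ∘ σ) μ = μ)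
    (b : Fin n → Fin (N+1)) (σ : Equiv.Perm (Fin n)) :
    mm μ φ h a (b ∘ σ) = mm μ φ h a b := by
  rw [mm_eq, mm_eq, ← ex_int hex σ (wq_cont hS (b ∘ σ))]
  simp only [wq_comp]

lemma ee_symm (hS : Spl N φ χ)
    (hex : ∀ σ : Equiv.Perm (Fin n), Measure.map (fun x : Fin n → ℝ => x ∘ σ) μ = μ)
    (i : Fin n) (b : Fin n → Fin (N+1)) (σ : Equiv.Perm (Fin n)) :
    ee μ φ χ h a i (b ∘ σ) = ee μ φ χ h a (σ i) b := by
  rw [ee_eq, ee_eq, ← ex_int hex σ (wf_cont hS i (b ∘ σ))]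
  simp only [wf_comp]

variable [IsProbabilityMeasure μ]

lemma bdd_int {g : (Fin n → ℝ) → ℝ} (hg : AEStronglyMeasurable g μ) {K : ℝ} (hK : ∀ x, |g x| ≤ K) :
    Integrable g μ :=
  Integrable.of_bound hg K (Filter.Eventually.of_forall hK)

lemma wq_int (hS : Spl N φ χ) (b : Fin n → Fin (N+1)) : Integrable (wq φ h a b) μ :=
  bdd_int (wq_cont hS b).aestronglyMeasurable (K := 1) fun x => by
    rw [abs_of_nonneg (wq_nonneg hS b x)]; exact wq_le_one hS b x

lemma wf_int (hS : Spl N φ χ) (i : Fin n) (b : Fin n → Fin (N+1)) :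
    Integrable (wf φ χ h a i b) μ :=
  bdd_int (wf_cont hS i b).aestronglyMeasurable (K := 1) fun x => by
    rw [abs_of_nonneg (wf_nonneg hS i b x)]; exact wf_le_one hS i b x

lemma mm_nonneg (hS : Spl N φ χ) (b : Fin n → Fin (N+1)) : 0 ≤ mm μ φ h a b := by
  rw [mm_eq]; exact integral_nonneg fun x => wq_nonneg hS b x

lemma ee_nonneg (hS : Spl N φ χ) (i : Fin n) (b : Fin n → Fin (N+1)) :
    0 ≤ ee μ φ χ h a i b := by
  rw [ee_eq]; exact integral_nonneg fun x => wf_nonneg hS i b x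

lemma mm_sum (hS : Spl N φ χ) : ∑ b : Fin n → Fin (N+1), mm μ φ h a b = 1 := by
  simp only [mm_eq]
  rw [← integral_finsetSum _ fun b _ => wq_int hS b]
  simp only [wq_sum hS]
  simp

lemma mm_fun (hS : Spl N φ χ) (G : (Fin n → Fin (N+1)) → ℝ) :
    ∑ b, G b * mm μ φ h a b = ∫ x, ∑ b, G b * wq φ h a b x ∂μ := by
  rw [integral_finsetSum _ fun b _ => (wq_int hS b).const_mul (G b)]
  exact Finset.sum_congr rfl fun b _ => by rw [integral_const_mul, mm_eq]

lemma ee_fun (hS : Spl N φ χ) (G : Fin n → (Fin n → Fin (N+1)) → ℝ) :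
    ∑ i, ∑ b, G i b * ee μ φ χ h a i b = ∫ x, ∑ i, ∑ b, G i b * wf φ χ h a i b x ∂μ := by
  rw [integral_finsetSum _ fun i _ => integrable_finsetSum _ fun b _ =>
    (wf_int hS i b).const_mul (G i b)]
  refine Finset.sum_congr rfl fun i _ => ?_
  rw [integral_finsetSum _ fun b _ => (wf_int hS i b).const_mul (G i b)]
  exact Finset.sum_congr rfl fun b _ => by rw [integral_const_mul, ee_eq]

end Pool.Agent.K6.H24.KR
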