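import Pool.Agent.K6.H24.KR.J6

/-!
# The limit of fine grids
-/

namespace Pool.Agent.K6.H24.KR

open Finset MeasureTheory Filter Topology Pool.Agent.K6.H24.OP

set_option linter.unusedSectionVars false

/-- spacing -/
noncomputable def hs (M : ℕ) : ℝ := 1 / ((M:ℝ) + 1)
/-- origin -/
noncomputable def as (M : ℕ) : ℝ := -((M:ℝ) + 1)
/-- size -/
def Ns (M : ℕ) : ℕ := 2 * (M + 1) ^ 2 - 1

lemma hs_pos (M : ℕ) : 0 < hs M := by unfold hs; positivity

lemma Ns_cast (M : ℕ) : ((Ns M : ℕ) : ℝ) + 1 = 2 * ((M:ℝ) + 1) ^ 2 := by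
  unfold Ns
  have h : 1 ≤ 2 * (M + 1) ^ 2 := by nlinarith [Nat.zero_le M]
  rw [Nat.cast_sub h]
  push_cast
  ring

lemma hs_tendsto : Tendsto hs atTop (𝓝 0) := tendsto_one_div_add_atTop_nhds_zero_nat

variable {n : ℕ}

/-- the grid point -/
noncomputable def pt (M : ℕ) (b : Fin n → Fin (Ns M + 1)) : Fin n → ℝ :=
  fun j => as M + (((b j).val : ℝ) + 1 / 2) * hs M

lemma in_box {M : ℕ} {t : ℝ} (ht : |t| ≤ (M:ℝ) + 1) :
    0 ≤ (t - as M) / hs M ∧ (t - as M) / hs M ≤ ((Ns M : ℕ) : ℝ) + 1 := by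
  rw [abs_le] at ht
  rw [Ns_cast]
  unfold as hs
  have h1 : (0:ℝ) < (M:ℝ) + 1 := by positivity
  have e : (t - -((M:ℝ) + 1)) / (1 / ((M:ℝ) + 1)) = (t + ((M:ℝ) + 1)) * ((M:ℝ) + 1) := by
    field_simp
    ring
  rw [e]
  constructor
  · nlinarith [ht.1]
  · nlinarith [ht.2]

lemma near_pt {M : ℕ} {t : ℝ} {k : ℝ} (h : |(t - as M) / hs M - k| ≤ 3 / 2) :
    |t - (as M + k * hs M)| ≤ 3 / 2 * hs M := by
  have h0 := hs_pos M
  have e : t - (as M + k * hs M) = ((t - as M) / hs M - k) * hs M := by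
    field_simp
    ring
  rw [e, abs_mul, abs_of_pos h0]
  exact mul_le_mul_of_nonneg_right h h0.le

lemma eventually_box (x : Fin n → ℝ) : ∀ᶠ M : ℕ in atTop, ∀ j, |x j| ≤ (M:ℝ) + 1 := by
  rw [Filter.eventually_all]
  intro j
  obtain ⟨M0, hM0⟩ := exists_nat_ge |x j|
  filter_upwards [eventually_ge_atTop M0] with M hM
  have : (M0:ℝ) ≤ M := by exact_mod_cast hM
  linarith

variable {φ χ : ∀ M : ℕ, Fin (Ns M + 1) → ℝ → ℝ} (hS : ∀ M, Spl (Ns M) (φ M) (χ M))
include hS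

lemma ev_wq_near (x : Fin n → ℝ) : ∀ᶠ M : ℕ in atTop, ∀ b : Fin n → Fin (Ns M + 1),
    wq (φ M) (hs M) (as M) b x ≠ 0 → ∀ j, |x j - pt M b j| ≤ 3 / 2 * hs M := by
  filter_upwards [eventually_box x] with M hM b hb j
  exact near_pt (wq_near (hS M) (fun j => in_box (hM j)) hb j)

lemma ev_wf_near (x : Fin n → ℝ) : ∀ᶠ M : ℕ in atTop, ∀ (i : Fin n) (b : Fin n → Fin (Ns M + 1)),
    wf (φ M) (χ M) (hs M) (as M) i b x ≠ 0 → ∀ j, |x j - pt M b j| ≤ 3 / 2 * hs M := by
  filter_upwards [eventually_box x] with M hM i b hb j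
  exact near_pt (wf_near (hS M) (fun j => in_box (hM j)) hb j)

omit hS in
lemma ev_lt {R : Fin n → Fin n → Prop} {x : Fin n → ℝ} (hx : ∀ i j, R i j → x i < x j) :
    ∀ᶠ M : ℕ in atTop, ∀ b : Fin n → Fin (Ns M + 1),
      (∀ j, |x j - pt M b j| ≤ 3 / 2 * hs M) → ∀ i j, R i j → b i < b j := by
  have h1 : ∀ᶠ M : ℕ in atTop, ∀ i j, R i j → 3 * hs M < x j - x i := by
    rw [Filter.eventually_all]
    intro i
    rw [Filter.eventually_all]
    intro j
    by_cases hR : R i j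
    · have h2 : Tendsto (fun M => 3 * hs M) atTop (𝓝 (3 * 0)) := hs_tendsto.const_mul 3
      rw [mul_zero] at h2
      filter_upwards [h2.eventually_lt_const (sub_pos.2 (hx i j hR))] with M hM _
      exact hM
    · exact Filter.Eventually.of_forall fun M h => absurd h hR
  filter_upwards [h1] with M hM b hb i j hR
  have h2 := hM i j hR
  have h3 := hb i
  have h4 := hb j
  rw [abs_le] at h3 h4
  have h5 : pt M b i < pt M b j := by linarith [h3.1, h3.2, h4.1, h4.2]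
  unfold pt at h5
  have h6 : (((b i).val : ℝ) + 1 / 2) * hs M < (((b j).val : ℝ) + 1 / 2) * hs M := by linarith
  have h7 := lt_of_mul_lt_mul_right h6 (hs_pos M).le
  have h8 : ((b i).val : ℝ) < (b j).val := by linarith
  rw [Fin.lt_def]
  exact_mod_cast h8

omit hS in
lemma ev_close (x : Fin n → ℝ) {δ : ℝ} (hδ : 0 < δ) :
    ∀ᶠ M : ℕ in atTop, ∀ b : Fin n → Fin (Ns M + 1),
      (∀ j, |x j - pt M b j| ≤ 3 / 2 * hs M) → ∀ y : Fin n → ℝ, (∀ j, |y j - pt M b j| ≤ hs M) →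
      dist y x < δ := by
  have h2 : Tendsto (fun M => 5 / 2 * hs M) atTop (𝓝 (5 / 2 * 0)) := hs_tendsto.const_mul _
  rw [mul_zero] at h2
  filter_upwards [h2.eventually_lt_const hδ] with M hM b hb y hy
  refine lt_of_le_of_lt ?_ hM
  rw [dist_pi_le_iff (by have := hs_pos M; positivity)]
  intro j
  rw [Real.dist_eq]
  calc |y j - x j| = |(y j - pt M b j) - (x j - pt M b j)| := by ring_nf
    _ ≤ |y j - pt M b j| + |x j - pt M b j| := abs_sub _ _
    _ ≤ hs M + 3 / 2 * hs M := add_le_add (hy j) (hb j)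
    _ = 5 / 2 * hs M := by ring

/-- the cone -/
def cn (R : Fin n → Fin n → Prop) : Set (Fin n → ℝ) := {x | ∀ i j, R i j → x i ≤ x j}

section limit

variable {m : ℕ} {R : Fin (m+1) → Fin (m+1) → Prop}

omit hS in
/-- in the cone all nearby grid points respect `R`, outside they violate it -/
lemma ev_out {x : Fin (m+1) → ℝ} (hx : x ∉ cn R) :
    ∃ i j, R i j ∧ ∀ᶠ M : ℕ in atTop, ∀ b : Fin (m+1) → Fin (Ns M + 1),
      (∀ j, |x j - pt M b j| ≤ 3 / 2 * hs M) → b j < b i := by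
  unfold cn at hx
  simp only [Set.mem_ofPred_eq, not_forall] at hx
  obtain ⟨i, j, hR, hij⟩ := hx
  push Not at hij
  refine ⟨i, j, hR, ?_⟩
  filter_upwards [ev_lt (R := fun a b => a = j ∧ b = i) (x := x) (by
    rintro a b ⟨rfl, rfl⟩; exact hij)] with M hM b hb
  exact hM b hb j i ⟨rfl, rfl⟩

include hS in
lemma U_tendsto {x : Fin (m+1) → ℝ} (hx : ∀ i j, R i j → x i ≠ x j)
    {Φ : (Fin (m+1) → ℝ) → ℝ} (hΦ : Continuous Φ) :
    Tendsto (fun M => ∑ b, (kR R b * Φ (pt M b)) * wq (φ M) (hs M) (as M) b x) atTop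
      (𝓝 ((cn R).indicator Φ x)) := by
  by_cases hxc : x ∈ cn R
  · rw [Set.indicator_of_mem hxc]
    have hlt : ∀ i j, R i j → x i < x j := fun i j hR => lt_of_le_of_ne (hxc i j hR) (hx i j hR)
    rw [Metric.tendsto_nhds]
    intro ε hε
    obtain ⟨δ, hδ, hδΦ⟩ := Metric.continuousAt_iff.1 hΦ.continuousAt (ε / 2) (half_pos hε)
    filter_upwards [ev_wq_near hS x, ev_lt hlt, ev_close x hδ] with M h1 h2 h3
    rw [Real.dist_eq]
    have e : ∑ b, (kR R b * Φ (pt M b)) * wq (φ M) (hs M) (as M) b x - Φ x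
        = ∑ b, (kR R b * Φ (pt M b) - Φ x) * wq (φ M) (hs M) (as M) b x := by
      simp only [sub_mul, Finset.sum_sub_distrib, ← Finset.mul_sum]
      rw [wq_sum (hS M), mul_one]
    rw [e]
    refine lt_of_le_of_lt (Finset.abs_sum_le_sum_abs _ _) ?_
    have h4 : ∑ b, |(kR R b * Φ (pt M b) - Φ x) * wq (φ M) (hs M) (as M) b x|
        ≤ ∑ b, ε / 2 * wq (φ M) (hs M) (as M) b x := by
      refine Finset.sum_le_sum fun b _ => ?_
      by_cases hb : wq (φ M) (hs M) (as M) b x = 0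
      · rw [hb]; simp
      · rw [abs_mul, abs_of_nonneg (wq_nonneg (hS M) b x)]
        refine mul_le_mul_of_nonneg_right ?_ (wq_nonneg (hS M) b x)
        have h5 := h1 b hb
        rw [kR_one (h2 b h5), one_mul]
        have h6 := h3 b h5 (pt M b) (fun j => by
          rw [sub_self, abs_zero]; exact (hs_pos M).le)
        have h7 := hδΦ h6
        rw [Real.dist_eq] at h7
        exact h7.le
    rw [← Finset.mul_sum, wq_sum (hS M), mul_one] at h4
    linarith
  · rw [Set.indicator_of_notMem hxc]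
    obtain ⟨i, j, hR, hev⟩ := ev_out hxc
    refine tendsto_const_nhds.congr' ?_
    filter_upwards [ev_wq_near hS x, hev] with M h1 h2
    symm
    refine Finset.sum_eq_zero fun b _ => ?_
    by_cases hb : wq (φ M) (hs M) (as M) b x = 0
    · rw [hb, mul_zero]
    · rw [kR_zero hR (h2 b (h1 b hb)), zero_mul, zero_mul]

omit hS in
lemma slope {f : (Fin (m+1) → ℝ) → ℝ} (hf : ContDiff ℝ 1 f) (M : ℕ) (i : Fin (m+1))
    (b : Fin (m+1) → Fin (Ns M + 1)) :
    ∃ y : Fin (m+1) → ℝ, (∀ j, |y j - pt M b j| ≤ hs M) ∧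
      ((f (pt M (up b i)) - f (pt M b)) / hs M) ^ 2 ≤ (fderiv ℝ f y (Pi.single i 1)) ^ 2 := by
  have h0 := hs_pos M
  by_cases h : (b i).val + 1 < Ns M + 1
  · have e1 : pt M (up b i) = pt M b + hs M • (Pi.single i (1:ℝ) : Fin (m+1) → ℝ) := by
      funext j
      unfold pt
      simp only [Pi.add_apply, Pi.smul_apply, smul_eq_mul]
      rw [up_val h]
      by_cases hj : j = i
      · subst hj; simp; ring
      · simp [hj]
    let g : ℝ → ℝ := fun t => f (pt M b + t • (Pi.single i (1:ℝ) : Fin (m+1) → ℝ))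
    have hg : ∀ t, HasDerivAt g (fderiv ℝ f (pt M b + t • (Pi.single i (1:ℝ) : Fin (m+1) → ℝ))
        (Pi.single i 1)) t := by
      intro t
      have h1 : HasDerivAt (fun t : ℝ => pt M b + t • (Pi.single i (1:ℝ) : Fin (m+1) → ℝ))
          (Pi.single i (1:ℝ)) t := by
        have h2 := (hasDerivAt_id t).smul_const (Pi.single i (1:ℝ) : Fin (m+1) → ℝ)
        rw [one_smul] at h2
        exact h2.const_add (pt M b)
      have h3 := (hf.differentiable one_ne_zero
        (pt M b + t • (Pi.single i (1:ℝ) : Fin (m+1) → ℝ))).hasFDerivAt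
      exact h3.comp_hasDerivAt t h1
    obtain ⟨ξ, hξ, hξe⟩ := exists_hasDerivAt_eq_slope g _ h0
      (fun t _ => (hg t).continuousAt.continuousWithinAt) (fun t _ => hg t)
    refine ⟨pt M b + ξ • (Pi.single i (1:ℝ) : Fin (m+1) → ℝ), ?_, ?_⟩
    · intro j
      simp only [Pi.add_apply, Pi.smul_apply, smul_eq_mul, add_sub_cancel_left]
      by_cases hj : j = i
      · subst hj
        simp only [Pi.single_eq_same, mul_one]
        rw [abs_of_pos hξ.1]
        exact hξ.2.le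
      · simp [hj, h0.le]
    · rw [hξe, e1]
      have e2 : g 0 = f (pt M b) := by simp [g]
      have e3 : g (hs M) = f (pt M b + hs M • (Pi.single i (1:ℝ) : Fin (m+1) → ℝ)) := rfl
      rw [← e2, ← e3, sub_zero]
  · refine ⟨pt M b, fun j => by rw [sub_self, abs_zero]; exact h0.le, ?_⟩
    have e : up b i = b := by unfold up; rw [dif_neg h]
    rw [e, sub_self, zero_div, zero_pow two_ne_zero]
    exact sq_nonneg _

/-- the energy density of the grid function -/
noncomputable def VV (φ χ : ∀ M : ℕ, Fin (Ns M + 1) → ℝ → ℝ) (R : Fin (m+1) → Fin (m+1) → Prop)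
    (f : (Fin (m+1) → ℝ) → ℝ) (M : ℕ) (x : Fin (m+1) → ℝ) : ℝ :=
  ∑ i, ∑ b, (kE R b i * ((f (pt M (up b i)) - f (pt M b)) / hs M) ^ 2)
    * wf (φ M) (χ M) (hs M) (as M) i b x

include hS in
lemma VV_nonneg (f : (Fin (m+1) → ℝ) → ℝ) (M : ℕ) (x : Fin (m+1) → ℝ) : 0 ≤ VV φ χ R f M x :=
  Finset.sum_nonneg fun i _ => Finset.sum_nonneg fun b _ =>
    mul_nonneg (mul_nonneg (kE_nonneg b i) (sq_nonneg _)) (wf_nonneg (hS M) i b x)

include hS in
lemma VV_le {f : (Fin (m+1) → ℝ) → ℝ} (hf : ContDiff ℝ 1 f) {K : ℝ}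
    (hK : ∀ x i, |fderiv ℝ f x (Pi.single i 1)| ≤ K) (M : ℕ) (x : Fin (m+1) → ℝ) :
    VV φ χ R f M x ≤ (m+1) * K ^ 2 := by
  have h1 : ∀ i b, (kE R b i * ((f (pt M (up b i)) - f (pt M b)) / hs M) ^ 2)
      * wf (φ M) (χ M) (hs M) (as M) i b x ≤ K ^ 2 * wf (φ M) (χ M) (hs M) (as M) i b x := by
    intro i b
    refine mul_le_mul_of_nonneg_right ?_ (wf_nonneg (hS M) i b x)
    obtain ⟨y, -, hy⟩ := slope hf M i b
    have h2 : (fderiv ℝ f y (Pi.single i 1)) ^ 2 ≤ K ^ 2 := by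
      rw [← sq_abs]
      exact pow_le_pow_left₀ (abs_nonneg _) (hK y i) 2
    calc kE R b i * ((f (pt M (up b i)) - f (pt M b)) / hs M) ^ 2
        ≤ 1 * K ^ 2 := mul_le_mul (kE_le_one b i) (hy.trans h2) (sq_nonneg _) zero_le_one
      _ = K ^ 2 := one_mul _
  calc VV φ χ R f M x ≤ ∑ i : Fin (m+1), ∑ b, K ^ 2 * wf (φ M) (χ M) (hs M) (as M) i b x :=
        Finset.sum_le_sum fun i _ => Finset.sum_le_sum fun b _ => h1 i b
    _ ≤ ∑ _i : Fin (m+1), K ^ 2 := by
        refine Finset.sum_le_sum fun i _ => ?_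
        rw [← Finset.mul_sum]
        have := wf_sum (h := hs M) (a := as M) (hS M) i x
        nlinarith [sq_nonneg K]
    _ = (m+1) * K ^ 2 := by simp

include hS in
lemma VV_ev {f : (Fin (m+1) → ℝ) → ℝ} (hf : ContDiff ℝ 1 f) (x : Fin (m+1) → ℝ)
    {η : ℝ} (hη : 0 < η) :
    ∀ᶠ M : ℕ in atTop, VV φ χ R f M x ≤ (cn R).indicator (gsq f) x + η := by
  by_cases hxc : x ∈ cn R
  · rw [Set.indicator_of_mem hxc]
    set η' := η / (m+1) with hη'
    have hη'0 : 0 < η' := by rw [hη']; positivity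
    have hcont : ∀ i : Fin (m+1), Continuous fun y => (fderiv ℝ f y (Pi.single i 1)) ^ 2 := by
      intro i
      exact ((hf.continuous_fderiv one_ne_zero).clm_apply continuous_const).pow 2
    have h1 : ∀ i : Fin (m+1), ∃ δ > 0, ∀ y, dist y x < δ →
        (fderiv ℝ f y (Pi.single i 1)) ^ 2 ≤ (fderiv ℝ f x (Pi.single i 1)) ^ 2 + η' := by
      intro i
      obtain ⟨δ, hδ, h⟩ := Metric.continuousAt_iff.1 (hcont i).continuousAt η' hη'0
      refine ⟨δ, hδ, fun y hy => ?_⟩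
      have := h hy
      rw [Real.dist_eq, abs_lt] at this
      linarith [this.2]
    choose δ hδ hδf using h1
    have h2 : ∀ᶠ M : ℕ in atTop, ∀ i : Fin (m+1), ∀ b : Fin (m+1) → Fin (Ns M + 1),
        (∀ j, |x j - pt M b j| ≤ 3 / 2 * hs M) → ∀ y : Fin (m+1) → ℝ,
        (∀ j, |y j - pt M b j| ≤ hs M) → dist y x < δ i := by
      rw [Filter.eventually_all]
      exact fun i => ev_close x (hδ i)
    filter_upwards [ev_wf_near hS x, h2] with M h3 h4
    have h5 : ∀ i b, (kE R b i * ((f (pt M (up b i)) - f (pt M b)) / hs M) ^ 2)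
        * wf (φ M) (χ M) (hs M) (as M) i b x
        ≤ ((fderiv ℝ f x (Pi.single i 1)) ^ 2 + η') * wf (φ M) (χ M) (hs M) (as M) i b x := by
      intro i b
      by_cases hb : wf (φ M) (χ M) (hs M) (as M) i b x = 0
      · rw [hb, mul_zero, mul_zero]
      · refine mul_le_mul_of_nonneg_right ?_ (wf_nonneg (hS M) i b x)
        obtain ⟨y, hy1, hy⟩ := slope hf M i b
        have h6 := hδf i y (h4 i b (h3 i b hb) y hy1)
        have h7 : 0 ≤ (fderiv ℝ f x (Pi.single i 1)) ^ 2 + η' := by positivity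
        calc kE R b i * ((f (pt M (up b i)) - f (pt M b)) / hs M) ^ 2
            ≤ 1 * ((fderiv ℝ f x (Pi.single i 1)) ^ 2 + η') :=
              mul_le_mul (kE_le_one b i) (hy.trans h6) (sq_nonneg _) zero_le_one
          _ = _ := one_mul _
    calc VV φ χ R f M x ≤ ∑ i : Fin (m+1), ∑ b, ((fderiv ℝ f x (Pi.single i 1)) ^ 2 + η')
          * wf (φ M) (χ M) (hs M) (as M) i b x :=
          Finset.sum_le_sum fun i _ => Finset.sum_le_sum fun b _ => h5 i b
      _ ≤ ∑ i : Fin (m+1), ((fderiv ℝ f x (Pi.single i 1)) ^ 2 + η') := by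
          refine Finset.sum_le_sum fun i _ => ?_
          rw [← Finset.mul_sum]
          have := wf_sum (h := hs M) (a := as M) (hS M) i x
          have h7 : 0 ≤ (fderiv ℝ f x (Pi.single i 1)) ^ 2 + η' := by positivity
          nlinarith
      _ = gsq f x + η := by
          rw [Finset.sum_add_distrib]
          unfold gsq
          simp only [Finset.sum_const, Finset.card_univ, Fintype.card_fin, nsmul_eq_mul]
          rw [hη']
          push_cast
          field_simp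
  · rw [Set.indicator_of_notMem hxc]
    obtain ⟨i, j, hR, hev⟩ := ev_out hxc
    filter_upwards [ev_wf_near hS x, hev] with M h1 h2
    have : VV φ χ R f M x = 0 := by
      refine Finset.sum_eq_zero fun k _ => Finset.sum_eq_zero fun b _ => ?_
      by_cases hb : wf (φ M) (χ M) (hs M) (as M) k b x = 0
      · rw [hb, mul_zero]
      · rw [kE_zero hR (h2 b (h1 k b hb)), zero_mul, zero_mul]
    rw [this]
    linarith

end limit

end Pool.Agent.K6.H24.KR
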