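import Pool.Agent.K6.H24.KR.Defs

/-!
# Quadratic B-splines on a grid of the unit interval
-/

namespace Pool.Agent.K6.H24.KR

open MeasureTheory Filter

namespace PieceA

/-- truncated power -/
noncomputable def pw (n : ℕ) (x : ℝ) : ℝ := (max x 0) ^ n

theorem pw_of_nonpos {n : ℕ} (hn : n ≠ 0) {x : ℝ} (h : x ≤ 0) : pw n x = 0 := by
  simp [pw, max_eq_right h, hn]

theorem pw_of_nonneg {n : ℕ} {x : ℝ} (h : 0 ≤ x) : pw n x = x ^ n := by
  simp [pw, max_eq_left h]

theorem continuous_pw (n : ℕ) : Continuous (pw n) := by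
  unfold pw
  fun_prop

theorem hasDerivAt_pw (n : ℕ) (hn : n ≠ 0) (x : ℝ) :
    HasDerivAt (pw (n+1)) (((n:ℝ)+1) * pw n x) x := by
  rcases lt_trichotomy x 0 with h | h | h
  · have : (pw (n+1)) =ᶠ[nhds x] fun _ => (0:ℝ) := by
      filter_upwards [eventually_lt_nhds h] with y hy
      exact pw_of_nonpos (by omega) hy.le
    rw [pw_of_nonpos hn h.le, mul_zero]
    exact (hasDerivAt_const x (0:ℝ)).congr_of_eventuallyEq this
  · subst h
    rw [pw_of_nonpos hn le_rfl, mul_zero]
    rw [hasDerivAt_iff_isLittleO_nhds_zero]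
    simp only [zero_add, smul_zero, sub_zero]
    rw [pw_of_nonpos (by omega : n+1 ≠ 0) le_rfl]
    simp only [sub_zero]
    have h1 : (fun x : ℝ => pw (n+1) x) =O[nhds 0] fun x : ℝ => x ^ (n+1) := by
      refine Asymptotics.IsBigO.of_bound 1 (Filter.Eventually.of_forall fun y => ?_)
      rw [one_mul, pw, norm_pow, norm_pow]
      refine pow_le_pow_left₀ (norm_nonneg _) ?_ _
      rw [Real.norm_eq_abs, Real.norm_eq_abs]
      rcases le_total y 0 with hy | hy
      · rw [max_eq_right hy]; simp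
      · rw [max_eq_left hy]
    refine h1.trans_isLittleO ?_
    have h2 : (fun x : ℝ => x ^ (n+1)) =o[nhds 0] fun x : ℝ => x ^ 1 :=
      Asymptotics.isLittleO_pow_pow (by omega)
    simpa using h2
  · have : (pw (n+1)) =ᶠ[nhds x] fun y => y ^ (n+1) := by
      filter_upwards [eventually_gt_nhds h] with y hy
      exact pw_of_nonneg hy.le
    rw [pw_of_nonneg h.le]
    refine HasDerivAt.congr_of_eventuallyEq ?_ this
    have := hasDerivAt_pow (n+1) x
    simpa using this

/-- the ramp -/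
noncomputable def rmp (u : ℝ) : ℝ := pw 1 u - pw 1 (u - 1)
/-- the hat -/
noncomputable def hat (u : ℝ) : ℝ := pw 1 (u + 1) - 2 * pw 1 u + pw 1 (u - 1)
/-- the smooth step -/
noncomputable def stp (u : ℝ) : ℝ := (pw 2 (u + 1) - 2 * pw 2 u + pw 2 (u - 1)) / 2
/-- its primitive -/
noncomputable def prm (u : ℝ) : ℝ := (pw 3 (u + 1) - 2 * pw 3 u + pw 3 (u - 1)) / 6

theorem hat_eq (u : ℝ) : hat u = rmp (u + 1) - rmp u := by
  unfold hat rmp
  rw [add_sub_cancel_right]; ring

theorem rmp_nonneg (u : ℝ) : 0 ≤ rmp u := by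
  unfold rmp pw
  rw [pow_one, pow_one, sub_nonneg]
  exact max_le_max (by linarith) le_rfl

theorem rmp_le_one (u : ℝ) : rmp u ≤ 1 := by
  unfold rmp pw
  rw [pow_one, pow_one]
  rcases le_total u 0 with h | h
  · rw [max_eq_right h, max_eq_right (by linarith)]; norm_num
  · rw [max_eq_left h]
    have := le_max_left (u - 1) 0
    linarith

theorem hat_nonneg (u : ℝ) : 0 ≤ hat u := by
  unfold hat pw
  rw [pow_one, pow_one, pow_one]
  rcases le_total u 0 with h | h
  · rw [max_eq_right h]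
    have := le_max_right (u + 1) 0
    have := le_max_right (u - 1) 0
    linarith
  · rw [max_eq_left h, max_eq_left (by linarith : 0 ≤ u + 1)]
    have := le_max_left (u - 1) 0
    linarith

theorem hat_of_le {u : ℝ} (h : u ≤ -1) : hat u = 0 := by
  unfold hat
  rw [pw_of_nonpos one_ne_zero (by linarith), pw_of_nonpos one_ne_zero (by linarith),
    pw_of_nonpos one_ne_zero (by linarith)]
  norm_num

theorem hat_of_ge {u : ℝ} (h : 1 ≤ u) : hat u = 0 := by
  unfold hat
  rw [pw_of_nonneg (by linarith), pw_of_nonneg (by linarith), pw_of_nonneg (by linarith)]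
  ring

theorem stp_of_le {u : ℝ} (h : u ≤ -1) : stp u = 0 := by
  unfold stp
  rw [pw_of_nonpos two_ne_zero (by linarith), pw_of_nonpos two_ne_zero (by linarith),
    pw_of_nonpos two_ne_zero (by linarith)]
  norm_num

theorem stp_of_ge {u : ℝ} (h : 1 ≤ u) : stp u = 1 := by
  unfold stp
  rw [pw_of_nonneg (by linarith), pw_of_nonneg (by linarith), pw_of_nonneg (by linarith)]
  ring

theorem prm_of_le {u : ℝ} (h : u ≤ -1) : prm u = 0 := by
  unfold prm
  rw [pw_of_nonpos three_ne_zero (by linarith), pw_of_nonpos three_ne_zero (by linarith),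
    pw_of_nonpos three_ne_zero (by linarith)]
  norm_num

theorem prm_of_ge {u : ℝ} (h : 1 ≤ u) : prm u = u := by
  unfold prm
  rw [pw_of_nonneg (by linarith), pw_of_nonneg (by linarith), pw_of_nonneg (by linarith)]
  ring

theorem continuous_hat : Continuous hat := by
  unfold hat
  have h := continuous_pw 1
  exact ((h.comp (continuous_id.add continuous_const)).sub (continuous_const.mul h)).add
    (h.comp (continuous_id.sub continuous_const))

theorem continuous_stp : Continuous stp := by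
  unfold stp
  have h := continuous_pw 2
  exact (((h.comp (continuous_id.add continuous_const)).sub (continuous_const.mul h)).add
    (h.comp (continuous_id.sub continuous_const))).div_const _

theorem hasDerivAt_stp (u : ℝ) : HasDerivAt stp (hat u) u := by
  have h1 := (hasDerivAt_pw 1 one_ne_zero (u + 1)).comp_add_const u 1
  have h2 := hasDerivAt_pw 1 one_ne_zero u
  have h3 := (hasDerivAt_pw 1 one_ne_zero (u - 1)).comp_sub_const u 1
  have h := ((h1.sub (h2.const_mul 2)).add h3).div_const 2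
  refine h.congr_deriv ?_
  unfold hat
  push_cast
  ring

theorem hasDerivAt_prm (u : ℝ) : HasDerivAt prm (stp u) u := by
  have h1 := (hasDerivAt_pw 2 two_ne_zero (u + 1)).comp_add_const u 1
  have h2 := hasDerivAt_pw 2 two_ne_zero u
  have h3 := (hasDerivAt_pw 2 two_ne_zero (u - 1)).comp_sub_const u 1
  have h := ((h1.sub (h2.const_mul 2)).add h3).div_const 6
  refine h.congr_deriv ?_
  unfold stp
  push_cast
  ring

theorem monotone_stp : Monotone stp :=
  monotone_of_deriv_nonneg (fun u => (hasDerivAt_stp u).differentiableAt)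
    (fun u => by rw [(hasDerivAt_stp u).deriv]; exact hat_nonneg u)

theorem stp_nonneg (u : ℝ) : 0 ≤ stp u := by
  rw [← stp_of_le (min_le_right u (-1))]
  exact monotone_stp (min_le_left _ _)

theorem stp_le_one (u : ℝ) : stp u ≤ 1 := by
  rw [← stp_of_ge (le_max_right u 1)]
  exact monotone_stp (le_max_left _ _)

theorem hasDerivAt_comp_lin {f : ℝ → ℝ} {f' : ℝ} (M a t : ℝ) (h : HasDerivAt f f' (M * t - a)) :
    HasDerivAt (fun t => f (M * t - a)) (M * f') t := by
  have h1 : HasDerivAt (fun t : ℝ => M * t - a) M t := by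
    simpa using ((hasDerivAt_id t).const_mul M).sub_const a
  have := h.comp t h1
  rw [mul_comm]
  exact this

/-- smoothed step functions -/
noncomputable def Ph (N k : ℕ) (t : ℝ) : ℝ :=
  if k = 0 then 1 else if k ≤ N then stp (((N:ℝ)+1) * t - k) else 0

/-- hat functions -/
noncomputable def Xh (N k : ℕ) (t : ℝ) : ℝ :=
  if k = 0 then 0 else if k ≤ N then hat (((N:ℝ)+1) * t - k) else 0

theorem hasDerivAt_Ph (N k : ℕ) (t : ℝ) :
    HasDerivAt (Ph N k) (((N:ℝ)+1) * Xh N k t) t := by
  unfold Ph Xh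
  by_cases h0 : k = 0
  · simp only [h0, if_true, mul_zero]
    exact hasDerivAt_const t 1
  by_cases h1 : k ≤ N
  · simp only [h0, h1, if_true, if_false]
    exact hasDerivAt_comp_lin _ _ _ (hasDerivAt_stp _)
  · simp only [h0, h1, if_false, mul_zero]
    exact hasDerivAt_const t 0

theorem continuous_Xh (N k : ℕ) : Continuous (Xh N k) := by
  unfold Xh
  by_cases h0 : k = 0
  · simp only [h0, if_true]; exact continuous_const
  by_cases h1 : k ≤ N
  · simp only [h0, h1, if_true, if_false]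
    exact continuous_hat.comp ((continuous_const.mul continuous_id).sub continuous_const)
  · simp only [h0, h1, if_false]; exact continuous_const

theorem continuous_Ph (N k : ℕ) : Continuous (Ph N k) :=
  continuous_iff_continuousAt.2 fun t => (hasDerivAt_Ph N k t).continuousAt

theorem contDiff_Ph (N k : ℕ) : ContDiff ℝ 1 (Ph N k) := by
  rw [contDiff_one_iff_deriv]
  refine ⟨fun t => (hasDerivAt_Ph N k t).differentiableAt, ?_⟩
  have : deriv (Ph N k) = fun t => ((N:ℝ)+1) * Xh N k t := by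
    funext t; exact (hasDerivAt_Ph N k t).deriv
  rw [this]
  exact continuous_const.mul (continuous_Xh N k)

theorem Xh_nonneg (N k : ℕ) (t : ℝ) : 0 ≤ Xh N k t := by
  unfold Xh
  split_ifs
  · exact le_rfl
  · exact hat_nonneg _
  · exact le_rfl

theorem Ph_anti (N k : ℕ) (t : ℝ) : Ph N (k+1) t ≤ Ph N k t := by
  unfold Ph
  rw [if_neg (Nat.succ_ne_zero k)]
  by_cases h0 : k = 0
  · rw [if_pos h0]
    split_ifs
    · exact stp_le_one _
    · exact zero_le_one
  · rw [if_neg h0]
    by_cases h1 : k + 1 ≤ N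
    · rw [if_pos h1, if_pos (by omega)]
      refine monotone_stp ?_
      push_cast
      linarith
    · rw [if_neg h1]
      split_ifs
      · exact stp_nonneg _
      · exact le_rfl

theorem integral_Ph (N k : ℕ) (hk : k ≤ N + 1) :
    ∫ t in Set.Icc (0:ℝ) 1, Ph N k t = ((N:ℝ) + 1 - k) / ((N:ℝ) + 1) := by
  have hM : (0:ℝ) < (N:ℝ) + 1 := by positivity
  rw [integral_Icc_eq_integral_Ioc, ← intervalIntegral.integral_of_le zero_le_one]
  by_cases h0 : k = 0
  · subst h0
    simp only [Ph, if_true]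
    rw [intervalIntegral.integral_const]
    simp
    field_simp
  by_cases h1 : k ≤ N
  · have hd : ∀ t ∈ Set.uIcc (0:ℝ) 1, HasDerivAt
        (fun t => prm (((N:ℝ)+1) * t - k) / ((N:ℝ)+1)) (Ph N k t) t := by
      intro t _
      refine ((hasDerivAt_comp_lin ((N:ℝ)+1) k t (hasDerivAt_prm _)).div_const _).congr_deriv ?_
      unfold Ph
      rw [if_neg h0, if_pos h1]
      field_simp
    rw [intervalIntegral.integral_eq_sub_of_hasDerivAt hd
      ((continuous_Ph N k).intervalIntegrable _ _)]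
    have hk1 : (1:ℝ) ≤ k := by exact_mod_cast Nat.one_le_iff_ne_zero.2 h0
    have hk2 : (k:ℝ) ≤ N := by exact_mod_cast h1
    rw [prm_of_ge (by linarith), prm_of_le (by linarith)]
    ring
  · have h2 : k = N + 1 := by omega
    subst h2
    have : ∀ t, Ph N (N+1) t = 0 := fun t => by
      unfold Ph; rw [if_neg (by omega), if_neg (by omega)]
    simp [this]

theorem integral_Xh_le (N k : ℕ) :
    ∫ t in Set.Icc (0:ℝ) 1, Xh N k t ≤ 1 / ((N:ℝ) + 1) := by
  have hM : (0:ℝ) < (N:ℝ) + 1 := by positivity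
  rw [integral_Icc_eq_integral_Ioc, ← intervalIntegral.integral_of_le zero_le_one]
  have hd : ∀ t ∈ Set.uIcc (0:ℝ) 1, HasDerivAt
      (fun t => Ph N k t / ((N:ℝ)+1)) (Xh N k t) t := by
    intro t _
    refine ((hasDerivAt_Ph N k t).div_const _).congr_deriv ?_
    field_simp
  rw [intervalIntegral.integral_eq_sub_of_hasDerivAt hd
    ((continuous_Xh N k).intervalIntegrable _ _)]
  rw [← sub_div]
  refine div_le_div_of_nonneg_right ?_ hM.le
  have h1 : Ph N k 1 ≤ 1 := by
    unfold Ph; split_ifs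
    · exact le_rfl
    · exact stp_le_one _
    · exact zero_le_one
  have h2 : 0 ≤ Ph N k 0 := by
    unfold Ph; split_ifs
    · exact zero_le_one
    · exact stp_nonneg _
    · exact le_rfl
  linarith

theorem sum_Xh_le (N : ℕ) (t : ℝ) : ∑ k ∈ Finset.range (N+1), Xh N (k+1) t ≤ 1 := by
  rw [Finset.sum_range_succ]
  have h1 : Xh N (N+1) t = 0 := by unfold Xh; rw [if_neg (by omega), if_neg (by omega)]
  rw [h1, add_zero]
  have h2 : ∑ k ∈ Finset.range N, Xh N (k+1) t
      = ∑ k ∈ Finset.range N, (rmp (((N:ℝ)+1)*t - k) - rmp (((N:ℝ)+1)*t - (k+1:ℕ))) := by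
    refine Finset.sum_congr rfl fun k hk => ?_
    rw [Finset.mem_range] at hk
    unfold Xh
    rw [if_neg (by omega), if_pos (by omega), hat_eq]
    congr 2
    push_cast; ring
  rw [h2, Finset.sum_range_sub' (fun k : ℕ => rmp (((N:ℝ)+1)*t - k))]
  have := rmp_le_one (((N:ℝ)+1)*t - (0:ℕ))
  have := rmp_nonneg (((N:ℝ)+1)*t - (N:ℕ))
  linarith

theorem cell_bounds (N k : ℕ) (t : ℝ) (ht : 0 ≤ t) (hk : k ≤ N)
    (h1 : k ≠ 0 → (k:ℝ) - 1 < ((N:ℝ)+1) * t) (h2 : k < N → ((N:ℝ)+1) * t < k + 2) :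
    (cell N t).val ≤ k + 1 ∧ k ≤ (cell N t).val + 1 := by
  have hM : (0:ℝ) < (N:ℝ) + 1 := by positivity
  have hu : 0 ≤ ((N:ℝ)+1) * t := by positivity
  unfold cell
  simp only
  constructor
  · by_cases h : k < N
    · have := h2 h
      refine (min_le_right _ _).trans ?_
      have h3 : ⌊((N:ℝ)+1) * t⌋₊ < k + 2 := by
        rw [Nat.floor_lt hu]; push_cast; exact this
      omega
    · exact (min_le_left _ _).trans (by omega)
  · by_cases h : k = 0
    · omega
    · have h3 := h1 h
      have h4 : k - 1 ≤ ⌊((N:ℝ)+1) * t⌋₊ := by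
        refine Nat.le_floor ?_
        rw [Nat.cast_sub (by omega)]
        push_cast; exact h3.le
      have h5 : k - 1 ≤ min N ⌊((N:ℝ)+1) * t⌋₊ := le_min (by omega) h4
      omega

theorem sum_abel (N : ℕ) (g : Fin (N+1) → ℝ) (X : ℕ → ℝ) (h0 : X 0 = 0) (hN : X (N+1) = 0) :
    ∑ k : Fin (N+1), g k * (X k.val - X (k.val + 1))
      = ∑ k : Fin (N+1), (if h : k.val + 1 < N + 1 then g ⟨k.val + 1, h⟩ - g k else 0) *
          X (k.val + 1) := by
  have e1 : ∑ k : Fin (N+1), g k * (X k.val - X (k.val + 1))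
      = ∑ k : Fin (N+1), g k * X k.val - ∑ k : Fin (N+1), g k * X (k.val + 1) := by
    rw [← Finset.sum_sub_distrib]
    exact Finset.sum_congr rfl fun k _ => by ring
  rw [e1, Fin.sum_univ_succ (fun k : Fin (N+1) => g k * X k.val),
    Fin.sum_univ_castSucc (fun k : Fin (N+1) => g k * X (k.val + 1)),
    Fin.sum_univ_castSucc (fun k : Fin (N+1) =>
      (if h : k.val + 1 < N + 1 then g ⟨k.val + 1, h⟩ - g k else 0) * X (k.val + 1))]
  simp only [Fin.val_zero, h0, mul_zero, zero_add, Fin.val_succ, Fin.val_castSucc, Fin.val_last,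
    hN, add_zero]
  rw [← Finset.sum_sub_distrib]
  refine Finset.sum_congr rfl fun k _ => ?_
  have hk : k.val + 1 < N + 1 := by omega
  rw [dif_pos hk]
  have : (⟨k.val + 1, hk⟩ : Fin (N+1)) = k.succ := rfl
  rw [this]
  ring

end PieceA

open PieceA in
/-- PIECE A: quadratic B-splines on `[0,1]` with `N+1` cells, clamped at the ends.
`φ k` is a `C¹` partition of unity, the derivative of `∑ g k φ k` is the average `∑ (g(k+1)-g(k)) χ k`
times `N+1`, with `χ k` the hat function of the edge `(k,k+1)`. -/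
theorem splines (N : ℕ) : ∃ φ χ : Fin (N+1) → ℝ → ℝ,
    (∀ k, ContDiff ℝ 1 (φ k)) ∧ (∀ k t, 0 ≤ φ k t) ∧ (∀ t, ∑ k, φ k t = 1) ∧
    (∀ k, Continuous (χ k)) ∧ (∀ k t, 0 ≤ χ k t) ∧ (∀ t, ∑ k, χ k t ≤ 1) ∧
    (∀ (g : Fin (N+1) → ℝ) (t : ℝ), HasDerivAt (fun t => ∑ k, g k * φ k t)
      (((N:ℝ)+1) * ∑ k, (if h : k.val + 1 < N + 1 then g ⟨k.val + 1, h⟩ - g k else 0) * χ k t) t) ∧
    (∀ k, ∫ t in Set.Icc (0:ℝ) 1, φ k t ≤ 1 / ((N:ℝ)+1)) ∧
    (∀ k, ∫ t in Set.Icc (0:ℝ) 1, χ k t ≤ 1 / ((N:ℝ)+1)) ∧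
    (∀ k : Fin (N+1), ∀ t ∈ Set.Icc (0:ℝ) 1, φ k t ≠ 0 →
      (cell N t).val ≤ k.val + 1 ∧ k.val ≤ (cell N t).val + 1) ∧
    (∀ k : Fin (N+1), ∀ t ∈ Set.Icc (0:ℝ) 1, χ k t ≠ 0 →
      (cell N t).val ≤ k.val + 1 ∧ k.val ≤ (cell N t).val + 1) := by
  have hM : (0:ℝ) < (N:ℝ) + 1 := by positivity
  refine ⟨fun k t => Ph N k.val t - Ph N (k.val+1) t, fun k => Xh N (k.val+1),
    fun k => (contDiff_Ph N _).sub (contDiff_Ph N _), fun k t => sub_nonneg.2 (Ph_anti N _ t),
    ?_, fun k => continuous_Xh N _, fun k t => Xh_nonneg N _ t, ?_, ?_, ?_,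
    fun k => integral_Xh_le N _, ?_, ?_⟩
  · intro t
    rw [Fin.sum_univ_eq_sum_range (fun k => Ph N k t - Ph N (k+1) t) (N+1),
      Finset.sum_range_sub' (fun k => Ph N k t)]
    simp [Ph]
  · intro t
    rw [Fin.sum_univ_eq_sum_range (fun k => Xh N (k+1) t) (N+1)]
    exact sum_Xh_le N t
  · intro g t
    have h1 : ∀ k ∈ (Finset.univ : Finset (Fin (N+1))),
        HasDerivAt (fun t => g k * (Ph N k.val t - Ph N (k.val+1) t))
        (g k * (((N:ℝ)+1) * Xh N k.val t - ((N:ℝ)+1) * Xh N (k.val+1) t)) t := fun k _ =>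
      ((hasDerivAt_Ph N k.val t).sub (hasDerivAt_Ph N (k.val+1) t)).const_mul (g k)
    have h2 := HasDerivAt.fun_sum h1
    refine h2.congr_deriv ?_
    rw [← sum_abel N g (fun k => Xh N k t) (by simp [Xh]) (by simp [Xh]), Finset.mul_sum]
    exact Finset.sum_congr rfl fun k _ => by ring
  · intro k
    have hk : k.val ≤ N := by omega
    have e : ∫ t in Set.Icc (0:ℝ) 1, (Ph N k.val t - Ph N (k.val+1) t)
        = (∫ t in Set.Icc (0:ℝ) 1, Ph N k.val t) - ∫ t in Set.Icc (0:ℝ) 1, Ph N (k.val+1) t :=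
      integral_sub ((continuous_Ph N _).continuousOn.integrableOn_compact isCompact_Icc)
        ((continuous_Ph N _).continuousOn.integrableOn_compact isCompact_Icc)
    rw [e, integral_Ph N _ (by omega), integral_Ph N _ (by omega), ← sub_div]
    refine le_of_eq ?_
    congr 1
    push_cast; ring
  · intro k t ht hne
    beta_reduce at hne
    have hk : k.val ≤ N := by omega
    refine cell_bounds N k.val t ht.1 hk ?_ ?_
    · intro h0
      by_contra hlt
      rw [not_lt] at hlt
      apply hne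
      unfold Ph
      rw [if_neg h0, if_pos hk, if_neg (Nat.succ_ne_zero _), stp_of_le (by linarith)]
      split_ifs
      · rw [stp_of_le (by push_cast; linarith), sub_zero]
      · rw [sub_zero]
    · intro h0
      by_contra hlt
      rw [not_lt] at hlt
      apply hne
      have e1 : stp (((N:ℝ)+1) * t - (k.val : ℝ)) = 1 := stp_of_ge (by linarith)
      have e2 : stp (((N:ℝ)+1) * t - ((k.val + 1 : ℕ) : ℝ)) = 1 :=
        stp_of_ge (by push_cast; linarith)
      unfold Ph
      rw [if_neg (Nat.succ_ne_zero _), if_pos (by omega : k.val + 1 ≤ N), e1, e2]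
      split_ifs
      · rw [sub_self]
      · rw [sub_self]
  · intro k t ht hne
    beta_reduce at hne
    have hk : k.val ≤ N := by omega
    have hk' : k.val + 1 ≤ N := by
      by_contra h
      apply hne
      unfold Xh
      rw [if_neg (Nat.succ_ne_zero _), if_neg h]
    have hv : Xh N (k.val+1) t = hat (((N:ℝ)+1) * t - (k.val+1:ℕ)) := by
      unfold Xh
      rw [if_neg (Nat.succ_ne_zero _), if_pos hk']
    refine cell_bounds N k.val t ht.1 hk ?_ ?_
    · intro h0
      by_contra hlt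
      rw [not_lt] at hlt
      apply hne
      rw [hv]
      exact hat_of_le (by push_cast; linarith)
    · intro h0
      by_contra hlt
      rw [not_lt] at hlt
      apply hne
      rw [hv]
      exact hat_of_ge (by push_cast; linarith)

end Pool.Agent.K6.H24.KR
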