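import Pool.Agent.K6.H24.KR.Defs2
import Pool.Agent.K6.H24.KR.PieceA

/-!
# Quadratic B-splines with unit spacing
-/

namespace Pool.Agent.K6.H24.KR

open MeasureTheory Filter

namespace PieceF

open PieceA

/-- smoothed step functions, unit spacing -/
noncomputable def Pu (N k : ℕ) (t : ℝ) : ℝ := Ph N k (t / ((N:ℝ) + 1))

/-- hat functions, unit spacing -/
noncomputable def Xu (N k : ℕ) (t : ℝ) : ℝ := Xh N k (t / ((N:ℝ) + 1))

theorem mul_div_N (N : ℕ) (t : ℝ) : ((N:ℝ)+1) * (t / ((N:ℝ)+1)) = t := by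
  have : (0:ℝ) < (N:ℝ) + 1 := by positivity
  field_simp

theorem Pu_eq (N k : ℕ) (t : ℝ) :
    Pu N k t = if k = 0 then 1 else if k ≤ N then stp (t - k) else 0 := by
  unfold Pu Ph
  rw [mul_div_N]

theorem Xu_eq (N k : ℕ) (t : ℝ) :
    Xu N k t = if k = 0 then 0 else if k ≤ N then hat (t - k) else 0 := by
  unfold Xu Xh
  rw [mul_div_N]

theorem hasDerivAt_Pu (N k : ℕ) (t : ℝ) : HasDerivAt (Pu N k) (Xu N k t) t := by
  have hM : (0:ℝ) < (N:ℝ) + 1 := by positivity
  have h1 : HasDerivAt (fun t : ℝ => t / ((N:ℝ)+1)) (1 / ((N:ℝ)+1)) t :=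
    (hasDerivAt_id t).div_const _
  have h2 := (hasDerivAt_Ph N k (t / ((N:ℝ)+1))).comp t h1
  refine h2.congr_deriv ?_
  unfold Xu
  field_simp

theorem stp_of_mem {u : ℝ} (h0 : 0 ≤ u) (h1 : u ≤ 1) : stp u = 1 - (1 - u) ^ 2 / 2 := by
  unfold stp
  rw [pw_of_nonneg (by linarith), pw_of_nonneg h0, pw_of_nonpos two_ne_zero (by linarith)]
  ring

theorem stp_of_mem' {u : ℝ} (h0 : 0 ≤ u) (h1 : u ≤ 1) : stp (u - 1) = u ^ 2 / 2 := by
  unfold stp
  rw [pw_of_nonneg (by linarith), pw_of_nonpos two_ne_zero (by linarith),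
    pw_of_nonpos two_ne_zero (by linarith)]
  ring

theorem hat_of_mem {u : ℝ} (h0 : 0 ≤ u) (h1 : u ≤ 1) : hat u = 1 - u := by
  unfold hat
  rw [pw_of_nonneg (by linarith), pw_of_nonneg h0, pw_of_nonpos one_ne_zero (by linarith)]
  ring

theorem hat_of_mem' {u : ℝ} (h0 : 0 ≤ u) (h1 : u ≤ 1) : hat (u - 1) = u := by
  unfold hat
  rw [pw_of_nonneg (by linarith), pw_of_nonpos one_ne_zero (by linarith),
    pw_of_nonpos one_ne_zero (by linarith)]
  ring

/-- the splines -/
noncomputable def ph (N : ℕ) (k : Fin (N+1)) (t : ℝ) : ℝ := Pu N k.val t - Pu N (k.val+1) t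
/-- the hats -/
noncomputable def xh (N : ℕ) (k : Fin (N+1)) (t : ℝ) : ℝ := Xu N (k.val+1) t

/-- the differences -/
noncomputable def df {N : ℕ} (g : Fin (N+1) → ℝ) (k : Fin (N+1)) : ℝ :=
  if h : k.val + 1 < N + 1 then g ⟨k.val + 1, h⟩ - g k else 0

theorem ph_nonneg (N : ℕ) (k : Fin (N+1)) (t : ℝ) : 0 ≤ ph N k t :=
  sub_nonneg.2 (Ph_anti N _ _)

theorem xh_nonneg (N : ℕ) (k : Fin (N+1)) (t : ℝ) : 0 ≤ xh N k t := by
  unfold xh Xu
  exact Xh_nonneg N _ _

theorem sum_ph (N : ℕ) (t : ℝ) : ∑ k, ph N k t = 1 := by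
  unfold ph
  rw [Fin.sum_univ_eq_sum_range (fun k => Pu N k t - Pu N (k+1) t) (N+1),
    Finset.sum_range_sub' (fun k => Pu N k t)]
  simp [Pu_eq]

/-- the splines vanish far to the right -/
theorem ph_right (N : ℕ) (k : Fin (N+1)) (t : ℝ) (h0 : 0 < k.val) (h : t ≤ (k.val:ℝ) - 1) :
    ph N k t = 0 := by
  unfold ph
  rw [Pu_eq, Pu_eq, if_neg (by omega), if_pos (by omega), if_neg (by omega),
    stp_of_le (by linarith)]
  split_ifs
  · rw [stp_of_le (by push_cast; linarith), sub_zero]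
  · rw [sub_zero]

/-- the splines vanish far to the left -/
theorem ph_left (N : ℕ) (k : Fin (N+1)) (t : ℝ) (h0 : k.val < N) (h : (k.val:ℝ) + 2 ≤ t) :
    ph N k t = 0 := by
  unfold ph
  have e1 : stp (t - ((k.val + 1 : ℕ) : ℝ)) = 1 := stp_of_ge (by push_cast; linarith)
  have e2 : stp (t - (k.val : ℝ)) = 1 := stp_of_ge (by linarith)
  rw [Pu_eq, Pu_eq, if_neg (Nat.succ_ne_zero _), if_pos (by omega : k.val + 1 ≤ N), e1, e2]
  split_ifs
  · rw [sub_self]
  · rw [sub_self]
  · omega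

theorem xh_right (N : ℕ) (k : Fin (N+1)) (t : ℝ) (h : t ≤ (k.val:ℝ)) : xh N k t = 0 := by
  unfold xh
  rw [Xu_eq, if_neg (Nat.succ_ne_zero _)]
  split_ifs
  · exact hat_of_le (by push_cast; linarith)
  · rfl

theorem xh_left (N : ℕ) (k : Fin (N+1)) (t : ℝ) (h : (k.val:ℝ) + 2 ≤ t) : xh N k t = 0 := by
  unfold xh
  rw [Xu_eq, if_neg (Nat.succ_ne_zero _)]
  split_ifs
  · exact hat_of_ge (by push_cast; linarith)
  · rfl

/-- the left neighbour -/
theorem ph_prev (N j : ℕ) (k : Fin (N+1)) (t : ℝ) (h1 : (j:ℝ) ≤ t) (h2 : t ≤ j + 1)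
    (hk : k.val + 1 = j) (hj : j ≤ N) :
    ph N k t = (1 - (t - j)) ^ 2 / 2 ∧ xh N k t = 1 - (t - j) := by
  constructor
  · unfold ph
    have e : (k.val : ℝ) + 1 = j := by exact_mod_cast hk
    have e1 : stp (t - (j : ℝ)) = 1 - (1 - (t - j)) ^ 2 / 2 :=
      stp_of_mem (by linarith) (by linarith)
    have e2 : stp (t - (k.val : ℝ)) = 1 := stp_of_ge (by linarith)
    rw [Pu_eq, Pu_eq, if_neg (Nat.succ_ne_zero _), if_pos (by omega : k.val + 1 ≤ N), hk, e1, e2]
    split_ifs
    · ring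
    · ring
    · omega
  · unfold xh
    rw [Xu_eq, if_neg (Nat.succ_ne_zero _), if_pos (by omega : k.val + 1 ≤ N), hk,
      hat_of_mem (by linarith) (by linarith)]

/-- the right neighbour -/
theorem ph_next (N j : ℕ) (k : Fin (N+1)) (t : ℝ) (h1 : (j:ℝ) ≤ t) (h2 : t ≤ j + 1)
    (hk : k.val = j + 1) :
    ph N k t = (t - j) ^ 2 / 2 := by
  unfold ph
  rw [Pu_eq, Pu_eq, if_neg (by omega), if_pos (by omega), if_neg (Nat.succ_ne_zero _)]
  have e : (k.val : ℝ) = j + 1 := by exact_mod_cast hk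
  have e2 : t - (k.val : ℝ) = (t - j) - 1 := by rw [e]; ring
  rw [e2, stp_of_mem' (by linarith) (by linarith)]
  split_ifs
  · rw [stp_of_le (by push_cast; linarith), sub_zero]
  · rw [sub_zero]

theorem xh_at (N j : ℕ) (k : Fin (N+1)) (t : ℝ) (h1 : (j:ℝ) ≤ t) (h2 : t ≤ j + 1)
    (hk : k.val = j) (hj : j < N) : xh N k t = t - j := by
  unfold xh
  rw [Xu_eq, if_neg (Nat.succ_ne_zero _), if_pos (by omega), hk]
  have e2 : t - ((j + 1 : ℕ) : ℝ) = (t - j) - 1 := by push_cast; ring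
  rw [e2, hat_of_mem' (by linarith) (by linarith)]

theorem var_le_of (N : ℕ) (g : Fin (N+1) → ℝ) (t c : ℝ) :
    ∑ k, ph N k t * g k ^ 2 - (∑ k, ph N k t * g k) ^ 2 ≤ ∑ k, ph N k t * (g k - c) ^ 2 := by
  have h1 : ∑ k, ph N k t * (g k - c) ^ 2
      = ∑ k, ph N k t * g k ^ 2 - 2 * c * ∑ k, ph N k t * g k + c ^ 2 * ∑ k, ph N k t := by
    rw [Finset.mul_sum, Finset.mul_sum, ← Finset.sum_sub_distrib, ← Finset.sum_add_distrib]
    exact Finset.sum_congr rfl fun k _ => by ring
  rw [h1, sum_ph]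
  nlinarith [sq_nonneg (∑ k, ph N k t * g k - c)]

theorem rhs_nonneg (N : ℕ) (g : Fin (N+1) → ℝ) (t : ℝ) (k : Fin (N+1)) :
    0 ≤ df g k ^ 2 * xh N k t := mul_nonneg (sq_nonneg _) (xh_nonneg _ _ _)

theorem main_var (N j : ℕ) (hj : j < N + 1) (g : Fin (N+1) → ℝ) (t : ℝ) (h1 : (j:ℝ) ≤ t)
    (h2 : t ≤ j + 1) :
    ∑ k, ph N k t * (g k - g ⟨j, hj⟩) ^ 2 ≤ (1 / 2) * ∑ k, df g k ^ 2 * xh N k t := by
  have hu0 : 0 ≤ t - j := by linarith
  have hu1 : t - j ≤ 1 := by linarith
  have A : ∑ k : Fin (N+1), ph N k t * (g k - g ⟨j, hj⟩) ^ 2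
      ≤ ∑ k : Fin (N+1), (if k.val + 1 = j then (1 / 2) * (df g k ^ 2 * xh N k t) else 0)
        + ∑ k : Fin (N+1), (if k.val = j + 1 then ph N k t * (g k - g ⟨j, hj⟩) ^ 2 else 0) := by
    rw [← Finset.sum_add_distrib]
    refine Finset.sum_le_sum fun k _ => ?_
    by_cases hk1 : k.val + 1 = j
    · rw [if_pos hk1, if_neg (by omega), add_zero]
      obtain ⟨e1, e2⟩ := ph_prev N j k t h1 h2 hk1 (by omega)
      rw [e1, e2]
      have e3 : df g k = g ⟨j, hj⟩ - g k := by
        unfold df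
        rw [dif_pos (by omega)]
        congr 2
        exact Fin.ext hk1
      rw [e3]
      nlinarith [mul_nonneg (sq_nonneg (g ⟨j, hj⟩ - g k))
        (mul_nonneg hu0 (sub_nonneg.2 hu1))]
    · rw [if_neg hk1, zero_add]
      by_cases hk2 : k.val = j + 1
      · rw [if_pos hk2]
      · rw [if_neg hk2]
        rcases lt_trichotomy k.val j with h | h | h
        · rw [ph_left N k t (by omega)
            (by have : (k.val:ℝ) + 2 ≤ j := by exact_mod_cast (by omega : k.val + 2 ≤ j)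
                linarith), zero_mul]
        · have : k = ⟨j, hj⟩ := Fin.ext h
          rw [this, sub_self]
          simp
        · rw [ph_right N k t (by omega)
            (by have : (j:ℝ) + 2 ≤ k.val := by exact_mod_cast (by omega : j + 2 ≤ k.val)
                linarith), zero_mul]
  have B : ∑ k : Fin (N+1), (if k.val = j + 1 then ph N k t * (g k - g ⟨j, hj⟩) ^ 2 else 0)
      ≤ ∑ k : Fin (N+1), (if k.val = j then (1 / 2) * (df g k ^ 2 * xh N k t) else 0) := by
    rw [Fin.sum_univ_succ, Fin.sum_univ_castSucc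
      (fun k : Fin (N+1) => (if k.val = j then (1 / 2) * (df g k ^ 2 * xh N k t) else 0))]
    rw [if_neg (by simp), zero_add]
    refine le_add_of_le_of_nonneg (Finset.sum_le_sum fun k _ => ?_) ?_
    · simp only [Fin.val_succ, Fin.val_castSucc, Nat.add_right_cancel_iff]
      by_cases hk : k.val = j
      · rw [if_pos hk, if_pos hk]
        rw [ph_next N j k.succ t h1 h2 (by simp [hk]),
          xh_at N j k.castSucc t h1 h2 (by simp [hk]) (by omega)]
        have e3 : df g k.castSucc = g k.succ - g ⟨j, hj⟩ := by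
          unfold df
          rw [dif_pos (by simp)]
          congr 2
          exact Fin.ext hk
        rw [e3]
        nlinarith [mul_nonneg (sq_nonneg (g k.succ - g ⟨j, hj⟩))
          (mul_nonneg hu0 (sub_nonneg.2 hu1))]
      · rw [if_neg hk, if_neg hk]
    · split_ifs
      · have := rhs_nonneg N g t (Fin.last N)
        linarith
      · exact le_rfl
  have C : ∑ k : Fin (N+1), (if k.val + 1 = j then (1 / 2) * (df g k ^ 2 * xh N k t) else 0)
      + ∑ k : Fin (N+1), (if k.val = j then (1 / 2) * (df g k ^ 2 * xh N k t) else 0)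
      ≤ (1 / 2) * ∑ k, df g k ^ 2 * xh N k t := by
    rw [← Finset.sum_add_distrib, Finset.mul_sum]
    refine Finset.sum_le_sum fun k _ => ?_
    have := rhs_nonneg N g t k
    by_cases hk1 : k.val + 1 = j
    · rw [if_pos hk1, if_neg (by omega), add_zero]
    · rw [if_neg hk1, zero_add]
      split_ifs
      · exact le_rfl
      · linarith
  linarith

theorem var_ineq (N : ℕ) (g : Fin (N+1) → ℝ) (t : ℝ) :
    ∑ k, ph N k t * g k ^ 2 - (∑ k, ph N k t * g k) ^ 2
      ≤ (1 / 2) * ∑ k, df g k ^ 2 * xh N k t := by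
  have hR : 0 ≤ (1 / 2) * ∑ k, df g k ^ 2 * xh N k t :=
    mul_nonneg (by norm_num) (Finset.sum_nonneg fun k _ => rhs_nonneg N g t k)
  by_cases h0 : t < 0
  · refine (var_le_of N g t (g 0)).trans (le_trans (le_of_eq ?_) hR)
    refine Finset.sum_eq_zero fun k _ => ?_
    by_cases hk : k = 0
    · rw [hk, sub_self]; simp
    · have hk0 : 0 < k.val := by
        rcases Nat.eq_zero_or_pos k.val with h | h
        · exact absurd (Fin.ext h) hk
        · exact h
      have : (1:ℝ) ≤ k.val := by exact_mod_cast hk0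
      rw [ph_right N k t hk0 (by linarith), zero_mul]
  rw [not_lt] at h0
  by_cases h1 : (N:ℝ) + 1 ≤ t
  · refine (var_le_of N g t (g (Fin.last N))).trans (le_trans (le_of_eq ?_) hR)
    refine Finset.sum_eq_zero fun k _ => ?_
    by_cases hk : k = Fin.last N
    · rw [hk, sub_self]; simp
    · have hk0 : k.val < N := by
        rcases Nat.lt_or_ge k.val N with h | h
        · exact h
        · exact absurd (Fin.ext (by simp; omega)) hk
      have : (k.val:ℝ) + 1 ≤ N := by exact_mod_cast hk0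
      rw [ph_left N k t hk0 (by linarith), zero_mul]
  rw [not_le] at h1
  have hj : ⌊t⌋₊ < N + 1 := by
    rw [Nat.floor_lt h0]; push_cast; exact h1
  exact (var_le_of N g t (g ⟨⌊t⌋₊, hj⟩)).trans
    (main_var N _ hj g t (Nat.floor_le h0) (Nat.lt_floor_add_one t).le)

end PieceF

open PieceA PieceF in
/-- PIECE F. -/
theorem splines_unit (N : ℕ) : ∃ φ χ : Fin (N+1) → ℝ → ℝ, Spl N φ χ := by
  refine ⟨ph N, xh N, ?_⟩
  constructor
  · intro k
    exact ((contDiff_Ph N _).comp (contDiff_id.div_const _)).sub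
      ((contDiff_Ph N _).comp (contDiff_id.div_const _))
  · exact ph_nonneg N
  · exact sum_ph N
  · intro k
    exact (continuous_Xh N _).comp (continuous_id.div_const _)
  · exact xh_nonneg N
  · intro t
    unfold xh Xu
    rw [Fin.sum_univ_eq_sum_range (fun k => Xh N (k+1) (t / ((N:ℝ)+1))) (N+1)]
    exact sum_Xh_le N _
  · intro g t
    have h1 : ∀ k ∈ (Finset.univ : Finset (Fin (N+1))),
        HasDerivAt (fun t => g k * ph N k t) (g k * (Xu N k.val t - Xu N (k.val+1) t)) t :=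
      fun k _ => ((hasDerivAt_Pu N k.val t).sub (hasDerivAt_Pu N (k.val+1) t)).const_mul (g k)
    have h2 := HasDerivAt.fun_sum h1
    refine h2.congr_deriv ?_
    exact sum_abel N g (fun k => Xu N k t) (by simp [Xu_eq]) (by simp [Xu_eq])
  · exact fun g t => var_ineq N g t
  · intro k t h0 h1 hne
    rw [abs_le]
    constructor
    · by_contra h
      rw [not_le] at h
      rcases Nat.eq_zero_or_pos k.val with hk | hk
      · rw [hk] at h
        push_cast at h
        linarith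
      · exact hne (ph_right N k t hk (by linarith))
    · by_contra h
      rw [not_le] at h
      rcases Nat.lt_or_ge k.val N with hk | hk
      · exact hne (ph_left N k t hk (by linarith))
      · have : (N:ℝ) ≤ k.val := by exact_mod_cast hk
        linarith
  · intro k t h0 h1 hne
    rw [abs_le]
    constructor
    · by_contra h
      rw [not_le] at h
      exact hne (xh_right N k t (by linarith))
    · by_contra h
      rw [not_le] at h
      exact hne (xh_left N k t (by linarith))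

end Pool.Agent.K6.H24.KR
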