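import Pool.Agent.K6.H24.KR.Defs

namespace Pool.Agent.K6.H24.KR

open MeasureTheory Filter

/-- PIECE B: moving to a neighbour (also diagonally) is controlled by the differences nearby. -/
theorem near_sq {n N : ℕ} (F : (Fin n → Fin (N+1)) → ℝ) (b c : Fin n → Fin (N+1))
    (h : ∀ i, (b i).val ≤ (c i).val + 1 ∧ (c i).val ≤ (b i).val + 1) :
    (F b - F c) ^ 2 ≤ n * ∑ i, ∑ q ∈ Finset.univ.filter
      (fun q : Fin n → Fin (N+1) => ∀ j, (q j).val ≤ (c j).val + 1 ∧ (c j).val ≤ (q j).val + 1),
      (dif F i q) ^ 2 := by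
  classical
  set p : ℕ → (Fin n → Fin (N+1)) := fun k i => if i.val < k then c i else b i with hp
  have hp0 : p 0 = b := by
    funext i; simp [hp]
  have hpn : p n = c := by
    funext i; simp [hp]
  have hmem : ∀ k, ∀ j, ((p k) j).val ≤ (c j).val + 1 ∧ (c j).val ≤ ((p k) j).val + 1 := by
    intro k j
    simp only [hp]
    split_ifs with hj
    · exact ⟨Nat.le_succ _, Nat.le_succ _⟩
    · exact h j
  have hup : ∀ i : Fin n, p (i.val + 1) = Function.update (p i.val) i (c i) := by
    intro i
    funext j
    rcases eq_or_ne j i with rfl | hji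
    · simp [hp]
    · rw [Function.update_of_ne hji]
      have : j.val ≠ i.val := fun e => hji (Fin.ext e)
      simp only [hp]
      by_cases h1 : j.val < i.val
      · rw [if_pos h1, if_pos (by omega)]
      · rw [if_neg h1, if_neg (by omega)]
  have hpi : ∀ i : Fin n, p i.val i = b i := by
    intro i
    simp [hp]
  have hpi1 : ∀ i : Fin n, p (i.val + 1) i = c i := by
    intro i
    simp [hp]
  have hdn : ∀ i : Fin n, p i.val = Function.update (p (i.val + 1)) i (b i) := by
    intro i
    rw [hup, Function.update_idem, ← hpi i, Function.update_eq_self]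
  have hstep : ∀ i : Fin n, (F (p i.val) - F (p (i.val + 1))) ^ 2 ≤ ∑ q ∈ Finset.univ.filter
      (fun q : Fin n → Fin (N+1) => ∀ j, (q j).val ≤ (c j).val + 1 ∧ (c j).val ≤ (q j).val + 1),
      (dif F i q) ^ 2 := by
    intro i
    have hle : ∀ k, (dif F i (p k)) ^ 2 ≤ ∑ q ∈ Finset.univ.filter
      (fun q : Fin n → Fin (N+1) => ∀ j, (q j).val ≤ (c j).val + 1 ∧ (c j).val ≤ (q j).val + 1),
      (dif F i q) ^ 2 := fun k => Finset.single_le_sum (f := fun q => (dif F i q) ^ 2)
        (fun q _ => sq_nonneg _) (Finset.mem_filter.2 ⟨Finset.mem_univ _, hmem k⟩)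
    obtain ⟨h1, h2⟩ := h i
    rcases lt_trichotomy (b i).val (c i).val with hlt | heq | hgt
    · have hval : (b i).val + 1 = (c i).val := by omega
      have hl : (b i).val + 1 < N + 1 := by rw [hval]; exact (c i).isLt
      have e : dif F i (p i.val) = F (p (i.val + 1)) - F (p i.val) := by
        unfold dif
        rw [dif_pos (by rw [hpi]; exact hl), hup]
        congr 3
        exact Fin.ext (by simp only [hpi]; exact hval)
      refine le_trans (le_of_eq ?_) (hle i.val)
      rw [e]; ring
    · have e : p (i.val + 1) = p i.val := by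
        rw [hup, ← Fin.ext heq, ← hpi i, Function.update_eq_self]
      rw [e, sub_self]
      simp only [ne_eq, OfNat.ofNat_ne_zero, not_false_eq_true, zero_pow]
      exact Finset.sum_nonneg fun q _ => sq_nonneg _
    · have hval : (c i).val + 1 = (b i).val := by omega
      have hl : (c i).val + 1 < N + 1 := by rw [hval]; exact (b i).isLt
      have e : dif F i (p (i.val + 1)) = F (p i.val) - F (p (i.val + 1)) := by
        unfold dif
        rw [dif_pos (by rw [hpi1]; exact hl)]
        conv_rhs => rw [hdn i]
        congr 3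
        exact Fin.ext (by simp only [hpi1]; exact hval)
      refine le_trans (le_of_eq ?_) (hle (i.val + 1))
      rw [e]
  have hsum : F b - F c = ∑ i : Fin n, (F (p i.val) - F (p (i.val + 1))) := by
    rw [Fin.sum_univ_eq_sum_range (fun k => F (p k) - F (p (k + 1))) n,
      Finset.sum_range_sub' (fun k => F (p k)) n, hp0, hpn]
  rw [hsum]
  refine le_trans (sq_sum_le_card_mul_sum_sq (s := (Finset.univ : Finset (Fin n)))
    (f := fun i => F (p i.val) - F (p (i.val + 1)))) ?_
  rw [Finset.card_univ, Fintype.card_fin]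
  exact mul_le_mul_of_nonneg_left (Finset.sum_le_sum fun i _ => hstep i) (by positivity)

end Pool.Agent.K6.H24.KR
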