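import Pool.Agent.K6.H24.KR.PieceA
import Pool.Agent.K6.H24.KR.PieceB

/-!
# From the Poincare inequality on the cube to fine grids
-/

namespace Pool.Agent.K6.H24.KR
open MeasureTheory Filter

theorem cell_le {N : ℕ} {t : ℝ} (h0 : 0 ≤ t) : ((cell N t).val : ℝ) / ((N:ℝ)+1) ≤ t := by
  have hN : (0:ℝ) < (N:ℝ)+1 := by positivity
  rw [div_le_iff₀ hN]
  have h0' : (cell N t).val ≤ ⌊((N:ℝ) + 1) * t⌋₊ := min_le_right _ _
  have h1 : ((cell N t).val : ℝ) ≤ ((⌊((N:ℝ) + 1) * t⌋₊ : ℕ) : ℝ) := Nat.cast_le.mpr h0'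
  have h2 := Nat.floor_le (a := ((N:ℝ) + 1) * t) (by positivity)
  linarith [mul_comm t ((N:ℝ)+1)]

theorem le_cell {N : ℕ} {t : ℝ} (h1 : t ≤ 1) : t ≤ (((cell N t).val : ℝ) + 1) / ((N:ℝ)+1) := by
  have hN : (0:ℝ) < (N:ℝ)+1 := by positivity
  rw [le_div_iff₀ hN]
  have hlt := Nat.lt_floor_add_one (((N:ℝ) + 1) * t)
  rcases le_total N ⌊((N:ℝ) + 1) * t⌋₊ with h | h
  · have : (cell N t).val = N := min_eq_left h
    rw [this]; nlinarith
  · have : (cell N t).val = ⌊((N:ℝ) + 1) * t⌋₊ := min_eq_right h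
    rw [this]; nlinarith

theorem cell_eq {N : ℕ} {t : ℝ} (k : Fin (N+1)) (h : t ∈ Set.Ico ((k.val : ℝ) / ((N:ℝ)+1)) (((k.val : ℝ)+1) / ((N:ℝ)+1))) :
    cell N t = k := by
  have hN : (0:ℝ) < (N:ℝ)+1 := by positivity
  obtain ⟨ha, hb⟩ := h
  rw [div_le_iff₀ hN] at ha
  rw [lt_div_iff₀ hN] at hb
  apply Fin.ext
  have : ⌊((N:ℝ) + 1) * t⌋₊ = k.val := by
    rw [Nat.floor_eq_iff]
    · constructor <;> nlinarith
    · have : (0:ℝ) ≤ k.val := by positivity
      nlinarith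
  simp only [cell, this]
  exact min_eq_right (Nat.lt_succ_iff.mp k.isLt)

theorem measurableSet_cell1 (N : ℕ) (k : Fin (N+1)) : MeasurableSet {t : ℝ | cell N t = k} := by
  have : {t : ℝ | cell N t = k} = {t : ℝ | min N ⌊((N:ℝ) + 1) * t⌋₊ = k.val} := by
    ext t
    simp only [Set.mem_ofPred_eq, cell, Fin.ext_iff]
  rw [this]
  have hm : Measurable (fun t : ℝ => min N ⌊((N:ℝ) + 1) * t⌋₊) :=
    measurable_const.min (Nat.measurable_floor.comp (measurable_const.mul measurable_id))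
  exact hm (measurableSet_singleton _)

theorem vol_cell1 (N : ℕ) (k : Fin (N+1)) :
    volume (Set.Icc (0:ℝ) 1 ∩ {t : ℝ | cell N t = k}) = ENNReal.ofReal (1 / ((N:ℝ)+1)) := by
  have hN : (0:ℝ) < (N:ℝ)+1 := by positivity
  have hk0 : (0:ℝ) ≤ k.val := by positivity
  have hkN : (k.val : ℝ) ≤ N := by exact_mod_cast Nat.lt_succ_iff.mp k.isLt
  have hd : ((k.val:ℝ)+1) / ((N:ℝ)+1) - (k.val:ℝ) / ((N:ℝ)+1) = 1 / ((N:ℝ)+1) := by
    rw [← sub_div]; congr 1; ring
  apply le_antisymm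
  · calc volume (Set.Icc (0:ℝ) 1 ∩ {t : ℝ | cell N t = k})
        ≤ volume (Set.Icc ((k.val:ℝ) / ((N:ℝ)+1)) (((k.val:ℝ)+1) / ((N:ℝ)+1))) := by
          apply measure_mono
          rintro t ⟨⟨h0, h1⟩, rfl⟩
          exact ⟨cell_le h0, le_cell h1⟩
      _ = _ := by rw [Real.volume_Icc, hd]
  · calc ENNReal.ofReal (1 / ((N:ℝ)+1))
        = volume (Set.Ico ((k.val:ℝ) / ((N:ℝ)+1)) (((k.val:ℝ)+1) / ((N:ℝ)+1))) := by
          rw [Real.volume_Ico, hd]
      _ ≤ _ := by
          apply measure_mono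
          intro t ht
          refine ⟨⟨?_, ?_⟩, cell_eq k ht⟩
          · exact le_trans (by positivity) ht.1
          · refine le_trans ht.2.le ?_
            rw [div_le_one hN]; linarith

/-- the cell with index `b` -/
def cellset {n : ℕ} (N : ℕ) (b : Fin n → Fin (N+1)) : Set (Fin n → ℝ) :=
  {x : Fin n → ℝ | x ∈ Set.Icc (0 : Fin n → ℝ) 1 ∧ ∀ i, cell N (x i) = b i}

theorem cellset_eq_pi {n : ℕ} (N : ℕ) (b : Fin n → Fin (N+1)) :
    cellset N b = Set.pi Set.univ (fun i => Set.Icc (0:ℝ) 1 ∩ {t : ℝ | cell N t = b i}) := by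
  ext x
  simp only [cellset, Set.mem_ofPred_eq, Set.mem_pi, Set.mem_univ, true_implies, Set.mem_inter_iff,
    Set.mem_Icc, Pi.le_def, Pi.zero_apply, Pi.one_apply]
  constructor
  · rintro ⟨⟨h0, h1⟩, h2⟩ i
    exact ⟨⟨h0 i, h1 i⟩, h2 i⟩
  · intro h
    exact ⟨⟨fun i => (h i).1.1, fun i => (h i).1.2⟩, fun i => (h i).2⟩

theorem measurableSet_cellset {n : ℕ} (N : ℕ) (b : Fin n → Fin (N+1)) :
    MeasurableSet (cellset N b) := by
  rw [cellset_eq_pi]
  exact MeasurableSet.univ_pi fun i => measurableSet_Icc.inter (measurableSet_cell1 N (b i))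

theorem vol_cellset {n : ℕ} (N : ℕ) (b : Fin n → Fin (N+1)) :
    volume (cellset N b) = ENNReal.ofReal ((1 / ((N:ℝ)+1)) ^ n) := by
  rw [cellset_eq_pi, volume_pi_pi]
  simp only [vol_cell1, Finset.prod_const, Finset.card_univ, Fintype.card_fin]
  rw [ENNReal.ofReal_pow (by positivity)]

theorem vol_cellset_real {n : ℕ} (N : ℕ) (b : Fin n → Fin (N+1)) :
    volume.real (cellset N b) = (1 / ((N:ℝ)+1)) ^ n := by
  rw [Measure.real, vol_cellset, ENNReal.toReal_ofReal (by positivity)]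

theorem cellset_subset {n : ℕ} (N : ℕ) (b : Fin n → Fin (N+1)) :
    cellset N b ⊆ Set.Icc (0 : Fin n → ℝ) 1 := fun _ hx => hx.1

theorem mass_def {n : ℕ} (ρ : (Fin n → ℝ) → ℝ) (N : ℕ) (b : Fin n → Fin (N+1)) :
    mass ρ N b = ∫ x in cellset N b, ρ x := rfl

theorem mass_ge {n : ℕ} {ρ : (Fin n → ℝ) → ℝ} (hc : Continuous ρ) (N : ℕ) (b : Fin n → Fin (N+1))
    {a : ℝ} (h : ∀ y ∈ cellset N b, a ≤ ρ y) : a * (1 / ((N:ℝ)+1)) ^ n ≤ mass ρ N b := by
  have hi : IntegrableOn ρ (cellset N b) :=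
    (hc.integrableOn_Icc (a := (0 : Fin n → ℝ)) (b := 1)).mono_set (cellset_subset N b)
  have hfin : volume (cellset N b) ≠ ⊤ := by rw [vol_cellset]; exact ENNReal.ofReal_ne_top
  have h1 := setIntegral_mono_on (integrableOn_const hfin) hi (measurableSet_cellset N b)
    (fun x hx => h x hx)
  rw [setIntegral_const, vol_cellset_real, smul_eq_mul] at h1
  rw [mass_def]; linarith

theorem mass_le {n : ℕ} {ρ : (Fin n → ℝ) → ℝ} (hc : Continuous ρ) (N : ℕ) (b : Fin n → Fin (N+1))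
    {a : ℝ} (h : ∀ y ∈ cellset N b, ρ y ≤ a) : mass ρ N b ≤ a * (1 / ((N:ℝ)+1)) ^ n := by
  have hi : IntegrableOn ρ (cellset N b) :=
    (hc.integrableOn_Icc (a := (0 : Fin n → ℝ)) (b := 1)).mono_set (cellset_subset N b)
  have hfin : volume (cellset N b) ≠ ⊤ := by rw [vol_cellset]; exact ENNReal.ofReal_ne_top
  have h1 := setIntegral_mono_on hi (integrableOn_const hfin) (measurableSet_cellset N b)
    (fun x hx => h x hx)
  rw [setIntegral_const, vol_cellset_real, smul_eq_mul] at h1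
  rw [mass_def]; linarith

/-- indices at distance at most one -/
def near {n N : ℕ} (q c : Fin n → Fin (N+1)) : Prop :=
  ∀ j, (q j).val ≤ (c j).val + 1 ∧ (c j).val ≤ (q j).val + 1

instance {n N : ℕ} (q c : Fin n → Fin (N+1)) : Decidable (near q c) :=
  inferInstanceAs (Decidable (∀ j, (q j).val ≤ (c j).val + 1 ∧ (c j).val ≤ (q j).val + 1))

theorem near_symm {n N : ℕ} {q c : Fin n → Fin (N+1)} (h : near q c) : near c q :=
  fun j => ⟨(h j).2, (h j).1⟩

theorem near_refl {n N : ℕ} (q : Fin n → Fin (N+1)) : near q q :=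
  fun _ => ⟨Nat.le_succ _, Nat.le_succ _⟩

theorem dist_near {n N : ℕ} {b c : Fin n → Fin (N+1)} (h : near b c) {x y : Fin n → ℝ}
    (hx : x ∈ cellset N b) (hy : y ∈ cellset N c) : dist x y ≤ 2 / ((N:ℝ)+1) := by
  have hN : (0:ℝ) < (N:ℝ)+1 := by positivity
  rw [dist_pi_le_iff (by positivity)]
  intro i
  have hx0 := cell_le (N := N) (hx.1.1 i)
  have hx1 := le_cell (N := N) (hx.1.2 i)
  have hy0 := cell_le (N := N) (hy.1.1 i)
  have hy1 := le_cell (N := N) (hy.1.2 i)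
  rw [hx.2 i] at hx0 hx1
  rw [hy.2 i] at hy0 hy1
  rw [div_le_iff₀ hN] at hx0 hy0
  rw [le_div_iff₀ hN] at hx1 hy1
  have h1 : ((b i).val : ℝ) ≤ (c i).val + 1 := by exact_mod_cast (h i).1
  have h2 : ((c i).val : ℝ) ≤ (b i).val + 1 := by exact_mod_cast (h i).2
  rw [Real.dist_eq, abs_le]
  constructor
  · rw [neg_le, neg_sub, le_div_iff₀ hN]; nlinarith
  · rw [le_div_iff₀ hN]; nlinarith

/-- the average over the cell of a function that depends only on the cell -/
theorem integral_cell {n : ℕ} {ρ : (Fin n → ℝ) → ℝ} (hc : Continuous ρ) (N : ℕ)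
    (H : (Fin n → Fin (N+1)) → ℝ) :
    ∫ x in Set.Icc (0 : Fin n → ℝ) 1, H (fun i => cell N (x i)) * ρ x = ∑ b, H b * mass ρ N b := by
  have hU : Set.Icc (0 : Fin n → ℝ) 1 = ⋃ b ∈ (Finset.univ : Finset (Fin n → Fin (N+1))), cellset N b := by
    ext x
    simp only [Finset.mem_univ, Set.iUnion_true, Set.mem_iUnion]
    constructor
    · intro hx
      exact ⟨fun i => cell N (x i), hx, fun i => rfl⟩
    · rintro ⟨b, hb⟩
      exact hb.1
  have hi : ∀ b : Fin n → Fin (N+1), IntegrableOn ρ (cellset N b) := fun b =>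
    (hc.integrableOn_Icc (a := (0 : Fin n → ℝ)) (b := 1)).mono_set (cellset_subset N b)
  have heq : ∀ b : Fin n → Fin (N+1), Set.EqOn (fun x : Fin n → ℝ => H (fun i => cell N (x i)) * ρ x)
      (fun x => H b * ρ x) (cellset N b) := by
    intro b x hx
    have : (fun i => cell N (x i)) = b := funext hx.2
    simp only [this]
  rw [hU, integral_biUnion_finset _ (fun b _ => measurableSet_cellset N b)]
  · apply Finset.sum_congr rfl
    intro b _
    rw [setIntegral_congr_fun (measurableSet_cellset N b) (heq b), integral_const_mul, mass_def]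
  · intro b _ c _ hbc
    rw [Function.onFun, Set.disjoint_left]
    intro x hx hy
    exact hbc (funext fun i => (hx.2 i).symm.trans (hy.2 i))
  · intro b _
    exact (integrableOn_congr_fun (heq b) (measurableSet_cellset N b)).mpr ((hi b).const_mul _)

theorem integrable_cell {n : ℕ} {ρ : (Fin n → ℝ) → ℝ} (hc : Continuous ρ) (N : ℕ)
    (H : (Fin n → Fin (N+1)) → ℝ) :
    IntegrableOn (fun x => H (fun i => cell N (x i)) * ρ x) (Set.Icc (0 : Fin n → ℝ) 1) := by
  have hU : Set.Icc (0 : Fin n → ℝ) 1 = ⋃ b ∈ (Finset.univ : Finset (Fin n → Fin (N+1))), cellset N b := by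
    ext x
    simp only [Finset.mem_univ, Set.iUnion_true, Set.mem_iUnion]
    constructor
    · intro hx
      exact ⟨fun i => cell N (x i), hx, fun i => rfl⟩
    · rintro ⟨b, hb⟩
      exact hb.1
  have hi : ∀ b : Fin n → Fin (N+1), IntegrableOn ρ (cellset N b) := fun b =>
    (hc.integrableOn_Icc (a := (0 : Fin n → ℝ)) (b := 1)).mono_set (cellset_subset N b)
  have heq : ∀ b : Fin n → Fin (N+1), Set.EqOn (fun x : Fin n → ℝ => H (fun i => cell N (x i)) * ρ x)
      (fun x => H b * ρ x) (cellset N b) := by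
    intro b x hx
    have : (fun i => cell N (x i)) = b := funext hx.2
    simp only [this]
  rw [hU, integrableOn_finset_iUnion]
  intro b _
  exact (integrableOn_congr_fun (heq b) (measurableSet_cellset N b)).mpr ((hi b).const_mul _)

/-- comparison of the densities at nearby points -/
def Good {n : ℕ} (ρ : (Fin n → ℝ) → ℝ) (η : ℝ) (N : ℕ) : Prop :=
  ∀ x ∈ Set.Icc (0 : Fin n → ℝ) 1, ∀ y ∈ Set.Icc (0 : Fin n → ℝ) 1, dist x y ≤ 2 / ((N:ℝ)+1) →
    ρ x ≤ (1 + η) * ρ y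

theorem eventually_good {n : ℕ} {ρ : (Fin n → ℝ) → ℝ} (hc : Continuous ρ) (hpos : ∀ x, 0 < ρ x)
    {η : ℝ} (hη : 0 < η) : ∀ᶠ N : ℕ in atTop, Good ρ η N := by
  have hK : IsCompact (Set.Icc (0 : Fin n → ℝ) 1) := isCompact_Icc
  obtain ⟨z, hz, hmin⟩ := hK.exists_isMinOn ⟨0, by simp⟩ hc.continuousOn
  have hu := hK.uniformContinuousOn_of_continuous hc.continuousOn
  rw [Metric.uniformContinuousOn_iff] at hu
  obtain ⟨δ, hδ, hu⟩ := hu (η * ρ z) (mul_pos hη (hpos z))
  have hlim : Tendsto (fun N : ℕ => 2 / ((N:ℝ)+1)) atTop (nhds 0) := by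
    have := tendsto_one_div_add_atTop_nhds_zero_nat (𝕜 := ℝ)
    have h2 := this.const_mul 2
    simpa [div_eq_mul_inv] using h2
  filter_upwards [hlim.eventually (gt_mem_nhds hδ)] with N hN
  intro x hx y hy hxy
  have h1 := hu x hx y hy (lt_of_le_of_lt hxy hN)
  rw [Real.dist_eq, abs_lt] at h1
  have h2 : ρ z ≤ ρ y := hmin hy
  nlinarith [h1.2, mul_le_mul_of_nonneg_left h2 hη.le]

theorem mass_near {n N : ℕ} {ρ : (Fin n → ℝ) → ℝ} (hc : Continuous ρ) {η : ℝ}
    (hg : Good ρ η N) {b c : Fin n → Fin (N+1)} (h : near b c) (hη : 0 < η) :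
    mass ρ N b ≤ (1 + η) * mass ρ N c := by
  have hvol : (0:ℝ) < (1 / ((N:ℝ)+1)) ^ n := by positivity
  have key : ∀ x ∈ cellset N b, ρ x ≤ (1 + η) * mass ρ N c / (1 / ((N:ℝ)+1)) ^ n := by
    intro x hx
    rw [le_div_iff₀ hvol]
    have h2 := mass_ge hc N c (a := ρ x / (1 + η)) (fun y hy => by
      rw [div_le_iff₀ (by linarith)]
      have := hg x hx.1 y hy.1 (dist_near h hx hy)
      linarith)
    have h3 := mul_le_mul_of_nonneg_left h2 (by linarith : (0:ℝ) ≤ 1 + η)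
    have h4 : (1 + η) * (ρ x / (1 + η) * (1 / ((N:ℝ)+1)) ^ n) = ρ x * (1 / ((N:ℝ)+1)) ^ n := by
      field_simp
    linarith
  have h5 := mass_le hc N b key
  rwa [div_mul_cancel₀ _ hvol.ne'] at h5

theorem weight_le {n N : ℕ} {ρ : (Fin n → ℝ) → ℝ} (hc : Continuous ρ) (hpos : ∀ x, 0 < ρ x) {η : ℝ}
    (hg : Good ρ η N) {b : Fin n → Fin (N+1)} (hη : 0 < η) {w : (Fin n → ℝ) → ℝ}
    (hw : Continuous w) (hw0 : ∀ x, 0 ≤ w x)
    (hwi : ∫ x in Set.Icc (0 : Fin n → ℝ) 1, w x ≤ (1 / ((N:ℝ)+1)) ^ n)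
    (hs : ∀ x ∈ Set.Icc (0 : Fin n → ℝ) 1, w x ≠ 0 → near (fun i => cell N (x i)) b) :
    ∫ x in Set.Icc (0 : Fin n → ℝ) 1, w x * ρ x ≤ (1 + η) * mass ρ N b := by
  have hvol : (0:ℝ) < (1 / ((N:ℝ)+1)) ^ n := by positivity
  have hm0 : 0 ≤ mass ρ N b := by
    have := mass_ge hc N b (a := 0) (fun y _ => (hpos y).le)
    linarith
  have key : ∀ x ∈ Set.Icc (0 : Fin n → ℝ) 1,
      w x * ρ x ≤ w x * ((1 + η) * mass ρ N b / (1 / ((N:ℝ)+1)) ^ n) := by
    intro x hx
    by_cases hwx : w x = 0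
    · simp [hwx]
    apply mul_le_mul_of_nonneg_left _ (hw0 x)
    rw [le_div_iff₀ hvol]
    have hxc : x ∈ cellset N (fun i => cell N (x i)) := ⟨hx, fun i => rfl⟩
    have h2 := mass_ge hc N b (a := ρ x / (1 + η)) (fun y hy => by
      rw [div_le_iff₀ (by linarith)]
      have := hg x hx y hy.1 (dist_near (hs x hx hwx) hxc hy)
      linarith)
    have h3 := mul_le_mul_of_nonneg_left h2 (by linarith : (0:ℝ) ≤ 1 + η)
    have h4 : (1 + η) * (ρ x / (1 + η) * (1 / ((N:ℝ)+1)) ^ n) = ρ x * (1 / ((N:ℝ)+1)) ^ n := by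
      field_simp
    linarith
  have hi1 : IntegrableOn (fun x => w x * ρ x) (Set.Icc (0 : Fin n → ℝ) 1) :=
    (hw.mul hc).integrableOn_Icc
  have hi2 : IntegrableOn (fun x => w x * ((1 + η) * mass ρ N b / (1 / ((N:ℝ)+1)) ^ n))
      (Set.Icc (0 : Fin n → ℝ) 1) := (hw.mul continuous_const).integrableOn_Icc
  have h5 := setIntegral_mono_on hi1 hi2 measurableSet_Icc key
  rw [integral_mul_const] at h5
  refine h5.trans ?_
  calc (∫ x in Set.Icc (0 : Fin n → ℝ) 1, w x) * ((1 + η) * mass ρ N b / (1 / ((N:ℝ)+1)) ^ n)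
      ≤ (1 / ((N:ℝ)+1)) ^ n * ((1 + η) * mass ρ N b / (1 / ((N:ℝ)+1)) ^ n) := by
        apply mul_le_mul_of_nonneg_right hwi
        apply div_nonneg (mul_nonneg (by linarith) hm0) hvol.le
    _ = (1 + η) * mass ρ N b := by
        rw [mul_div_cancel₀ _ hvol.ne']

/-- integral of a product over the cube -/
theorem integral_cube_prod {n : ℕ} (g : Fin n → ℝ → ℝ) :
    ∫ x in Set.Icc (0 : Fin n → ℝ) 1, ∏ i, g i (x i) = ∏ i, ∫ t in Set.Icc (0:ℝ) 1, g i t := by
  have h1 : Set.Icc (0 : Fin n → ℝ) 1 = Set.pi Set.univ (fun _ : Fin n => Set.Icc (0:ℝ) 1) := by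
    rw [Set.pi_univ_Icc]; rfl
  rw [h1, volume_pi, Measure.restrict_pi_pi]
  exact integral_fintype_prod_eq_prod (fun i => g i)

/-- splitting a sum over the grid along one coordinate -/
theorem sum_split {n N : ℕ} (i : Fin n) (G : (Fin n → Fin (N+1)) → ℝ) :
    ∑ b, G b = ∑ r : {j // j ≠ i} → Fin (N+1), ∑ k : Fin (N+1),
      G ((Equiv.funSplitAt i (Fin (N+1))).symm (k, r)) := by
  rw [Finset.sum_comm, ← Fintype.sum_prod_type' (f := fun k r => G ((Equiv.funSplitAt i (Fin (N+1))).symm (k, r)))]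
  exact (Equiv.sum_comp (Equiv.funSplitAt i (Fin (N+1))).symm G).symm

theorem split_self {n N : ℕ} (i : Fin n) (k : Fin (N+1)) (r : {j // j ≠ i} → Fin (N+1)) :
    (Equiv.funSplitAt i (Fin (N+1))).symm (k, r) i = k := by
  simp [Equiv.funSplitAt, Equiv.piSplitAt]

theorem split_ne {n N : ℕ} (i : Fin n) (k : Fin (N+1)) (r : {j // j ≠ i} → Fin (N+1))
    (j : {j // j ≠ i}) : (Equiv.funSplitAt i (Fin (N+1))).symm (k, r) j = r j := by
  simp [Equiv.funSplitAt, Equiv.piSplitAt, j.2]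

theorem split_update {n N : ℕ} (i : Fin n) (k l : Fin (N+1)) (r : {j // j ≠ i} → Fin (N+1)) :
    Function.update ((Equiv.funSplitAt i (Fin (N+1))).symm (k, r)) i l =
      (Equiv.funSplitAt i (Fin (N+1))).symm (l, r) := by
  funext j
  by_cases h : j = i
  · subst h; simp
  · rw [Function.update_of_ne h]
    rw [split_ne i k r ⟨j, h⟩, split_ne i l r ⟨j, h⟩]

/-- the interpolating function -/
noncomputable def interp {n N : ℕ} (φ : Fin (N+1) → ℝ → ℝ) (F : (Fin n → Fin (N+1)) → ℝ)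
    (x : Fin n → ℝ) : ℝ := ∑ b, F b * ∏ i, φ (b i) (x i)

/-- the weights of the partial derivative -/
noncomputable def wt {n N : ℕ} (φ χ : Fin (N+1) → ℝ → ℝ) (i : Fin n) (b : Fin n → Fin (N+1))
    (x : Fin n → ℝ) : ℝ := χ (b i) (x i) * ∏ j : {j // j ≠ i}, φ (b j) (x j)

theorem contDiff_interp {n N : ℕ} {φ : Fin (N+1) → ℝ → ℝ} (hφ : ∀ k, ContDiff ℝ 1 (φ k))
    (F : (Fin n → Fin (N+1)) → ℝ) : ContDiff ℝ 1 (interp φ F) := by
  unfold interp
  apply ContDiff.sum
  intro b _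
  apply contDiff_const.mul
  apply contDiff_prod
  intro i _
  exact (hφ (b i)).comp (contDiff_apply ℝ ℝ i)

theorem pderiv_interp {n N : ℕ} {φ χ : Fin (N+1) → ℝ → ℝ} (hφ : ∀ k, ContDiff ℝ 1 (φ k))
    (hd : ∀ (g : Fin (N+1) → ℝ) (t : ℝ), HasDerivAt (fun t => ∑ k, g k * φ k t)
      (((N:ℝ)+1) * ∑ k, (if h : k.val + 1 < N + 1 then g ⟨k.val + 1, h⟩ - g k else 0) * χ k t) t)
    (F : (Fin n → Fin (N+1)) → ℝ) (x : Fin n → ℝ) (i : Fin n) :
    fderiv ℝ (interp φ F) x (Pi.single i 1) = ((N:ℝ)+1) * ∑ b, dif F i b * wt φ χ i b x := by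
  have hdiff : DifferentiableAt ℝ (interp φ F) x :=
    (contDiff_interp hφ F).contDiffAt.differentiableAt (by norm_num)
  have hline : HasDerivAt (fun t : ℝ => Function.update x i t) (Pi.single i (1:ℝ)) (x i) :=
    hasDerivAt_update x i (x i)
  have hcomp : HasDerivAt (fun t : ℝ => interp φ F (Function.update x i t))
      (fderiv ℝ (interp φ F) x (Pi.single i 1)) (x i) := by
    have h1 : HasFDerivAt (interp φ F) (fderiv ℝ (interp φ F) x) (Function.update x i (x i)) := by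
      rw [Function.update_eq_self]; exact hdiff.hasFDerivAt
    exact h1.comp_hasDerivAt (x i) hline
  have hfun : (fun t : ℝ => interp φ F (Function.update x i t)) = fun t =>
      ∑ r : {j // j ≠ i} → Fin (N+1), (∑ k : Fin (N+1),
        F ((Equiv.funSplitAt i (Fin (N+1))).symm (k, r)) * φ k t) *
          ∏ j : {j // j ≠ i}, φ (r j) (x j) := by
    funext t
    unfold interp
    rw [sum_split i]
    apply Finset.sum_congr rfl
    intro r _
    rw [Finset.sum_mul]
    apply Finset.sum_congr rfl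
    intro k _
    rw [Fintype.prod_eq_mul_prod_subtype_ne _ i, split_self, Function.update_self, mul_assoc]
    congr 2
    apply Finset.prod_congr rfl
    intro j _
    rw [split_ne, Function.update_of_ne j.2]
  have hder : HasDerivAt (fun t : ℝ => interp φ F (Function.update x i t))
      (∑ r : {j // j ≠ i} → Fin (N+1), (((N:ℝ)+1) * ∑ k : Fin (N+1),
        (if h : k.val + 1 < N + 1 then
          F ((Equiv.funSplitAt i (Fin (N+1))).symm (⟨k.val + 1, h⟩, r)) -
            F ((Equiv.funSplitAt i (Fin (N+1))).symm (k, r)) else 0) * χ k (x i)) *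
          ∏ j : {j // j ≠ i}, φ (r j) (x j)) (x i) := by
    rw [hfun]
    apply HasDerivAt.fun_sum
    intro r _
    exact (hd (fun k => F ((Equiv.funSplitAt i (Fin (N+1))).symm (k, r))) (x i)).mul_const _
  rw [hcomp.unique hder, sum_split i (fun b => dif F i b * wt φ χ i b x), Finset.mul_sum]
  apply Finset.sum_congr rfl
  intro r _
  rw [mul_assoc, Finset.sum_mul]
  congr 1
  apply Finset.sum_congr rfl
  intro k _
  have h1 : dif F i ((Equiv.funSplitAt i (Fin (N+1))).symm (k, r)) =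
      (if h : k.val + 1 < N + 1 then
          F ((Equiv.funSplitAt i (Fin (N+1))).symm (⟨k.val + 1, h⟩, r)) -
            F ((Equiv.funSplitAt i (Fin (N+1))).symm (k, r)) else 0) := by
    unfold dif
    simp only [split_self, split_update]
  have h2 : wt φ χ i ((Equiv.funSplitAt i (Fin (N+1))).symm (k, r)) x =
      χ k (x i) * ∏ j : {j // j ≠ i}, φ (r j) (x j) := by
    unfold wt
    rw [split_self]
    congr 1
    apply Finset.prod_congr rfl
    intro j _
    rw [split_ne]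
  rw [h1, h2, mul_assoc]

theorem sum_wt_le {n N : ℕ} {φ χ : Fin (N+1) → ℝ → ℝ}
    (hφ1 : ∀ t, ∑ k, φ k t = 1) (hχ1 : ∀ t, ∑ k, χ k t ≤ 1) (i : Fin n) (x : Fin n → ℝ) :
    ∑ b, wt φ χ i b x ≤ 1 := by
  rw [sum_split i (fun b => wt φ χ i b x)]
  have h2 : ∀ (r : {j // j ≠ i} → Fin (N+1)) (k : Fin (N+1)),
      wt φ χ i ((Equiv.funSplitAt i (Fin (N+1))).symm (k, r)) x =
      χ k (x i) * ∏ j : {j // j ≠ i}, φ (r j) (x j) := by
    intro r k
    unfold wt
    rw [split_self]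
    congr 1
    apply Finset.prod_congr rfl
    intro j _
    rw [split_ne]
  simp only [h2]
  simp only [← Finset.sum_mul]
  rw [← Finset.mul_sum]
  have h3 : ∑ r : {j // j ≠ i} → Fin (N+1), ∏ j : {j // j ≠ i}, φ (r j) (x j) = 1 := by
    have := Finset.prod_univ_sum (fun _ : {j // j ≠ i} => (Finset.univ : Finset (Fin (N+1))))
      (fun j k => φ k (x j))
    rw [Fintype.piFinset_univ] at this
    rw [← this]
    exact Finset.prod_eq_one (fun j _ => hφ1 _)
  rw [h3, mul_one]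
  exact hχ1 _

theorem sum_prod_eq_one {n N : ℕ} {φ : Fin (N+1) → ℝ → ℝ}
    (hφ1 : ∀ t, ∑ k, φ k t = 1) (x : Fin n → ℝ) :
    ∑ b : Fin n → Fin (N+1), ∏ i, φ (b i) (x i) = 1 := by
  have := Finset.prod_univ_sum (fun _ : Fin n => (Finset.univ : Finset (Fin (N+1))))
      (fun j k => φ k (x j))
  rw [Fintype.piFinset_univ] at this
  rw [← this]
  exact Finset.prod_eq_one (fun j _ => hφ1 _)

theorem wt_nonneg {n N : ℕ} {φ χ : Fin (N+1) → ℝ → ℝ}
    (hφ0 : ∀ k t, 0 ≤ φ k t) (hχ0 : ∀ k t, 0 ≤ χ k t) (i : Fin n) (b : Fin n → Fin (N+1))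
    (x : Fin n → ℝ) : 0 ≤ wt φ χ i b x :=
  mul_nonneg (hχ0 _ _) (Finset.prod_nonneg fun _ _ => hφ0 _ _)

theorem continuous_wt {n N : ℕ} {φ χ : Fin (N+1) → ℝ → ℝ}
    (hφ : ∀ k, Continuous (φ k)) (hχ : ∀ k, Continuous (χ k)) (i : Fin n) (b : Fin n → Fin (N+1)) :
    Continuous (wt φ χ i b) := by
  unfold wt
  apply Continuous.mul
  · exact (hχ _).comp (continuous_apply i)
  · exact continuous_finsetProd _ fun j _ => (hφ _).comp (continuous_apply _)

theorem integral_wt {n N : ℕ} {φ χ : Fin (N+1) → ℝ → ℝ}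
    (hφ0 : ∀ k t, 0 ≤ φ k t) (hχ0 : ∀ k t, 0 ≤ χ k t)
    (hφi : ∀ k, ∫ t in Set.Icc (0:ℝ) 1, φ k t ≤ 1 / ((N:ℝ)+1))
    (hχi : ∀ k, ∫ t in Set.Icc (0:ℝ) 1, χ k t ≤ 1 / ((N:ℝ)+1))
    (i : Fin n) (b : Fin n → Fin (N+1)) :
    ∫ x in Set.Icc (0 : Fin n → ℝ) 1, wt φ χ i b x ≤ (1 / ((N:ℝ)+1)) ^ n := by
  have h1 : ∀ x : Fin n → ℝ, wt φ χ i b x = ∏ j, (if j = i then χ (b j) else φ (b j)) (x j) := by
    intro x
    rw [Fintype.prod_eq_mul_prod_subtype_ne _ i]
    unfold wt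
    simp only [if_true]
    congr 1
    apply Finset.prod_congr rfl
    intro j _
    rw [if_neg j.2]
  simp only [h1]
  rw [integral_cube_prod (fun j => if j = i then χ (b j) else φ (b j))]
  calc ∏ j, ∫ t in Set.Icc (0:ℝ) 1, (if j = i then χ (b j) else φ (b j)) t
      ≤ ∏ _j : Fin n, (1 / ((N:ℝ)+1)) := by
        apply Finset.prod_le_prod
        · intro j _
          apply setIntegral_nonneg measurableSet_Icc
          intro t _
          split_ifs
          · exact hχ0 _ _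
          · exact hφ0 _ _
        · intro j _
          split_ifs
          · exact hχi _
          · exact hφi _
    _ = _ := by simp

theorem wt_support {n N : ℕ} {φ χ : Fin (N+1) → ℝ → ℝ}
    (hφs : ∀ k : Fin (N+1), ∀ t ∈ Set.Icc (0:ℝ) 1, φ k t ≠ 0 →
      (cell N t).val ≤ k.val + 1 ∧ k.val ≤ (cell N t).val + 1)
    (hχs : ∀ k : Fin (N+1), ∀ t ∈ Set.Icc (0:ℝ) 1, χ k t ≠ 0 →
      (cell N t).val ≤ k.val + 1 ∧ k.val ≤ (cell N t).val + 1)
    (i : Fin n) (b : Fin n → Fin (N+1)) (x : Fin n → ℝ) (hx : x ∈ Set.Icc (0 : Fin n → ℝ) 1)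
    (h : wt φ χ i b x ≠ 0) : near (fun i => cell N (x i)) b := by
  unfold wt at h
  intro j
  have hxj : x j ∈ Set.Icc (0:ℝ) 1 := ⟨hx.1 j, hx.2 j⟩
  by_cases hj : j = i
  · subst hj
    exact hχs _ _ hxj (left_ne_zero_of_mul h)
  · have h2 := right_ne_zero_of_mul h
    rw [Finset.prod_ne_zero_iff] at h2
    exact hφs _ _ hxj (h2 ⟨j, hj⟩ (Finset.mem_univ _))

/-- energy of the interpolating function -/
theorem energy_le {n N : ℕ} {ρ : (Fin n → ℝ) → ℝ} (hc : Continuous ρ) (hpos : ∀ x, 0 < ρ x)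
    {η : ℝ} (hg : Good ρ η N) (hη : 0 < η) {φ χ : Fin (N+1) → ℝ → ℝ}
    (hφ : ∀ k, ContDiff ℝ 1 (φ k)) (hφ0 : ∀ k t, 0 ≤ φ k t) (hφ1 : ∀ t, ∑ k, φ k t = 1)
    (hχ : ∀ k, Continuous (χ k)) (hχ0 : ∀ k t, 0 ≤ χ k t) (hχ1 : ∀ t, ∑ k, χ k t ≤ 1)
    (hd : ∀ (g : Fin (N+1) → ℝ) (t : ℝ), HasDerivAt (fun t => ∑ k, g k * φ k t)
      (((N:ℝ)+1) * ∑ k, (if h : k.val + 1 < N + 1 then g ⟨k.val + 1, h⟩ - g k else 0) * χ k t) t)
    (hφi : ∀ k, ∫ t in Set.Icc (0:ℝ) 1, φ k t ≤ 1 / ((N:ℝ)+1))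
    (hχi : ∀ k, ∫ t in Set.Icc (0:ℝ) 1, χ k t ≤ 1 / ((N:ℝ)+1))
    (hφs : ∀ k : Fin (N+1), ∀ t ∈ Set.Icc (0:ℝ) 1, φ k t ≠ 0 →
      (cell N t).val ≤ k.val + 1 ∧ k.val ≤ (cell N t).val + 1)
    (hχs : ∀ k : Fin (N+1), ∀ t ∈ Set.Icc (0:ℝ) 1, χ k t ≠ 0 →
      (cell N t).val ≤ k.val + 1 ∧ k.val ≤ (cell N t).val + 1)
    (F : (Fin n → Fin (N+1)) → ℝ) :
    ∫ x in Set.Icc (0 : Fin n → ℝ) 1,
          (∑ i, (fderiv ℝ (interp φ F) x (Pi.single i 1)) ^ 2) * ρ x ≤
      (1 + η) * (((N:ℝ)+1) ^ 2 * ∑ i, ∑ b, (dif F i b) ^ 2 * mass ρ N b) := by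
  have hφc : ∀ k, Continuous (φ k) := fun k => (hφ k).continuous
  have key : ∀ x : Fin n → ℝ, (∑ i, (fderiv ℝ (interp φ F) x (Pi.single i 1)) ^ 2) * ρ x ≤
      ((N:ℝ)+1) ^ 2 * ∑ i, ∑ b, (dif F i b) ^ 2 * (wt φ χ i b x * ρ x) := by
    intro x
    have h1 : ∀ i : Fin n, (fderiv ℝ (interp φ F) x (Pi.single i 1)) ^ 2 ≤
        ((N:ℝ)+1) ^ 2 * ∑ b, (dif F i b) ^ 2 * wt φ χ i b x := by
      intro i
      rw [pderiv_interp hφ hd F x i, mul_pow]
      apply mul_le_mul_of_nonneg_left _ (by positivity)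
      have hw0 := fun b => wt_nonneg hφ0 hχ0 i b x
      have := Finset.sum_sq_le_sum_mul_sum_of_sq_le_mul Finset.univ
        (r := fun b => dif F i b * wt φ χ i b x) (f := fun b => wt φ χ i b x)
        (g := fun b => (dif F i b) ^ 2 * wt φ χ i b x) (fun b _ => hw0 b)
        (fun b _ => mul_nonneg (sq_nonneg _) (hw0 b)) (fun b _ => le_of_eq (by ring))
      refine this.trans ?_
      have h3 : 0 ≤ ∑ b, (dif F i b) ^ 2 * wt φ χ i b x :=
        Finset.sum_nonneg fun b _ => mul_nonneg (sq_nonneg _) (hw0 b)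
      calc (∑ b, wt φ χ i b x) * ∑ b, (dif F i b) ^ 2 * wt φ χ i b x
          ≤ 1 * ∑ b, (dif F i b) ^ 2 * wt φ χ i b x :=
            mul_le_mul_of_nonneg_right (sum_wt_le hφ1 hχ1 i x) h3
        _ = _ := one_mul _
    calc (∑ i, (fderiv ℝ (interp φ F) x (Pi.single i 1)) ^ 2) * ρ x
        ≤ (∑ i, ((N:ℝ)+1) ^ 2 * ∑ b, (dif F i b) ^ 2 * wt φ χ i b x) * ρ x :=
          mul_le_mul_of_nonneg_right (Finset.sum_le_sum fun i _ => h1 i) (hpos x).le
      _ = _ := by
          rw [← Finset.mul_sum, mul_assoc, Finset.sum_mul]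
          congr 1
          apply Finset.sum_congr rfl
          intro i _
          rw [Finset.sum_mul]
          apply Finset.sum_congr rfl
          intro b _
          ring
  have hcd : Continuous (fun x : Fin n → ℝ =>
      (∑ i, (fderiv ℝ (interp φ F) x (Pi.single i 1)) ^ 2) * ρ x) := by
    apply Continuous.mul _ hc
    apply continuous_finsetSum
    intro i _
    apply Continuous.pow
    exact ((contDiff_interp hφ F).continuous_fderiv (by norm_num)).clm_apply continuous_const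
  have hcw : ∀ i b, Continuous (fun x : Fin n → ℝ => wt φ χ i b x * ρ x) := fun i b =>
    (continuous_wt hφc hχ i b).mul hc
  have hcr : Continuous (fun x : Fin n → ℝ =>
      ((N:ℝ)+1) ^ 2 * ∑ i, ∑ b, (dif F i b) ^ 2 * (wt φ χ i b x * ρ x)) := by
    apply continuous_const.mul
    apply continuous_finsetSum
    intro i _
    apply continuous_finsetSum
    intro b _
    exact continuous_const.mul (hcw i b)
  have h5 := setIntegral_mono_on (μ := volume) (s := Set.Icc (0 : Fin n → ℝ) 1)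
    hcd.integrableOn_Icc hcr.integrableOn_Icc measurableSet_Icc (fun x _ => key x)
  refine h5.trans ?_
  rw [integral_const_mul, integral_finsetSum]
  · have h6 : ∀ i : Fin n, ∫ x in Set.Icc (0 : Fin n → ℝ) 1,
        ∑ b, (dif F i b) ^ 2 * (wt φ χ i b x * ρ x) ≤
        (1 + η) * ∑ b, (dif F i b) ^ 2 * mass ρ N b := by
      intro i
      rw [integral_finsetSum]
      · rw [Finset.mul_sum]
        apply Finset.sum_le_sum
        intro b _
        rw [integral_const_mul]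
        have := weight_le hc hpos hg (b := b) hη (continuous_wt hφc hχ i b)
          (fun x => wt_nonneg hφ0 hχ0 i b x) (integral_wt hφ0 hχ0 hφi hχi i b)
          (fun x hx h => wt_support hφs hχs i b x hx h)
        have h7 := mul_le_mul_of_nonneg_left this (sq_nonneg (dif F i b))
        linarith
      · intro b _
        exact (continuous_const.mul (hcw i b)).integrableOn_Icc
    calc ((N:ℝ)+1) ^ 2 * ∑ i, ∫ x in Set.Icc (0 : Fin n → ℝ) 1,
          ∑ b, (dif F i b) ^ 2 * (wt φ χ i b x * ρ x)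
        ≤ ((N:ℝ)+1) ^ 2 * ∑ i, (1 + η) * ∑ b, (dif F i b) ^ 2 * mass ρ N b :=
          mul_le_mul_of_nonneg_left (Finset.sum_le_sum fun i _ => h6 i) (by positivity)
      _ = _ := by rw [← Finset.mul_sum]; ring
  · intro i _
    apply Continuous.integrableOn_Icc
    apply continuous_finsetSum
    intro b _
    exact continuous_const.mul (hcw i b)

/-- at most `3 ^ n` indices are near to a given one -/
theorem card_near {n N : ℕ} (q : Fin n → Fin (N+1)) :
    (Finset.univ.filter (fun c : Fin n → Fin (N+1) => near q c)).card ≤ 3 ^ n := by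
  have h1 : (Finset.univ.filter (fun c : Fin n → Fin (N+1) => near q c)) ⊆
      Fintype.piFinset (fun j => Finset.univ.filter (fun k : Fin (N+1) =>
        (q j).val ≤ k.val + 1 ∧ k.val ≤ (q j).val + 1)) := by
    intro c hc
    rw [Finset.mem_filter] at hc
    rw [Fintype.mem_piFinset]
    intro j
    rw [Finset.mem_filter]
    exact ⟨Finset.mem_univ _, hc.2 j⟩
  refine (Finset.card_le_card h1).trans ?_
  rw [Fintype.card_piFinset]
  calc ∏ j, (Finset.univ.filter (fun k : Fin (N+1) =>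
        (q j).val ≤ k.val + 1 ∧ k.val ≤ (q j).val + 1)).card
      ≤ ∏ _j : Fin n, 3 := by
        apply Finset.prod_le_prod'
        intro j _
        have h2 : ((Finset.univ.filter (fun k : Fin (N+1) =>
          (q j).val ≤ k.val + 1 ∧ k.val ≤ (q j).val + 1)).map Fin.valEmbedding) ⊆
          Finset.Icc ((q j).val - 1) ((q j).val + 1) := by
          intro m hm
          rw [Finset.mem_map] at hm
          obtain ⟨k, hk, rfl⟩ := hm
          rw [Finset.mem_filter] at hk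
          rw [Finset.mem_Icc]
          simp only [Fin.valEmbedding_apply]
          omega
        have h3 := Finset.card_le_card h2
        rw [Finset.card_map, Nat.card_Icc] at h3
        omega
    _ = 3 ^ n := by simp

/-- closeness of the interpolating function to the step function -/
theorem close_le {n N : ℕ} {ρ : (Fin n → ℝ) → ℝ} (hc : Continuous ρ) (hpos : ∀ x, 0 < ρ x)
    {η : ℝ} (hg : Good ρ η N) (hη : 0 < η) {φ : Fin (N+1) → ℝ → ℝ}
    (hφ : ∀ k, ContDiff ℝ 1 (φ k)) (hφ0 : ∀ k t, 0 ≤ φ k t) (hφ1 : ∀ t, ∑ k, φ k t = 1)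
    (hφs : ∀ k : Fin (N+1), ∀ t ∈ Set.Icc (0:ℝ) 1, φ k t ≠ 0 →
      (cell N t).val ≤ k.val + 1 ∧ k.val ≤ (cell N t).val + 1)
    (F : (Fin n → Fin (N+1)) → ℝ) :
    ∫ x in Set.Icc (0 : Fin n → ℝ) 1,
          (interp φ F x - F (fun i => cell N (x i))) ^ 2 * ρ x ≤
      (n * 3 ^ n) * (1 + η) * ∑ i, ∑ b, (dif F i b) ^ 2 * mass ρ N b := by
  set H : (Fin n → Fin (N+1)) → ℝ := fun c => n * ∑ i, ∑ q ∈ Finset.univ.filter
      (fun q : Fin n → Fin (N+1) => near q c), (dif F i q) ^ 2 with hH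
  have key : ∀ x ∈ Set.Icc (0 : Fin n → ℝ) 1,
      (interp φ F x - F (fun i => cell N (x i))) ^ 2 * ρ x ≤ H (fun i => cell N (x i)) * ρ x := by
    intro x hx
    apply mul_le_mul_of_nonneg_right _ (hpos x).le
    have hP0 : ∀ b : Fin n → Fin (N+1), 0 ≤ ∏ i, φ (b i) (x i) := fun b =>
      Finset.prod_nonneg fun i _ => hφ0 _ _
    have hP1 := sum_prod_eq_one (n := n) hφ1 x
    have h1 : interp φ F x - F (fun i => cell N (x i)) =
        ∑ b : Fin n → Fin (N+1), (F b - F (fun i => cell N (x i))) * ∏ i, φ (b i) (x i) := by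
      simp only [sub_mul, Finset.sum_sub_distrib]
      rw [← Finset.mul_sum, hP1, mul_one]
      rfl
    rw [h1]
    have := Finset.sum_sq_le_sum_mul_sum_of_sq_le_mul Finset.univ
        (r := fun b : Fin n → Fin (N+1) => (F b - F (fun i => cell N (x i))) * ∏ i, φ (b i) (x i))
        (f := fun b => ∏ i, φ (b i) (x i))
        (g := fun b => (F b - F (fun i => cell N (x i))) ^ 2 * ∏ i, φ (b i) (x i))
        (fun b _ => hP0 b)
        (fun b _ => mul_nonneg (sq_nonneg _) (hP0 b)) (fun b _ => le_of_eq (by ring))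
    refine this.trans ?_
    rw [hP1, one_mul]
    calc ∑ b : Fin n → Fin (N+1), (F b - F (fun i => cell N (x i))) ^ 2 * ∏ i, φ (b i) (x i)
        ≤ ∑ b : Fin n → Fin (N+1), H (fun i => cell N (x i)) * ∏ i, φ (b i) (x i) := by
          apply Finset.sum_le_sum
          intro b _
          by_cases h0 : ∏ i, φ (b i) (x i) = 0
          · rw [h0, mul_zero, mul_zero]
          · apply mul_le_mul_of_nonneg_right _ (hP0 b)
            have h0' := Finset.prod_ne_zero_iff.mp h0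
            exact near_sq F b (fun i => cell N (x i)) (fun i =>
              ⟨(hφs (b i) (x i) ⟨hx.1 i, hx.2 i⟩ (h0' i (Finset.mem_univ _))).2,
                (hφs (b i) (x i) ⟨hx.1 i, hx.2 i⟩ (h0' i (Finset.mem_univ _))).1⟩)
      _ = H (fun i => cell N (x i)) := by rw [← Finset.mul_sum, hP1, mul_one]
  have hI1 : IntegrableOn (fun x : Fin n → ℝ =>
      (interp φ F x - F (fun i => cell N (x i))) ^ 2 * ρ x) (Set.Icc (0 : Fin n → ℝ) 1) := by
    have e : (fun x : Fin n → ℝ => (interp φ F x - F (fun i => cell N (x i))) ^ 2 * ρ x) =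
        fun x => (interp φ F x ^ 2 * ρ x + F (fun i => cell N (x i)) ^ 2 * ρ x) -
          F (fun i => cell N (x i)) * (2 * interp φ F x * ρ x) := by
      funext x; ring
    rw [e]
    have hci := (contDiff_interp hφ F).continuous (𝕜 := ℝ)
    refine ((hci.pow 2).mul hc).integrableOn_Icc.add (integrable_cell hc N (fun c => F c ^ 2)) |>.sub ?_
    exact integrable_cell ((continuous_const.mul hci).mul hc) N F
  have h5 := setIntegral_mono_on (μ := volume) (s := Set.Icc (0 : Fin n → ℝ) 1)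
    hI1 (integrable_cell hc N H) measurableSet_Icc key
  refine h5.trans ?_
  rw [integral_cell hc N H]
  have hm0 : ∀ b : Fin n → Fin (N+1), 0 ≤ mass ρ N b := by
    intro b
    have := mass_ge hc N b (a := 0) (fun y _ => (hpos y).le)
    linarith
  calc ∑ c, H c * mass ρ N c
      = ∑ i, ∑ q, n * ((dif F i q) ^ 2 * ∑ c ∈ Finset.univ.filter
          (fun c : Fin n → Fin (N+1) => near q c), mass ρ N c) := by
        simp only [hH, Finset.sum_filter, Finset.mul_sum, Finset.sum_mul]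
        rw [Finset.sum_comm]
        apply Finset.sum_congr rfl
        intro i _
        rw [Finset.sum_comm]
        apply Finset.sum_congr rfl
        intro q _
        apply Finset.sum_congr rfl
        intro c _
        split_ifs <;> ring
    _ ≤ ∑ i, ∑ q, n * ((dif F i q) ^ 2 * (3 ^ n * ((1 + η) * mass ρ N q))) := by
        apply Finset.sum_le_sum
        intro i _
        apply Finset.sum_le_sum
        intro q _
        apply mul_le_mul_of_nonneg_left _ (Nat.cast_nonneg _)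
        apply mul_le_mul_of_nonneg_left _ (sq_nonneg _)
        calc ∑ c ∈ Finset.univ.filter (fun c : Fin n → Fin (N+1) => near q c), mass ρ N c
            ≤ ∑ c ∈ Finset.univ.filter (fun c : Fin n → Fin (N+1) => near q c),
              (1 + η) * mass ρ N q := by
              apply Finset.sum_le_sum
              intro c hc'
              rw [Finset.mem_filter] at hc'
              exact mass_near hc hg (near_symm hc'.2) hη
          _ = ((Finset.univ.filter (fun c : Fin n → Fin (N+1) => near q c)).card : ℝ) *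
              ((1 + η) * mass ρ N q) := by
              rw [Finset.sum_const, nsmul_eq_mul]
          _ ≤ _ := by
              apply mul_le_mul_of_nonneg_right _ (mul_nonneg (by linarith) (hm0 q))
              exact_mod_cast card_near q
    _ = _ := by
        rw [Finset.mul_sum]
        apply Finset.sum_congr rfl
        intro i _
        rw [Finset.mul_sum]
        apply Finset.sum_congr rfl
        intro q _
        ring

/-- PIECE E: a Poincare inequality for the density `ρ` on the unit cube gives one for functions on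
fine grids, with almost the same constant. -/
theorem grid_poincare {n : ℕ} {ρ : (Fin n → ℝ) → ℝ} (hc : Continuous ρ) (hpos : ∀ x, 0 < ρ x)
    {C : ℝ} (hC : 0 < C)
    (hP : ∀ f : (Fin n → ℝ) → ℝ, ContDiff ℝ 1 f →
      ∫ x in Set.Icc (0 : Fin n → ℝ) 1, f x * ρ x = 0 →
      ∫ x in Set.Icc (0 : Fin n → ℝ) 1, f x ^ 2 * ρ x
        ≤ C * ∫ x in Set.Icc (0 : Fin n → ℝ) 1,
          (∑ i, (fderiv ℝ f x (Pi.single i 1)) ^ 2) * ρ x)
    {ε : ℝ} (hε : 0 < ε) :
    ∀ᶠ N : ℕ in atTop, ∀ F : (Fin n → Fin (N+1)) → ℝ, ∑ b, F b * mass ρ N b = 0 →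
      ∑ b, F b ^ 2 * mass ρ N b
        ≤ (C + ε) * (((N:ℝ)+1) ^ 2 * ∑ i, ∑ b, (dif F i b) ^ 2 * mass ρ N b) := by
  obtain ⟨δ, hδ0, hδ1, hδ⟩ : ∃ δ : ℝ, 0 < δ ∧ δ ≤ 1 ∧ (1 + δ) * (C * (1 + δ)) ≤ C + ε / 2 := by
    refine ⟨min 1 (ε / (6 * C)), lt_min one_pos (by positivity), min_le_left _ _, ?_⟩
    set δ := min 1 (ε / (6 * C)) with hδd
    have h1 : δ ≤ 1 := min_le_left _ _
    have h2 : δ ≤ ε / (6 * C) := min_le_right _ _
    have h0 : 0 < δ := lt_min one_pos (by positivity)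
    rw [le_div_iff₀ (by positivity)] at h2
    nlinarith [mul_le_mul_of_nonneg_left h1 (mul_nonneg hC.le h0.le)]
  set K : ℝ := (1 + 1 / δ) * ((n * 3 ^ n) * (1 + δ)) with hK
  have hK0 : 0 ≤ K := by positivity
  have hlim : Tendsto (fun N : ℕ => K * (1 / ((N:ℝ)+1))) atTop (nhds 0) := by
    have := (tendsto_one_div_add_atTop_nhds_zero_nat (𝕜 := ℝ)).const_mul K
    simpa using this
  filter_upwards [eventually_good hc hpos hδ0, hlim.eventually (gt_mem_nhds (half_pos hε))]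
    with N hg hN F hF
  obtain ⟨φ, χ, hφ, hφ0, hφ1, hχ, hχ0, hχ1, hd, hφi, hχi, hφs, hχs⟩ := splines N
  set D := ∑ i, ∑ b, (dif F i b) ^ 2 * mass ρ N b with hD
  have hm0 : ∀ b : Fin n → Fin (N+1), 0 ≤ mass ρ N b := by
    intro b
    have := mass_ge hc N b (a := 0) (fun y _ => (hpos y).le)
    linarith
  have hD0 : 0 ≤ D := Finset.sum_nonneg fun i _ => Finset.sum_nonneg fun b _ =>
    mul_nonneg (sq_nonneg _) (hm0 b)
  have hE := energy_le hc hpos hg hδ0 hφ hφ0 hφ1 hχ hχ0 hχ1 hd hφi hχi hφs hχs F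
  have hL := close_le hc hpos hg hδ0 hφ hφ0 hφ1 hφs F
  rw [← hD] at hE hL
  have hci : Continuous (interp φ F) := (contDiff_interp hφ F).continuous (𝕜 := ℝ)
  -- the mean
  set m : ℝ := (∫ x in Set.Icc (0 : Fin n → ℝ) 1, interp φ F x * ρ x) /
    ∫ x in Set.Icc (0 : Fin n → ℝ) 1, ρ x with hm
  have hρI : IntegrableOn ρ (Set.Icc (0 : Fin n → ℝ) 1) := hc.integrableOn_Icc
  have hρpos : 0 < ∫ x in Set.Icc (0 : Fin n → ℝ) 1, ρ x := by
    have h1 : ∫ x in Set.Icc (0 : Fin n → ℝ) 1, ρ x = ∑ b, mass ρ N b := by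
      have := integral_cell hc N (fun _ => 1)
      simpa using this
    rw [h1]
    apply Finset.sum_pos _ ⟨fun _ => 0, Finset.mem_univ _⟩
    intro b _
    have hK : IsCompact (Set.Icc (0 : Fin n → ℝ) 1) := isCompact_Icc
    obtain ⟨z, hz, hmin⟩ := hK.exists_isMinOn ⟨0, by simp⟩ hc.continuousOn
    have h2 := mass_ge hc N b (a := ρ z) (fun y hy => hmin hy.1)
    have h3 : 0 < ρ z * (1 / ((N:ℝ)+1)) ^ n := mul_pos (hpos z) (by positivity)
    linarith
  have hI1 : IntegrableOn (fun x => interp φ F x * ρ x) (Set.Icc (0 : Fin n → ℝ) 1) :=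
    (hci.mul hc).integrableOn_Icc
  have hmean : ∫ x in Set.Icc (0 : Fin n → ℝ) 1, (interp φ F x - m) * ρ x = 0 := by
    simp only [sub_mul]
    rw [integral_sub hI1 (hρI.const_mul m), integral_const_mul, hm, div_mul_cancel₀ _ hρpos.ne',
      sub_self]
  have hcd : ContDiff ℝ 1 (fun x => interp φ F x - m) := (contDiff_interp hφ F).sub contDiff_const
  have h1 := hP _ hcd hmean
  have hfd : ∀ x : Fin n → ℝ, fderiv ℝ (fun x => interp φ F x - m) x = fderiv ℝ (interp φ F) x := by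
    intro x
    rw [fderiv_sub_const]
  simp only [hfd] at h1
  have h2 : ∫ x in Set.Icc (0 : Fin n → ℝ) 1, (interp φ F x - m) ^ 2 * ρ x ≤
      C * ((1 + δ) * (((N:ℝ)+1) ^ 2 * D)) := h1.trans (mul_le_mul_of_nonneg_left hE hC.le)
  -- integrability
  have hIa : IntegrableOn (fun x => (interp φ F x - m) ^ 2 * ρ x) (Set.Icc (0 : Fin n → ℝ) 1) :=
    (((hci.sub continuous_const).pow 2).mul hc).integrableOn_Icc
  have hIb : IntegrableOn (fun x : Fin n → ℝ =>
      (interp φ F x - F (fun i => cell N (x i))) ^ 2 * ρ x) (Set.Icc (0 : Fin n → ℝ) 1) := by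
    have e : (fun x : Fin n → ℝ => (interp φ F x - F (fun i => cell N (x i))) ^ 2 * ρ x) =
        fun x => (interp φ F x ^ 2 * ρ x + F (fun i => cell N (x i)) ^ 2 * ρ x) -
          F (fun i => cell N (x i)) * (2 * interp φ F x * ρ x) := by
      funext x; ring
    rw [e]
    refine ((hci.pow 2).mul hc).integrableOn_Icc.add (integrable_cell hc N (fun c => F c ^ 2)) |>.sub ?_
    exact integrable_cell ((continuous_const.mul hci).mul hc) N F
  have hIc := integrable_cell hc N (fun c => (F c - m) ^ 2)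
  have h3 : ∑ b, (F b - m) ^ 2 * mass ρ N b ≤
      (1 + δ) * (∫ x in Set.Icc (0 : Fin n → ℝ) 1, (interp φ F x - m) ^ 2 * ρ x) +
      (1 + 1 / δ) * ∫ x in Set.Icc (0 : Fin n → ℝ) 1,
        (interp φ F x - F (fun i => cell N (x i))) ^ 2 * ρ x := by
    rw [← integral_cell hc N (fun c => (F c - m) ^ 2), ← integral_const_mul, ← integral_const_mul,
      ← integral_add (hIa.const_mul _) (hIb.const_mul _)]
    apply setIntegral_mono_on hIc ((hIa.const_mul _).add (hIb.const_mul _)) measurableSet_Icc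
    intro x _
    have h4 : ∀ a b : ℝ, (a - b) ^ 2 ≤ (1 + δ) * a ^ 2 + (1 + 1 / δ) * b ^ 2 := by
      intro a b
      have h5 : (1 + δ) * a ^ 2 + (1 + 1 / δ) * b ^ 2 - (a - b) ^ 2 = (δ * a + b) ^ 2 / δ := by
        field_simp
        ring
      have h6 : 0 ≤ (δ * a + b) ^ 2 / δ := by positivity
      linarith
    have h7 := h4 (interp φ F x - m) (interp φ F x - F (fun i => cell N (x i)))
    have h8 := mul_le_mul_of_nonneg_right h7 (hpos x).le
    have h9 : (interp φ F x - m) - (interp φ F x - F (fun i => cell N (x i))) =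
      F (fun i => cell N (x i)) - m := by ring
    rw [h9] at h8
    simp only [Pi.add_apply]
    linarith
  have h10 : ∑ b, F b ^ 2 * mass ρ N b ≤ ∑ b, (F b - m) ^ 2 * mass ρ N b := by
    have h11 : ∑ b, (F b - m) ^ 2 * mass ρ N b =
        ∑ b, F b ^ 2 * mass ρ N b - 2 * m * (∑ b, F b * mass ρ N b) + m ^ 2 * ∑ b, mass ρ N b := by
      rw [Finset.mul_sum, Finset.mul_sum, ← Finset.sum_sub_distrib, ← Finset.sum_add_distrib]
      apply Finset.sum_congr rfl
      intro b _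
      ring
    rw [h11, hF]
    have h12 : 0 ≤ m ^ 2 * ∑ b, mass ρ N b :=
      mul_nonneg (sq_nonneg _) (Finset.sum_nonneg fun b _ => hm0 b)
    linarith
  have hNpos : (0:ℝ) < (N:ℝ)+1 := by positivity
  have h13 : K * D ≤ ε / 2 * (((N:ℝ)+1) ^ 2 * D) := by
    have h14 : K ≤ ε / 2 * ((N:ℝ)+1) ^ 2 := by
      have h15 : K * (1 / ((N:ℝ)+1)) ≤ ε / 2 := hN.le
      rw [mul_one_div, div_le_iff₀ hNpos] at h15
      have h16 : (N:ℝ)+1 ≤ ((N:ℝ)+1) ^ 2 := by
        have : (0:ℝ) ≤ N := by positivity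
        nlinarith
      have h17 := mul_le_mul_of_nonneg_left h16 (half_pos hε).le
      linarith
    have := mul_le_mul_of_nonneg_right h14 hD0
    linarith
  have hδ' : (0:ℝ) ≤ 1 + δ := by linarith
  have hδ'' : (0:ℝ) ≤ 1 + 1 / δ := by positivity
  calc ∑ b, F b ^ 2 * mass ρ N b ≤ _ := h10
    _ ≤ _ := h3
    _ ≤ (1 + δ) * (C * ((1 + δ) * (((N:ℝ)+1) ^ 2 * D))) +
        (1 + 1 / δ) * ((n * 3 ^ n) * (1 + δ) * D) :=
        add_le_add (mul_le_mul_of_nonneg_left h2 hδ') (mul_le_mul_of_nonneg_left hL hδ'')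
    _ = ((1 + δ) * (C * (1 + δ))) * (((N:ℝ)+1) ^ 2 * D) + K * D := by rw [hK]; ring
    _ ≤ (C + ε / 2) * (((N:ℝ)+1) ^ 2 * D) + ε / 2 * (((N:ℝ)+1) ^ 2 * D) :=
        add_le_add (mul_le_mul_of_nonneg_right hδ (by positivity)) h13
    _ = _ := by ring

end Pool.Agent.K6.H24.KR
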