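import Pool.Agent.K6.H24.KR.Defs2

/-!
# Piece G: the Efron-Stein inequality for finite product weights
-/

namespace Pool.Agent.K6.H24.KR

open MeasureTheory Filter

namespace PieceG

/-- the variance of `f` with weights `w` -/
def vr {K : ℕ} (w f : Fin K → ℝ) : ℝ := ∑ k, w k * f k ^ 2 - (∑ k, w k * f k) ^ 2

theorem vr_eq {K : ℕ} (w f : Fin K → ℝ) (h1 : ∑ k, w k = 1) :
    vr w f = (1 / 2) * ∑ k, ∑ l, w k * w l * (f k - f l) ^ 2 := by
  have h : ∑ k, ∑ l, w k * w l * (f k - f l) ^ 2
      = (∑ k, w k * f k ^ 2) * (∑ l, w l) + (∑ k, w k) * (∑ l, w l * f l ^ 2)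
        - 2 * ((∑ k, w k * f k) * (∑ l, w l * f l)) := by
    rw [Finset.sum_mul_sum, Finset.sum_mul_sum, Finset.sum_mul_sum, Finset.mul_sum,
      ← Finset.sum_add_distrib, ← Finset.sum_sub_distrib]
    refine Finset.sum_congr rfl fun k _ => ?_
    rw [Finset.mul_sum, ← Finset.sum_add_distrib, ← Finset.sum_sub_distrib]
    refine Finset.sum_congr rfl fun l _ => ?_
    ring
  rw [h, h1, vr]
  ring

theorem jensen {L : ℕ} (q a : Fin L → ℝ) (hq : ∀ l, 0 ≤ q l) (h1 : ∑ l, q l = 1) :
    (∑ l, q l * a l) ^ 2 ≤ ∑ l, q l * a l ^ 2 := by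
  have h := vr_eq q a h1
  have h2 : 0 ≤ vr q a := by
    rw [h]
    exact mul_nonneg (by norm_num) (Finset.sum_nonneg fun k _ => Finset.sum_nonneg fun l _ =>
      mul_nonneg (mul_nonneg (hq k) (hq l)) (sq_nonneg _))
  rw [vr] at h2
  linarith

theorem vr_convex {K L : ℕ} (w : Fin K → ℝ) (hw : ∀ k, 0 ≤ w k) (hw1 : ∑ k, w k = 1)
    (q : Fin L → ℝ) (hq : ∀ l, 0 ≤ q l) (hq1 : ∑ l, q l = 1) (f : Fin L → Fin K → ℝ) :
    vr w (fun k => ∑ l, q l * f l k) ≤ ∑ l, q l * vr w (f l) := by
  rw [vr_eq w _ hw1]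
  have h : ∑ l, q l * vr w (f l)
      = (1 / 2) * ∑ k, ∑ k', w k * w k' * ∑ l, q l * (f l k - f l k') ^ 2 := by
    calc ∑ l, q l * vr w (f l)
        = ∑ l, q l * ((1 / 2) * ∑ k, ∑ k', w k * w k' * (f l k - f l k') ^ 2) := by
          refine Finset.sum_congr rfl fun l _ => ?_
          rw [vr_eq w _ hw1]
      _ = (1 / 2) * ∑ l, ∑ k, ∑ k', w k * w k' * (q l * (f l k - f l k') ^ 2) := by
          rw [Finset.mul_sum]
          refine Finset.sum_congr rfl fun l _ => ?_
          rw [mul_left_comm, Finset.mul_sum]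
          congr 1
          refine Finset.sum_congr rfl fun k _ => ?_
          rw [Finset.mul_sum]
          refine Finset.sum_congr rfl fun k' _ => ?_
          ring
      _ = _ := by
          congr 1
          rw [Finset.sum_comm]
          refine Finset.sum_congr rfl fun k _ => ?_
          rw [Finset.sum_comm]
          refine Finset.sum_congr rfl fun k' _ => ?_
          rw [Finset.mul_sum]
  rw [h]
  refine mul_le_mul_of_nonneg_left ?_ (by norm_num)
  refine Finset.sum_le_sum fun k _ => Finset.sum_le_sum fun k' _ => ?_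
  refine mul_le_mul_of_nonneg_left ?_ (mul_nonneg (hw k) (hw k'))
  rw [← Finset.sum_sub_distrib]
  have := jensen q (fun l => f l k - f l k') hq hq1
  refine le_trans (le_of_eq ?_) this
  congr 1
  refine Finset.sum_congr rfl fun l _ => ?_
  ring

theorem sum_cons {n K : ℕ} (G : (Fin (n+1) → Fin K) → ℝ) :
    ∑ b, G b = ∑ k, ∑ c : Fin n → Fin K, G (Fin.cons k c) := by
  rw [← Fintype.sum_prod_type']
  exact (Fintype.sum_equiv (Fin.consEquiv (fun _ => Fin K)) _ _ (fun x => rfl)).symm

theorem efron_stein_aux {K : ℕ} : ∀ (n : ℕ) (p : Fin n → Fin K → ℝ) (_ : ∀ i k, 0 ≤ p i k)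
    (_ : ∀ i, ∑ k, p i k = 1) (F : (Fin n → Fin K) → ℝ),
    ∑ b, (∏ j, p j (b j)) * F b ^ 2 - (∑ b, (∏ j, p j (b j)) * F b) ^ 2
      ≤ ∑ i, ∑ b, (∏ j, p j (b j)) * vr (p i) (fun k => F (Function.update b i k))
  | 0, p, hp0, hp1, F => by
      simp [Finset.univ_unique]
  | n+1, p, hp0, hp1, F => by
      have ih := efron_stein_aux n (fun i => p i.succ) (fun i k => hp0 i.succ k)
        (fun i => hp1 i.succ) (fun c => ∑ k, p 0 k * F (Fin.cons k c))
      have e1 : ∑ b, (∏ j, p j (b j)) * F b ^ 2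
          = ∑ c : Fin n → Fin K, (∏ j, p (Fin.succ j) (c j)) *
              ∑ k, p 0 k * F (Fin.cons k c) ^ 2 := by
        rw [sum_cons, Finset.sum_comm]
        refine Finset.sum_congr rfl fun c _ => ?_
        rw [Finset.mul_sum]
        refine Finset.sum_congr rfl fun k _ => ?_
        rw [Fin.prod_univ_succ]
        simp only [Fin.cons_zero, Fin.cons_succ]
        ring
      have e2 : ∑ b, (∏ j, p j (b j)) * F b
          = ∑ c : Fin n → Fin K, (∏ j, p (Fin.succ j) (c j)) *
              ∑ k, p 0 k * F (Fin.cons k c) := by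
        rw [sum_cons, Finset.sum_comm]
        refine Finset.sum_congr rfl fun c _ => ?_
        rw [Finset.mul_sum]
        refine Finset.sum_congr rfl fun k _ => ?_
        rw [Fin.prod_univ_succ]
        simp only [Fin.cons_zero, Fin.cons_succ]
        ring
      have e3 : ∑ b, (∏ j, p j (b j)) * vr (p 0) (fun k => F (Function.update b 0 k))
          = ∑ c : Fin n → Fin K, (∏ j, p (Fin.succ j) (c j)) *
              vr (p 0) (fun k => F (Fin.cons k c)) := by
        rw [sum_cons]
        have : ∀ k : Fin K, ∑ c : Fin n → Fin K, (∏ j, p j ((Fin.cons k c : Fin (n+1) → Fin K) j)) *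
            vr (p 0) (fun k' => F (Function.update (Fin.cons k c : Fin (n+1) → Fin K) 0 k'))
            = p 0 k * ∑ c : Fin n → Fin K, (∏ j, p (Fin.succ j) (c j)) *
              vr (p 0) (fun k => F (Fin.cons k c)) := by
          intro k
          rw [Finset.mul_sum]
          refine Finset.sum_congr rfl fun c _ => ?_
          rw [Fin.prod_univ_succ]
          simp only [Fin.cons_zero, Fin.cons_succ, Fin.update_cons_zero]
          ring
        rw [Finset.sum_congr rfl fun k _ => this k, ← Finset.sum_mul, hp1 0, one_mul]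
      have e4 : ∀ i : Fin n, ∑ b, (∏ j, p j (b j)) *
            vr (p i.succ) (fun k => F (Function.update b i.succ k))
          = ∑ c : Fin n → Fin K, (∏ j, p (Fin.succ j) (c j)) *
              ∑ k, p 0 k * vr (p i.succ) (fun k' => F (Fin.cons k (Function.update c i k'))) := by
        intro i
        rw [sum_cons, Finset.sum_comm]
        refine Finset.sum_congr rfl fun c _ => ?_
        rw [Finset.mul_sum]
        refine Finset.sum_congr rfl fun k _ => ?_
        rw [Fin.prod_univ_succ]
        simp only [Fin.cons_zero, Fin.cons_succ, Fin.cons_update]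
        ring
      rw [Fin.sum_univ_succ, e1, e2, e3]
      have e5 : ∑ i : Fin n, ∑ c : Fin n → Fin K, (∏ j, p (Fin.succ j) (c j)) *
            vr (p i.succ) (fun k' => ∑ k, p 0 k * F (Fin.cons k (Function.update c i k')))
          ≤ ∑ i : Fin n, ∑ b, (∏ j, p j (b j)) *
            vr (p i.succ) (fun k => F (Function.update b i.succ k)) := by
        refine Finset.sum_le_sum fun i _ => ?_
        rw [e4]
        refine Finset.sum_le_sum fun c _ => ?_
        refine mul_le_mul_of_nonneg_left ?_ (Finset.prod_nonneg fun j _ => hp0 _ _)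
        exact vr_convex (p i.succ) (hp0 i.succ) (hp1 i.succ) (p 0) (hp0 0) (hp1 0)
          (fun l k' => F (Fin.cons l (Function.update c i k')))
      have e6 : ∑ c : Fin n → Fin K, (∏ j, p (Fin.succ j) (c j)) *
              vr (p 0) (fun k => F (Fin.cons k c))
          = ∑ c : Fin n → Fin K, (∏ j, p (Fin.succ j) (c j)) *
              ∑ k, p 0 k * F (Fin.cons k c) ^ 2
            - ∑ c : Fin n → Fin K, (∏ j, p (Fin.succ j) (c j)) *
              (∑ k, p 0 k * F (Fin.cons k c)) ^ 2 := by
        rw [← Finset.sum_sub_distrib]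
        refine Finset.sum_congr rfl fun c _ => ?_
        rw [vr]
        ring
      rw [e6]
      linarith [ih, e5]

end PieceG

/-- PIECE G: Efron-Stein for finite product weights. -/
theorem efron_stein {n K : ℕ} (p : Fin n → Fin K → ℝ) (hp0 : ∀ i k, 0 ≤ p i k)
    (hp1 : ∀ i, ∑ k, p i k = 1) (F : (Fin n → Fin K) → ℝ) :
    ∑ b, (∏ j, p j (b j)) * F b ^ 2 - (∑ b, (∏ j, p j (b j)) * F b) ^ 2
      ≤ ∑ i, ∑ b, (∏ j, p j (b j)) * (∑ k, p i k * F (Function.update b i k) ^ 2
          - (∑ k, p i k * F (Function.update b i k)) ^ 2) :=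
  PieceG.efron_stein_aux n p hp0 hp1 F

end Pool.Agent.K6.H24.KR
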