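import Pool.Agent.K6.H24.KR.Defs2
import Pool.Agent.K6.H24.KR.PieceE
import Pool.Agent.K6.H24.KR.PieceG

/-!
# Poincare inequality for the grid points obtained by random rounding
-/

namespace Pool.Agent.K6.H24.KR

open MeasureTheory Filter

namespace PI

/-- rescaled splines -/
noncomputable def rs {N : ℕ} (φ : Fin (N+1) → ℝ → ℝ) (h a : ℝ) (k : Fin (N+1)) (t : ℝ) : ℝ :=
  φ k ((t - a) / h)

theorem interp_rs {n N : ℕ} (φ : Fin (N+1) → ℝ → ℝ) (h a : ℝ) (F : (Fin n → Fin (N+1)) → ℝ)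
    (x : Fin n → ℝ) : interp (rs φ h a) F x = interp φ F (fun j => (x j - a) / h) := rfl

theorem wt_rs {n N : ℕ} (φ χ : Fin (N+1) → ℝ → ℝ) (h a : ℝ) (i : Fin n) (b : Fin n → Fin (N+1))
    (x : Fin n → ℝ) : wt (rs φ h a) (rs χ h a) i b x = wt φ χ i b (fun j => (x j - a) / h) := rfl

theorem contDiff_rs {N : ℕ} {φ : Fin (N+1) → ℝ → ℝ} (hφ : ∀ k, ContDiff ℝ 1 (φ k)) (h a : ℝ)
    (k : Fin (N+1)) : ContDiff ℝ 1 (rs φ h a k) := by
  unfold rs
  exact (hφ k).comp ((contDiff_id.sub contDiff_const).div_const h)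

theorem pderiv_rs {n N : ℕ} {φ χ : Fin (N+1) → ℝ → ℝ} (hS : Spl N φ χ) {h : ℝ} (hh : 0 < h) (a : ℝ)
    (F : (Fin n → Fin (N+1)) → ℝ) (x : Fin n → ℝ) (i : Fin n) :
    fderiv ℝ (interp (rs φ h a) F) x (Pi.single i 1) =
      (1 / h) * ∑ b, dif F i b * wt (rs φ h a) (rs χ h a) i b x := by
  have hN : (0:ℝ) < (N:ℝ) + 1 := by positivity
  have hd : ∀ (g : Fin (N+1) → ℝ) (t : ℝ), HasDerivAt (fun t => ∑ k, g k * rs φ h a k t)
      (((N:ℝ)+1) * ∑ k, (if h : k.val + 1 < N + 1 then g ⟨k.val + 1, h⟩ - g k else 0) *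
        (1 / (h * ((N:ℝ)+1)) * rs χ h a k t)) t := by
    intro g t
    have h1 := hS.deriv g ((t - a) / h)
    have h2 : HasDerivAt (fun t : ℝ => (t - a) / h) (1 / h) t :=
      ((hasDerivAt_id t).sub_const a).div_const h
    have h3 := h1.comp t h2
    refine (h3.congr_deriv ?_)
    have key : ∀ D X : ℝ, D * X * (1 / h) =
        ((N:ℝ)+1) * (D * (1 / (h * ((N:ℝ)+1)) * X)) := by
      intro D X
      field_simp
    rw [Finset.sum_mul, Finset.mul_sum]
    apply Finset.sum_congr rfl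
    intro k _
    exact key _ _
  rw [pderiv_interp (contDiff_rs hS.smooth h a) hd F x i, Finset.mul_sum, Finset.mul_sum]
  apply Finset.sum_congr rfl
  intro b _
  unfold wt
  field_simp

/-- pointwise variance bound -/
theorem var_le {n N : ℕ} {φ χ : Fin (N+1) → ℝ → ℝ} (hS : Spl N φ χ)
    (F : (Fin n → Fin (N+1)) → ℝ) (v : Fin n → ℝ) :
    interp φ (fun b => F b ^ 2) v - interp φ F v ^ 2 ≤
      (1 / 2) * ∑ i, ∑ b, wt φ χ i b v * (dif F i b) ^ 2 := by
  have h1 := efron_stein (fun j k => φ k (v j)) (fun j k => hS.nonneg k (v j))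
    (fun j => hS.one (v j)) F
  have h2 : interp φ (fun b => F b ^ 2) v - interp φ F v ^ 2 =
      ∑ b, (∏ j, φ (b j) (v j)) * F b ^ 2 - (∑ b, (∏ j, φ (b j) (v j)) * F b) ^ 2 := by
    unfold interp
    simp only [mul_comm]
  rw [h2]
  refine h1.trans ?_
  rw [Finset.mul_sum]
  apply Finset.sum_le_sum
  intro i _
  rw [sum_split i, sum_split i, Finset.mul_sum]
  apply Finset.sum_le_sum
  intro r _
  set P := ∏ j : {j // j ≠ i}, φ (r j) (v j) with hP
  have hP0 : 0 ≤ P := Finset.prod_nonneg fun _ _ => hS.nonneg _ _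
  have hprod : ∀ k, ∏ j, φ ((Equiv.funSplitAt i (Fin (N+1))).symm (k, r) j) (v j) =
      φ k (v i) * P := by
    intro k
    rw [Fintype.prod_eq_mul_prod_subtype_ne _ i, split_self]
    congr 1
    apply Finset.prod_congr rfl
    intro j _
    rw [split_ne]
  have hwt : ∀ k, wt φ χ i ((Equiv.funSplitAt i (Fin (N+1))).symm (k, r)) v = χ k (v i) * P := by
    intro k
    unfold wt
    rw [split_self]
    congr 1
    apply Finset.prod_congr rfl
    intro j _
    rw [split_ne]
  have hdif : ∀ k : Fin (N+1), dif F i ((Equiv.funSplitAt i (Fin (N+1))).symm (k, r)) =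
      (if h : k.val + 1 < N + 1 then
          F ((Equiv.funSplitAt i (Fin (N+1))).symm (⟨k.val + 1, h⟩, r)) -
            F ((Equiv.funSplitAt i (Fin (N+1))).symm (k, r)) else 0) := by
    intro k
    unfold dif
    simp only [split_self, split_update]
  simp only [hprod, hwt, split_update, hdif]
  have hvar := hS.var (fun k => F ((Equiv.funSplitAt i (Fin (N+1))).symm (k, r))) (v i)
  set Vr := ∑ k, φ k (v i) * F ((Equiv.funSplitAt i (Fin (N+1))).symm (k, r)) ^ 2 -
    (∑ k, φ k (v i) * F ((Equiv.funSplitAt i (Fin (N+1))).symm (k, r))) ^ 2 with hVr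
  calc ∑ k, φ k (v i) * P * Vr = (∑ k, φ k (v i)) * (P * Vr) := by
        rw [Finset.sum_mul]
        exact Finset.sum_congr rfl fun k _ => by ring
    _ = P * Vr := by rw [hS.one, one_mul]
    _ ≤ P * ((1 / 2) * ∑ k : Fin (N+1), (if h : k.val + 1 < N + 1 then
          F ((Equiv.funSplitAt i (Fin (N+1))).symm (⟨k.val + 1, h⟩, r)) -
            F ((Equiv.funSplitAt i (Fin (N+1))).symm (k, r)) else 0) ^ 2 * χ k (v i)) :=
        mul_le_mul_of_nonneg_left hvar hP0
    _ = _ := by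
        rw [Finset.mul_sum, Finset.mul_sum, Finset.mul_sum]
        exact Finset.sum_congr rfl fun k _ => by ring

theorem intb {n : ℕ} {μ : Measure (Fin n → ℝ)} [IsProbabilityMeasure μ] {g : (Fin n → ℝ) → ℝ}
    (hc : Continuous g) {K : ℝ} (hK : ∀ x, |g x| ≤ K) : Integrable g μ :=
  Integrable.of_bound hc.aestronglyMeasurable K (Filter.Eventually.of_forall hK)

theorem wt_le_one {n N : ℕ} {φ χ : Fin (N+1) → ℝ → ℝ} (hS : Spl N φ χ) (i : Fin n)
    (b : Fin n → Fin (N+1)) (x : Fin n → ℝ) : wt φ χ i b x ≤ 1 :=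
  (Finset.single_le_sum (fun b _ => wt_nonneg hS.nonneg hS.nonneg' i b x)
    (Finset.mem_univ b)).trans (sum_wt_le hS.one hS.le_one i x)

theorem prod_le_one' {n N : ℕ} {φ χ : Fin (N+1) → ℝ → ℝ} (hS : Spl N φ χ)
    (b : Fin n → Fin (N+1)) (x : Fin n → ℝ) : ∏ i, φ (b i) (x i) ≤ 1 :=
  (Finset.single_le_sum (f := fun b : Fin n → Fin (N+1) => ∏ i, φ (b i) (x i))
    (fun _ _ => Finset.prod_nonneg fun _ _ => hS.nonneg _ _)
    (Finset.mem_univ b)).trans (sum_prod_eq_one hS.one x).le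

theorem interp_bound {n N : ℕ} {φ χ : Fin (N+1) → ℝ → ℝ} (hS : Spl N φ χ)
    (F : (Fin n → Fin (N+1)) → ℝ) (x : Fin n → ℝ) : |interp φ F x| ≤ ∑ b, |F b| := by
  unfold interp
  refine (Finset.abs_sum_le_sum_abs _ _).trans (Finset.sum_le_sum fun b _ => ?_)
  rw [abs_mul]
  have h0 : 0 ≤ ∏ i, φ (b i) (x i) := Finset.prod_nonneg fun _ _ => hS.nonneg _ _
  rw [abs_of_nonneg h0]
  calc |F b| * ∏ i, φ (b i) (x i) ≤ |F b| * 1 :=
        mul_le_mul_of_nonneg_left (prod_le_one' hS b x) (abs_nonneg _)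
    _ = _ := mul_one _

end PI

open PI in
/-- PIECE I: Poincare inequality for the grid points obtained by random rounding. -/
theorem grid_ineq {n N : ℕ} {φ χ : Fin (N+1) → ℝ → ℝ} (hS : Spl N φ χ)
    {μ : Measure (Fin n → ℝ)} [IsProbabilityMeasure μ] {C : ℝ} (hC : 0 ≤ C) (hP : PB μ C)
    {h : ℝ} (hh : 0 < h) (a : ℝ) (F : (Fin n → Fin (N+1)) → ℝ) :
    ∑ b, mm μ φ h a b * F b ^ 2 - (∑ b, mm μ φ h a b * F b) ^ 2
      ≤ (C / h ^ 2 + 1 / 2) * ∑ i, ∑ b, ee μ φ χ h a i b * (dif F i b) ^ 2 := by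
  have hφc : ∀ k, Continuous (φ k) := fun k => (hS.smooth k).continuous
  have hsc : Continuous (fun x : Fin n → ℝ => fun j => (x j - a) / h) := by fun_prop
  have hprodc : ∀ b : Fin n → Fin (N+1), Continuous (fun x : Fin n → ℝ =>
      ∏ j, φ (b j) ((x j - a) / h)) := fun b =>
    continuous_finsetProd _ fun j _ => (hφc _).comp (by fun_prop)
  have hprodi : ∀ b : Fin n → Fin (N+1), Integrable (fun x : Fin n → ℝ =>
      ∏ j, φ (b j) ((x j - a) / h)) μ := by
    intro b
    refine intb (hprodc b) (K := 1) fun x => ?_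
    rw [abs_of_nonneg (Finset.prod_nonneg fun _ _ => hS.nonneg _ _)]
    exact prod_le_one' hS b (fun j => (x j - a) / h)
  have hwtc : ∀ i b, Continuous (fun x : Fin n → ℝ => wt (rs φ h a) (rs χ h a) i b x) :=
    fun i b => (continuous_wt hφc hS.cont i b).comp hsc
  have hwti : ∀ i b, Integrable (fun x : Fin n → ℝ => wt (rs φ h a) (rs χ h a) i b x) μ := by
    intro i b
    refine intb (hwtc i b) (K := 1) fun x => ?_
    rw [wt_rs, abs_of_nonneg (wt_nonneg hS.nonneg hS.nonneg' i b _)]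
    exact wt_le_one hS i b _
  -- sums are integrals
  have hsum : ∀ G : (Fin n → Fin (N+1)) → ℝ, ∑ b, mm μ φ h a b * G b =
      ∫ x, interp (rs φ h a) G x ∂μ := by
    intro G
    change _ = ∫ x : Fin n → ℝ, ∑ b, G b * ∏ i, φ (b i) ((x i - a) / h) ∂μ
    rw [integral_finsetSum _ (fun b _ => (hprodi b).const_mul (G b))]
    apply Finset.sum_congr rfl
    intro b _
    rw [integral_const_mul, mul_comm]
    rfl
  have hee : ∀ i b, ee μ φ χ h a i b = ∫ x, wt (rs φ h a) (rs χ h a) i b x ∂μ := by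
    intro i b
    unfold ee
    congr 1
    funext x
    rw [wt_rs]
    unfold wt
    congr 1
    rw [Finset.prod_subtype (Finset.univ.erase i) (p := fun j => j ≠ i) (by simp)]
  have hcd := contDiff_interp (contDiff_rs hS.smooth h a) F
  have hfc : Continuous (interp (rs φ h a) F) := hcd.continuous
  have hfb : ∀ x, |interp (rs φ h a) F x| ≤ ∑ b, |F b| := fun x => interp_bound hS F _
  -- gradient bound
  have hgb : ∀ x i, |fderiv ℝ (interp (rs φ h a) F) x (Pi.single i 1)| ≤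
      ∑ i : Fin n, (1 / h) * ∑ b, |dif F i b| := by
    intro x i
    rw [pderiv_rs hS hh]
    refine le_trans ?_ (Finset.single_le_sum (f := fun i : Fin n => (1 / h) * ∑ b, |dif F i b|)
      (fun i _ => by positivity) (Finset.mem_univ i))
    rw [abs_mul, abs_of_pos (by positivity : 0 < 1 / h)]
    apply mul_le_mul_of_nonneg_left _ (by positivity)
    refine (Finset.abs_sum_le_sum_abs _ _).trans (Finset.sum_le_sum fun b _ => ?_)
    rw [abs_mul, wt_rs, abs_of_nonneg (wt_nonneg hS.nonneg hS.nonneg' i b _)]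
    calc |dif F i b| * wt φ χ i b (fun j => (x j - a) / h) ≤ |dif F i b| * 1 :=
          mul_le_mul_of_nonneg_left (wt_le_one hS i b _) (abs_nonneg _)
      _ = _ := mul_one _
  have hPB := hP (interp (rs φ h a) F) hcd ⟨_, hfb⟩ ⟨_, hgb⟩
  -- the energy
  set D := ∑ i, ∑ b, ee μ φ χ h a i b * (dif F i b) ^ 2 with hD
  have hDint : D = ∫ x, ∑ i, ∑ b, wt (rs φ h a) (rs χ h a) i b x * (dif F i b) ^ 2 ∂μ := by
    rw [integral_finsetSum]
    · apply Finset.sum_congr rfl
      intro i _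
      rw [integral_finsetSum _ (fun b _ => (hwti i b).mul_const _)]
      apply Finset.sum_congr rfl
      intro b _
      rw [integral_mul_const, hee]
    · intro i _
      exact integrable_finsetSum _ (fun b _ => (hwti i b).mul_const _)
  have hDi : Integrable (fun x => ∑ i, ∑ b, wt (rs φ h a) (rs χ h a) i b x * (dif F i b) ^ 2) μ :=
    integrable_finsetSum _ (fun i _ => integrable_finsetSum _ (fun b _ => (hwti i b).mul_const _))
  have hE : ∫ x, gsq (interp (rs φ h a) F) x ∂μ ≤ 1 / h ^ 2 * D := by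
    rw [hDint, ← integral_const_mul]
    apply integral_mono_of_nonneg
    · exact Filter.Eventually.of_forall fun x => Finset.sum_nonneg fun i _ => sq_nonneg _
    · exact hDi.const_mul _
    · refine Filter.Eventually.of_forall fun x => ?_
      unfold gsq
      simp only []
      rw [Finset.mul_sum]
      apply Finset.sum_le_sum
      intro i _
      rw [pderiv_rs hS hh, mul_pow]
      have hw0 := fun b => wt_nonneg hS.nonneg hS.nonneg' i b (fun j => (x j - a) / h)
      have := Finset.sum_sq_le_sum_mul_sum_of_sq_le_mul Finset.univ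
        (r := fun b => dif F i b * wt (rs φ h a) (rs χ h a) i b x)
        (f := fun b => wt (rs φ h a) (rs χ h a) i b x)
        (g := fun b => wt (rs φ h a) (rs χ h a) i b x * (dif F i b) ^ 2) (fun b _ => hw0 b)
        (fun b _ => mul_nonneg (hw0 b) (sq_nonneg _)) (fun b _ => le_of_eq (by ring))
      have h3 : 0 ≤ ∑ b, wt (rs φ h a) (rs χ h a) i b x * (dif F i b) ^ 2 :=
        Finset.sum_nonneg fun b _ => mul_nonneg (hw0 b) (sq_nonneg _)
      have h4 := sum_wt_le hS.one hS.le_one i (fun j => (x j - a) / h)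
      have h5 : (∑ b, wt (rs φ h a) (rs χ h a) i b x) *
          ∑ b, wt (rs φ h a) (rs χ h a) i b x * (dif F i b) ^ 2 ≤
          1 * ∑ b, wt (rs φ h a) (rs χ h a) i b x * (dif F i b) ^ 2 :=
        mul_le_mul_of_nonneg_right h4 h3
      rw [one_mul] at h5
      have h6 : (1 / h) ^ 2 = 1 / h ^ 2 := by rw [div_pow, one_pow]
      rw [h6]
      exact mul_le_mul_of_nonneg_left (this.trans h5) (by positivity)
  -- the rounding error
  have hf2i : Integrable (interp (rs φ h a) (fun b => F b ^ 2)) μ :=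
    intb (contDiff_interp (contDiff_rs hS.smooth h a) (fun b => F b ^ 2)).continuous
      (fun x => interp_bound hS (fun b => F b ^ 2) _)
  have hfsi : Integrable (fun x => interp (rs φ h a) F x ^ 2) μ := by
    refine intb (hfc.pow 2) (K := (∑ b, |F b|) ^ 2) fun x => ?_
    rw [abs_pow]
    exact pow_le_pow_left₀ (abs_nonneg _) (hfb x) 2
  have hV : ∫ x, interp (rs φ h a) (fun b => F b ^ 2) x ∂μ -
      ∫ x, interp (rs φ h a) F x ^ 2 ∂μ ≤ 1 / 2 * D := by
    rw [hDint, ← integral_const_mul, ← integral_sub hf2i hfsi]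
    apply integral_mono (hf2i.sub hfsi) (hDi.const_mul _)
    intro x
    exact var_le hS F (fun j => (x j - a) / h)
  rw [hsum (fun b => F b ^ 2), hsum F]
  have h7 := mul_le_mul_of_nonneg_left hE hC
  calc ∫ x, interp (rs φ h a) (fun b => F b ^ 2) x ∂μ - (∫ x, interp (rs φ h a) F x ∂μ) ^ 2
      = (∫ x, interp (rs φ h a) (fun b => F b ^ 2) x ∂μ - ∫ x, interp (rs φ h a) F x ^ 2 ∂μ) +
        (∫ x, interp (rs φ h a) F x ^ 2 ∂μ - (∫ x, interp (rs φ h a) F x ∂μ) ^ 2) := by ring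
    _ ≤ 1 / 2 * D + C * (1 / h ^ 2 * D) := by linarith
    _ = _ := by ring

end Pool.Agent.K6.H24.KR
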