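import Pool.Agent.K6.H24.KR.J7
import Pool.Agent.K6.H24.KR.PieceF
import Pool.Agent.K6.H24.KR.PieceI

/-!
# Poincare inequality on the cone of the order relations
-/

namespace Pool.Agent.K6.H24.KR

open Finset MeasureTheory Filter Topology Pool.Agent.K6.H24.OP

set_option linter.unusedSectionVars false

variable {m : ℕ} {R : Fin (m+1) → Fin (m+1) → Prop} {μ : Measure (Fin (m+1) → ℝ)}
  [IsProbabilityMeasure μ]

lemma fin_ineq (hex : ∀ σ : Equiv.Perm (Fin (m+1)),
      Measure.map (fun x : Fin (m+1) → ℝ => x ∘ σ) μ = μ)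
    {C : ℝ} (hC : 0 ≤ C) (hP : PB μ C)
    {φ χ : ∀ M : ℕ, Fin (Ns M + 1) → ℝ → ℝ} (hS : ∀ M, Spl (Ns M) (φ M) (χ M))
    (f : (Fin (m+1) → ℝ) → ℝ) (M : ℕ) :
    (∑ b, (kR R b * 1) * mm μ (φ M) (hs M) (as M) b)
        * (∑ b, (kR R b * f (pt M b) ^ 2) * mm μ (φ M) (hs M) (as M) b)
      - (∑ b, (kR R b * f (pt M b)) * mm μ (φ M) (hs M) (as M) b) ^ 2
    ≤ (∑ b, (kR R b * 1) * mm μ (φ M) (hs M) (as M) b) * ((C + hs M ^ 2 / 2) *
        ∑ i, ∑ b, (kE R b i * ((f (pt M (up b i)) - f (pt M b)) / hs M) ^ 2)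
          * ee μ (φ M) (χ M) (hs M) (as M) i b) := by
  have h0 := hs_pos M
  set h := hs M with hh
  set a := as M with ha
  set w : (Fin (m+1) → Fin (Ns M + 1)) → ℝ := fun b => mm μ (φ M) h a b with hw
  have hw0 : ∀ b, 0 ≤ w b := fun b => mm_nonneg (hS M) b
  set S0 := ∑ b, (kR R b * 1) * w b with hS0
  set S1 := ∑ b, (kR R b * f (pt M b)) * w b with hS1
  set S2 := ∑ b, (kR R b * f (pt M b) ^ 2) * w b with hS2
  have hS0nn : 0 ≤ S0 := Finset.sum_nonneg fun b _ =>
    mul_nonneg (mul_nonneg (kR_nonneg b) zero_le_one) (hw0 b)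
  set D := C / h ^ 2 + 1 / 2 with hD
  have hDpos : 0 < D := by rw [hD]; positivity
  set E := ∑ i, ∑ b, kE R b i * ee μ (φ M) (χ M) h a i b * (f (pt M (up b i)) - f (pt M b)) ^ 2
    with hE
  have hEnn : 0 ≤ E := Finset.sum_nonneg fun i _ => Finset.sum_nonneg fun b _ =>
    mul_nonneg (mul_nonneg (kE_nonneg b i) (ee_nonneg (hS M) i b)) (sq_nonneg _)
  have hE2 : (C + h ^ 2 / 2) * ∑ i, ∑ b, (kE R b i * ((f (pt M (up b i)) - f (pt M b)) / h) ^ 2)
          * ee μ (φ M) (χ M) h a i b = D * E := by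
    rw [hE, hD, Finset.mul_sum, Finset.mul_sum]
    refine Finset.sum_congr rfl fun i _ => ?_
    rw [Finset.mul_sum, Finset.mul_sum]
    refine Finset.sum_congr rfl fun b _ => ?_
    field_simp
  rw [hE2]
  rcases hS0nn.eq_or_lt with hz | hpos
  · have hall : ∀ b, kR R b * w b = 0 := by
      intro b
      have := (Finset.sum_eq_zero_iff_of_nonneg (fun b _ =>
        mul_nonneg (mul_nonneg (kR_nonneg b) zero_le_one) (hw0 b))).1 hz.symm b (Finset.mem_univ b)
      rwa [mul_one] at this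
    have e1 : S1 = 0 := by
      rw [hS1]
      refine Finset.sum_eq_zero fun b _ => ?_
      have : (kR R b * f (pt M b)) * w b = f (pt M b) * (kR R b * w b) := by ring
      rw [this, hall b, mul_zero]
    rw [← hz, e1]
    simp
  · set c := S1 / S0 with hc
    have hmean : ∑ b, kR R b * w b * (f (pt M b) - c) = 0 := by
      have e : ∑ b, kR R b * w b * (f (pt M b) - c) = S1 - S0 * c := by
        rw [hS1, hS0, Finset.sum_mul, ← Finset.sum_sub_distrib]
        exact Finset.sum_congr rfl fun b _ => by ring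
      rw [e, hc]
      field_simp
      ring
    have hgo := grid_order0 (R := R) (μ := w) (ν := fun i b => ee μ (φ M) (χ M) h a i b)
      hw0 (mm_sum (hS M)) (fun i b => ee_nonneg (hS M) i b)
      (fun b σ => mm_symm (hS M) hex b σ) (fun b σ i => ee_symm (hS M) hex i b σ)
      (lam := 1 / D) (by positivity)
      (by
        intro G
        have h1 := grid_ineq (hS M) hC hP h0 a G
        have e2 : ∑ i, ∑ b, ee μ (φ M) (χ M) h a i b * (dif G i b) ^ 2
            = ∑ i, ∑ b, ee μ (φ M) (χ M) h a i b * (G (up b i) - G b) ^ 2 :=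
          Finset.sum_congr rfl fun i _ => Finset.sum_congr rfl fun b _ => by rw [dif_eq]
        rw [e2] at h1
        rw [one_div, inv_mul_le_iff₀ hDpos]
        exact h1)
      (fun b => f (pt M b) - c) hmean
    have e3 : ∑ b, kR R b * w b * (f (pt M b) - c) ^ 2 = S2 - S1 ^ 2 / S0 := by
      have : ∑ b, kR R b * w b * (f (pt M b) - c) ^ 2 = S2 - 2 * c * S1 + S0 * c ^ 2 := by
        rw [hS2, hS1, hS0, Finset.mul_sum, Finset.sum_mul, ← Finset.sum_sub_distrib,
          ← Finset.sum_add_distrib]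
        exact Finset.sum_congr rfl fun b _ => by ring
      rw [this, hc]
      field_simp
      ring
    have e4 : ∑ i, ∑ b, kE R b i * ee μ (φ M) (χ M) h a i b
        * ((f (pt M (up b i)) - c) - (f (pt M b) - c)) ^ 2 = E :=
      Finset.sum_congr rfl fun i _ => Finset.sum_congr rfl fun b _ => by ring
    rw [e3, e4, one_div, inv_mul_le_iff₀ hDpos] at hgo
    have e5 : S0 * (S2 - S1 ^ 2 / S0) = S0 * S2 - S1 ^ 2 := by
      field_simp
    calc S0 * S2 - S1 ^ 2 = S0 * (S2 - S1 ^ 2 / S0) := e5.symm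
      _ ≤ S0 * (D * E) := mul_le_mul_of_nonneg_left hgo hS0nn

lemma meas_cn (R : Fin (m+1) → Fin (m+1) → Prop) : MeasurableSet (cn R) := by
  have : cn R = ⋂ i, ⋂ j, ⋂ (_ : R i j), {x : Fin (m+1) → ℝ | x i ≤ x j} := by
    ext x; simp [cn]
  rw [this]
  exact MeasurableSet.iInter fun i => MeasurableSet.iInter fun j => MeasurableSet.iInter fun _ =>
    measurableSet_le (measurable_pi_apply i) (measurable_pi_apply j)

lemma gsq_cont {f : (Fin (m+1) → ℝ) → ℝ} (hf : ContDiff ℝ 1 f) : Continuous (gsq f) := by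
  unfold gsq
  exact continuous_finsetSum _ fun i _ =>
    ((hf.continuous_fderiv one_ne_zero).clm_apply continuous_const).pow 2

/-- **Poincare inequality on the cone**, functions with compact support. -/
theorem cone_poincare (hex : ∀ σ : Equiv.Perm (Fin (m+1)),
      Measure.map (fun x : Fin (m+1) → ℝ => x ∘ σ) μ = μ)
    (hties : ∀ i j : Fin (m+1), i ≠ j → μ {x | x i = x j} = 0)
    {C : ℝ} (hC : 0 ≤ C) (hP : PB μ C) (hirr : ∀ i, ¬ R i i)
    {f : (Fin (m+1) → ℝ) → ℝ} (hf : ContDiff ℝ 1 f) (hcs : HasCompactSupport f) :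
    μ.real (cn R) * ∫ x in cn R, f x ^ 2 ∂μ - (∫ x in cn R, f x ∂μ) ^ 2
      ≤ μ.real (cn R) * (C * ∫ x in cn R, gsq f x ∂μ) := by
  choose φ χ hS using fun M : ℕ => splines_unit (Ns M)
  have hmc := meas_cn R
  -- bounds
  obtain ⟨K1, hK1⟩ := hcs.exists_bound_of_continuous hf.continuous
  obtain ⟨K2, hK2⟩ := (hcs.fderiv (𝕜 := ℝ)).exists_bound_of_continuous
    (hf.continuous_fderiv one_ne_zero)
  have hK2' : ∀ x i, |fderiv ℝ f x (Pi.single i 1)| ≤ K2 := by
    intro x i
    have h1 := (fderiv ℝ f x).le_opNorm (Pi.single i (1:ℝ) : Fin (m+1) → ℝ)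
    rw [Real.norm_eq_abs] at h1
    refine h1.trans ?_
    have h2 : ‖(Pi.single i (1:ℝ) : Fin (m+1) → ℝ)‖ ≤ 1 := by
      rw [pi_norm_le_iff_of_nonneg zero_le_one]
      intro j
      by_cases hj : j = i
      · subst hj; simp
      · simp [hj]
    calc ‖fderiv ℝ f x‖ * ‖(Pi.single i (1:ℝ) : Fin (m+1) → ℝ)‖ ≤ ‖fderiv ℝ f x‖ * 1 :=
          mul_le_mul_of_nonneg_left h2 (norm_nonneg _)
      _ ≤ K2 := by rw [mul_one]; exact hK2 x
  have hK1' : ∀ x, |f x| ≤ K1 := fun x => by rw [← Real.norm_eq_abs]; exact hK1 x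
  -- almost every point has no ties
  have hae : ∀ᵐ x ∂μ, ∀ i j, R i j → x i ≠ x j := by
    rw [ae_all_iff]; intro i
    rw [ae_all_iff]; intro j
    by_cases hR : R i j
    · have hij : i ≠ j := fun h => hirr i (h ▸ hR)
      have h1 : ∀ᵐ x ∂μ, ¬ x i = x j := by
        rw [ae_iff]
        simpa using hties i j hij
      filter_upwards [h1] with x hx _
      exact hx
    · exact Filter.Eventually.of_forall fun x h => absurd h hR
  -- the three averages
  have hlim : ∀ Φ : (Fin (m+1) → ℝ) → ℝ, Continuous Φ → (∃ K, ∀ x, |Φ x| ≤ K) →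
      Tendsto (fun M => ∑ b, (kR R b * Φ (pt M b)) * mm μ (φ M) (hs M) (as M) b) atTop
        (𝓝 (∫ x in cn R, Φ x ∂μ)) := by
    rintro Φ hΦ ⟨K, hK⟩
    have e : ∀ M, ∑ b, (kR R b * Φ (pt M b)) * mm μ (φ M) (hs M) (as M) b
        = ∫ x, ∑ b, (kR R b * Φ (pt M b)) * wq (φ M) (hs M) (as M) b x ∂μ :=
      fun M => mm_fun (hS M) (fun b => kR R b * Φ (pt M b))
    simp only [e]
    rw [← integral_indicator hmc]
    refine tendsto_integral_of_dominated_convergence (fun _ => K) ?_ (integrable_const K) ?_ ?_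
    · intro M
      exact (continuous_finsetSum _ fun b _ =>
        continuous_const.mul (wq_cont (hS M) b)).aestronglyMeasurable
    · intro M
      refine Filter.Eventually.of_forall fun x => ?_
      rw [Real.norm_eq_abs]
      refine (Finset.abs_sum_le_sum_abs _ _).trans ?_
      calc ∑ b, |(kR R b * Φ (pt M b)) * wq (φ M) (hs M) (as M) b x|
          ≤ ∑ b, K * wq (φ M) (hs M) (as M) b x := by
            refine Finset.sum_le_sum fun b _ => ?_
            rw [abs_mul, abs_mul, abs_of_nonneg (wq_nonneg (hS M) b x), abs_of_nonneg (kR_nonneg b)]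
            refine mul_le_mul_of_nonneg_right ?_ (wq_nonneg (hS M) b x)
            calc kR R b * |Φ (pt M b)| ≤ 1 * K :=
                  mul_le_mul (kR_le_one b) (hK _) (abs_nonneg _) zero_le_one
              _ = K := one_mul K
        _ = K := by rw [← Finset.mul_sum, wq_sum (hS M), mul_one]
    · filter_upwards [hae] with x hx
      exact U_tendsto hS hx hΦ
  have l0 := hlim (fun _ => 1) continuous_const ⟨1, fun x => by simp⟩
  have l1 := hlim f hf.continuous ⟨K1, hK1'⟩
  have l2 := hlim (fun x => f x ^ 2) (hf.continuous.pow 2) ⟨K1 ^ 2, fun x => by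
    rw [abs_pow]; exact pow_le_pow_left₀ (abs_nonneg _) (hK1' x) 2⟩
  have e0 : ∫ x in cn R, (1:ℝ) ∂μ = μ.real (cn R) := by simp
  rw [e0] at l0
  -- the energy
  set W : ℕ → (Fin (m+1) → ℝ) → ℝ := fun M x =>
    max (VV φ χ R f M x) ((cn R).indicator (gsq f) x) with hW
  have hVc : ∀ M, Continuous (VV φ χ R f M) := fun M =>
    continuous_finsetSum _ fun i _ => continuous_finsetSum _ fun b _ =>
      continuous_const.mul (wf_cont (hS M) i b)
  have hgn : ∀ x, 0 ≤ gsq f x := fun x => Finset.sum_nonneg fun i _ => sq_nonneg _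
  have hgK : ∀ x, gsq f x ≤ (m+1) * K2 ^ 2 := by
    intro x
    calc gsq f x ≤ ∑ _i : Fin (m+1), K2 ^ 2 := by
          refine Finset.sum_le_sum fun i _ => ?_
          rw [← sq_abs]
          exact pow_le_pow_left₀ (abs_nonneg _) (hK2' x i) 2
      _ = _ := by simp
  have hKnn : 0 ≤ (m+1) * K2 ^ 2 := by positivity
  have lW : Tendsto (fun M => ∫ x, W M x ∂μ) atTop (𝓝 (∫ x in cn R, gsq f x ∂μ)) := by
    rw [← integral_indicator hmc]
    refine tendsto_integral_of_dominated_convergence (fun _ => (m+1) * K2 ^ 2) ?_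
      (integrable_const _) ?_ ?_
    · intro M
      exact ((hVc M).measurable.max ((gsq_cont hf).measurable.indicator hmc)).aestronglyMeasurable
    · intro M
      refine Filter.Eventually.of_forall fun x => ?_
      rw [Real.norm_eq_abs, abs_of_nonneg ((VV_nonneg hS f M x).trans (le_max_left _ _))]
      refine max_le (VV_le hS hf hK2' M x) ?_
      by_cases hx : x ∈ cn R
      · rw [Set.indicator_of_mem hx]; exact hgK x
      · rw [Set.indicator_of_notMem hx]; exact hKnn
    · refine Filter.Eventually.of_forall fun x => ?_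
      rw [Metric.tendsto_nhds]
      intro ε hε
      filter_upwards [VV_ev hS hf x (R := R) (half_pos hε)] with M hM
      rw [Real.dist_eq, abs_of_nonneg (sub_nonneg.2 (le_max_right _ _))]
      have : W M x ≤ (cn R).indicator (gsq f) x + ε / 2 := max_le hM (by linarith)
      linarith
  have lh : Tendsto (fun M => C + hs M ^ 2 / 2) atTop (𝓝 (C + 0 ^ 2 / 2)) :=
    ((hs_tendsto.pow 2).div_const 2).const_add C
  have hfin : ∀ M, (∑ b, (kR R b * 1) * mm μ (φ M) (hs M) (as M) b)
        * (∑ b, (kR R b * f (pt M b) ^ 2) * mm μ (φ M) (hs M) (as M) b)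
      - (∑ b, (kR R b * f (pt M b)) * mm μ (φ M) (hs M) (as M) b) ^ 2
      ≤ (∑ b, (kR R b * 1) * mm μ (φ M) (hs M) (as M) b) * ((C + hs M ^ 2 / 2) *
        ∫ x, W M x ∂μ) := by
    intro M
    refine (fin_ineq hex hC hP hS f M).trans ?_
    have hnn : 0 ≤ ∑ b, (kR R b * 1) * mm μ (φ M) (hs M) (as M) b :=
      Finset.sum_nonneg fun b _ => mul_nonneg (mul_nonneg (kR_nonneg b) zero_le_one)
        (mm_nonneg (hS M) b)
    refine mul_le_mul_of_nonneg_left (mul_le_mul_of_nonneg_left ?_ (by positivity)) hnn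
    rw [ee_fun (hS M) (fun i b => kE R b i * ((f (pt M (up b i)) - f (pt M b)) / hs M) ^ 2)]
    have hb : ∀ x, |W M x| ≤ (m+1) * K2 ^ 2 := by
      intro x
      rw [abs_of_nonneg ((VV_nonneg hS f M x).trans (le_max_left _ _))]
      refine max_le (VV_le hS hf hK2' M x) ?_
      by_cases hx : x ∈ cn R
      · rw [Set.indicator_of_mem hx]; exact hgK x
      · rw [Set.indicator_of_notMem hx]; exact hKnn
    refine integral_mono ?_ ?_ fun x => le_max_left _ _
    · refine bdd_int (hVc M).aestronglyMeasurable (K := (m+1) * K2 ^ 2) fun x => ?_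
      change |VV φ χ R f M x| ≤ _
      rw [abs_of_nonneg (VV_nonneg hS f M x)]
      exact VV_le hS hf hK2' M x
    · exact bdd_int ((hVc M).measurable.max
        ((gsq_cont hf).measurable.indicator hmc)).aestronglyMeasurable hb
  have hL := le_of_tendsto_of_tendsto' ((l0.mul l2).sub (l1.pow 2)) (l0.mul (lh.mul lW)) hfin
  have e2 : C + 0 ^ 2 / 2 = C := by ring
  rw [e2] at hL
  exact hL

end Pool.Agent.K6.H24.KR
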