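import Pool.Agent.K6.H24.KR.Defs2

/-!
# Piece H: the Poincare inequality for compactly supported `C¹` functions extends to all `C¹`
functions with gradient in `L²`
-/

namespace Pool.Agent.K6.H24.KR

open MeasureTheory Filter Topology

namespace PieceH

variable {n : ℕ}

lemma gsq_cont {f : (Fin n → ℝ) → ℝ} (hf : ContDiff ℝ 1 f) : Continuous (gsq f) := by
  unfold gsq
  refine continuous_finsetSum _ fun i _ => ?_
  exact ((hf.continuous_fderiv one_ne_zero).clm_apply continuous_const).pow 2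

lemma gsq_nonneg (f : (Fin n → ℝ) → ℝ) (x : Fin n → ℝ) : 0 ≤ gsq f x :=
  Finset.sum_nonneg fun _ _ => sq_nonneg _

lemma int_bdd {μ : Measure (Fin n → ℝ)} [IsProbabilityMeasure μ] {f : (Fin n → ℝ) → ℝ}
    (hf : Continuous f) {M : ℝ} (hM : ∀ x, |f x| ≤ M) : Integrable f μ :=
  Integrable.of_bound hf.aestronglyMeasurable M (Eventually.of_forall hM)

/-- bounded functions -/
lemma ext1 {μ : Measure (Fin n → ℝ)} [IsProbabilityMeasure μ] {C : ℝ}
    (hP : ∀ f : (Fin n → ℝ) → ℝ, ContDiff ℝ 1 f → HasCompactSupport f →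
      ∫ x, f x ^ 2 ∂μ - (∫ x, f x ∂μ) ^ 2 ≤ C * ∫ x, gsq f x ∂μ)
    {f : (Fin n → ℝ) → ℝ} (hf : ContDiff ℝ 1 f) {M : ℝ} (hM : ∀ x, |f x| ≤ M)
    (hi : Integrable (gsq f) μ) :
    ∫ x, f x ^ 2 ∂μ - (∫ x, f x ∂μ) ^ 2 ≤ C * ∫ x, gsq f x ∂μ := by
  have hM0 : 0 ≤ M := (abs_nonneg _).trans (hM 0)
  obtain ⟨e, he, hs, h0, h1, hone⟩ : ∃ e : (Fin n → ℝ) → ℝ, ContDiff ℝ 1 e ∧ HasCompactSupport e ∧
      (∀ x, 0 ≤ e x) ∧ (∀ x, e x ≤ 1) ∧ ∀ x, ‖x‖ ≤ 1 → e x = 1 := by
    let η : ContDiffBump (0 : Fin n → ℝ) := ⟨1, 2, one_pos, one_lt_two⟩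
    refine ⟨η, η.contDiff, η.hasCompactSupport, fun x => η.nonneg, fun x => η.le_one, fun x hx => ?_⟩
    exact η.one_of_mem_closedBall (by simpa using hx)
  obtain ⟨K, hK⟩ := (he.continuous_fderiv one_ne_zero).bounded_above_of_compact_support
    (hs.fderiv ℝ)
  have hK0 : 0 ≤ K := (norm_nonneg _).trans (hK 0)
  set c : ℕ → ℝ := fun k => 1 / ((k:ℝ) + 1) with hc
  have hcpos : ∀ k, 0 < c k := fun k => by positivity
  have hcle : ∀ k, c k ≤ 1 := fun k => by
    rw [hc]; simp only; rw [div_le_one (by positivity)]; linarith [Nat.cast_nonneg (α := ℝ) k]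
  have hc0 : Tendsto c atTop (𝓝 0) := tendsto_one_div_add_atTop_nhds_zero_nat
  set F : ℕ → (Fin n → ℝ) → ℝ := fun k x => e (c k • x) * f x with hF
  have hev : ∀ x : Fin n → ℝ, ∀ᶠ k in atTop, ‖c k • x‖ < 1 := by
    intro x
    have h : Tendsto (fun k => ‖c k • x‖) atTop (𝓝 0) := by
      have := (hc0.smul_const x).norm
      simpa using this
    exact h.eventually (gt_mem_nhds one_pos)
  have hFd : ∀ k x, HasFDerivAt (F k) (e (c k • x) • fderiv ℝ f x +
      f x • ((fderiv ℝ e (c k • x)).comp (c k • ContinuousLinearMap.id ℝ (Fin n → ℝ)))) x := by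
    intro k x
    have h1 : HasFDerivAt (fun x : Fin n → ℝ => c k • x) (c k • ContinuousLinearMap.id ℝ (Fin n → ℝ)) x :=
      (hasFDerivAt_id x).const_smul (c k)
    have h2 : HasFDerivAt e (fderiv ℝ e (c k • x)) (c k • x) :=
      ((he.differentiable one_ne_zero) _).hasFDerivAt
    have h3 := h2.comp x h1
    have h4 : HasFDerivAt f (fderiv ℝ f x) x := ((hf.differentiable one_ne_zero) _).hasFDerivAt
    exact h3.mul h4
  have hFe : ∀ k x i, fderiv ℝ (F k) x (Pi.single i 1) = e (c k • x) * fderiv ℝ f x (Pi.single i 1) +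
      f x * (c k * fderiv ℝ e (c k • x) (Pi.single i 1)) := by
    intro k x i
    rw [(hFd k x).fderiv]
    simp [smul_eq_mul]
  have hFC : ∀ k, ContDiff ℝ 1 (F k) := fun k => by
    have h1 : ContDiff ℝ 1 (fun x : Fin n → ℝ => c k • x) := contDiff_const_smul (c k)
    exact (he.comp h1).mul hf
  have hFs : ∀ k, HasCompactSupport (F k) := by
    intro k
    refine HasCompactSupport.mul_right ?_
    exact hs.comp_smul (hcpos k).ne'
  have hFM : ∀ k x, |F k x| ≤ M := by
    intro k x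
    rw [hF]; simp only [abs_mul, abs_of_nonneg (h0 _)]
    calc e (c k • x) * |f x| ≤ 1 * M := by gcongr; exacts [h1 _, hM x]
      _ = M := one_mul M
  have hFlim : ∀ x, Tendsto (fun k => F k x) atTop (𝓝 (f x)) := by
    intro x
    refine tendsto_const_nhds.congr' ?_
    filter_upwards [hev x] with k hk
    rw [hF]; simp only; rw [hone _ hk.le, one_mul]
  have hbound : ∀ k x i, |fderiv ℝ e (c k • x) (Pi.single i 1)| ≤ K := by
    intro k x i
    have := (fderiv ℝ e (c k • x)).le_opNorm (Pi.single i (1:ℝ))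
    rw [Real.norm_eq_abs] at this
    refine this.trans ?_
    have h2 : ‖(Pi.single i (1:ℝ) : Fin n → ℝ)‖ = 1 := by
      rw [Pi.norm_single]; simp
    rw [h2, mul_one]
    exact hK _
  have hGlim : ∀ x, Tendsto (fun k => gsq (F k) x) atTop (𝓝 (gsq f x)) := by
    intro x
    unfold gsq
    refine tendsto_finsetSum _ fun i _ => Tendsto.pow ?_ 2
    simp_rw [hFe]
    have ha : Tendsto (fun k => e (c k • x) * fderiv ℝ f x (Pi.single i 1)) atTop
        (𝓝 (fderiv ℝ f x (Pi.single i 1))) := by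
      refine tendsto_const_nhds.congr' ?_
      filter_upwards [hev x] with k hk
      rw [hone _ hk.le, one_mul]
    have hb : Tendsto (fun k => f x * (c k * fderiv ℝ e (c k • x) (Pi.single i 1))) atTop (𝓝 0) := by
      have h5 : Tendsto (fun k => c k * fderiv ℝ e (c k • x) (Pi.single i 1)) atTop (𝓝 0) := by
        refine squeeze_zero_norm (a := fun k => c k * K) (fun k => ?_) ?_
        · rw [norm_mul, Real.norm_eq_abs, Real.norm_eq_abs, abs_of_pos (hcpos k)]
          exact mul_le_mul_of_nonneg_left (hbound k x i) (hcpos k).le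
        · simpa using hc0.mul_const K
      simpa using h5.const_mul (f x)
    simpa using ha.add hb
  have hGbd : ∀ k x, gsq (F k) x ≤ 2 * gsq f x + 2 * (n * (M * K) ^ 2) := by
    intro k x
    have hterm : ∀ i : Fin n, (fderiv ℝ (F k) x (Pi.single i 1)) ^ 2 ≤
        2 * (fderiv ℝ f x (Pi.single i 1)) ^ 2 + 2 * (M * K) ^ 2 := by
      intro i
      rw [hFe]
      set a := fderiv ℝ f x (Pi.single i 1)
      set b := fderiv ℝ e (c k • x) (Pi.single i 1) with hb
      have hb' : |b| ≤ K := hbound k x i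
      have h5 : (e (c k • x) * a) ^ 2 ≤ a ^ 2 := by
        rw [mul_pow]
        have : e (c k • x) ^ 2 ≤ 1 := pow_le_one₀ (h0 _) (h1 _)
        nlinarith [sq_nonneg a]
      have h6 : (f x * (c k * b)) ^ 2 ≤ (M * K) ^ 2 := by
        rw [← sq_abs, abs_mul, abs_mul, abs_of_pos (hcpos k)]
        have h7 : |f x| * (c k * |b|) ≤ M * K := by
          have h8 : c k * |b| ≤ 1 * K := by
            gcongr; exact hcle k
          rw [one_mul] at h8
          exact mul_le_mul (hM x) h8 (by have := hcpos k; positivity) hM0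
        exact pow_le_pow_left₀ (by have := hcpos k; positivity) h7 2
      nlinarith [sq_nonneg (e (c k • x) * a - f x * (c k * b))]
    calc gsq (F k) x ≤ ∑ i : Fin n, (2 * (fderiv ℝ f x (Pi.single i 1)) ^ 2 + 2 * (M * K) ^ 2) :=
          Finset.sum_le_sum fun i _ => hterm i
      _ = _ := by
          rw [Finset.sum_add_distrib, ← Finset.mul_sum, Finset.sum_const, Finset.card_univ,
            Fintype.card_fin]
          unfold gsq
          simp only [nsmul_eq_mul]; ring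
  -- limits of the integrals
  have L1 : Tendsto (fun k => ∫ x, F k x ∂μ) atTop (𝓝 (∫ x, f x ∂μ)) := by
    refine tendsto_integral_of_dominated_convergence (fun _ => M)
      (fun k => (hFC k).continuous.aestronglyMeasurable) (integrable_const M)
      (fun k => Eventually.of_forall fun x => hFM k x) (Eventually.of_forall hFlim)
  have L2 : Tendsto (fun k => ∫ x, F k x ^ 2 ∂μ) atTop (𝓝 (∫ x, f x ^ 2 ∂μ)) := by
    refine tendsto_integral_of_dominated_convergence (fun _ => M ^ 2)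
      (fun k => ((hFC k).continuous.pow 2).aestronglyMeasurable) (integrable_const _)
      (fun k => Eventually.of_forall fun x => ?_) (Eventually.of_forall fun x => (hFlim x).pow 2)
    rw [Real.norm_eq_abs, abs_pow]
    exact pow_le_pow_left₀ (abs_nonneg _) (hFM k x) 2
  have L3 : Tendsto (fun k => ∫ x, gsq (F k) x ∂μ) atTop (𝓝 (∫ x, gsq f x ∂μ)) := by
    refine tendsto_integral_of_dominated_convergence
      (fun x => 2 * gsq f x + 2 * (n * (M * K) ^ 2))
      (fun k => (gsq_cont (hFC k)).aestronglyMeasurable)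
      ((hi.const_mul 2).add (integrable_const _))
      (fun k => Eventually.of_forall fun x => ?_) (Eventually.of_forall hGlim)
    rw [Real.norm_eq_abs, abs_of_nonneg (gsq_nonneg _ _)]
    exact hGbd k x
  exact le_of_tendsto_of_tendsto' (L2.sub (L1.pow 2)) (L3.const_mul C)
    fun k => hP (F k) (hFC k) (hFs k)

/-- the truncation -/
noncomputable def T (k : ℕ) (t : ℝ) : ℝ := ((k:ℝ) + 1) * Real.arctan (t / ((k:ℝ) + 1))

lemma T_bdd (k : ℕ) (t : ℝ) : |T k t| ≤ ((k:ℝ) + 1) * (Real.pi / 2) := by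
  unfold T
  rw [abs_mul, abs_of_pos (by positivity : (0:ℝ) < (k:ℝ) + 1)]
  refine mul_le_mul_of_nonneg_left ?_ (by positivity)
  rw [abs_le]
  exact ⟨(Real.neg_pi_div_two_lt_arctan _).le, (Real.arctan_lt_pi_div_two _).le⟩

lemma T_deriv (k : ℕ) (t : ℝ) :
    HasDerivAt (T k) (1 / (1 + (t / ((k:ℝ) + 1)) ^ 2)) t := by
  have h1 : HasDerivAt (fun t : ℝ => t / ((k:ℝ) + 1)) (1 / ((k:ℝ) + 1)) t :=
    (hasDerivAt_id t).div_const _
  have h2 := (h1.arctan).const_mul ((k:ℝ) + 1)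
  have h3 : HasDerivAt (T k) _ t := h2
  refine h3.congr_deriv ?_
  have : ((k:ℝ) + 1) ≠ 0 := by positivity
  field_simp

lemma T_abs (k : ℕ) (t : ℝ) : |T k t| ≤ |t| := by
  have h : ‖T k t - T k 0‖ ≤ 1 * ‖t - 0‖ := by
    refine Convex.norm_image_sub_le_of_norm_hasDerivWithin_le (s := Set.univ)
      (fun x _ => (T_deriv k x).hasDerivWithinAt) (fun x _ => ?_) convex_univ
      (Set.mem_univ _) (Set.mem_univ _)
    rw [Real.norm_eq_abs, abs_of_nonneg (by positivity)]
    rw [div_le_one (by positivity)]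
    nlinarith [sq_nonneg (x / ((k:ℝ) + 1))]
  simpa [T] using h

lemma T_lim (t : ℝ) : Tendsto (fun k => T k t) atTop (𝓝 t) := by
  by_cases ht : t = 0
  · subst ht
    simp [T]
  · have h1 : Tendsto (fun y : ℝ => Real.arctan y / y) (𝓝[≠] 0) (𝓝 1) := by
      have := Real.hasDerivAt_arctan 0
      rw [hasDerivAt_iff_tendsto_slope] at this
      simpa [slope_fun_def_field] using this
    have h2 : Tendsto (fun k : ℕ => t / ((k:ℝ) + 1)) atTop (𝓝[≠] 0) := by
      rw [tendsto_nhdsWithin_iff]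
      refine ⟨?_, Eventually.of_forall fun k => ?_⟩
      · have h := (tendsto_one_div_add_atTop_nhds_zero_nat (𝕜 := ℝ)).const_mul t
        simpa [div_eq_mul_inv] using h
      · simp only [Set.mem_compl_iff, Set.mem_singleton_iff]
        exact div_ne_zero ht (by positivity)
    have h3 := (h1.comp h2).const_mul t
    rw [mul_one] at h3
    refine h3.congr fun k => ?_
    simp only [Function.comp, T]
    have : ((k:ℝ) + 1) ≠ 0 := by positivity
    field_simp

lemma T_smooth (k : ℕ) : ContDiff ℝ 1 (T k) := by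
  unfold T
  exact contDiff_const.mul (Real.contDiff_arctan.comp (contDiff_id.div_const _))

end PieceH

open PieceH

/-- PIECE H: from compactly supported functions to all functions with gradient in `L²`. -/
theorem ext_poincare {n : ℕ} {μ : Measure (Fin n → ℝ)} [IsProbabilityMeasure μ] {C : ℝ}
    (hC : 0 ≤ C)
    (hP : ∀ f : (Fin n → ℝ) → ℝ, ContDiff ℝ 1 f → HasCompactSupport f →
      ∫ x, f x ^ 2 ∂μ - (∫ x, f x ∂μ) ^ 2 ≤ C * ∫ x, gsq f x ∂μ)
    {f : (Fin n → ℝ) → ℝ} (hf : ContDiff ℝ 1 f) (hi : Integrable (gsq f) μ) :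
    MemLp f 2 μ ∧ ∫ x, f x ^ 2 ∂μ - (∫ x, f x ∂μ) ^ 2 ≤ C * ∫ x, gsq f x ∂μ := by
  set V := C * ∫ x, gsq f x ∂μ with hV
  set g : ℕ → (Fin n → ℝ) → ℝ := fun k x => T k (f x) with hg
  have hgC : ∀ k, ContDiff ℝ 1 (g k) := fun k => (T_smooth k).comp hf
  have hgd : ∀ k x i, fderiv ℝ (g k) x (Pi.single i 1) =
      (1 / (1 + (f x / ((k:ℝ) + 1)) ^ 2)) * fderiv ℝ f x (Pi.single i 1) := by
    intro k x i
    have h4 : HasFDerivAt f (fderiv ℝ f x) x := ((hf.differentiable one_ne_zero) _).hasFDerivAt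
    have h5 := (T_deriv k (f x)).comp_hasFDerivAt x h4
    have h6 : fderiv ℝ (g k) x = _ := h5.fderiv
    rw [h6]
    simp
  have hgle : ∀ k x, gsq (g k) x ≤ gsq f x := by
    intro k x
    refine Finset.sum_le_sum fun i _ => ?_
    rw [hgd, mul_pow]
    have h0 : 0 ≤ 1 / (1 + (f x / ((k:ℝ) + 1)) ^ 2) := by positivity
    have h1 : 1 / (1 + (f x / ((k:ℝ) + 1)) ^ 2) ≤ 1 := by
      rw [div_le_one (by positivity)]
      nlinarith [sq_nonneg (f x / ((k:ℝ) + 1))]
    have : (1 / (1 + (f x / ((k:ℝ) + 1)) ^ 2)) ^ 2 ≤ 1 := pow_le_one₀ h0 h1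
    nlinarith [sq_nonneg (fderiv ℝ f x (Pi.single i 1))]
  have hgi : ∀ k, Integrable (gsq (g k)) μ := fun k =>
    hi.mono' (gsq_cont (hgC k)).aestronglyMeasurable (Eventually.of_forall fun x => by
      rw [Real.norm_eq_abs, abs_of_nonneg (gsq_nonneg _ _)]; exact hgle k x)
  have hvar : ∀ k, ∫ x, g k x ^ 2 ∂μ - (∫ x, g k x ∂μ) ^ 2 ≤ V := by
    intro k
    refine (ext1 hP (hgC k) (fun x => T_bdd k (f x)) (hgi k)).trans ?_
    exact mul_le_mul_of_nonneg_left (integral_mono (hgi k) hi (hgle k)) hC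
  -- a level `A` with mass at least `1/2`
  obtain ⟨A, hA⟩ : ∃ A : ℕ, 1 / 2 ≤ μ.real {x | |f x| ≤ (A:ℝ)} := by
    have hmono : Monotone fun A : ℕ => {x : Fin n → ℝ | |f x| ≤ (A:ℝ)} := by
      intro A B hAB x hx
      simp only [Set.mem_ofPred_eq] at hx ⊢
      exact hx.trans (by exact_mod_cast hAB)
    have h1 := tendsto_measure_iUnion_atTop (μ := μ) hmono
    have h2 : (⋃ A : ℕ, {x : Fin n → ℝ | |f x| ≤ (A:ℝ)}) = Set.univ := by
      rw [Set.eq_univ_iff_forall]
      intro x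
      obtain ⟨A, hA⟩ := exists_nat_ge |f x|
      exact Set.mem_iUnion.2 ⟨A, hA⟩
    rw [h2, measure_univ] at h1
    have h3 := (ENNReal.tendsto_toReal ENNReal.one_ne_top).comp h1
    simp only [ENNReal.toReal_one] at h3
    have h4 := h3.eventually (lt_mem_nhds (by norm_num : (1/2 : ℝ) < 1))
    obtain ⟨A, hA⟩ := h4.exists
    exact ⟨A, le_of_lt hA⟩
  have hSm : MeasurableSet {x : Fin n → ℝ | |f x| ≤ (A:ℝ)} :=
    measurableSet_le (hf.continuous.abs.measurable) measurable_const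
  have hgint : ∀ k, Integrable (g k) μ := fun k =>
    int_bdd (hgC k).continuous (fun x => T_bdd k (f x))
  have hgint2 : ∀ k, Integrable (fun x => g k x ^ 2) μ := fun k =>
    int_bdd (M := (((k:ℝ) + 1) * (Real.pi / 2)) ^ 2) ((hgC k).continuous.pow 2) (fun x => by
      rw [abs_pow]; exact pow_le_pow_left₀ (abs_nonneg _) (T_bdd k (f x)) 2)
  have hm : ∀ k, (∫ x, g k x ∂μ) ^ 2 ≤ 4 * V + 4 * (A:ℝ) ^ 2 := by
    intro k
    set m := ∫ x, g k x ∂μ with hmdef
    have hvar' : ∫ x, (g k x - m) ^ 2 ∂μ = ∫ x, g k x ^ 2 ∂μ - m ^ 2 := by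
      have : ∀ x, (g k x - m) ^ 2 = g k x ^ 2 - 2 * m * g k x + m ^ 2 := fun x => by ring
      simp_rw [this]
      have e1 : ∫ x, (g k x ^ 2 - 2 * m * g k x + m ^ 2) ∂μ =
          ∫ x, (g k x ^ 2 - 2 * m * g k x) ∂μ + ∫ _x, m ^ 2 ∂μ :=
        integral_add ((hgint2 k).sub ((hgint k).const_mul _)) (integrable_const _)
      have e2 : ∫ x, (g k x ^ 2 - 2 * m * g k x) ∂μ =
          ∫ x, g k x ^ 2 ∂μ - ∫ x, 2 * m * g k x ∂μ :=
        integral_sub (hgint2 k) ((hgint k).const_mul _)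
      rw [e1, e2, integral_const_mul, ← hmdef]
      simp
      ring
    have hint3 : Integrable (fun x => (g k x - m) ^ 2) μ := by
      have : (fun x => (g k x - m) ^ 2) = fun x => g k x ^ 2 - 2 * m * g k x + m ^ 2 := by
        ext x; ring
      rw [this]
      exact ((hgint2 k).sub ((hgint k).const_mul _)).add (integrable_const _)
    have h1 : ∫ x in {x : Fin n → ℝ | |f x| ≤ (A:ℝ)}, m ^ 2 ∂μ ≤
        ∫ x in {x : Fin n → ℝ | |f x| ≤ (A:ℝ)}, (2 * (g k x - m) ^ 2 + 2 * (A:ℝ) ^ 2) ∂μ := by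
      refine setIntegral_mono_on (integrable_const _).integrableOn
        ((hint3.const_mul 2).add (integrable_const _)).integrableOn hSm fun x hx => ?_
      have h2 : |g k x| ≤ (A:ℝ) := (T_abs k (f x)).trans hx
      have h3 : g k x ^ 2 ≤ (A:ℝ) ^ 2 := by
        rw [← sq_abs]; exact pow_le_pow_left₀ (abs_nonneg _) h2 2
      nlinarith [sq_nonneg (m - 2 * g k x)]
    have h2 : ∫ x in {x : Fin n → ℝ | |f x| ≤ (A:ℝ)}, (2 * (g k x - m) ^ 2 + 2 * (A:ℝ) ^ 2) ∂μ ≤
        ∫ x, (2 * (g k x - m) ^ 2 + 2 * (A:ℝ) ^ 2) ∂μ :=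
      setIntegral_le_integral ((hint3.const_mul 2).add (integrable_const _))
        (Eventually.of_forall fun x => by positivity)
    have h3 : ∫ x, (2 * (g k x - m) ^ 2 + 2 * (A:ℝ) ^ 2) ∂μ =
        2 * (∫ x, g k x ^ 2 ∂μ - m ^ 2) + 2 * (A:ℝ) ^ 2 := by
      have e1 : ∫ x, (2 * (g k x - m) ^ 2 + 2 * (A:ℝ) ^ 2) ∂μ =
          ∫ x, 2 * (g k x - m) ^ 2 ∂μ + ∫ _x, 2 * (A:ℝ) ^ 2 ∂μ :=
        integral_add (hint3.const_mul 2) (integrable_const _)
      rw [e1, integral_const_mul, hvar']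
      simp
    have h4 : ∫ x in {x : Fin n → ℝ | |f x| ≤ (A:ℝ)}, m ^ 2 ∂μ =
        μ.real {x | |f x| ≤ (A:ℝ)} * m ^ 2 := by
      rw [setIntegral_const, smul_eq_mul]
    have h5 := hvar k
    nlinarith [mul_le_mul_of_nonneg_right hA (sq_nonneg m)]
  have hsq : ∀ k, ∫ x, g k x ^ 2 ∂μ ≤ 5 * V + 4 * (A:ℝ) ^ 2 := fun k => by
    linarith [hm k, hvar k]
  have hlim : ∀ x, Tendsto (fun k => g k x) atTop (𝓝 (f x)) := fun x => T_lim (f x)
  have hf2 : Integrable (fun x => f x ^ 2) μ := by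
    refine ⟨(hf.continuous.pow 2).aestronglyMeasurable, ?_⟩
    rw [hasFiniteIntegral_iff_ofReal (Eventually.of_forall fun x => sq_nonneg _)]
    have h1 : ∫⁻ x, ENNReal.ofReal (f x ^ 2) ∂μ ≤
        liminf (fun k => ∫⁻ x, ENNReal.ofReal (g k x ^ 2) ∂μ) atTop := by
      have h2 : ∀ x, ENNReal.ofReal (f x ^ 2) =
          liminf (fun k => ENNReal.ofReal (g k x ^ 2)) atTop := fun x =>
        ((ENNReal.tendsto_ofReal ((hlim x).pow 2)).liminf_eq).symm
      simp_rw [h2]
      refine lintegral_liminf_le fun k => ?_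
      exact ((hgC k).continuous.pow 2).measurable.ennreal_ofReal
    refine h1.trans_lt ?_
    have h3 : liminf (fun k => ∫⁻ x, ENNReal.ofReal (g k x ^ 2) ∂μ) atTop ≤
        ENNReal.ofReal (5 * V + 4 * (A:ℝ) ^ 2) := by
      refine (liminf_le_liminf (v := fun _ => ENNReal.ofReal (5 * V + 4 * (A:ℝ) ^ 2))
        (Eventually.of_forall fun k => ?_)).trans (by simp)
      rw [← ofReal_integral_eq_lintegral_ofReal (hgint2 k) (Eventually.of_forall fun x => sq_nonneg _)]
      exact ENNReal.ofReal_le_ofReal (hsq k)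
    exact h3.trans_lt ENNReal.ofReal_lt_top
  have hmem : MemLp f 2 μ := (memLp_two_iff_integrable_sq hf.continuous.aestronglyMeasurable).2 hf2
  have hf1 : Integrable f μ := hmem.integrable one_le_two
  refine ⟨hmem, ?_⟩
  have L1 : Tendsto (fun k => ∫ x, g k x ∂μ) atTop (𝓝 (∫ x, f x ∂μ)) :=
    tendsto_integral_of_dominated_convergence (fun x => |f x|)
      (fun k => (hgC k).continuous.aestronglyMeasurable) hf1.abs
      (fun k => Eventually.of_forall fun x => T_abs k (f x)) (Eventually.of_forall hlim)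
  have L2 : Tendsto (fun k => ∫ x, g k x ^ 2 ∂μ) atTop (𝓝 (∫ x, f x ^ 2 ∂μ)) := by
    refine tendsto_integral_of_dominated_convergence (fun x => f x ^ 2)
      (fun k => ((hgC k).continuous.pow 2).aestronglyMeasurable) hf2
      (fun k => Eventually.of_forall fun x => ?_) (Eventually.of_forall fun x => (hlim x).pow 2)
    rw [Real.norm_eq_abs, abs_pow, ← sq_abs (f x)]
    exact pow_le_pow_left₀ (abs_nonneg _) (T_abs k (f x)) 2
  exact le_of_tendsto' (L2.sub (L1.pow 2)) hvar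

end Pool.Agent.K6.H24.KR
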