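import Pool.Agent.K6.H24.KR.Defs2

/-!
# Symmetric functions keep their mean when an exchangeable law is conditioned on order relations
-/

namespace Pool.Agent.K6.H24.KR

open MeasureTheory Filter

namespace PieceJ

variable {n : ℕ}

/-- the cone of the order relations `R` -/
def cone (R : Fin n → Fin n → Prop) : Set (Fin n → ℝ) := {x | ∀ i j, R i j → x i ≤ x j}

theorem isClosed_cone (R : Fin n → Fin n → Prop) : IsClosed (cone R) := by
  have h : cone R = ⋂ i, ⋂ j, ⋂ (_ : R i j), {x : Fin n → ℝ | x i ≤ x j} := by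
    ext x
    simp [cone]
  rw [h]
  exact isClosed_iInter fun i => isClosed_iInter fun j => isClosed_iInter fun _ =>
    isClosed_le (continuous_apply i) (continuous_apply j)

theorem exists_perm {x y : Fin n → ℝ} (hx : Function.Injective x) (hy : Function.Injective y) :
    ∃ σ : Equiv.Perm (Fin n), ∀ i j, x (σ i) < x (σ j) ↔ y i < y j := by
  have hsx : StrictMono (x ∘ Tuple.sort x) :=
    (Tuple.monotone_sort x).strictMono_of_injective (hx.comp (Tuple.sort x).injective)
  have hsy : StrictMono (y ∘ Tuple.sort y) :=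
    (Tuple.monotone_sort y).strictMono_of_injective (hy.comp (Tuple.sort y).injective)
  refine ⟨(Tuple.sort y).symm.trans (Tuple.sort x), fun i j => ?_⟩
  have h1 : x (((Tuple.sort y).symm.trans (Tuple.sort x)) i) <
      x (((Tuple.sort y).symm.trans (Tuple.sort x)) j) ↔
      (Tuple.sort y).symm i < (Tuple.sort y).symm j := hsx.lt_iff_lt
  have h2 : y i < y j ↔ (Tuple.sort y).symm i < (Tuple.sort y).symm j := by
    rw [← hsy.lt_iff_lt]
    simp
  rw [h1, h2]

open Classical in
/-- the number of permutations which put `x` into the cone -/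
noncomputable def NN (R : Fin n → Fin n → Prop) (x : Fin n → ℝ) : ℕ :=
  (Finset.univ.filter fun π : Equiv.Perm (Fin n) => (x ∘ π) ∈ cone R).card

theorem NN_eq {R : Fin n → Fin n → Prop} {x y : Fin n → ℝ} (hx : Function.Injective x)
    (hy : Function.Injective y) : NN R x = NN R y := by
  classical
  obtain ⟨σ, hσ⟩ := exists_perm hx hy
  have hσ' : ∀ i j, x (σ i) ≤ x (σ j) ↔ y i ≤ y j := fun i j => by
    rw [← not_lt, hσ j i, not_lt]
  unfold NN
  symm
  refine Finset.card_bij (fun π _ => π.trans σ) ?_ ?_ ?_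
  · intro π hπ
    simp only [Finset.mem_filter, Finset.mem_univ, true_and] at hπ ⊢
    exact fun i j hR => (hσ' _ _).2 (hπ i j hR)
  · intro π _ π' _ h
    ext i
    have := congrArg (fun p : Equiv.Perm (Fin n) => p i) h
    exact congrArg Fin.val (σ.injective this)
  · intro π hπ
    simp only [Finset.mem_filter, Finset.mem_univ, true_and] at hπ
    refine ⟨π.trans σ.symm, ?_, ?_⟩
    · simp only [Finset.mem_filter, Finset.mem_univ, true_and]
      intro i j hR
      have := hπ i j hR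
      refine (hσ' _ _).1 ?_
      simpa using this
    · ext i; simp

theorem key {μ : Measure (Fin n → ℝ)} [IsProbabilityMeasure μ]
    (hex : ∀ σ : Equiv.Perm (Fin n), Measure.map (fun x : Fin n → ℝ => x ∘ σ) μ = μ)
    (hinj : ∀ᵐ x ∂μ, Function.Injective x)
    (R : Fin n → Fin n → Prop) {x0 : Fin n → ℝ} (hx0 : Function.Injective x0)
    {Ψ : (Fin n → ℝ) → ℝ} (hΨ : Integrable Ψ μ)
    (hs : ∀ (σ : Equiv.Perm (Fin n)) (x : Fin n → ℝ), Ψ (x ∘ σ) = Ψ x) :
    (Fintype.card (Equiv.Perm (Fin n)) : ℝ) * ∫ x in cone R, Ψ x ∂μ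
      = (NN R x0 : ℝ) * ∫ x, Ψ x ∂μ := by
  classical
  have hms : MeasurableSet (cone R) := (isClosed_cone R).measurableSet
  have hmeas : ∀ π : Equiv.Perm (Fin n), Measurable (fun x : Fin n → ℝ => x ∘ π) := fun π =>
    measurable_pi_lambda _ fun i => measurable_pi_apply (π i)
  have hmp : ∀ π : Equiv.Perm (Fin n), MeasurePreserving (fun x : Fin n → ℝ => x ∘ π) μ μ :=
    fun π => ⟨hmeas π, hex π⟩
  have hI : Integrable ((cone R).indicator Ψ) μ := hΨ.indicator hms
  have h1 : ∀ π : Equiv.Perm (Fin n), ∫ x, (cone R).indicator Ψ (x ∘ π) ∂μ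
      = ∫ x in cone R, Ψ x ∂μ := by
    intro π
    rw [← integral_indicator hms]
    have h2 := integral_map (μ := μ) (φ := fun x : Fin n → ℝ => x ∘ π) (hmeas π).aemeasurable
      (f := (cone R).indicator Ψ) (by rw [hex π]; exact hI.aestronglyMeasurable)
    rw [hex π] at h2
    exact h2.symm
  have h2 : ∑ π : Equiv.Perm (Fin n), ∫ x, (cone R).indicator Ψ (x ∘ π) ∂μ
      = ∫ x, ∑ π : Equiv.Perm (Fin n), (cone R).indicator Ψ (x ∘ π) ∂μ := by
    rw [integral_finsetSum]
    intro π _
    exact (hmp π).integrable_comp_of_integrable hI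
  have h3 : ∫ x, ∑ π : Equiv.Perm (Fin n), (cone R).indicator Ψ (x ∘ π) ∂μ
      = ∫ x, (NN R x0 : ℝ) * Ψ x ∂μ := by
    refine integral_congr_ae ?_
    filter_upwards [hinj] with x hx
    have e : ∀ π : Equiv.Perm (Fin n), (cone R).indicator Ψ (x ∘ π)
        = if (x ∘ π) ∈ cone R then Ψ x else 0 := by
      intro π
      by_cases h : (x ∘ π) ∈ cone R
      · rw [Set.indicator_of_mem h, if_pos h, hs]
      · rw [Set.indicator_of_notMem h, if_neg h]
    simp only [e]
    rw [← Finset.sum_filter, Finset.sum_const, nsmul_eq_mul, ← NN_eq (R := R) hx hx0]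
    unfold NN
    congr
  have h4 : ∑ π : Equiv.Perm (Fin n), ∫ x, (cone R).indicator Ψ (x ∘ π) ∂μ
      = (Fintype.card (Equiv.Perm (Fin n)) : ℝ) * ∫ x in cone R, Ψ x ∂μ := by
    simp only [h1, Finset.sum_const, Finset.card_univ, nsmul_eq_mul]
  rw [← h4, h2, h3, integral_const_mul]

end PieceJ

open PieceJ in
/-- PIECE J: symmetric functions keep their mean when an exchangeable law without ties is
conditioned on order relations. -/
theorem symm_mean {n : ℕ} {μ : Measure (Fin n → ℝ)} [IsProbabilityMeasure μ]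
    (hex : ∀ σ : Equiv.Perm (Fin n), Measure.map (fun x : Fin n → ℝ => x ∘ σ) μ = μ)
    (hties : ∀ i j : Fin n, i ≠ j → μ {x | x i = x j} = 0)
    (R : Fin n → Fin n → Prop)
    {Ψ : (Fin n → ℝ) → ℝ} (hΨ : Integrable Ψ μ)
    (hs : ∀ (σ : Equiv.Perm (Fin n)) (x : Fin n → ℝ), Ψ (x ∘ σ) = Ψ x) :
    ∫ x in {x : Fin n → ℝ | ∀ i j, R i j → x i ≤ x j}, Ψ x ∂μ
      = μ.real {x : Fin n → ℝ | ∀ i j, R i j → x i ≤ x j} * ∫ x, Ψ x ∂μ := by
  classical
  have hinj : ∀ᵐ x ∂μ, Function.Injective x := by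
    have h2 : ∀ᵐ x ∂μ, ∀ i j : Fin n, i ≠ j → x i ≠ x j := by
      rw [ae_all_iff]; intro i
      rw [ae_all_iff]; intro j
      by_cases hij : i = j
      · exact Filter.Eventually.of_forall fun x h => absurd hij h
      · have h3 : ∀ᵐ x ∂μ, x i ≠ x j := by
          rw [ae_iff]
          simpa using hties i j hij
        filter_upwards [h3] with x hx _ using hx
    filter_upwards [h2] with x hx
    intro i j hij
    by_contra hne
    exact hx i j hne hij
  obtain ⟨x0, hx0⟩ := hinj.exists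
  have k1 := key hex hinj R hx0 hΨ hs
  have k2 := key hex hinj R hx0 (Ψ := fun _ => (1:ℝ)) (integrable_const 1) (fun _ _ => rfl)
  have e1 : ∫ _x in cone R, (1:ℝ) ∂μ = μ.real (cone R) := by simp
  have e2 : ∫ _x, (1:ℝ) ∂μ = 1 := by simp
  rw [e1, e2, mul_one] at k2
  have hcard : (0:ℝ) < (Fintype.card (Equiv.Perm (Fin n)) : ℝ) := by
    exact_mod_cast Fintype.card_pos
  change ∫ x in cone R, Ψ x ∂μ = μ.real (cone R) * ∫ x, Ψ x ∂μ
  refine mul_left_cancel₀ hcard.ne' ?_
  rw [k1, ← mul_assoc, k2]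

end Pool.Agent.K6.H24.KR
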