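import Pool.Agent.K6.H24.KR.Defs2

/-!
# A linear extension gives positive mass
-/

namespace Pool.Agent.K6.H24.KR

open MeasureTheory Filter

/-- PIECE K: a linear extension gives positive mass. -/
theorem cone_pos {n : ℕ} {μ : Measure (Fin n → ℝ)} [IsProbabilityMeasure μ]
    (hex : ∀ σ : Equiv.Perm (Fin n), Measure.map (fun x : Fin n → ℝ => x ∘ σ) μ = μ)
    {R : Fin n → Fin n → Prop}
    (hR : ∃ e : Equiv.Perm (Fin n), ∀ i j, R i j → e i ≤ e j) :
    0 < μ.real {x : Fin n → ℝ | ∀ i j, R i j → x i ≤ x j} := by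
  classical
  obtain ⟨e, he⟩ := hR
  have hcl : IsClosed {x : Fin n → ℝ | Monotone x} := by
    have h : {x : Fin n → ℝ | Monotone x} = ⋂ i, ⋂ j, ⋂ (_ : i ≤ j), {x : Fin n → ℝ | x i ≤ x j} := by
      ext x
      simp [Monotone]
    rw [h]
    exact isClosed_iInter fun i => isClosed_iInter fun j => isClosed_iInter fun _ =>
      isClosed_le (continuous_apply i) (continuous_apply j)
  have hms : MeasurableSet {x : Fin n → ℝ | Monotone x} := hcl.measurableSet
  have hmeas : ∀ π : Equiv.Perm (Fin n), Measurable (fun x : Fin n → ℝ => x ∘ π) := fun π =>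
    measurable_pi_lambda _ fun i => measurable_pi_apply (π i)
  have hD : ∀ σ : Equiv.Perm (Fin n),
      μ {x : Fin n → ℝ | Monotone (x ∘ σ)} = μ {x : Fin n → ℝ | Monotone x} := by
    intro σ
    have h1 := Measure.map_apply (μ := μ) (hmeas σ) hms
    rw [hex σ] at h1
    exact h1.symm
  have hcover : (Set.univ : Set (Fin n → ℝ)) ⊆ ⋃ σ : Equiv.Perm (Fin n),
      {x : Fin n → ℝ | Monotone (x ∘ σ)} := fun x _ =>
    Set.mem_iUnion.2 ⟨Tuple.sort x, Tuple.monotone_sort x⟩
  have hpos : μ {x : Fin n → ℝ | Monotone x} ≠ 0 := by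
    intro h0
    have h1 : μ (⋃ σ : Equiv.Perm (Fin n), {x : Fin n → ℝ | Monotone (x ∘ σ)}) = 0 :=
      measure_iUnion_null fun σ => by rw [hD σ, h0]
    have h2 : μ (Set.univ : Set (Fin n → ℝ)) = 0 := measure_mono_null hcover h1
    rw [measure_univ] at h2
    exact one_ne_zero h2
  have hsub : {x : Fin n → ℝ | Monotone (x ∘ e.symm)} ⊆
      {x : Fin n → ℝ | ∀ i j, R i j → x i ≤ x j} := by
    intro x hx i j hij
    have := hx (he i j hij)
    simpa using this
  refine ENNReal.toReal_pos (fun h0 => hpos ?_) (measure_ne_top _ _)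
  rw [← hD e.symm]
  exact measure_mono_null hsub h0

end Pool.Agent.K6.H24.KR
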