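import Pool.Agent.K6.H24.KR.J8
import Pool.Agent.K6.H24.KR.PieceH
import Pool.Agent.K6.H24.KR.PieceJ
import Pool.Agent.K6.H24.KR.PieceK
import Pool.Agent.K6.H24.OP.H1

/-!
# The conditioned law, in coordinates and in Euclidean space
-/

namespace Pool.Agent.K6.H24.KR

open MeasureTheory Filter Topology ProbabilityTheory Pool.Agent.K6.H24.OP
open scoped InnerProductSpace

set_option linter.unusedSectionVars false

/-- all Poincare inequalities of the conditioned law -/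
theorem cond_all {n : ℕ} {μ : Measure (Fin n → ℝ)} [IsProbabilityMeasure μ] (hn : 1 ≤ n)
    (hex : ∀ σ : Equiv.Perm (Fin n), Measure.map (fun x : Fin n → ℝ => x ∘ σ) μ = μ)
    (hties : ∀ i j : Fin n, i ≠ j → μ {x | x i = x j} = 0)
    {C : ℝ} (hC : 0 ≤ C) (hP : PB μ C) {R : Fin n → Fin n → Prop}
    (hpos : 0 < μ.real (cn R))
    {f : (Fin n → ℝ) → ℝ} (hf : ContDiff ℝ 1 f) (hi : Integrable (gsq f) (cond μ (cn R))) :
    MemLp f 2 (cond μ (cn R)) ∧ ∫ x, f x ^ 2 ∂(cond μ (cn R)) - (∫ x, f x ∂(cond μ (cn R))) ^ 2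
      ≤ C * ∫ x, gsq f x ∂(cond μ (cn R)) := by
  obtain ⟨m, rfl⟩ : ∃ m, n = m + 1 := ⟨n - 1, by omega⟩
  have hne : μ (cn R) ≠ 0 := by
    intro h
    rw [Measure.real, h] at hpos
    simp at hpos
  have hprob : IsProbabilityMeasure (cond μ (cn R)) := cond_isProbabilityMeasure hne
  have hint : ∀ g : (Fin (m+1) → ℝ) → ℝ, ∫ x, g x ∂(cond μ (cn R))
      = (μ.real (cn R))⁻¹ * ∫ x in cn R, g x ∂μ := by
    intro g
    unfold ProbabilityTheory.cond
    rw [integral_smul_measure]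
    rw [smul_eq_mul, ENNReal.toReal_inv]
    rfl
  refine ext_poincare hC ?_ hf hi
  intro g hg hcs
  -- the relation off the diagonal
  have hcn : cn (fun i j => R i j ∧ i ≠ j) = cn R := by
    ext x
    constructor
    · intro h i j hR
      by_cases hij : i = j
      · rw [hij]
      · exact h i j ⟨hR, hij⟩
    · intro h i j hR
      exact h i j hR.1
  have key := cone_poincare (R := fun i j => R i j ∧ i ≠ j) hex hties hC hP
    (fun i h => h.2 rfl) hg hcs
  rw [hcn] at key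
  rw [hint, hint, hint]
  set p := μ.real (cn R) with hp
  set A := ∫ x in cn R, g x ^ 2 ∂μ
  set B := ∫ x in cn R, g x ∂μ
  set G := ∫ x in cn R, gsq g x ∂μ
  have h1 : p ^ 2 * (p⁻¹ * A - (p⁻¹ * B) ^ 2) = p * A - B ^ 2 := by
    field_simp
  have h2 : p ^ 2 * (C * (p⁻¹ * G)) = p * (C * G) := by
    field_simp
  have h3 : p ^ 2 * (p⁻¹ * A - (p⁻¹ * B) ^ 2) ≤ p ^ 2 * (C * (p⁻¹ * G)) := by
    rw [h1, h2]; exact key
  exact le_of_mul_le_mul_left h3 (by positivity)

variable {n : ℕ}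

lemma gsq_toLp {f : Eu n → ℝ} (hf : ContDiff ℝ 1 f) (x : Fin n → ℝ) :
    gsq (fun y : Fin n → ℝ => f (WithLp.toLp 2 y)) x = ‖fderiv ℝ f (WithLp.toLp 2 x)‖ ^ 2 := by
  unfold gsq
  rw [← norm_fderiv]
  exact Finset.sum_congr rfl fun i _ => by rw [fderiv_toLp hf]

lemma cone_pre (R : Fin n → Fin n → Prop) : (WithLp.toLp 2 ⁻¹' (cone R) : Set (Fin n → ℝ)) = cn R := rfl

lemma cond_map {μ : Measure (Fin n → ℝ)} (R : Fin n → Fin n → Prop) :
    cond (Measure.map (WithLp.toLp 2) μ) (cone R) = Measure.map (WithLp.toLp 2) (cond μ (cn R)) := by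
  unfold ProbabilityTheory.cond
  rw [Measure.map_apply meas_toLp (closed_cone R).measurableSet, cone_pre, Measure.map_smul]
  congr 1
  rw [Measure.restrict_map meas_toLp (closed_cone R).measurableSet, cone_pre]

/-- **the conditioned law on Euclidean space** -/
theorem PI_cond {μ : Measure (Fin n → ℝ)} [IsProbabilityMeasure μ] (hn : 1 ≤ n)
    (hex : ∀ σ : Equiv.Perm (Fin n), Measure.map (fun x : Fin n → ℝ => x ∘ σ) μ = μ)
    (hties : ∀ i j : Fin n, i ≠ j → μ {x | x i = x j} = 0)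
    {C : ℝ} (hC : 0 ≤ C) (hP : PB μ C) {R : Fin n → Fin n → Prop}
    (hpos : 0 < μ.real (cn R)) :
    PI (cond (Measure.map (WithLp.toLp 2) μ) (cone R)) C := by
  intro f hf hg
  have hne : μ (cn R) ≠ 0 := by
    intro h
    rw [Measure.real, h] at hpos
    simp at hpos
  have hprob : IsProbabilityMeasure (cond μ (cn R)) := cond_isProbabilityMeasure hne
  rw [cond_map] at hg ⊢
  have hF : ContDiff ℝ 1 (fun x : Fin n → ℝ => f (WithLp.toLp 2 x)) := hf.comp contDiff_toLp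
  have hgc : Continuous fun x => ‖fderiv ℝ f x‖ := (hf.continuous_fderiv one_ne_zero).norm
  rw [memLp_toLp_iff hgc] at hg
  have hi : Integrable (gsq (fun x : Fin n → ℝ => f (WithLp.toLp 2 x))) (cond μ (cn R)) := by
    have := hg.integrable_sq
    refine this.congr (Filter.Eventually.of_forall fun x => ?_)
    exact (gsq_toLp hf x).symm
  obtain ⟨h1, h2⟩ := cond_all hn hex hties hC hP hpos hF hi
  refine ⟨(memLp_toLp_iff hf.continuous).2 h1, ?_⟩
  have e1 : ∫ x, ‖fderiv ℝ f x‖ ^ 2 ∂(Measure.map (WithLp.toLp 2) (cond μ (cn R)))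
      = ∫ x, ‖fderiv ℝ f (WithLp.toLp 2 x)‖ ^ 2 ∂(cond μ (cn R)) :=
    int_toLp (f := fun x => ‖fderiv ℝ f x‖ ^ 2) (hgc.pow 2)
  rw [var_toLp hf.continuous, variance_eq_sub h1, e1]
  simp only [gsq_toLp hf] at h2
  exact h2

end Pool.Agent.K6.H24.KR
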