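import Pool.Agent.K6.H24.KR.Defs

/-!
# Approximation of 1-symmetric log-concave functions from above

`ρ_k x = sup_y ρ y * exp (-k ‖x - y‖)`.
-/

namespace Pool.Agent.K6.H24.KR

open MeasureTheory Filter

/-- 1-symmetric log-concave functions (same as `MP_6d896a_gt.OneSymmetric.SymDensity`). -/
structure SymDensity {n : ℕ} (ρ : EuclideanSpace ℝ (Fin n) → ℝ) : Prop where
  nonneg : ∀ x, 0 ≤ ρ x
  meas : Measurable ρ
  logc : ∀ x y, ∀ t : ℝ, 0 < t → t < 1 → ρ x ^ (1 - t) * ρ y ^ t ≤ ρ ((1 - t) • x + t • y)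
  inv : ∀ σ : Equiv.Perm (Fin n), ∀ x y : EuclideanSpace ℝ (Fin n),
    (∀ i, |y i| = |x (σ i)|) → ρ y = ρ x

namespace PieceD

variable {n : ℕ} {ρ : EuclideanSpace ℝ (Fin n) → ℝ}

theorem le_zero (h : SymDensity ρ) (y : EuclideanSpace ℝ (Fin n)) : ρ y ≤ ρ 0 := by
  have h1 := h.logc y (-y) (1/2) (by norm_num) (by norm_num)
  have h2 : ρ (-y) = ρ y := h.inv 1 y (-y) (fun i => by simp)
  have h3 : ((1 - 1/2 : ℝ)) • y + (1/2 : ℝ) • (-y) = 0 := by
    rw [smul_neg, show ((1:ℝ) - 1/2) = 1/2 by norm_num, add_neg_cancel]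
  rw [h2, h3, ← Real.rpow_add_of_nonneg (h.nonneg y) (by norm_num) (by norm_num)] at h1
  norm_num at h1
  exact h1

/-- the terms of the supremum -/
noncomputable def trm (ρ : EuclideanSpace ℝ (Fin n) → ℝ) (k : ℕ)
    (x y : EuclideanSpace ℝ (Fin n)) : ℝ := ρ y * Real.exp (-((k:ℝ) * ‖x - y‖))

/-- the regularisation -/
noncomputable def reg (ρ : EuclideanSpace ℝ (Fin n) → ℝ) (k : ℕ)
    (x : EuclideanSpace ℝ (Fin n)) : ℝ := ⨆ y, trm ρ k x y

theorem trm_nonneg (h : SymDensity ρ) (k : ℕ) (x y : EuclideanSpace ℝ (Fin n)) :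
    0 ≤ trm ρ k x y := mul_nonneg (h.nonneg y) (Real.exp_pos _).le

theorem trm_le (h : SymDensity ρ) (k : ℕ) (x y : EuclideanSpace ℝ (Fin n)) :
    trm ρ k x y ≤ ρ 0 := by
  unfold trm
  have h1 : Real.exp (-((k:ℝ) * ‖x - y‖)) ≤ 1 := by
    rw [Real.exp_le_one_iff]
    have : 0 ≤ (k:ℝ) * ‖x - y‖ := by positivity
    linarith
  calc ρ y * Real.exp (-((k:ℝ) * ‖x - y‖)) ≤ ρ 0 * 1 :=
        mul_le_mul (le_zero h y) h1 (Real.exp_pos _).le (h.nonneg 0)
    _ = ρ 0 := mul_one _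

theorem bdd (h : SymDensity ρ) (k : ℕ) (x : EuclideanSpace ℝ (Fin n)) :
    BddAbove (Set.range (trm ρ k x)) := ⟨ρ 0, by rintro _ ⟨y, rfl⟩; exact trm_le h k x y⟩

theorem trm_le_reg (h : SymDensity ρ) (k : ℕ) (x y : EuclideanSpace ℝ (Fin n)) :
    trm ρ k x y ≤ reg ρ k x := le_ciSup (bdd h k x) y

theorem reg_le (h : SymDensity ρ) (k : ℕ) (x : EuclideanSpace ℝ (Fin n)) :
    reg ρ k x ≤ ρ 0 := ciSup_le (trm_le h k x)

theorem le_reg (h : SymDensity ρ) (k : ℕ) (x : EuclideanSpace ℝ (Fin n)) :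
    ρ x ≤ reg ρ k x := by
  have := trm_le_reg h k x x
  simpa [trm] using this

theorem reg_pos (h : SymDensity ρ) (h0 : 0 < ρ 0) (k : ℕ) (x : EuclideanSpace ℝ (Fin n)) :
    0 < reg ρ k x :=
  lt_of_lt_of_le (mul_pos h0 (Real.exp_pos _)) (trm_le_reg h k x 0)

theorem reg_nonneg (h : SymDensity ρ) (k : ℕ) (x : EuclideanSpace ℝ (Fin n)) :
    0 ≤ reg ρ k x := (h.nonneg x).trans (le_reg h k x)

theorem reg_le_exp (h : SymDensity ρ) (k : ℕ) (x x' : EuclideanSpace ℝ (Fin n)) :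
    reg ρ k x ≤ Real.exp ((k:ℝ) * ‖x - x'‖) * reg ρ k x' := by
  refine ciSup_le fun y => ?_
  have h1 : trm ρ k x y ≤ Real.exp ((k:ℝ) * ‖x - x'‖) * trm ρ k x' y := by
    unfold trm
    have h2 : Real.exp (-((k:ℝ) * ‖x - y‖))
        ≤ Real.exp ((k:ℝ) * ‖x - x'‖) * Real.exp (-((k:ℝ) * ‖x' - y‖)) := by
      rw [← Real.exp_add, Real.exp_le_exp]
      have h3 : ‖x' - y‖ ≤ ‖x - x'‖ + ‖x - y‖ := by
        calc ‖x' - y‖ = ‖(x' - x) + (x - y)‖ := by congr 1; abel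
          _ ≤ ‖x' - x‖ + ‖x - y‖ := norm_add_le _ _
          _ = ‖x - x'‖ + ‖x - y‖ := by rw [norm_sub_rev]
      have h4 : (k:ℝ) * ‖x' - y‖ ≤ (k:ℝ) * (‖x - x'‖ + ‖x - y‖) :=
        mul_le_mul_of_nonneg_left h3 (Nat.cast_nonneg k)
      linarith
    calc ρ y * Real.exp (-((k:ℝ) * ‖x - y‖))
        ≤ ρ y * (Real.exp ((k:ℝ) * ‖x - x'‖) * Real.exp (-((k:ℝ) * ‖x' - y‖))) :=
          mul_le_mul_of_nonneg_left h2 (h.nonneg y)
      _ = _ := by ring
  exact h1.trans (mul_le_mul_of_nonneg_left (trm_le_reg h k x' y) (Real.exp_pos _).le)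

theorem reg_sub_le (h : SymDensity ρ) (k : ℕ) (x x' : EuclideanSpace ℝ (Fin n)) :
    reg ρ k x - reg ρ k x' ≤ (Real.exp ((k:ℝ) * ‖x - x'‖) - 1) * ρ 0 := by
  have h1 := reg_le_exp h k x x'
  have h2 : 0 ≤ Real.exp ((k:ℝ) * ‖x - x'‖) - 1 := by
    have : (0:ℝ) ≤ (k:ℝ) * ‖x - x'‖ := by positivity
    have := Real.one_le_exp this
    linarith
  have h3 := mul_le_mul_of_nonneg_left (reg_le h k x') h2
  nlinarith [h1, h3]

theorem abs_reg_sub_le (h : SymDensity ρ) (k : ℕ) (x x' : EuclideanSpace ℝ (Fin n)) :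
    |reg ρ k x - reg ρ k x'| ≤ (Real.exp ((k:ℝ) * ‖x - x'‖) - 1) * ρ 0 := by
  rw [abs_le]
  constructor
  · have := reg_sub_le h k x' x
    rw [norm_sub_rev] at this
    linarith
  · exact reg_sub_le h k x x'

theorem reg_continuous (h : SymDensity ρ) (k : ℕ) : Continuous (reg ρ k) := by
  rw [continuous_iff_continuousAt]
  intro x'
  rw [ContinuousAt, tendsto_iff_dist_tendsto_zero]
  have h1 : Tendsto (fun x => (Real.exp ((k:ℝ) * ‖x - x'‖) - 1) * ρ 0) (nhds x') (nhds 0) := by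
    have h2 : Continuous (fun x : EuclideanSpace ℝ (Fin n) =>
        (Real.exp ((k:ℝ) * ‖x - x'‖) - 1) * ρ 0) := by fun_prop
    have h3 := h2.tendsto x'
    simpa using h3
  refine squeeze_zero (fun _ => dist_nonneg) (fun x => ?_) h1
  rw [Real.dist_eq]
  exact abs_reg_sub_le h k x x'

theorem trm_logc (h : SymDensity ρ) (k : ℕ) (x₁ x₂ y₁ y₂ : EuclideanSpace ℝ (Fin n)) {t : ℝ}
    (ht0 : 0 < t) (ht1 : t < 1) :
    trm ρ k x₁ y₁ ^ (1 - t) * trm ρ k x₂ y₂ ^ t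
      ≤ reg ρ k ((1 - t) • x₁ + t • x₂) := by
  have hs : 0 < 1 - t := by linarith
  refine le_trans ?_ (trm_le_reg h k _ ((1 - t) • y₁ + t • y₂))
  unfold trm
  rw [Real.mul_rpow (h.nonneg y₁) (Real.exp_pos _).le,
    Real.mul_rpow (h.nonneg y₂) (Real.exp_pos _).le, ← Real.exp_mul, ← Real.exp_mul]
  have e1 : ρ y₁ ^ (1 - t) * Real.exp (-((k:ℝ) * ‖x₁ - y₁‖) * (1 - t)) *
      (ρ y₂ ^ t * Real.exp (-((k:ℝ) * ‖x₂ - y₂‖) * t))
      = (ρ y₁ ^ (1 - t) * ρ y₂ ^ t) * Real.exp (-((k:ℝ) * ((1 - t) * ‖x₁ - y₁‖ + t * ‖x₂ - y₂‖))) := by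
    rw [show -((k:ℝ) * ((1 - t) * ‖x₁ - y₁‖ + t * ‖x₂ - y₂‖))
      = -((k:ℝ) * ‖x₁ - y₁‖) * (1 - t) + -((k:ℝ) * ‖x₂ - y₂‖) * t by ring, Real.exp_add]
    ring
  rw [e1]
  refine mul_le_mul (h.logc y₁ y₂ t ht0 ht1) ?_ (Real.exp_pos _).le (h.nonneg _)
  rw [Real.exp_le_exp]
  have h3 : ‖((1 - t) • x₁ + t • x₂) - ((1 - t) • y₁ + t • y₂)‖
      ≤ (1 - t) * ‖x₁ - y₁‖ + t * ‖x₂ - y₂‖ := by
    calc ‖((1 - t) • x₁ + t • x₂) - ((1 - t) • y₁ + t • y₂)‖
        = ‖(1 - t) • (x₁ - y₁) + t • (x₂ - y₂)‖ := by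
          congr 1; rw [smul_sub, smul_sub]; abel
      _ ≤ ‖(1 - t) • (x₁ - y₁)‖ + ‖t • (x₂ - y₂)‖ := norm_add_le _ _
      _ = _ := by rw [norm_smul, norm_smul, Real.norm_of_nonneg hs.le, Real.norm_of_nonneg ht0.le]
  have h4 := mul_le_mul_of_nonneg_left h3 (Nat.cast_nonneg (α := ℝ) k)
  linarith

theorem reg_logc (h : SymDensity ρ) (h0 : 0 < ρ 0) (k : ℕ) (x₁ x₂ : EuclideanSpace ℝ (Fin n))
    {t : ℝ} (ht0 : 0 < t) (ht1 : t < 1) :
    reg ρ k x₁ ^ (1 - t) * reg ρ k x₂ ^ t ≤ reg ρ k ((1 - t) • x₁ + t • x₂) := by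
  have hs : 0 < 1 - t := by linarith
  have p1 := reg_pos h h0 k x₁
  have p2 := reg_pos h h0 k x₂
  set B := reg ρ k ((1 - t) • x₁ + t • x₂) with hB
  set A := reg ρ k x₁ ^ (1 - t) * reg ρ k x₂ ^ t with hA
  have hA0 : 0 < A := mul_pos (Real.rpow_pos_of_pos p1 _) (Real.rpow_pos_of_pos p2 _)
  have key : ∀ c : ℝ, 0 < c → c < 1 → c * A ≤ B := by
    intro c hc0 hc1
    have l1 : c * reg ρ k x₁ < reg ρ k x₁ := by nlinarith
    have l2 : c * reg ρ k x₂ < reg ρ k x₂ := by nlinarith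
    obtain ⟨y₁, hy₁⟩ := exists_lt_of_lt_ciSup l1
    obtain ⟨y₂, hy₂⟩ := exists_lt_of_lt_ciSup l2
    have e : c * A = (c * reg ρ k x₁) ^ (1 - t) * (c * reg ρ k x₂) ^ t := by
      rw [Real.mul_rpow hc0.le p1.le, Real.mul_rpow hc0.le p2.le, hA]
      have : c ^ (1 - t) * c ^ t = c := by
        rw [← Real.rpow_add hc0]; simp
      calc c * (reg ρ k x₁ ^ (1 - t) * reg ρ k x₂ ^ t)
          = (c ^ (1 - t) * c ^ t) * (reg ρ k x₁ ^ (1 - t) * reg ρ k x₂ ^ t) := by rw [this]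
        _ = _ := by ring
    rw [e]
    refine le_trans ?_ (trm_logc h k x₁ x₂ y₁ y₂ ht0 ht1)
    exact mul_le_mul (Real.rpow_le_rpow (mul_pos hc0 p1).le hy₁.le hs.le)
      (Real.rpow_le_rpow (mul_pos hc0 p2).le hy₂.le ht0.le)
      (Real.rpow_nonneg (mul_pos hc0 p2).le _)
      (Real.rpow_nonneg ((mul_pos hc0 p1).le.trans hy₁.le) _)
  by_contra hlt
  push Not at hlt
  have hB0 : 0 < B := reg_pos h h0 k _
  -- choose c between B / A and 1
  obtain ⟨c, hc1, hc2⟩ := exists_between (show B / A < 1 from (div_lt_one hA0).2 hlt)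
  have hc0 : 0 < c := lt_trans (div_pos hB0 hA0) hc1
  have := key c hc0 hc2
  rw [div_lt_iff₀ hA0] at hc1
  linarith

theorem reg_inv_le (h : SymDensity ρ) (k : ℕ) (σ : Equiv.Perm (Fin n))
    (x y : EuclideanSpace ℝ (Fin n)) (hxy : ∀ i, |y i| = |x (σ i)|) :
    reg ρ k y ≤ reg ρ k x := by
  have hs : ∀ i, ∃ s : ℝ, (s = 1 ∨ s = -1) ∧ y i = s * x (σ i) := by
    intro i
    rcases abs_eq_abs.1 (hxy i) with e | e
    · exact ⟨1, Or.inl rfl, by rw [one_mul]; exact e⟩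
    · exact ⟨-1, Or.inr rfl, by rw [e]; ring⟩
  choose s hs1 hs2 using hs
  have hsabs : ∀ i, |s i| = 1 := by
    intro i; rcases hs1 i with e | e <;> rw [e] <;> simp
  have hssq : ∀ i, s i * s i = 1 := by
    intro i; rcases hs1 i with e | e <;> rw [e] <;> norm_num
  refine ciSup_le fun z => ?_
  let w : EuclideanSpace ℝ (Fin n) := WithLp.toLp 2 (fun j => s (σ.symm j) * z (σ.symm j))
  have hw : ∀ j, w j = s (σ.symm j) * z (σ.symm j) := fun j => rfl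
  have hρ : ρ w = ρ z := by
    refine h.inv σ.symm z w (fun j => ?_)
    rw [hw, abs_mul, hsabs, one_mul]
  have hn : ‖x - w‖ = ‖y - z‖ := by
    rw [EuclideanSpace.norm_eq, EuclideanSpace.norm_eq]
    congr 1
    rw [← Equiv.sum_comp σ]
    refine Finset.sum_congr rfl fun i _ => ?_
    rw [PiLp.sub_apply, PiLp.sub_apply, hw, hs2 i, Equiv.symm_apply_apply, Real.norm_eq_abs,
      Real.norm_eq_abs, sq_abs, sq_abs]
    have := hssq i
    calc (x (σ i) - s i * z i) ^ 2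
        = x (σ i) ^ 2 - 2 * s i * x (σ i) * z i + (s i * s i) * z i ^ 2 := by ring
      _ = (s i * s i) * x (σ i) ^ 2 - 2 * s i * x (σ i) * z i + z i ^ 2 := by rw [this]; ring
      _ = _ := by ring
  have : trm ρ k y z = trm ρ k x w := by
    unfold trm; rw [hρ, hn]
  rw [this]
  exact trm_le_reg h k x w

theorem reg_inv (h : SymDensity ρ) (k : ℕ) (σ : Equiv.Perm (Fin n))
    (x y : EuclideanSpace ℝ (Fin n)) (hxy : ∀ i, |y i| = |x (σ i)|) :
    reg ρ k y = reg ρ k x := by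
  refine le_antisymm (reg_inv_le h k σ x y hxy) (reg_inv_le h k σ.symm y x fun i => ?_)
  rw [hxy, Equiv.apply_symm_apply]

theorem reg_sym (h : SymDensity ρ) (h0 : 0 < ρ 0) (k : ℕ) : SymDensity (reg ρ k) where
  nonneg := reg_nonneg h k
  meas := (reg_continuous h k).measurable
  logc := fun x y _ h1 h2 => reg_logc h h0 k x y h1 h2
  inv := reg_inv h k

theorem reg_tendsto (h : SymDensity ρ) {x : EuclideanSpace ℝ (Fin n)} (hx : ContinuousAt ρ x) :
    Tendsto (fun k => reg ρ k x) atTop (nhds (ρ x)) := by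
  rw [Metric.tendsto_atTop]
  intro ε hε
  have h1 : ∀ᶠ y in nhds x, ρ y < ρ x + ε / 2 := hx.eventually_lt_const (by linarith)
  obtain ⟨r, hr, hr1⟩ := Metric.eventually_nhds_iff.1 h1
  have h2 : Tendsto (fun k : ℕ => ρ 0 * Real.exp (-((k:ℝ) * r))) atTop (nhds 0) := by
    have h3 : Tendsto (fun k : ℕ => Real.exp (-((k:ℝ) * r))) atTop (nhds 0) := by
      refine Real.tendsto_exp_neg_atTop_nhds_zero.comp ?_
      exact Tendsto.atTop_mul_const hr tendsto_natCast_atTop_atTop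
    simpa using h3.const_mul (ρ 0)
  have h4 : ∀ᶠ k : ℕ in atTop, ρ 0 * Real.exp (-((k:ℝ) * r)) < ε / 2 :=
    h2.eventually_lt_const (by linarith)
  obtain ⟨K, hK⟩ := eventually_atTop.1 h4
  refine ⟨K, fun k hk => ?_⟩
  have h5 : reg ρ k x ≤ ρ x + ε / 2 := by
    refine ciSup_le fun y => ?_
    by_cases hy : dist y x < r
    · have h6 := hr1 hy
      have h7 : Real.exp (-((k:ℝ) * ‖x - y‖)) ≤ 1 := by
        rw [Real.exp_le_one_iff]
        have : 0 ≤ (k:ℝ) * ‖x - y‖ := by positivity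
        linarith
      calc trm ρ k x y = ρ y * Real.exp (-((k:ℝ) * ‖x - y‖)) := rfl
        _ ≤ ρ y * 1 := mul_le_mul_of_nonneg_left h7 (h.nonneg y)
        _ ≤ ρ x + ε / 2 := by linarith
    · push Not at hy
      have h7 : Real.exp (-((k:ℝ) * ‖x - y‖)) ≤ Real.exp (-((k:ℝ) * r)) := by
        rw [Real.exp_le_exp]
        have h8 : r ≤ ‖x - y‖ := by rw [norm_sub_rev, ← dist_eq_norm]; exact hy
        have := mul_le_mul_of_nonneg_left h8 (Nat.cast_nonneg (α := ℝ) k)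
        linarith
      calc trm ρ k x y = ρ y * Real.exp (-((k:ℝ) * ‖x - y‖)) := rfl
        _ ≤ ρ 0 * Real.exp (-((k:ℝ) * r)) :=
          mul_le_mul (le_zero h y) h7 (Real.exp_pos _).le (h.nonneg 0)
        _ ≤ ρ x + ε / 2 := by linarith [hK k hk, h.nonneg x]
  have h6 := le_reg h k x
  rw [Real.dist_eq, abs_lt]
  constructor <;> linarith

theorem supp_convex (h : SymDensity ρ) : Convex ℝ {x | 0 < ρ x} := by
  rw [convex_iff_forall_pos]
  intro x hx y hy a b ha hb hab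
  have hb1 : b < 1 := by linarith
  have e : a = 1 - b := by linarith
  subst e
  have := h.logc x y b hb hb1
  exact lt_of_lt_of_le (mul_pos (Real.rpow_pos_of_pos hx _) (Real.rpow_pos_of_pos hy _)) this

theorem log_concave (h : SymDensity ρ) :
    ConcaveOn ℝ {x | 0 < ρ x} (fun x => Real.log (ρ x)) := by
  rw [concaveOn_iff_forall_pos]
  refine ⟨supp_convex h, ?_⟩
  intro x hx y hy a b ha hb hab
  have hb1 : b < 1 := by linarith
  have e : a = 1 - b := by linarith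
  subst e
  have h1 := h.logc x y b hb hb1
  have hx' : 0 < ρ x := hx
  have hy' : 0 < ρ y := hy
  have h2 := Real.log_le_log (mul_pos (Real.rpow_pos_of_pos hx' _) (Real.rpow_pos_of_pos hy' _)) h1
  rw [Real.log_mul (Real.rpow_pos_of_pos hx' _).ne' (Real.rpow_pos_of_pos hy' _).ne',
    Real.log_rpow hx', Real.log_rpow hy'] at h2
  simpa [smul_eq_mul] using h2

theorem continuousAt_of_not_frontier (h : SymDensity ρ) {x : EuclideanSpace ℝ (Fin n)}
    (hx : x ∉ frontier {x | 0 < ρ x}) : ContinuousAt ρ x := by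
  by_cases hc : x ∈ closure {x | 0 < ρ x}
  · have hi : x ∈ interior {x | 0 < ρ x} := by
      by_contra hni
      exact hx ⟨hc, hni⟩
    have h1 : ContinuousOn (fun x => Real.log (ρ x)) (interior {x | 0 < ρ x}) :=
      (log_concave h).continuousOn_interior
    have h2 : ContinuousAt (fun x => Real.log (ρ x)) x :=
      h1.continuousAt (isOpen_interior.mem_nhds hi)
    have h3 : ContinuousAt (fun x => Real.exp (Real.log (ρ x))) x :=
      Real.continuous_exp.continuousAt.comp h2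
    refine h3.congr ?_
    filter_upwards [isOpen_interior.mem_nhds hi] with y hy
    have hy' : y ∈ {x | 0 < ρ x} := interior_subset hy
    exact Real.exp_log hy'
  · have h1 : (closure {x | 0 < ρ x})ᶜ ∈ nhds x := isClosed_closure.isOpen_compl.mem_nhds hc
    have h2 : ∀ᶠ y in nhds x, (0:ℝ) = ρ y := by
      filter_upwards [h1] with y hy
      by_contra hne
      have : 0 < ρ y := lt_of_le_of_ne (h.nonneg y) hne
      exact hy (subset_closure this)
    exact continuousAt_const.congr h2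

end PieceD

open PieceD in
/-- PIECE D: approximation from above by continuous positive 1-symmetric log-concave functions,
`ρ_k x = sup_y ρ y * exp (-k ‖x - y‖)`. -/
theorem approx {n : ℕ} {ρ : EuclideanSpace ℝ (Fin n) → ℝ} (h : SymDensity ρ) (h0 : 0 < ρ 0) :
    ∃ ρk : ℕ → EuclideanSpace ℝ (Fin n) → ℝ, (∀ k, SymDensity (ρk k)) ∧
      (∀ k, Continuous (ρk k)) ∧ (∀ k x, 0 < ρk k x) ∧ (∀ k x, ρ x ≤ ρk k x) ∧
      (∀ k x, ρk k x ≤ ρ 0) ∧
      ∀ᵐ x : EuclideanSpace ℝ (Fin n), Tendsto (fun k => ρk k x) atTop (nhds (ρ x)) := by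
  refine ⟨reg ρ, reg_sym h h0, reg_continuous h, reg_pos h h0, le_reg h, reg_le h, ?_⟩
  have h1 : volume (frontier {x : EuclideanSpace ℝ (Fin n) | 0 < ρ x}) = 0 :=
    (supp_convex h).addHaar_frontier volume
  have h2 : ∀ᵐ x : EuclideanSpace ℝ (Fin n), x ∉ frontier {x | 0 < ρ x} :=
    measure_eq_zero_iff_ae_notMem.1 h1
  filter_upwards [h2] with x hx
  exact reg_tendsto h (continuousAt_of_not_frontier h hx)

end Pool.Agent.K6.H24.KR
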