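import Pool.Agent.K6.H24.KR.PieceJ

/-!
# Functions symmetric inside a block keep their mean under order relations inside the blocks
-/

namespace Pool.Agent.K6.H24.KR

open MeasureTheory Filter ProbabilityTheory

namespace PieceL

variable {n : ℕ}

/-- Coordinates in `A` come before the other ones. -/
theorem exists_sep (A : Finset (Fin n)) {x : Fin n → ℝ} (hx : Function.Injective x) :
    ∃ x' : Fin n → ℝ, Function.Injective x' ∧ (∀ i ∈ A, ∀ j ∉ A, x' i < x' j) ∧
      ∀ i j, (i ∈ A ↔ j ∈ A) → (x' i < x' j ↔ x i < x j) := by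
  classical
  set C : ℝ := 2 * (∑ i, |x i|) + 1 with hC
  have hb : ∀ i, |x i| ≤ ∑ i, |x i| := fun i =>
    Finset.single_le_sum (f := fun i => |x i|) (fun i _ => abs_nonneg _) (Finset.mem_univ i)
  have hsep : ∀ i j, x i < x j + C := by
    intro i j
    have h1 := hb i
    have h2 := hb j
    have h3 := abs_le.1 h1
    have h4 := abs_le.1 h2
    linarith
  have hlt : ∀ i ∈ A, ∀ j ∉ A, (x i + if i ∈ A then 0 else C) < x j + if j ∈ A then 0 else C := by
    intro i hi j hj
    rw [if_pos hi, if_neg hj, add_zero]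
    exact hsep i j
  refine ⟨fun i => x i + if i ∈ A then 0 else C, ?_, hlt, ?_⟩
  · intro i j hij
    by_cases hi : i ∈ A
    · by_cases hj : j ∈ A
      · simp only [if_pos hi, if_pos hj, add_zero] at hij
        exact hx hij
      · exact absurd hij (hlt i hi j hj).ne
    · by_cases hj : j ∈ A
      · exact absurd hij (hlt j hj i hi).ne'
      · simp only [if_neg hi, if_neg hj, add_left_inj] at hij
        exact hx hij
  · intro i j hij
    by_cases hi : i ∈ A
    · simp [if_pos hi, if_pos (hij.1 hi)]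
    · simp [if_neg hi, if_neg (fun h => hi (hij.2 h))]

theorem mem_iff_rank {A : Finset (Fin n)} {x : Fin n → ℝ} (hx : ∀ i ∈ A, ∀ j ∉ A, x i < x j)
    (i : Fin n) : i ∈ A ↔ (Finset.univ.filter fun j => x j < x i).card < A.card := by
  constructor
  · intro hi
    have h1 : (Finset.univ.filter fun j => x j < x i) ⊆ A.erase i := by
      intro j hj
      have hj' := (Finset.mem_filter.1 hj).2
      refine Finset.mem_erase.2 ⟨?_, ?_⟩
      · rintro rfl
        exact lt_irrefl _ hj'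
      · by_contra hjA
        exact lt_asymm hj' (hx i hi j hjA)
    exact (Finset.card_le_card h1).trans_lt (Finset.card_erase_lt_of_mem hi)
  · intro h
    by_contra hi
    refine absurd (Finset.card_le_card ?_) (not_le.2 h)
    intro j hj
    exact Finset.mem_filter.2 ⟨Finset.mem_univ _, hx j hj i hi⟩

theorem exists_perm (A : Finset (Fin n)) {x y : Fin n → ℝ} (hx : Function.Injective x)
    (hy : Function.Injective y) :
    ∃ σ : Equiv.Perm (Fin n), (∀ i, σ i ∈ A ↔ i ∈ A) ∧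
      ∀ i j, (i ∈ A ↔ j ∈ A) → (x (σ i) < x (σ j) ↔ y i < y j) := by
  obtain ⟨x', hx'i, hx's, hx'⟩ := exists_sep A hx
  obtain ⟨y', hy'i, hy's, hy'⟩ := exists_sep A hy
  obtain ⟨σ, hσ⟩ := PieceJ.exists_perm hx'i hy'i
  have hA : ∀ i, σ i ∈ A ↔ i ∈ A := by
    intro i
    rw [mem_iff_rank hx's, mem_iff_rank hy's]
    have h1 : (Finset.univ.filter fun j => x' j < x' (σ i)).card =
        (Finset.univ.filter fun j => y' j < y' i).card := by
      symm
      refine Finset.card_bij (fun j _ => σ j) ?_ ?_ ?_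
      · intro j hj
        exact Finset.mem_filter.2 ⟨Finset.mem_univ _, (hσ j i).2 (Finset.mem_filter.1 hj).2⟩
      · intro j _ j' _ h
        exact σ.injective h
      · intro j hj
        refine ⟨σ.symm j, ?_, by simp⟩
        refine Finset.mem_filter.2 ⟨Finset.mem_univ _, (hσ _ _).1 ?_⟩
        simpa using (Finset.mem_filter.1 hj).2
    rw [h1]
  refine ⟨σ, hA, fun i j hij => ?_⟩
  rw [← hx' (σ i) (σ j) (by rw [hA, hA]; exact hij), hσ, hy' i j hij]

open Classical in
/-- the number of permutations preserving `A` which put `x` into the cone -/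
noncomputable def NN (R : Fin n → Fin n → Prop) (A : Finset (Fin n)) (x : Fin n → ℝ) : ℕ :=
  ((Finset.univ.filter fun π : Equiv.Perm (Fin n) => ∀ i, π i ∈ A ↔ i ∈ A).filter
    fun π : Equiv.Perm (Fin n) => (x ∘ π) ∈ PieceJ.cone R).card

theorem NN_eq {R : Fin n → Fin n → Prop} {A : Finset (Fin n)}
    (hA : ∀ i ∈ A, ∀ j ∉ A, ¬ R i j ∧ ¬ R j i) {x y : Fin n → ℝ} (hx : Function.Injective x)
    (hy : Function.Injective y) : NN R A x = NN R A y := by
  classical
  have hR : ∀ i j, R i j → (i ∈ A ↔ j ∈ A) := by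
    intro i j h
    constructor
    · intro hi
      by_contra hj
      exact (hA i hi j hj).1 h
    · intro hj
      by_contra hi
      exact (hA j hj i hi).2 h
  obtain ⟨σ, hσA, hσ⟩ := exists_perm A hx hy
  have hσ' : ∀ i j, (i ∈ A ↔ j ∈ A) → (x (σ i) ≤ x (σ j) ↔ y i ≤ y j) := fun i j hij => by
    rw [← not_lt, hσ j i hij.symm, not_lt]
  unfold NN
  symm
  refine Finset.card_bij (fun π _ => π.trans σ) ?_ ?_ ?_
  · intro π hπ
    simp only [Finset.mem_filter, Finset.mem_univ, true_and] at hπ ⊢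
    refine ⟨fun i => ?_, fun i j hR' => ?_⟩
    · rw [Equiv.trans_apply, hσA, hπ.1]
    · exact (hσ' _ _ (by rw [hπ.1, hπ.1]; exact hR i j hR')).2 (hπ.2 i j hR')
  · intro π _ π' _ h
    ext i
    have := congrArg (fun p : Equiv.Perm (Fin n) => p i) h
    exact congrArg Fin.val (σ.injective this)
  · intro π hπ
    simp only [Finset.mem_filter, Finset.mem_univ, true_and] at hπ
    have hs : ∀ i, σ.symm i ∈ A ↔ i ∈ A := fun i => by
      rw [← hσA (σ.symm i), Equiv.apply_symm_apply]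
    refine ⟨π.trans σ.symm, ?_, ?_⟩
    · simp only [Finset.mem_filter, Finset.mem_univ, true_and]
      refine ⟨fun i => by rw [Equiv.trans_apply, hs, hπ.1], ?_⟩
      intro i j hR'
      have := hπ.2 i j hR'
      refine (hσ' _ _ ?_).1 ?_
      · rw [Equiv.trans_apply, Equiv.trans_apply, hs, hs, hπ.1, hπ.1]
        exact hR i j hR'
      · simpa using this
    · ext i; simp

open Classical in
theorem key {μ : Measure (Fin n → ℝ)} [IsProbabilityMeasure μ]
    (hex : ∀ σ : Equiv.Perm (Fin n), Measure.map (fun x : Fin n → ℝ => x ∘ σ) μ = μ)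
    (hinj : ∀ᵐ x ∂μ, Function.Injective x)
    (R : Fin n → Fin n → Prop) (A : Finset (Fin n)) (hA : ∀ i ∈ A, ∀ j ∉ A, ¬ R i j ∧ ¬ R j i)
    {x0 : Fin n → ℝ} (hx0 : Function.Injective x0)
    {Ψ : (Fin n → ℝ) → ℝ} (hΨ : Integrable Ψ μ)
    (hs : ∀ σ : Equiv.Perm (Fin n), (∀ i, σ i ∈ A ↔ i ∈ A) → ∀ x : Fin n → ℝ, Ψ (x ∘ σ) = Ψ x) :
    (((Finset.univ : Finset (Equiv.Perm (Fin n))).filter
        fun π => ∀ i, π i ∈ A ↔ i ∈ A).card : ℝ) * ∫ x in PieceJ.cone R, Ψ x ∂μ
      = (NN R A x0 : ℝ) * ∫ x, Ψ x ∂μ := by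
  set PA := (Finset.univ : Finset (Equiv.Perm (Fin n))).filter fun π => ∀ i, π i ∈ A ↔ i ∈ A
    with hPA
  have hms : MeasurableSet (PieceJ.cone R) := (PieceJ.isClosed_cone R).measurableSet
  have hmeas : ∀ π : Equiv.Perm (Fin n), Measurable (fun x : Fin n → ℝ => x ∘ π) := fun π =>
    measurable_pi_lambda _ fun i => measurable_pi_apply (π i)
  have hmp : ∀ π : Equiv.Perm (Fin n), MeasurePreserving (fun x : Fin n → ℝ => x ∘ π) μ μ :=
    fun π => ⟨hmeas π, hex π⟩
  have hI : Integrable ((PieceJ.cone R).indicator Ψ) μ := hΨ.indicator hms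
  have h1 : ∀ π : Equiv.Perm (Fin n), ∫ x, (PieceJ.cone R).indicator Ψ (x ∘ π) ∂μ
      = ∫ x in PieceJ.cone R, Ψ x ∂μ := by
    intro π
    rw [← integral_indicator hms]
    have h2 := integral_map (μ := μ) (φ := fun x : Fin n → ℝ => x ∘ π) (hmeas π).aemeasurable
      (f := (PieceJ.cone R).indicator Ψ) (by rw [hex π]; exact hI.aestronglyMeasurable)
    rw [hex π] at h2
    exact h2.symm
  have h2 : ∑ π ∈ PA, ∫ x, (PieceJ.cone R).indicator Ψ (x ∘ π) ∂μ
      = ∫ x, ∑ π ∈ PA, (PieceJ.cone R).indicator Ψ (x ∘ π) ∂μ := by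
    rw [integral_finsetSum]
    intro π _
    exact (hmp π).integrable_comp_of_integrable hI
  have h3 : ∫ x, ∑ π ∈ PA, (PieceJ.cone R).indicator Ψ (x ∘ π) ∂μ
      = ∫ x, (NN R A x0 : ℝ) * Ψ x ∂μ := by
    refine integral_congr_ae ?_
    filter_upwards [hinj] with x hx
    have e : ∀ π ∈ PA, (PieceJ.cone R).indicator Ψ (x ∘ π)
        = if (x ∘ π) ∈ PieceJ.cone R then Ψ x else 0 := by
      intro π hπ
      by_cases h : (x ∘ π) ∈ PieceJ.cone R
      · rw [Set.indicator_of_mem h, if_pos h, hs π (Finset.mem_filter.1 hπ).2]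
      · rw [Set.indicator_of_notMem h, if_neg h]
    rw [Finset.sum_congr rfl e]
    rw [← Finset.sum_filter, Finset.sum_const, nsmul_eq_mul, ← NN_eq (R := R) hA hx hx0]
    unfold NN
    congr
  have h4 : ∑ π ∈ PA, ∫ x, (PieceJ.cone R).indicator Ψ (x ∘ π) ∂μ
      = (PA.card : ℝ) * ∫ x in PieceJ.cone R, Ψ x ∂μ := by
    simp only [h1, Finset.sum_const, nsmul_eq_mul]
  rw [← h4, h2, h3, integral_const_mul]

end PieceL

/-- PIECE L: if the order relations do not compare `A` with its complement, then functions which are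
symmetric inside `A` and inside the complement keep their mean under the conditioning. -/
theorem block_mean {n : ℕ} {μ : Measure (Fin n → ℝ)} [IsProbabilityMeasure μ]
    (hex : ∀ σ : Equiv.Perm (Fin n), Measure.map (fun x : Fin n → ℝ => x ∘ σ) μ = μ)
    (hties : ∀ i j : Fin n, i ≠ j → μ {x | x i = x j} = 0)
    (R : Fin n → Fin n → Prop) (A : Finset (Fin n))
    (hA : ∀ i ∈ A, ∀ j ∉ A, ¬ R i j ∧ ¬ R j i)
    {Ψ : (Fin n → ℝ) → ℝ} (hΨ : Integrable Ψ μ)
    (hs : ∀ σ : Equiv.Perm (Fin n), (∀ i, σ i ∈ A ↔ i ∈ A) → ∀ x : Fin n → ℝ, Ψ (x ∘ σ) = Ψ x) :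
    ∫ x in {x : Fin n → ℝ | ∀ i j, R i j → x i ≤ x j}, Ψ x ∂μ
      = μ.real {x : Fin n → ℝ | ∀ i j, R i j → x i ≤ x j} * ∫ x, Ψ x ∂μ := by
  classical
  have hinj : ∀ᵐ x ∂μ, Function.Injective x := by
    have h2 : ∀ᵐ x ∂μ, ∀ i j : Fin n, i ≠ j → x i ≠ x j := by
      rw [ae_all_iff]; intro i
      rw [ae_all_iff]; intro j
      by_cases hij : i = j
      · exact Filter.Eventually.of_forall fun x h => absurd hij h
      · have h3 : ∀ᵐ x ∂μ, x i ≠ x j := by
          rw [ae_iff]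
          simpa using hties i j hij
        filter_upwards [h3] with x hx _ using hx
    filter_upwards [h2] with x hx
    intro i j hij
    by_contra hne
    exact hx i j hne hij
  obtain ⟨x0, hx0⟩ := hinj.exists
  have k1 := PieceL.key hex hinj R A hA hx0 hΨ hs
  have k2 := PieceL.key hex hinj R A hA hx0 (Ψ := fun _ => (1:ℝ)) (integrable_const 1)
    (fun _ _ _ => rfl)
  have e1 : ∫ _x in PieceJ.cone R, (1:ℝ) ∂μ = μ.real (PieceJ.cone R) := by simp
  have e2 : ∫ _x, (1:ℝ) ∂μ = 1 := by simp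
  rw [e1, e2, mul_one] at k2
  have hcard : (0:ℝ) < (((Finset.univ : Finset (Equiv.Perm (Fin n))).filter
      fun π => ∀ i, π i ∈ A ↔ i ∈ A).card : ℝ) := by
    refine Nat.cast_pos.2 (Finset.card_pos.2 ⟨1, ?_⟩)
    simp
  change ∫ x in PieceJ.cone R, Ψ x ∂μ = μ.real (PieceJ.cone R) * ∫ x, Ψ x ∂μ
  refine mul_left_cancel₀ hcard.ne' ?_
  have k1' : (((Finset.univ : Finset (Equiv.Perm (Fin n))).filter
      fun π => ∀ i, π i ∈ A ↔ i ∈ A).card : ℝ) * ∫ x in PieceJ.cone R, Ψ x ∂μ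
      = (PieceL.NN R A x0 : ℝ) * ∫ x, Ψ x ∂μ := by
    convert k1 using 4
  have k2' : (((Finset.univ : Finset (Equiv.Perm (Fin n))).filter
      fun π => ∀ i, π i ∈ A ↔ i ∈ A).card : ℝ) * μ.real (PieceJ.cone R)
      = (PieceL.NN R A x0 : ℝ) := by
    convert k2 using 4
  rw [k1', ← mul_assoc, k2']

end Pool.Agent.K6.H24.KR
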