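import Mathlib

/-!
# Piece M (helper13): the covariance norm of an exchangeable law
-/

set_option autoImplicit false

namespace Pool.Agent.K6.H24.KR

open MeasureTheory Filter ProbabilityTheory

namespace PieceM

variable {n : ℕ} {μ : Measure (Fin n → ℝ)}

/-- the covariances are invariant under permutations -/
theorem cov_perm (hex : ∀ σ : Equiv.Perm (Fin n), Measure.map (fun x : Fin n → ℝ => x ∘ σ) μ = μ)
    (σ : Equiv.Perm (Fin n)) (i j : Fin n) :
    covariance (fun x : Fin n → ℝ => x (σ i)) (fun x => x (σ j)) μ =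
      covariance (fun x : Fin n → ℝ => x i) (fun x => x j) μ := by
  have hm : Measurable (fun x : Fin n → ℝ => x ∘ σ) :=
    measurable_pi_lambda _ fun k => measurable_pi_apply _
  conv_rhs => rw [← hex σ]
  rw [covariance_map_fun (measurable_pi_apply i).aestronglyMeasurable
    (measurable_pi_apply j).aestronglyMeasurable hm.aemeasurable]
  rfl

/-- a permutation which maps one pair to another one -/
theorem exists_perm2 {i j i' j' : Fin n} (h : i ≠ j) (h' : i' ≠ j') :
    ∃ σ : Equiv.Perm (Fin n), σ i = i' ∧ σ j = j' := by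
  refine ⟨(Equiv.swap i i').trans (Equiv.swap (Equiv.swap i i' j) j'), ?_, ?_⟩
  · rw [Equiv.trans_apply, Equiv.swap_apply_left]
    apply Equiv.swap_apply_of_ne_of_ne
    · intro hc
      apply h
      have := congrArg (Equiv.swap i i') hc
      rw [Equiv.swap_apply_right, Equiv.swap_apply_self] at this
      exact this
    · exact h'
  · rw [Equiv.trans_apply, Equiv.swap_apply_left]

/-- the structure of the covariance matrix -/
theorem struct (hex : ∀ σ : Equiv.Perm (Fin n),
    Measure.map (fun x : Fin n → ℝ => x ∘ σ) μ = μ) :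
    ∃ V c : ℝ, (∀ i j : Fin n, covariance (fun x : Fin n → ℝ => x i) (fun x => x j) μ =
      c + if i = j then V - c else 0) ∧
      ((∀ i j : Fin n, i ≠ j → 0 ≤ covariance (fun x : Fin n → ℝ => x i) (fun x => x j) μ) →
        0 ≤ c) := by
  classical
  have hV : ∃ V : ℝ, ∀ i : Fin n, covariance (fun x : Fin n → ℝ => x i) (fun x => x i) μ = V := by
    rcases isEmpty_or_nonempty (Fin n) with h | ⟨⟨i0⟩⟩
    · exact ⟨0, fun i => h.elim i⟩
    · refine ⟨covariance (fun x : Fin n → ℝ => x i0) (fun x => x i0) μ, fun i => ?_⟩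
      have := cov_perm hex (Equiv.swap i0 i) i0 i0
      rwa [Equiv.swap_apply_left] at this
  obtain ⟨V, hV⟩ := hV
  by_cases h2 : ∃ i j : Fin n, i ≠ j
  · obtain ⟨i0, j0, h0⟩ := h2
    refine ⟨V, covariance (fun x : Fin n → ℝ => x i0) (fun x => x j0) μ, fun i j => ?_,
      fun hpos => hpos i0 j0 h0⟩
    by_cases hij : i = j
    · rw [if_pos hij, hij, hV]
      ring
    · rw [if_neg hij, add_zero]
      obtain ⟨σ, h1, h2⟩ := exists_perm2 h0 hij
      have := cov_perm hex σ i0 j0
      rwa [h1, h2] at this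
  · push Not at h2
    refine ⟨V, 0, fun i j => ?_, fun _ => le_rfl⟩
    rw [if_pos (h2 i j), ← h2 i j, hV]
    ring

theorem var_formula [IsProbabilityMeasure μ] {V c : ℝ}
    (hL : ∀ i, MemLp (fun x : Fin n → ℝ => x i) 2 μ)
    (hK : ∀ i j : Fin n, covariance (fun x : Fin n → ℝ => x i) (fun x => x j) μ =
      c + if i = j then V - c else 0) (θ : Fin n → ℝ) :
    variance (fun x : Fin n → ℝ => ∑ i, θ i * x i) μ =
      c * (∑ i, θ i) ^ 2 + (V - c) * ∑ i, θ i ^ 2 := by
  have hL' : ∀ i, MemLp (fun x : Fin n → ℝ => θ i * x i) 2 μ := fun i => (hL i).const_mul _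
  rw [← covariance_self (memLp_finsetSum _ fun i _ => hL' i).aemeasurable,
    covariance_fun_sum_fun_sum hL' hL']
  have h1 : ∀ i j : Fin n, covariance (fun x : Fin n → ℝ => θ i * x i) (fun x => θ j * x j) μ =
      c * (θ i * θ j) + (if i = j then (V - c) * (θ i * θ j) else 0) := by
    intro i j
    rw [covariance_const_mul_left, covariance_const_mul_right, hK]
    split_ifs <;> ring
  simp only [h1, Finset.sum_add_distrib, Finset.sum_ite_eq, Finset.mem_univ, if_true]
  congr 1
  · rw [sq, Finset.sum_mul_sum, Finset.mul_sum]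
    exact Finset.sum_congr rfl fun i _ => (Finset.mul_sum _ _ _).symm
  · rw [Finset.mul_sum]
    exact Finset.sum_congr rfl fun i _ => by ring

end PieceM

open PieceM in
/-- The covariance norm of an exchangeable law is not larger than the one of the law
conditioned on order relations, if the relations do not connect all points or if the coordinates are
not negatively correlated. -/
theorem cov_transfer' {n : ℕ} {μ : Measure (Fin n → ℝ)} [IsProbabilityMeasure μ] (hn : 1 ≤ n)
    (hex : ∀ σ : Equiv.Perm (Fin n), Measure.map (fun x : Fin n → ℝ => x ∘ σ) μ = μ)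
    (hL : ∀ i, MemLp (fun x : Fin n → ℝ => x i) 2 μ) {s : ℝ}
    (hone : variance (fun x : Fin n → ℝ => ∑ i, x i) μ ≤ n * s)
    (hor : (∃ A : Finset (Fin n), A.Nonempty ∧ Aᶜ.Nonempty ∧
        variance (fun x : Fin n → ℝ => ∑ i, (if i ∈ A then (Aᶜ.card : ℝ) else -(A.card : ℝ)) * x i) μ
          ≤ (∑ i : Fin n, (if i ∈ A then (Aᶜ.card : ℝ) else -(A.card : ℝ)) ^ 2) * s) ∨
      (∀ i j : Fin n, i ≠ j → 0 ≤ covariance (fun x : Fin n → ℝ => x i) (fun x => x j) μ)) :
    ∀ θ : Fin n → ℝ, ∑ i, θ i ^ 2 = 1 → variance (fun x : Fin n → ℝ => ∑ i, θ i * x i) μ ≤ s := by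
  intro θ hθ
  obtain ⟨V, c, hK, hc⟩ := struct hex
  have hn0 : (0 : ℝ) < n := by exact_mod_cast hn
  have hone' : c * n + (V - c) ≤ s := by
    have h1 := var_formula hL hK (fun _ => 1)
    simp only [one_mul, Finset.sum_const, Finset.card_univ, Fintype.card_fin, nsmul_eq_mul,
      mul_one, one_pow] at h1
    rw [h1] at hone
    have h2 : (c * n + (V - c)) * n ≤ s * n := by nlinarith
    exact le_of_mul_le_mul_right h2 hn0
  have hVc : V - c ≤ s := by
    rcases hor with ⟨A, hA, hA', hvar⟩ | hpos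
    · rw [var_formula hL hK] at hvar
      have hsum : ∑ i : Fin n, (if i ∈ A then (Aᶜ.card : ℝ) else -(A.card : ℝ)) = 0 := by
        rw [Finset.sum_ite]
        simp only [Finset.sum_const, nsmul_eq_mul, Finset.filter_mem_eq_inter, Finset.univ_inter,
          Finset.filter_notMem_eq_sdiff]
        rw [← Finset.compl_eq_univ_sdiff]
        ring
      rw [hsum] at hvar
      have hpos : 0 < ∑ i : Fin n, (if i ∈ A then (Aᶜ.card : ℝ) else -(A.card : ℝ)) ^ 2 := by
        obtain ⟨i0, hi0⟩ := hA
        have hcard : (0 : ℝ) < Aᶜ.card := by exact_mod_cast hA'.card_pos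
        refine Finset.sum_pos' (fun i _ => sq_nonneg _) ⟨i0, Finset.mem_univ _, ?_⟩
        rw [if_pos hi0]
        positivity
      have h3 : (V - c) * ∑ i : Fin n, (if i ∈ A then (Aᶜ.card : ℝ) else -(A.card : ℝ)) ^ 2 ≤
          s * ∑ i : Fin n, (if i ∈ A then (Aᶜ.card : ℝ) else -(A.card : ℝ)) ^ 2 := by
        nlinarith
      exact le_of_mul_le_mul_right h3 hpos
    · have := hc hpos
      nlinarith
  rw [var_formula hL hK, hθ, mul_one]
  rcases le_total c 0 with h | h
  · nlinarith [sq_nonneg (∑ i, θ i)]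
  · have h1 : (∑ i, θ i) ^ 2 ≤ n := by
      have h2 := sq_sum_le_card_mul_sum_sq (s := (Finset.univ : Finset (Fin n))) (f := θ)
      rw [hθ, mul_one, Finset.card_univ, Fintype.card_fin] at h2
      exact h2
    nlinarith

set_option linter.unusedVariables false in
/-- PIECE M: the covariance norm of an exchangeable law is not larger than the one of the law
conditioned on order relations, if the relations do not connect all points or if the coordinates are
not negatively correlated. -/
theorem cov_transfer {n : ℕ} {μ : Measure (Fin n → ℝ)} [IsProbabilityMeasure μ] (hn : 1 ≤ n)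
    (hex : ∀ σ : Equiv.Perm (Fin n), Measure.map (fun x : Fin n → ℝ => x ∘ σ) μ = μ)
    {R : Fin n → Fin n → Prop}
    (hL : ∀ i, MemLp (fun x : Fin n → ℝ => x i) 2 μ) {s : ℝ}
    (hone : variance (fun x : Fin n → ℝ => ∑ i, x i) μ ≤ n * s)
    (hor : (∃ A : Finset (Fin n), A.Nonempty ∧ Aᶜ.Nonempty ∧
        variance (fun x : Fin n → ℝ => ∑ i, (if i ∈ A then (Aᶜ.card : ℝ) else -(A.card : ℝ)) * x i) μ
          ≤ (∑ i : Fin n, (if i ∈ A then (Aᶜ.card : ℝ) else -(A.card : ℝ)) ^ 2) * s) ∨
      (∀ i j : Fin n, i ≠ j → 0 ≤ covariance (fun x : Fin n → ℝ => x i) (fun x => x j) μ)) :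
    ∀ θ : Fin n → ℝ, ∑ i, θ i ^ 2 = 1 → variance (fun x : Fin n → ℝ => ∑ i, θ i * x i) μ ≤ s :=
  cov_transfer' hn hex hL hone hor

end Pool.Agent.K6.H24.KR
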