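import Mathlib

/-!
# PIECE Q: from balls to the whole space (adapted from H212R2/KLS/G2, W276/SX/MainB, W668/SX/MainC)
-/

set_option autoImplicit false

namespace Pool.Agent.K6.H24.KR

open MeasureTheory Filter ProbabilityTheory

namespace PQ

open Set Topology

theorem lim_ball {F : Type*} [NormedAddCommGroup F] [MeasurableSpace F] [BorelSpace F]
    (μ : Measure F) (g : F → ℝ) (hg : Integrable g μ) :
    Tendsto (fun k : ℕ => ∫ x in {x : F | ‖x‖ ≤ k}, g x ∂μ) atTop (𝓝 (∫ x, g x ∂μ)) := by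
  have hU : (⋃ k : ℕ, {x : F | ‖x‖ ≤ k}) = univ := by
    ext x
    simp only [mem_iUnion, mem_setOf_eq, mem_univ, iff_true]
    exact exists_nat_ge ‖x‖
  have h1 := tendsto_setIntegral_of_monotone (μ := μ) (f := g)
    (s := fun k : ℕ => {x : F | ‖x‖ ≤ k})
    (fun k => measurableSet_le measurable_norm measurable_const)
    (fun a b hab x hx => by
      show ‖x‖ ≤ (b : ℝ)
      have h2 : (a : ℝ) ≤ b := by exact_mod_cast hab
      exact le_trans hx h2) (by rw [hU]; exact hg.integrableOn)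
  rw [hU, Measure.restrict_univ] at h1
  exact h1

theorem mass_ball {F : Type*} [NormedAddCommGroup F] [MeasurableSpace F] [BorelSpace F]
    (μ : Measure F) [IsProbabilityMeasure μ] :
    Tendsto (fun k : ℕ => μ.real {x : F | ‖x‖ ≤ k}) atTop (𝓝 1) := by
  have h1 := lim_ball μ (fun _ => (1 : ℝ)) (integrable_const _)
  simpa using h1

theorem cond_int {F : Type*} [MeasurableSpace F] (μ : Measure F) [IsFiniteMeasure μ] (B : Set F)
    (g : F → ℝ) : ∫ x, g x ∂(ProbabilityTheory.cond μ B) = (μ.real B)⁻¹ * ∫ x in B, g x ∂μ := by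
  unfold ProbabilityTheory.cond
  rw [integral_smul_measure, smul_eq_mul, ENNReal.toReal_inv, Measure.real]

theorem cond_memLp {F : Type*} [MeasurableSpace F] (μ : Measure F) [IsFiniteMeasure μ] (B : Set F)
    (hB : 0 < μ.real B) {g : F → ℝ} (hg : MemLp g 2 μ) :
    MemLp g 2 (ProbabilityTheory.cond μ B) := by
  unfold ProbabilityTheory.cond
  apply MemLp.smul_measure (hg.restrict B)
  have h1 : μ B ≠ 0 := by
    intro h
    rw [Measure.real, h] at hB
    simp at hB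
  exact ENNReal.inv_ne_top.2 h1

/-- the variance of the conditioned measure -/
theorem cond_var {F : Type*} [MeasurableSpace F] (μ : Measure F) [IsFiniteMeasure μ] (B : Set F)
    (hB : 0 < μ.real B) {g : F → ℝ} (hg : MemLp g 2 μ) :
    variance g (ProbabilityTheory.cond μ B) =
      (μ.real B)⁻¹ * (∫ x in B, g x ^ 2 ∂μ) - ((μ.real B)⁻¹ * ∫ x in B, g x ∂μ) ^ 2 := by
  have h1 : μ B ≠ 0 := by
    intro h
    rw [Measure.real, h] at hB
    simp at hB
  have : IsProbabilityMeasure (ProbabilityTheory.cond μ B) := cond_isProbabilityMeasure h1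
  rw [variance_eq_sub (cond_memLp μ B hB hg), ← cond_int, ← cond_int]
  rfl

theorem lip {F : Type} [NormedAddCommGroup F] [InnerProductSpace ℝ F] (f : F → ℝ)
    (hf : ContDiff ℝ 1 f) (hf1 : ∀ x, ‖fderiv ℝ f x‖ ≤ 1) (x : F) : |f x| ≤ |f 0| + ‖x‖ := by
  have h := Convex.norm_image_sub_le_of_norm_fderiv_le (𝕜 := ℝ) (s := univ) (x := 0) (y := x) (f := f)
    (C := 1) (fun y _ => (hf.differentiable (by norm_num)) y) (fun y _ => hf1 y) convex_univ
    (mem_univ _) (mem_univ _)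
  rw [sub_zero, one_mul, Real.norm_eq_abs] at h
  have h2 : |f x| ≤ |f x - f 0| + |f 0| := by
    have := abs_add_le (f x - f 0) (f 0)
    simpa using this
  linarith

/-- the variances on the balls converge -/
theorem lim_var {F : Type*} [NormedAddCommGroup F] [MeasurableSpace F] [BorelSpace F]
    (μ : Measure F) [IsProbabilityMeasure μ] {g : F → ℝ} (hg : MemLp g 2 μ) :
    Tendsto (fun k : ℕ => variance g (ProbabilityTheory.cond μ {x : F | ‖x‖ ≤ k})) atTop
      (𝓝 (variance g μ)) := by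
  have hf2 : Integrable (fun x => g x ^ 2) μ := hg.integrable_sq
  have hf1 : Integrable g μ := hg.integrable (by norm_num)
  have hM1 : Tendsto (fun k : ℕ => (μ.real {x : F | ‖x‖ ≤ k})⁻¹) atTop (𝓝 1) := by
    have := (mass_ball μ).inv₀ one_ne_zero
    rwa [inv_one] at this
  have hL : Tendsto (fun k : ℕ =>
      (μ.real {x : F | ‖x‖ ≤ k})⁻¹ * (∫ x in {x : F | ‖x‖ ≤ k}, g x ^ 2 ∂μ) -
        ((μ.real {x : F | ‖x‖ ≤ k})⁻¹ * ∫ x in {x : F | ‖x‖ ≤ k}, g x ∂μ) ^ 2)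
      atTop (𝓝 (1 * (∫ x, g x ^ 2 ∂μ) - (1 * ∫ x, g x ∂μ) ^ 2)) :=
    (hM1.mul (lim_ball μ _ hf2)).sub ((hM1.mul (lim_ball μ _ hf1)).pow 2)
  have hv : variance g μ = 1 * (∫ x, g x ^ 2 ∂μ) - (1 * ∫ x, g x ∂μ) ^ 2 := by
    rw [variance_eq_sub hg, one_mul, one_mul]
    rfl
  rw [hv]
  refine hL.congr' ?_
  have hev : ∀ᶠ k : ℕ in atTop, 0 < μ.real {x : F | ‖x‖ ≤ k} :=
    (mass_ball μ).eventually (lt_mem_nhds one_pos)
  filter_upwards [hev] with k hk
  exact (cond_var μ _ hk hg).symm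

end PQ

open PQ in
/-- PIECE Q: from balls to the whole space. -/
theorem ball_limit {n : ℕ} (κ : Measure (EuclideanSpace ℝ (Fin n))) [IsProbabilityMeasure κ]
    (hnorm : MemLp (fun x : EuclideanSpace ℝ (Fin n) => ‖x‖) 2 κ) {D : ℕ → ℝ} {D₀ : ℝ}
    (hD0 : 0 < D₀) (hD : Tendsto D atTop (nhds D₀))
    {f : EuclideanSpace ℝ (Fin n) → ℝ} (hf : ContDiff ℝ 1 f) :
    ((∀ x, ‖fderiv ℝ f x‖ ≤ 1) →
      (∀ᶠ k : ℕ in atTop, variance f (ProbabilityTheory.cond κ {x | ‖x‖ ≤ k}) ≤ D k) →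
      MemLp f 2 κ ∧ variance f κ ≤ D₀) ∧
    ((∀ x, |f x| ≤ 1) →
      (∀ᶠ k : ℕ in atTop, variance f (ProbabilityTheory.cond κ {x | ‖x‖ ≤ k}) ^ 2 ≤
        8 * D k * ∫ x, ‖fderiv ℝ f x‖ ^ 2 ∂(ProbabilityTheory.cond κ {x | ‖x‖ ≤ k})) →
      ENNReal.ofReal (variance f κ ^ 2) ≤
        ENNReal.ofReal (8 * D₀) * ∫⁻ x, ENNReal.ofReal (‖fderiv ℝ f x‖ ^ 2) ∂κ) := by
  constructor
  · intro hfd hk
    have hfL : MemLp f 2 κ := by
      have h2 := (memLp_const (μ := κ) (p := 2) (|f 0|)).add hnorm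
      refine h2.mono hf.continuous.aestronglyMeasurable (Eventually.of_forall fun x => ?_)
      have h3 := lip f hf hfd x
      show ‖f x‖ ≤ ‖|f 0| + ‖x‖‖
      rw [Real.norm_eq_abs (f x), Real.norm_of_nonneg (by positivity : 0 ≤ |f 0| + ‖x‖)]
      exact h3
    exact ⟨hfL, le_of_tendsto_of_tendsto (lim_var κ hfL) hD hk⟩
  · intro hfb hk
    by_cases hI : ∫⁻ x, ENNReal.ofReal (‖fderiv ℝ f x‖ ^ 2) ∂κ = ⊤
    · rw [hI, ENNReal.mul_top (by
        rw [Ne, ENNReal.ofReal_eq_zero, not_le]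
        positivity)]
      exact le_top
    have hgc : Continuous fun x => ‖fderiv ℝ f x‖ ^ 2 :=
      ((hf.continuous_fderiv (by norm_num)).norm).pow 2
    have hgi : Integrable (fun x => ‖fderiv ℝ f x‖ ^ 2) κ := by
      refine ⟨hgc.aestronglyMeasurable, ?_⟩
      rw [hasFiniteIntegral_iff_ofReal (Eventually.of_forall fun x => sq_nonneg _)]
      exact lt_top_iff_ne_top.2 hI
    have hfL : MemLp f 2 κ :=
      MemLp.of_bound hf.continuous.aestronglyMeasurable 1 (Eventually.of_forall fun x => by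
        rw [Real.norm_eq_abs]; exact hfb x)
    have hM1 : Tendsto (fun k : ℕ => (κ.real {x : EuclideanSpace ℝ (Fin n) | ‖x‖ ≤ k})⁻¹) atTop
        (nhds 1) := by
      have := (mass_ball κ).inv₀ one_ne_zero
      rwa [inv_one] at this
    have hR : Tendsto (fun k : ℕ => 8 * D k *
        ∫ x, ‖fderiv ℝ f x‖ ^ 2 ∂(ProbabilityTheory.cond κ {x | ‖x‖ ≤ k})) atTop
        (nhds (8 * D₀ * (1 * ∫ x, ‖fderiv ℝ f x‖ ^ 2 ∂κ))) := by
      refine (hD.const_mul 8).mul ?_
      refine (hM1.mul (lim_ball κ _ hgi)).congr fun k => ?_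
      exact (cond_int κ _ _).symm
    have hfin := le_of_tendsto_of_tendsto ((lim_var κ hfL).pow 2) hR hk
    rw [one_mul] at hfin
    calc ENNReal.ofReal (variance f κ ^ 2)
        ≤ ENNReal.ofReal (8 * D₀ * ∫ x, ‖fderiv ℝ f x‖ ^ 2 ∂κ) := ENNReal.ofReal_le_ofReal hfin
      _ = ENNReal.ofReal (8 * D₀) * ∫⁻ x, ENNReal.ofReal (‖fderiv ℝ f x‖ ^ 2) ∂κ := by
        rw [ENNReal.ofReal_mul (by positivity),
          ofReal_integral_eq_lintegral_ofReal hgi (Eventually.of_forall fun x => sq_nonneg _)]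

end Pool.Agent.K6.H24.KR
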