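import Pool.Agent.K6.H24.KR.J11
import Pool.Agent.W586.SK.Stm2

/-!
# Exchangeable densities: the comparison theorem for the measures `mu ρ`
-/

set_option autoImplicit false

namespace Pool.Agent.K6.H24.KR

open MeasureTheory Filter Topology ProbabilityTheory Pool.Agent.K6.H24.OP
open Pool.Agent.H212R2.KLS (mu Bdd)
open Pool.Agent.W586.SX (Sx)
open scoped InnerProductSpace ENNReal

variable {n : ℕ}

/-- the law in coordinates -/
noncomputable def lx (ρ : Eu n → ℝ) : Measure (Fin n → ℝ) :=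
  volume.withDensity fun x => ENNReal.ofReal (ρ (WithLp.toLp 2 x))

lemma lx_map {ρ : Eu n → ℝ} (hm : Measurable ρ) :
    Measure.map (WithLp.toLp 2) (lx ρ) = mu ρ := by
  unfold lx mu
  exact wd_map (PiLp.volume_preserving_toLp (Fin n))
    (g := fun x => ENNReal.ofReal (ρ x)) hm.ennreal_ofReal

lemma lx_prob {ρ : Eu n → ℝ} (hm : Measurable ρ) (h1 : mu ρ Set.univ = 1) :
    IsProbabilityMeasure (lx ρ) := by
  constructor
  rw [← lx_map hm, Measure.map_apply meas_toLp MeasurableSet.univ, Set.preimage_univ] at h1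
  exact h1

lemma lx_perm {ρ : Eu n → ℝ} (hρ : Sx ρ) (σ : Equiv.Perm (Fin n)) :
    Measure.map (fun x : Fin n → ℝ => x ∘ σ) (lx ρ) = lx ρ := by
  have h := wd_map (vol_perm σ)
    (g := fun x => ENNReal.ofReal (ρ (WithLp.toLp 2 x))) (hρ.meas.comp meas_toLp).ennreal_ofReal
  have e : ∀ x : Fin n → ℝ, ρ (WithLp.toLp 2 (x ∘ σ)) = ρ (WithLp.toLp 2 x) := fun x =>
    hρ.inv σ _ _ fun i => rfl
  simp only [e] at h
  exact h

lemma lx_ac (ρ : Eu n → ℝ) : lx ρ ≪ (volume : Measure (Fin n → ℝ)) :=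
  withDensity_absolutelyContinuous _ _

lemma lx_ties (ρ : Eu n → ℝ) (i j : Fin n) (hij : i ≠ j) : lx ρ {x | x i = x j} = 0 :=
  lx_ac ρ (vol_ties hij)

/-- Poincare inequality for the prob measure in coordinates -/
lemma PB_lx {ρ : Eu n → ℝ} (hm : Measurable ρ) (h1 : mu ρ Set.univ = 1) {C : ℝ}
    (hP : ∀ f : Eu n → ℝ, ContDiff ℝ 1 f → (∃ K, ∀ x, |f x| ≤ K) → (∃ K, ∀ x, ‖fderiv ℝ f x‖ ≤ K) →
      ∃ c : ℝ, ∫ x, (f x - c) ^ 2 ∂(mu ρ) ≤ C * ∫ x, ‖fderiv ℝ f x‖ ^ 2 ∂(mu ρ)) :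
    PB (lx ρ) C := by
  intro f hf ⟨K1, hK1⟩ ⟨K2, hK2⟩
  have hp := lx_prob hm h1
  have hνp : IsProbabilityMeasure (mu ρ) := ⟨h1⟩
  set g : Eu n → ℝ := fun y => f (WithLp.ofLp y) with hg
  have hgc : ContDiff ℝ 1 g :=
    hf.comp (PiLp.continuousLinearEquiv 2 ℝ (fun _ : Fin n => ℝ)).contDiff
  have hgf : (fun y : Fin n → ℝ => g (WithLp.toLp 2 y)) = f := rfl
  have hgrad : ∀ x : Fin n → ℝ, gsq f x = ‖fderiv ℝ g (WithLp.toLp 2 x)‖ ^ 2 := by
    intro x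
    have := gsq_toLp hgc x
    rwa [hgf] at this
  have hb : ∀ y : Eu n, ‖fderiv ℝ g y‖ ^ 2 ≤ n * K2 ^ 2 := by
    intro y
    have h1 := hgrad (WithLp.ofLp y)
    rw [WithLp.toLp_ofLp] at h1
    rw [← h1]
    unfold gsq
    calc ∑ i, (fderiv ℝ f (WithLp.ofLp y) (Pi.single i 1)) ^ 2 ≤ ∑ _i : Fin n, K2 ^ 2 := by
          refine Finset.sum_le_sum fun i _ => ?_
          rw [← sq_abs]
          exact pow_le_pow_left₀ (abs_nonneg _) (hK2 _ i) 2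
      _ = n * K2 ^ 2 := by simp
  obtain ⟨c, hc⟩ := hP g hgc ⟨K1, fun x => hK1 _⟩ ⟨Real.sqrt (n * K2 ^ 2), fun x =>
    Real.le_sqrt_of_sq_le (hb x)⟩
  have hcg : Continuous fun y => ‖fderiv ℝ g y‖ ^ 2 :=
    ((hgc.continuous_fderiv one_ne_zero).norm).pow 2
  have e1 : ∫ y, ‖fderiv ℝ g y‖ ^ 2 ∂(mu ρ) = ∫ x, gsq f x ∂(lx ρ) := by
    rw [← lx_map hm, int_toLp hcg]
    exact integral_congr_ae (Filter.Eventually.of_forall fun x => (hgrad x).symm)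
  have e2 : ∫ y, (g y - c) ^ 2 ∂(mu ρ) = ∫ x, (f x - c) ^ 2 ∂(lx ρ) := by
    have hc' : Continuous fun y : Eu n => (g y - c) ^ 2 := (hgc.continuous.sub continuous_const).pow 2
    rw [← lx_map hm, int_toLp hc']
  rw [e1, e2] at hc
  refine le_trans ?_ hc
  have hfm : MemLp f 2 (lx ρ) := MemLp.of_bound hf.continuous.aestronglyMeasurable K1
    (Filter.Eventually.of_forall fun x => by rw [Real.norm_eq_abs]; exact hK1 _)
  have hi := hfm.integrable one_le_two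
  have hi2 := hfm.integrable_sq
  have e3 : ∫ x, (f x - c) ^ 2 ∂(lx ρ) = ∫ x, f x ^ 2 ∂(lx ρ) - 2 * c * ∫ x, f x ∂(lx ρ) + c ^ 2 := by
    have : ∀ x, (f x - c) ^ 2 = f x ^ 2 - 2 * c * f x + c ^ 2 := fun x => by ring
    simp only [this]
    have a1 : Integrable (fun x => 2 * c * f x) (lx ρ) := hi.const_mul _
    have a2 : Integrable (fun x => f x ^ 2 - 2 * c * f x) (lx ρ) := hi2.sub a1
    rw [integral_add a2 (integrable_const _), integral_sub hi2 a1, integral_const_mul]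
    simp
  rw [e3]
  nlinarith [sq_nonneg (∫ x, f x ∂(lx ρ) - c)]

/-- the cone has positive mass -/
lemma cone_mass {ρ : Eu n → ℝ} (hρ : Sx ρ) (h1 : mu ρ Set.univ = 1) {R : Fin n → Fin n → Prop}
    (hR : Ext R) : 0 < (lx ρ).real (cn R) := by
  have := lx_prob hρ.meas h1
  exact cone_pos (lx_perm hρ) hR

lemma cone_ne' {ρ : Eu n → ℝ} (hρ : Sx ρ) (h1 : mu ρ Set.univ = 1) {R : Fin n → Fin n → Prop}
    (hR : Ext R) : mu ρ (cone R) ≠ 0 := by
  have h2 := cone_mass hρ h1 hR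
  rw [← lx_map hρ.meas, Measure.map_apply meas_toLp (closed_cone R).measurableSet, cone_pre]
  intro h
  rw [Measure.real, h] at h2
  simp at h2

/-- **comparison** for exchangeable densities -/
theorem PI_mu (hn : 1 ≤ n) {ρ : Eu n → ℝ} (hρ : Sx ρ) (h1 : mu ρ Set.univ = 1) {C : ℝ} (hC : 0 ≤ C)
    (hP : ∀ f : Eu n → ℝ, ContDiff ℝ 1 f → (∃ K, ∀ x, |f x| ≤ K) → (∃ K, ∀ x, ‖fderiv ℝ f x‖ ≤ K) →
      ∃ c : ℝ, ∫ x, (f x - c) ^ 2 ∂(mu ρ) ≤ C * ∫ x, ‖fderiv ℝ f x‖ ^ 2 ∂(mu ρ))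
    {R : Fin n → Fin n → Prop} (hR : Ext R) :
    PI (ProbabilityTheory.cond (mu ρ) (cone R)) C := by
  have hp := lx_prob hρ.meas h1
  have := PI_cond (R := R) hn (lx_perm hρ) (lx_ties ρ) hC (PB_lx hρ.meas h1 hP) (cone_mass hρ h1 hR)
  rwa [lx_map hρ.meas] at this

/-- symmetric functions keep their mean -/
lemma mean_mu {ρ : Eu n → ℝ} (hρ : Sx ρ) (h1 : mu ρ Set.univ = 1)
    {R : Fin n → Fin n → Prop} (hR : Ext R) {Ψ : Eu n → ℝ} (hm : Measurable Ψ)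
    (hi : Integrable Ψ (mu ρ))
    (hs : ∀ (σ : Equiv.Perm (Fin n)) (x : Fin n → ℝ), Ψ (WithLp.toLp 2 (x ∘ σ)) = Ψ (WithLp.toLp 2 x)) :
    ∫ x, Ψ x ∂(ProbabilityTheory.cond (mu ρ) (cone R)) = ∫ x, Ψ x ∂(mu ρ) := by
  have hp := lx_prob hρ.meas h1
  have e : ProbabilityTheory.cond (mu ρ) (cone R)
      = Measure.map (WithLp.toLp 2) (ProbabilityTheory.cond (lx ρ) (cn R)) := by
    rw [← cond_map, lx_map hρ.meas]
  rw [e, integral_map meas_toLp.aemeasurable hm.aestronglyMeasurable]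
  have hi' : Integrable (fun x : Fin n → ℝ => Ψ (WithLp.toLp 2 x)) (lx ρ) := by
    rw [← lx_map hρ.meas] at hi
    exact (integrable_map_measure hm.aestronglyMeasurable meas_toLp.aemeasurable).1 hi
  rw [cond_symm (lx_perm hρ) (lx_ties ρ) (cone_mass hρ h1 hR) hi' hs, ← lx_map hρ.meas,
    integral_map meas_toLp.aemeasurable hm.aestronglyMeasurable]

end Pool.Agent.K6.H24.KR
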