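import Pool.Agent.K6.H24.KR.X9

/-!
# Invariant versions of the density; all parts in terms of the measure
-/

set_option autoImplicit false

namespace Pool.Agent.K6.H24.KR

open MeasureTheory Filter Topology ProbabilityTheory Pool.Agent.K6.H24.OP
open Pool.Agent.H212R2.KLS (mu Bdd)
open Pool.Agent.W586.SX (Sx S_BAS)
open scoped InnerProductSpace ENNReal

variable {n : ℕ}

/-- log-concavity, as in the definition of the densities -/
def LC (ρ : Eu n → ℝ) : Prop :=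
  ∀ x y, ∀ t : ℝ, 0 < t → t < 1 → ρ x ^ (1 - t) * ρ y ^ t ≤ ρ ((1 - t) • x + t • y)

/-- the geometric mean over a finite family of maps -/
noncomputable def gmean {ι : Type} [Fintype ι] (g : ι → Eu n → Eu n) (ρ : Eu n → ℝ) : Eu n → ℝ :=
  fun x => ∏ i, ρ (g i x) ^ ((Fintype.card ι : ℝ)⁻¹)

section
variable {ι : Type} [Fintype ι] {g : ι → Eu n → Eu n} {ρ : Eu n → ℝ}

lemma gmean_nonneg (h0 : ∀ x, 0 ≤ ρ x) (x : Eu n) : 0 ≤ gmean g ρ x :=
  Finset.prod_nonneg fun i _ => Real.rpow_nonneg (h0 _) _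

lemma gmean_meas (hg : ∀ i, Measurable (g i)) (hm : Measurable ρ) : Measurable (gmean g ρ) := by
  unfold gmean
  exact Finset.measurable_prod _ fun i _ => (hm.comp (hg i)).pow_const _

lemma gmean_logc (hl : ∀ i, ∀ (a b : ℝ) (x y : Eu n), g i (a • x + b • y) = a • g i x + b • g i y)
    (h0 : ∀ x, 0 ≤ ρ x) (hρ : LC ρ) : LC (gmean g ρ) := by
  intro x y t ht ht1
  unfold gmean
  have e : ∀ (z : Eu n) (s : ℝ), (∏ i, ρ (g i z) ^ ((Fintype.card ι : ℝ)⁻¹)) ^ s
      = ∏ i, (ρ (g i z) ^ s) ^ ((Fintype.card ι : ℝ)⁻¹) := by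
    intro z s
    rw [← Real.finsetProd_rpow _ _ (fun i _ => Real.rpow_nonneg (h0 _) _)]
    refine Finset.prod_congr rfl fun i _ => ?_
    rw [← Real.rpow_mul (h0 _), ← Real.rpow_mul (h0 _), mul_comm]
  rw [e, e, ← Finset.prod_mul_distrib]
  refine Finset.prod_le_prod (fun i _ => mul_nonneg (Real.rpow_nonneg (Real.rpow_nonneg (h0 _) _) _)
    (Real.rpow_nonneg (Real.rpow_nonneg (h0 _) _) _)) fun i _ => ?_
  rw [← Real.mul_rpow (Real.rpow_nonneg (h0 _) _) (Real.rpow_nonneg (h0 _) _), hl]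
  exact Real.rpow_le_rpow (mul_nonneg (Real.rpow_nonneg (h0 _) _) (Real.rpow_nonneg (h0 _) _))
    (hρ _ _ t ht ht1) (by positivity)

lemma gmean_ae [Nonempty ι] (h0 : ∀ x, 0 ≤ ρ x)
    (hae : ∀ i, (fun x => ρ (g i x)) =ᵐ[volume] ρ) : gmean g ρ =ᵐ[volume] ρ := by
  have h : ∀ᵐ x : Eu n, ∀ i, ρ (g i x) = ρ x := ae_all_iff.2 hae
  filter_upwards [h] with x hx
  unfold gmean
  rw [Finset.prod_congr rfl fun i _ => by rw [hx i], Finset.prod_const, Finset.card_univ,
    ← Real.rpow_natCast, ← Real.rpow_mul (h0 x), inv_mul_cancel₀, Real.rpow_one]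
  exact_mod_cast Fintype.card_ne_zero

lemma gmean_inv (e : ι ≃ ι) {x y : Eu n} (h : ∀ i, g i y = g (e i) x) :
    gmean g ρ y = gmean g ρ x := by
  unfold gmean
  rw [← Equiv.prod_comp e fun i => ρ (g i x) ^ ((Fintype.card ι : ℝ)⁻¹)]
  exact Finset.prod_congr rfl fun i _ => by rw [h i]

end

/-- a density of a measure that is invariant under a volume preserving map is almost everywhere
invariant -/
lemma ae_inv {ρ : Eu n → ℝ} (hm : Measurable ρ) (h0 : ∀ x, 0 ≤ ρ x)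
    (hfin : ∫⁻ x, ENNReal.ofReal (ρ x) ≠ ⊤) (g : Eu n ≃ᵐ Eu n)
    (hg : MeasurePreserving g) (h : Measure.map g (mu ρ) = mu ρ) :
    (fun x => ρ (g.symm x)) =ᵐ[volume] ρ := by
  have h1 : mu (fun x => ρ (g.symm x)) = mu ρ := by
    rw [← h]
    refine Measure.ext fun A hA => ?_
    rw [Measure.map_apply g.measurable hA]
    unfold mu
    rw [withDensity_apply _ hA, withDensity_apply _ (g.measurable hA)]
    have := hg.setLIntegral_comp_preimage hA
      (f := fun x => ENNReal.ofReal (ρ (g.symm x))) (hm.comp g.symm.measurable).ennreal_ofReal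
    rw [← this]
    simp
  have h2 := (withDensity_eq_iff (hm.comp g.symm.measurable).ennreal_ofReal.aemeasurable
    hm.ennreal_ofReal.aemeasurable (by
      have e : ∫⁻ x, ENNReal.ofReal (ρ (g.symm x)) = ∫⁻ x, ENNReal.ofReal (ρ x) := by
        have := congrArg (fun m : Measure (Eu n) => m Set.univ) h1
        simp only [mu_univ] at this
        exact this
      show ∫⁻ x, ENNReal.ofReal ((ρ ∘ g.symm) x) ≠ ⊤
      simp only [Function.comp]
      rw [e]; exact hfin)).1 h1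
  filter_upwards [h2] with x hx
  exact (ENNReal.ofReal_eq_ofReal_iff (h0 _) (h0 _)).1 hx

/-- permutation of the coordinates -/
noncomputable def pm (σ : Equiv.Perm (Fin n)) (x : Eu n) : Eu n := WithLp.toLp 2 fun i => x (σ i)

/-- change of signs of the coordinates -/
noncomputable def sn (ε : Fin n → ℤˣ) (x : Eu n) : Eu n :=
  WithLp.toLp 2 fun i => ((ε i : ℤ) : ℝ) * x i

lemma pm_lin (σ : Equiv.Perm (Fin n)) (a b : ℝ) (x y : Eu n) :
    pm σ (a • x + b • y) = a • pm σ x + b • pm σ y := by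
  ext i
  simp [pm]

lemma sn_lin (ε : Fin n → ℤˣ) (a b : ℝ) (x y : Eu n) :
    sn ε (a • x + b • y) = a • sn ε x + b • sn ε y := by
  ext i
  simp [sn]
  ring

/-- permutation of the coordinates as a linear isometry -/
noncomputable def pmL (σ : Equiv.Perm (Fin n)) : Eu n ≃ₗᵢ[ℝ] Eu n where
  toFun := pm σ
  invFun := pm σ⁻¹
  map_add' x y := by simpa using pm_lin σ 1 1 x y
  map_smul' a x := by simpa using pm_lin σ a 0 x 0
  left_inv x := by ext i; simp [pm]
  right_inv x := by ext i; simp [pm]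
  norm_map' x := by
    show ‖pm σ x‖ = ‖x‖
    rw [EuclideanSpace.norm_eq, EuclideanSpace.norm_eq]
    congr 1
    exact Equiv.sum_comp σ fun i => ‖x i‖ ^ 2

lemma unit_sq (u : ℤˣ) : ((u : ℤ) : ℝ) * ((u : ℤ) : ℝ) = 1 := by
  rcases Int.units_eq_one_or u with h | h <;> simp [h]

lemma unit_abs (u : ℤˣ) : |((u : ℤ) : ℝ)| = 1 := by
  rcases Int.units_eq_one_or u with h | h <;> simp [h]

/-- change of signs of the coordinates as a linear isometry -/
noncomputable def snL (ε : Fin n → ℤˣ) : Eu n ≃ₗᵢ[ℝ] Eu n where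
  toFun := sn ε
  invFun := sn ε
  map_add' x y := by simpa using sn_lin ε 1 1 x y
  map_smul' a x := by simpa using sn_lin ε a 0 x 0
  left_inv x := by ext i; simp only [sn]; rw [← mul_assoc, unit_sq, one_mul]
  right_inv x := by ext i; simp only [sn]; rw [← mul_assoc, unit_sq, one_mul]
  norm_map' x := by
    show ‖sn ε x‖ = ‖x‖
    rw [EuclideanSpace.norm_eq, EuclideanSpace.norm_eq]
    congr 1
    refine Finset.sum_congr rfl fun i _ => ?_
    simp only [sn, norm_mul, Real.norm_eq_abs, unit_abs, one_mul]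

lemma pm_mp (σ : Equiv.Perm (Fin n)) :
    MeasurePreserving ((pmL σ).toHomeomorph.toMeasurableEquiv : Eu n ≃ᵐ Eu n) :=
  (pmL σ).measurePreserving

lemma sn_mp (ε : Fin n → ℤˣ) :
    MeasurePreserving ((snL ε).toHomeomorph.toMeasurableEquiv : Eu n ≃ᵐ Eu n) :=
  (snL ε).measurePreserving

lemma sign_dens {ρ : Eu n → ℝ} (hm : Measurable ρ) (h0 : ∀ x, 0 ≤ ρ x) (hl : LC ρ)
    (hfin : ∫⁻ x, ENNReal.ofReal (ρ x) ≠ ⊤)
    (hs : ∀ ε : Fin n → ℤˣ, Measure.map (sn ε) (mu ρ) = mu ρ) :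
    ∃ ρ' : Eu n → ℝ, Measurable ρ' ∧ (∀ x, 0 ≤ ρ' x) ∧ LC ρ' ∧ ρ' =ᵐ[volume] ρ ∧
      ∀ ε x, ρ' (sn ε x) = ρ' x := by
  have hmeas : ∀ ε : Fin n → ℤˣ, Measurable (sn ε) := fun ε => (snL ε).continuous.measurable
  refine ⟨gmean sn ρ, gmean_meas hmeas hm, gmean_nonneg h0, gmean_logc sn_lin h0 hl,
    gmean_ae h0 fun ε => ae_inv hm h0 hfin _ (sn_mp ε) (hs ε), fun ε x => ?_⟩
  refine gmean_inv (Equiv.mulRight ε) fun δ => ?_
  ext i
  simp only [sn, Equiv.coe_mulRight, Pi.mul_apply]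
  push_cast
  ring

lemma perm_dens {ρ : Eu n → ℝ} (hm : Measurable ρ) (h0 : ∀ x, 0 ≤ ρ x) (hl : LC ρ)
    (hfin : ∫⁻ x, ENNReal.ofReal (ρ x) ≠ ⊤)
    (hp : ∀ σ : Equiv.Perm (Fin n), Measure.map (pm σ) (mu ρ) = mu ρ) :
    ∃ ρ' : Eu n → ℝ, Sx ρ' ∧ ρ' =ᵐ[volume] ρ ∧
      ((∀ ε x, ρ (sn ε x) = ρ x) → ∀ ε x, ρ' (sn ε x) = ρ' x) := by
  have hmeas : ∀ σ : Equiv.Perm (Fin n), Measurable (pm σ) := fun σ => (pmL σ).continuous.measurable
  refine ⟨gmean pm ρ, ⟨gmean_nonneg h0, gmean_meas hmeas hm, gmean_logc pm_lin h0 hl, ?_⟩,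
    gmean_ae h0 fun σ => ?_, ?_⟩
  · intro σ x y h
    refine gmean_inv (Equiv.mulLeft σ) fun τ => ?_
    ext i
    simp only [pm, Equiv.coe_mulLeft, Equiv.Perm.mul_apply]
    exact h _
  · have := ae_inv hm h0 hfin _ (pm_mp σ⁻¹) (hp σ⁻¹)
    filter_upwards [this] with x hx
    rw [← hx]
    rfl
  · intro hs ε x
    unfold gmean
    refine Finset.prod_congr rfl fun σ _ => ?_
    have e : pm σ (sn ε x) = sn (fun i => ε (σ i)) (pm σ x) := by
      ext i
      simp [pm, sn]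
    rw [e, hs]

lemma abs_sn {x y : Eu n} (h : ∀ i, |y i| = |x i|) : ∃ ε : Fin n → ℤˣ, y = sn ε x := by
  refine ⟨fun i => if y i = x i then 1 else -1, ?_⟩
  ext i
  simp only [sn]
  split_ifs with h1
  · simp [h1]
  · rcases abs_eq_abs.1 (h i) with h2 | h2
    · exact absurd h2 h1
    · simp [h2]

lemma prob_exch {m : Measure (Eu n)} [IsProbabilityMeasure m]
    (hex : ∀ σ : Equiv.Perm (Fin n), Measure.map (pm σ) m = m)
    {R : Fin n → Fin n → Prop} (hR : Ext R) :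
    IsProbabilityMeasure (ProbabilityTheory.cond m (cone R)) := by
  set ν := Measure.map (WithLp.ofLp : Eu n → Fin n → ℝ) m with hν
  have hνp : IsProbabilityMeasure ν := Measure.isProbabilityMeasure_map meas_ofLp.aemeasurable
  have hm := map_map_lp m
  rw [← hν] at hm
  have hex' : ∀ σ : Equiv.Perm (Fin n), Measure.map (fun x : Fin n → ℝ => x ∘ σ) ν = ν := by
    intro σ
    have hσ : Measurable fun x : Fin n → ℝ => x ∘ σ :=
      measurable_pi_lambda _ fun i => measurable_pi_apply (σ i)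
    have hσ' : Measurable (pm σ : Eu n → Eu n) :=
      meas_toLp.comp (hσ.comp meas_ofLp)
    conv_rhs => rw [hν, ← hex σ, Measure.map_map meas_ofLp hσ']
    rw [hν, Measure.map_map hσ meas_ofLp]
    rfl
  have hpos : 0 < ν.real (cn R) := cone_pos hex' hR
  refine cond_isProbabilityMeasure fun h0 => ?_
  rw [← hm, Measure.map_apply meas_toLp (closed_cone R).measurableSet, cone_pre] at h0
  rw [Measure.real, h0] at hpos
  simp at hpos

lemma no_ties {i j : Fin n} (hij : i ≠ j) : (volume : Measure (Eu n)) {x | x i = x j} = 0 := by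
  let L : Eu n →ₗ[ℝ] ℝ :=
    { toFun := fun x => x i - x j
      map_add' := fun x y => by simp; ring
      map_smul' := fun a x => by simp; ring }
  have h : {x : Eu n | x i = x j} = (LinearMap.ker L : Submodule ℝ (Eu n)) := by
    ext x
    simp [L, sub_eq_zero]
  rw [h]
  refine Measure.addHaar_submodule _ _ fun ht => ?_
  have h1 : (EuclideanSpace.single i (1:ℝ) : Eu n) ∈ LinearMap.ker L := by
    rw [ht]; trivial
  rw [LinearMap.mem_ker] at h1
  simp [L, hij.symm] at h1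

/-- **all parts, in terms of the measures** -/
theorem full : ∃ C : ℝ, 0 < C ∧ ∀ (n : ℕ) (R : Fin n → Fin n → Prop), 1 ≤ n → Ext R →
    ∀ m : Measure (Eu n), IsProbabilityMeasure m →
    (∀ σ : Equiv.Perm (Fin n), Measure.map (pm σ) m = m) →
    IsProbabilityMeasure (ProbabilityTheory.cond m (cone R)) ∧
    ((∀ i j : Fin n, i ≠ j → m {x | x i = x j} = 0) →
      ∀ D : ℝ, 0 ≤ D → PI m D → PI (ProbabilityTheory.cond m (cone R)) D) ∧
    ((∃ ρ : Eu n → ℝ, (∀ x, 0 ≤ ρ x) ∧ Measurable ρ ∧ LC ρ ∧ m = mu ρ) →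
      (∀ i j : Fin n, i ≠ j → m {x | x i = x j} = 0) ∧
      (∀ s : ℝ, CL m s → VB (ProbabilityTheory.cond m (cone R)) (C * s)) ∧
      (∀ s : ℝ, CL (ProbabilityTheory.cond m (cone R)) s → (Dis R ∨
        ∀ i j : Fin n, i ≠ j → 0 ≤ covariance (fun x : Eu n => x i) (fun x => x j) m) →
        VB (ProbabilityTheory.cond m (cone R)) (C * s)) ∧
      ((∀ ε : Fin n → ℤˣ, Measure.map (sn ε) m = m) →
        ∀ s : ℝ, CL (ProbabilityTheory.cond m (cone R)) s →
        PI (ProbabilityTheory.cond m (cone R)) (C * s))) := by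
  obtain ⟨C, hC, H⟩ := exch_order'
  refine ⟨C, hC, ?_⟩
  intro n R hn hR m hp hex
  refine ⟨prob_exch hex hR, fun hties D hD hP => (PI_exch hn hex hties hD hP hR).2, ?_⟩
  rintro ⟨ρ, h0, hm, hl, rfl⟩
  have hone : ∫⁻ x, ENNReal.ofReal (ρ x) = 1 := by
    rw [← mu_univ, measure_univ]
  have hfin : ∫⁻ x, ENNReal.ofReal (ρ x) ≠ ⊤ := by rw [hone]; exact ENNReal.one_ne_top
  -- a density with all the symmetries
  obtain ⟨ρ', hS, hae, hsg⟩ : ∃ ρ' : Eu n → ℝ, Sx ρ' ∧ ρ' =ᵐ[volume] ρ ∧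
      ((∀ ε : Fin n → ℤˣ, Measure.map (sn ε) (mu ρ) = mu ρ) →
        ∀ ε x, ρ' (sn ε x) = ρ' x) := by
    by_cases hs : ∀ ε : Fin n → ℤˣ, Measure.map (sn ε) (mu ρ) = mu ρ
    · obtain ⟨ρ1, hm1, h01, hl1, hae1, hs1⟩ := sign_dens hm h0 hl hfin hs
      have e1 : mu ρ1 = mu ρ := by
        unfold mu
        refine withDensity_congr_ae ?_
        filter_upwards [hae1] with x hx
        rw [hx]
      have hfin1 : ∫⁻ x, ENNReal.ofReal (ρ1 x) ≠ ⊤ := by
        rw [← mu_univ, e1, mu_univ]; exact hfin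
      obtain ⟨ρ2, hS2, hae2, hs2⟩ := perm_dens hm1 h01 hl1 hfin1 (by rw [e1]; exact hex)
      exact ⟨ρ2, hS2, hae2.trans hae1, fun _ => hs2 hs1⟩
    · obtain ⟨ρ2, hS2, hae2, -⟩ := perm_dens hm h0 hl hfin hex
      exact ⟨ρ2, hS2, hae2, fun h => absurd h hs⟩
  have e1 : mu ρ' = mu ρ := by
    unfold mu
    refine withDensity_congr_ae ?_
    filter_upwards [hae] with x hx
    rw [hx]
  have hone' : ∫⁻ x, ENNReal.ofReal (ρ' x) = 1 := by rw [← mu_univ, e1, mu_univ, hone]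
  have hint : ∫ x, ρ' x = 1 := by
    rw [integral_eq_lintegral_of_nonneg_ae (Filter.Eventually.of_forall hS.nonneg)
      hS.meas.aestronglyMeasurable, hone', ENNReal.toReal_one]
  have hpos : 0 < ∫ x, ρ' x := by rw [hint]; exact one_pos
  have e2 : nrm ρ' = mu ρ := by
    rw [nrm_mu hS.meas hS.nonneg hpos, hint]
    simp only [inv_one, one_mul]
    exact e1
  obtain ⟨-, -, h1, h2, h3⟩ := H n R ρ' hn hR hS hpos
  rw [nrm_cone hS.meas hS.nonneg hpos R, e2] at h1 h2 h3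
  refine ⟨fun i j hij => ?_, h1, h2, fun hs s hcl => h3 s hcl fun x y hxy => ?_⟩
  · exact withDensity_absolutelyContinuous _ _ (no_ties hij)
  · obtain ⟨ε, rfl⟩ := abs_sn hxy
    exact hsg hs ε x

end Pool.Agent.K6.H24.KR
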