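import Pool.Agent.K6.H24.KR.X1
import Pool.Agent.Results.MP_6d896a_gt.Exchangeable

/-!
# Local Poincare inequalities on the cone and the theorem for bounded support
-/

set_option autoImplicit false

namespace Pool.Agent.K6.H24.KR

open MeasureTheory Filter Topology ProbabilityTheory Pool.Agent.K6.H24.OP
open Pool.Agent.H212R2.KLS (mu Bdd)
open Pool.Agent.W586.SX (Sx ee S_HARDY S_SYM S_SEQ S_TAIL S_MULTI S_BAS)
open Pool.Agent.W586.SK (nm)
open scoped InnerProductSpace ENNReal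

variable {n : ℕ}

lemma int_cond' {α : Type*} [MeasurableSpace α] (κ : Measure α) (U : Set α) (g : α → ℝ) :
    ∫ x, g x ∂(ProbabilityTheory.cond κ U) = (κ.real U)⁻¹ * ∫ x in U, g x ∂κ := by
  unfold ProbabilityTheory.cond
  rw [integral_smul_measure, smul_eq_mul, ENNReal.toReal_inv]
  rfl

lemma bounded_memLp {ρ : Eu n → ℝ} {κ : Measure (Eu n)} [IsFiniteMeasure κ]
    (hac : κ ≪ mu ρ) (hm : Measurable ρ) (hb : Bdd ρ) {g : Eu n → ℝ} (hg : Continuous g) :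
    MemLp g 2 κ := by
  obtain ⟨r, hr⟩ := hb
  have h0 : (mu ρ) (Metric.closedBall 0 r)ᶜ = 0 := by
    rw [mu, withDensity_apply_eq_zero' (hm.ennreal_ofReal.aemeasurable)]
    refine measure_mono_null ?_ (measure_empty (μ := (volume : Measure (Eu n))))
    intro x hx
    refine hx.1 ?_
    have : r < ‖x‖ := by simpa using hx.2
    simp [hr x this]
  have h1 : κ (Metric.closedBall 0 r)ᶜ = 0 := hac h0
  obtain ⟨K, hK⟩ := (isCompact_closedBall (0 : Eu n) r).exists_bound_of_continuousOn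
    hg.continuousOn
  refine MemLp.of_bound hg.aestronglyMeasurable K ?_
  rw [ae_iff]
  refine measure_mono_null (fun x hx => ?_) h1
  intro hx'
  exact hx (hK x hx')

theorem local_cone (hbas : S_BAS) (hn : 1 ≤ n) {ρ : Eu n → ℝ} (hρ : Sx ρ) (hb : Bdd ρ)
    (h1 : mu ρ Set.univ = 1) {R : Fin n → Fin n → Prop} (hR : Ext R) {r : ℝ}
    (hU : mu ρ {x | nm x ≤ r} ≠ 0) {C : ℝ} (hC : 0 ≤ C)
    (hP : ∀ f : Eu n → ℝ, ContDiff ℝ 1 f → ∃ c : ℝ, ∫ x in {x | nm x ≤ r}, (f x - c) ^ 2 ∂(mu ρ) ≤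
      C * ∫ x in {x | nm x ≤ r}, ‖fderiv ℝ f x‖ ^ 2 ∂(mu ρ))
    {f : Eu n → ℝ} (hf : ContDiff ℝ 1 f) :
    ∃ c : ℝ, ∫ x in {x | nm x ≤ r}, (f x - c) ^ 2 ∂(ProbabilityTheory.cond (mu ρ) (cone R)) ≤
      C * ∫ x in {x | nm x ≤ r}, ‖fderiv ℝ f x‖ ^ 2 ∂(ProbabilityTheory.cond (mu ρ) (cone R)) := by
  have hprob : IsProbabilityMeasure (mu ρ) := ⟨h1⟩
  obtain ⟨U, hUd⟩ : ∃ U : Set (Eu n), U = {x | nm x ≤ r} := ⟨_, rfl⟩
  rw [← hUd] at hU hP ⊢
  have hUm : MeasurableSet U := by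
    rw [hUd]; exact (Pool.Agent.W586.SX.CoreXx.closed_nm _).measurableSet
  have hcm : MeasurableSet (cone R) := (closed_cone R).measurableSet
  set Z := (mu ρ).real U with hZ
  have hZ0 : 0 < Z := ENNReal.toReal_pos hU (measure_ne_top _ _)
  have hZi : 0 ≤ Z⁻¹ := (inv_pos.2 hZ0).le
  have hd : Sx (fun x => Z⁻¹ * U.indicator ρ x) := by
    have hb1 : Sx (U.indicator ρ) := by
      rw [hUd]
      exact (hbas ρ hρ).1 r
    exact (hbas _ hb1).2.2.1 _ hZi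
  have hmu : mu (fun x => Z⁻¹ * U.indicator ρ x) = ProbabilityTheory.cond (mu ρ) U := by
    rw [Pool.Agent.H212R2.KLS.g2_mu ρ hρ.nonneg hρ.meas U hUm Z⁻¹ hZi]
    unfold ProbabilityTheory.cond
    rw [ENNReal.ofReal_inv_of_pos hZ0, hZ, Measure.real, ENNReal.ofReal_toReal (measure_ne_top _ _)]
  have hcp : IsProbabilityMeasure (ProbabilityTheory.cond (mu ρ) U) := cond_isProbabilityMeasure hU
  have hmass : mu (fun x => Z⁻¹ * U.indicator ρ x) Set.univ = 1 := by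
    rw [hmu]; exact measure_univ
  have hPI := PI_mu (C := C) (R := R) hn hd hmass hC (by
    intro g hg _ _
    obtain ⟨c, hc⟩ := hP g hg
    refine ⟨c, ?_⟩
    rw [hmu, int_cond', int_cond']
    calc Z⁻¹ * ∫ x in U, (g x - c) ^ 2 ∂(mu ρ) ≤ Z⁻¹ * (C * ∫ x in U, ‖fderiv ℝ g x‖ ^ 2 ∂(mu ρ)) :=
          mul_le_mul_of_nonneg_left hc hZi
      _ = C * (Z⁻¹ * ∫ x in U, ‖fderiv ℝ g x‖ ^ 2 ∂(mu ρ)) := by ring) hR
  set κ := ProbabilityTheory.cond (mu ρ) (cone R) with hκ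
  have hκp : IsProbabilityMeasure κ := cond_isProbabilityMeasure (cone_ne' hρ h1 hR)
  have heq : ProbabilityTheory.cond (mu (fun x => Z⁻¹ * U.indicator ρ x)) (cone R)
      = ProbabilityTheory.cond κ U := by
    rw [hmu, hκ, cond_cond_eq_cond_inter hUm hcm, cond_cond_eq_cond_inter hcm hUm, Set.inter_comm]
  rw [heq] at hPI
  by_cases hκU : κ U = 0
  · refine ⟨0, ?_⟩
    rw [Measure.restrict_eq_zero.2 hκU]
    simp
  have hκUp : IsProbabilityMeasure (ProbabilityTheory.cond κ U) := cond_isProbabilityMeasure hκU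
  have hac : ProbabilityTheory.cond κ U ≪ mu ρ :=
    (cond_absolutelyContinuous (μ := κ)).trans (cond_absolutelyContinuous (μ := mu ρ))
  have hgrad : Continuous fun x => ‖fderiv ℝ f x‖ := (hf.continuous_fderiv one_ne_zero).norm
  obtain ⟨hfL, hv⟩ := hPI f hf (bounded_memLp hac hρ.meas hb hgrad)
  have hκr : 0 < κ.real U := ENNReal.toReal_pos hκU (measure_ne_top _ _)
  refine ⟨∫ x, f x ∂(ProbabilityTheory.cond κ U), ?_⟩
  rw [variance_eq_integral hfL.aestronglyMeasurable.aemeasurable] at hv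
  generalize (∫ x, f x ∂(ProbabilityTheory.cond κ U)) = c at hv ⊢
  rw [int_cond', int_cond'] at hv
  have h3 := mul_le_mul_of_nonneg_left hv hκr.le
  have e1 : κ.real U * ((κ.real U)⁻¹ * ∫ x in U, (f x - c) ^ 2 ∂κ) = ∫ x in U, (f x - c) ^ 2 ∂κ := by
    rw [← mul_assoc, mul_inv_cancel₀ hκr.ne', one_mul]
  have e2 : κ.real U * (C * ((κ.real U)⁻¹ * ∫ x in U, ‖fderiv ℝ f x‖ ^ 2 ∂κ))
      = C * ∫ x in U, ‖fderiv ℝ f x‖ ^ 2 ∂κ := by
    field_simp
  rw [e1, e2] at h3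
  exact h3

end Pool.Agent.K6.H24.KR
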