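import Pool.Agent.K6.H24.KR.X2

/-!
# Exchangeable log-concave densities of bounded support conditioned on order relations
-/

set_option autoImplicit false

namespace Pool.Agent.K6.H24.KR

open MeasureTheory Filter Topology ProbabilityTheory Pool.Agent.K6.H24.OP
open Pool.Agent.H212R2.KLS (mu Bdd)
open Pool.Agent.W586.SX (Sx ee S_HARDY S_SYM S_SEQ S_TAIL S_MULTI S_BAS)
open Pool.Agent.W586.SX.CoreXx (closed_nm loc)
open Pool.Agent.H888R2.KT (untiltq)
open Pool.Agent.W586.SK (nm)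
open scoped InnerProductSpace ENNReal

variable {n : ℕ}

/-- symmetric sets keep their mass -/
lemma mass_sym {ρ : Eu n → ℝ} (hρ : Sx ρ) (h1 : mu ρ Set.univ = 1)
    {R : Fin n → Fin n → Prop} (hR : Ext R) {U : Set (Eu n)} (hU : MeasurableSet U)
    (hs : ∀ (σ : Equiv.Perm (Fin n)) (x : Fin n → ℝ),
      WithLp.toLp 2 (x ∘ σ) ∈ U ↔ WithLp.toLp 2 x ∈ U) :
    ProbabilityTheory.cond (mu ρ) (cone R) U = mu ρ U := by
  have hprob : IsProbabilityMeasure (mu ρ) := ⟨h1⟩
  have hκp : IsProbabilityMeasure (ProbabilityTheory.cond (mu ρ) (cone R)) :=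
    cond_isProbabilityMeasure (cone_ne' hρ h1 hR)
  have h2 := mean_mu hρ h1 hR (Ψ := U.indicator fun _ => (1:ℝ)) (measurable_const.indicator hU)
    ((integrable_const 1).indicator hU) (by
      intro σ x
      by_cases hx : WithLp.toLp 2 x ∈ U
      · rw [Set.indicator_of_mem hx, Set.indicator_of_mem ((hs σ x).2 hx)]
      · rw [Set.indicator_of_notMem hx, Set.indicator_of_notMem (fun h => hx ((hs σ x).1 h))])
  rw [integral_indicator hU, integral_indicator hU] at h2
  simp only [integral_const, MeasurableSet.univ, measureReal_restrict_apply, Set.univ_inter,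
    smul_eq_mul, mul_one] at h2
  unfold Measure.real at h2
  exact (ENNReal.toReal_eq_toReal_iff' (measure_ne_top _ _) (measure_ne_top _ _)).1 h2

lemma nm_perm (σ : Equiv.Perm (Fin n)) (x : Fin n → ℝ) :
    nm (WithLp.toLp 2 (x ∘ σ) : Eu n) = nm (WithLp.toLp 2 x : Eu n) := by
  unfold nm
  exact Equiv.sum_comp σ fun j => |x j|

/-- **bounded support**: the variance of Lipschitz functions -/
theorem core_cone (hHARDY : S_HARDY) (hSYM : S_SYM) (hSEQ : S_SEQ) (hTAIL : S_TAIL)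
    (hMULTI : S_MULTI) (hBAS : S_BAS) : ∃ C : ℝ, 0 < C ∧ ∀ {n : ℕ} (ρ : Eu n → ℝ), 1 ≤ n → Sx ρ →
    Bdd ρ → mu ρ Set.univ = 1 → ∀ R : Fin n → Fin n → Prop, Ext R →
    ∀ s : ℝ, 0 < s → (∀ θ : Eu n, ∫ x, ⟪θ, x⟫_ℝ ^ 2 ∂(mu ρ) ≤ s * ‖θ‖ ^ 2) →
    ∀ f : Eu n → ℝ, ContDiff ℝ 1 f → (∀ x, ‖fderiv ℝ f x‖ ≤ 1) →
    ∫ x, f x ^ 2 ∂(ProbabilityTheory.cond (mu ρ) (cone R))
      - (∫ x, f x ∂(ProbabilityTheory.cond (mu ρ) (cone R))) ^ 2 ≤ C * s := by
  obtain ⟨C₁, hC₁, huntilt⟩ := untiltq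
  obtain ⟨C₂, hC₂, hmul⟩ := hMULTI
  refine ⟨C₂ * (C₁ * 2 * (98304 ^ 2 + 2)), by positivity, ?_⟩
  intro n ρ hn hρ hb h1 R hR s hs hmom f hf hf1
  have hprob : IsProbabilityMeasure (mu ρ) := ⟨h1⟩
  set κ := ProbabilityTheory.cond (mu ρ) (cone R) with hκ
  have hκp : IsProbabilityMeasure κ := cond_isProbabilityMeasure (cone_ne' hρ h1 hR)
  have hn1 : (1:ℝ) ≤ n := by exact_mod_cast hn
  have hn0 : (0:ℝ) < n := by linarith
  have hss : 0 < Real.sqrt s := Real.sqrt_pos.2 hs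
  have hball : ∃ r, (mu ρ) (Metric.closedBall 0 r)ᶜ = 0 := by
    obtain ⟨r, hr⟩ := hb
    refine ⟨r, ?_⟩
    rw [mu, withDensity_apply_eq_zero' (hρ.meas.ennreal_ofReal.aemeasurable)]
    refine measure_mono_null ?_ (measure_empty (μ := (volume : Measure (Eu n))))
    intro x hx
    refine hx.1 ?_
    have : r < ‖x‖ := by simpa using hx.2
    simp [hr x this]
  have hball' : ∃ r, κ (Metric.closedBall 0 r)ᶜ = 0 := by
    obtain ⟨r, hr⟩ := hball
    exact ⟨r, cond_absolutelyContinuous hr⟩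
  have hcoord : ∀ i : Fin n, ∫ x, x i ^ 2 ∂(mu ρ) ≤ s := by
    intro i
    have h2 := hmom (EuclideanSpace.single i 1)
    have h3 : ∀ x : Eu n, ⟪EuclideanSpace.single i (1:ℝ), x⟫_ℝ = x i := by
      intro x
      rw [EuclideanSpace.inner_single_left]
      simp
    simp_rw [h3] at h2
    simpa using h2
  have htail := hTAIL ρ hn hρ hb h1 s hs hcoord
  have hcompl : ∀ t : ℝ, ({x : Eu n | nm x ≤ 4 * t * Real.sqrt s * n})ᶜ =
      {x : Eu n | 4 * t * Real.sqrt s * n < nm x} := by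
    intro t
    ext x
    simp
  have hsymm : ∀ t : ℝ, κ ({x : Eu n | nm x ≤ 4 * t * Real.sqrt s * n})ᶜ =
      mu ρ ({x : Eu n | nm x ≤ 4 * t * Real.sqrt s * n})ᶜ := by
    intro t
    refine mass_sym hρ h1 hR (closed_nm _).measurableSet.compl fun σ x => ?_
    simp only [Set.mem_compl_iff, Set.mem_ofPred_eq]
    rw [nm_perm]
  have hgoal := hmul κ hball' (fun t => {x : Eu n | nm x ≤ 4 * t * Real.sqrt s * n})
    (fun t => (closed_nm _).measurableSet)
    (fun t t' htt x hx => by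
      have hx' : nm x ≤ 4 * t * Real.sqrt s * n := hx
      show nm x ≤ 4 * t' * Real.sqrt s * n
      refine hx'.trans ?_
      have : 4 * t * Real.sqrt s ≤ 4 * t' * Real.sqrt s :=
        mul_le_mul_of_nonneg_right (by linarith) hss.le
      exact mul_le_mul_of_nonneg_right this hn0.le)
    (fun t ht => by
      rw [hsymm, hcompl]
      exact htail t ht)
    (C₁ * 2 * (98304 ^ 2 + 2) * s) (by positivity)
    (fun t ht h hh => by
      have ht1 : 1 ≤ t := by linarith
      have hhalf : 1 / 2 ≤ (mu ρ {x : Eu n | nm x ≤ (4 * t * Real.sqrt s) * n}).toReal := by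
        have h2 := htail t ht1
        rw [← hcompl] at h2
        have h3 : (mu ρ).real {x : Eu n | nm x ≤ 4 * t * Real.sqrt s * n}ᶜ ≤ Real.exp (-(t / 2)) := by
          rw [measureReal_def]
          exact ENNReal.toReal_le_of_le_ofReal (Real.exp_pos _).le h2
        rw [probReal_compl_eq_one_sub (closed_nm _).measurableSet] at h3
        have h4 : Real.exp (-(t / 2)) ≤ 1 / 2 := by
          rw [Real.exp_neg, inv_le_comm₀ (Real.exp_pos _) (by norm_num)]
          have := Real.add_one_le_exp (t / 2)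
          linarith
        rw [← measureReal_def]
        linarith
      have hUne : mu ρ {x : Eu n | nm x ≤ (4 * t * Real.sqrt s) * n} ≠ 0 := by
        intro h0
        rw [h0] at hhalf
        norm_num at hhalf
      have e1 : (24576 * (4 * t * Real.sqrt s)) ^ 2 = 98304 ^ 2 * t ^ 2 * s := by
        have : (24576 * (4 * t * Real.sqrt s)) ^ 2 = 98304 ^ 2 * t ^ 2 * (Real.sqrt s ^ 2) := by
          ring
        rw [this, Real.sq_sqrt hs.le]
      have h5 : 1 ≤ t ^ 2 := one_le_pow₀ ht1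
      have h6 : 98304 ^ 2 * t ^ 2 * s + 2 * s ≤ (98304 ^ 2 + 2) * s * t ^ 2 := by
        nlinarith
      have h7 : 0 ≤ C₁ * 2 := by positivity
      have h8 : C₁ * 2 * ((24576 * (4 * t * Real.sqrt s)) ^ 2 + 2 * s)
          ≤ C₁ * 2 * (98304 ^ 2 + 2) * s * t ^ 2 := by
        rw [e1]
        calc C₁ * 2 * (98304 ^ 2 * t ^ 2 * s + 2 * s) ≤ C₁ * 2 * ((98304 ^ 2 + 2) * s * t ^ 2) :=
              mul_le_mul_of_nonneg_left h6 h7
          _ = C₁ * 2 * (98304 ^ 2 + 2) * s * t ^ 2 := by ring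
      exact local_cone hBAS hn hρ hb h1 hR hUne (by positivity) (fun g hg => by
        obtain ⟨c, hc⟩ := loc huntilt hHARDY hSYM hSEQ hBAS hn ρ hρ hb h1 hball s hs hmom
          (4 * t * Real.sqrt s) (by positivity) _ rfl hhalf g hg
        exact ⟨c, hc.trans (mul_le_mul_of_nonneg_right h8
          (integral_nonneg fun x => by positivity))⟩) hh)
    f hf hf1
  refine hgoal.trans (le_of_eq ?_)
  ring

end Pool.Agent.K6.H24.KR
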