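import Pool.Agent.K6.H24.KR.X3
import Pool.Agent.K6.H24.KR.PieceQ
import Pool.Agent.H888R2.KB.N1

/-!
# Arbitrary support, second moments
-/

set_option autoImplicit false

namespace Pool.Agent.K6.H24.KR

open MeasureTheory Filter Topology ProbabilityTheory Pool.Agent.K6.H24.OP
open Pool.Agent.H212R2.KLS (mu Bdd)
open Pool.Agent.H888R2.KT (LC)
open Pool.Agent.W586.SX (Sx S_BAS)
open scoped InnerProductSpace ENNReal

variable {n : ℕ}

lemma cone_convex (R : Fin n → Fin n → Prop) {x y : Eu n} (hx : x ∈ cone R) (hy : y ∈ cone R)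
    {a b : ℝ} (ha : 0 ≤ a) (hb : 0 ≤ b) : a • x + b • y ∈ cone R := by
  intro i j h
  have h1 := mul_le_mul_of_nonneg_left (hx i j h) ha
  have h2 := mul_le_mul_of_nonneg_left (hy i j h) hb
  have e : ∀ k, (a • x + b • y : Eu n) k = a * x k + b * y k := fun k => rfl
  rw [e, e]
  linarith

/-- the statement for bounded support -/
def CoreCone (C : ℝ) : Prop := ∀ {n : ℕ} (ρ : Eu n → ℝ), 1 ≤ n → Sx ρ →
    Bdd ρ → mu ρ Set.univ = 1 → ∀ R : Fin n → Fin n → Prop, Ext R →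
    ∀ s : ℝ, 0 < s → (∀ θ : Eu n, ∫ x, ⟪θ, x⟫_ℝ ^ 2 ∂(mu ρ) ≤ s * ‖θ‖ ^ 2) →
    ∀ f : Eu n → ℝ, ContDiff ℝ 1 f → (∀ x, ‖fderiv ℝ f x‖ ≤ 1) →
    ∫ x, f x ^ 2 ∂(ProbabilityTheory.cond (mu ρ) (cone R))
      - (∫ x, f x ∂(ProbabilityTheory.cond (mu ρ) (cone R))) ^ 2 ≤ C * s

/-- bounded support: bounded functions -/
lemma core_bounded {C : ℝ} (hC : 0 < C) (hcore : CoreCone C) {ρ : Eu n → ℝ} (hn : 1 ≤ n) (hρ : Sx ρ)
    (hb : Bdd ρ) (h1 : mu ρ Set.univ = 1) {R : Fin n → Fin n → Prop} (hR : Ext R)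
    {s : ℝ} (hs : 0 < s) (hmom : ∀ θ : Eu n, ∫ x, ⟪θ, x⟫_ℝ ^ 2 ∂(mu ρ) ≤ s * ‖θ‖ ^ 2)
    {f : Eu n → ℝ} (hf : ContDiff ℝ 1 f) (hf1 : ∀ x, |f x| ≤ 1) :
    (∫ x, f x ^ 2 ∂(ProbabilityTheory.cond (mu ρ) (cone R))
      - (∫ x, f x ∂(ProbabilityTheory.cond (mu ρ) (cone R))) ^ 2) ^ 2 ≤
      8 * (C * s) * ∫ x, ‖fderiv ℝ f x‖ ^ 2 ∂(ProbabilityTheory.cond (mu ρ) (cone R)) := by
  have hprob : IsProbabilityMeasure (mu ρ) := ⟨h1⟩
  have hcm : MeasurableSet (cone R) := (closed_cone R).measurableSet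
  have hne := cone_ne' hρ h1 hR
  set W := (mu ρ).real (cone R) with hW
  have hW0 : 0 < W := ENNReal.toReal_pos hne (measure_ne_top _ _)
  have hWi : 0 ≤ W⁻¹ := (inv_pos.2 hW0).le
  have hmu : mu (fun x => W⁻¹ * (cone R).indicator ρ x) = ProbabilityTheory.cond (mu ρ) (cone R) := by
    rw [Pool.Agent.H212R2.KLS.g2_mu ρ hρ.nonneg hρ.meas (cone R) hcm W⁻¹ hWi]
    unfold ProbabilityTheory.cond
    rw [ENNReal.ofReal_inv_of_pos hW0, hW, Measure.real, ENNReal.ofReal_toReal (measure_ne_top _ _)]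
  have hκp : IsProbabilityMeasure (ProbabilityTheory.cond (mu ρ) (cone R)) :=
    cond_isProbabilityMeasure hne
  have hmass : mu (fun x => W⁻¹ * (cone R).indicator ρ x) Set.univ = 1 := by
    rw [hmu]; exact measure_univ
  have hlc : LC (fun x => W⁻¹ * (cone R).indicator ρ x) := by
    refine ⟨fun x => mul_nonneg hWi (Set.indicator_nonneg (fun x _ => hρ.nonneg x) x),
      (hρ.meas.indicator hcm).const_mul _, ?_, ?_, by rw [hmass]; exact ENNReal.one_ne_top, ?_⟩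
    · intro x y t ht0 ht1
      by_cases hx : x ∈ cone R
      · by_cases hy : y ∈ cone R
        · have hz : (1 - t) • x + t • y ∈ cone R := cone_convex R hx hy (by linarith) ht0.le
          rw [Set.indicator_of_mem hx, Set.indicator_of_mem hy, Set.indicator_of_mem hz,
            Real.mul_rpow hWi (hρ.nonneg x), Real.mul_rpow hWi (hρ.nonneg y)]
          have h3 : W⁻¹ ^ (1 - t) * W⁻¹ ^ t = W⁻¹ := by
            rw [← Real.rpow_add (inv_pos.2 hW0)]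
            simp
          calc W⁻¹ ^ (1 - t) * ρ x ^ (1 - t) * (W⁻¹ ^ t * ρ y ^ t)
              = (W⁻¹ ^ (1 - t) * W⁻¹ ^ t) * (ρ x ^ (1 - t) * ρ y ^ t) := by ring
            _ = W⁻¹ * (ρ x ^ (1 - t) * ρ y ^ t) := by rw [h3]
            _ ≤ _ := mul_le_mul_of_nonneg_left (hρ.logc x y t ht0 ht1) hWi
        · rw [Set.indicator_of_notMem hy, mul_zero, Real.zero_rpow ht0.ne', mul_zero]
          exact mul_nonneg hWi (Set.indicator_nonneg (fun x _ => hρ.nonneg x) _)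
      · rw [Set.indicator_of_notMem hx, mul_zero, Real.zero_rpow (by linarith), zero_mul]
        exact mul_nonneg hWi (Set.indicator_nonneg (fun x _ => hρ.nonneg x) _)
    · obtain ⟨r, hr⟩ := hb
      refine ⟨r, fun x hx => ?_⟩
      have : (cone R).indicator ρ x = 0 := by
        by_cases h : x ∈ cone R
        · rw [Set.indicator_of_mem h, hr x hx]
        · rw [Set.indicator_of_notMem h]
      simp only [this, mul_zero]
    · intro h
      rw [h] at hmass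
      simp at hmass
  have h2 := Pool.Agent.H888R2.KB.nash_lip hlc hmass (C * s) (by positivity) (fun g hg hg1 => by
    rw [hmu]
    exact hcore ρ hn hρ hb h1 R hR s hs hmom g hg hg1) f hf hf1
  rw [hmu] at h2
  exact h2

/-- arbitrary support -/
theorem cone_second (hbas : S_BAS) {C : ℝ} (hC : 0 < C) (hcore : CoreCone C) {ρ : Eu n → ℝ}
    (hn : 1 ≤ n) (hρ : Sx ρ) (h1 : mu ρ Set.univ = 1) {R : Fin n → Fin n → Prop} (hR : Ext R)
    {s : ℝ} (hs : 0 < s)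
    (hmom : ∀ θ : Eu n, ∫⁻ x, ENNReal.ofReal (⟪θ, x⟫_ℝ ^ 2) ∂(mu ρ) ≤ ENNReal.ofReal (s * ‖θ‖ ^ 2))
    {f : Eu n → ℝ} (hf : ContDiff ℝ 1 f) :
    ((∀ x, ‖fderiv ℝ f x‖ ≤ 1) → MemLp f 2 (ProbabilityTheory.cond (mu ρ) (cone R)) ∧
      variance f (ProbabilityTheory.cond (mu ρ) (cone R)) ≤ C * s) ∧
    ((∀ x, |f x| ≤ 1) →
      ENNReal.ofReal (variance f (ProbabilityTheory.cond (mu ρ) (cone R)) ^ 2) ≤
        ENNReal.ofReal (8 * (C * s)) *
          ∫⁻ x, ENNReal.ofReal (‖fderiv ℝ f x‖ ^ 2) ∂(ProbabilityTheory.cond (mu ρ) (cone R))) := by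
  have hprob : IsProbabilityMeasure (mu ρ) := ⟨h1⟩
  have hne := cone_ne' hρ h1 hR
  have hcm : MeasurableSet (cone R) := (closed_cone R).measurableSet
  obtain ⟨κ, hκ⟩ : ∃ κ, κ = ProbabilityTheory.cond (mu ρ) (cone R) := ⟨_, rfl⟩
  have hκp : IsProbabilityMeasure κ := by rw [hκ]; exact cond_isProbabilityMeasure hne
  have hnorm : MemLp (fun x : Eu n => ‖x‖) 2 κ := by
    rw [hκ]
    unfold ProbabilityTheory.cond
    exact ((Pool.Agent.W276.SX.norm_memLp (mu ρ) s hmom).restrict _).smul_measure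
      (ENNReal.inv_ne_top.2 hne)
  have hM1 : Tendsto (fun k : ℕ => ((mu ρ).real {x : Eu n | ‖x‖ ≤ k})⁻¹) atTop (𝓝 1) := by
    have := (Pool.Agent.H212R2.KLS.g2_mass (mu ρ)).inv₀ one_ne_zero
    rwa [inv_one] at this
  have hD : Tendsto (fun k : ℕ => C * (s * ((mu ρ).real {x : Eu n | ‖x‖ ≤ k})⁻¹)) atTop
      (𝓝 (C * s)) := by
    have := (hM1.const_mul s).const_mul C
    rwa [mul_one] at this
  -- the truncated laws
  have hev : ∀ᶠ k : ℕ in atTop, 0 < (mu ρ).real {x : Eu n | ‖x‖ ≤ k} :=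
    (Pool.Agent.H212R2.KLS.g2_mass (mu ρ)).eventually (lt_mem_nhds one_pos)
  have key : ∀ᶠ k : ℕ in atTop, ∃ ρk : Eu n → ℝ, Sx ρk ∧ Bdd ρk ∧ mu ρk Set.univ = 1 ∧
      (∀ θ : Eu n, ∫ x, ⟪θ, x⟫_ℝ ^ 2 ∂(mu ρk) ≤
        (s * ((mu ρ).real {x : Eu n | ‖x‖ ≤ k})⁻¹) * ‖θ‖ ^ 2) ∧
      ProbabilityTheory.cond (mu ρk) (cone R) = ProbabilityTheory.cond κ {x : Eu n | ‖x‖ ≤ k} ∧
      0 < (mu ρ).real {x : Eu n | ‖x‖ ≤ k} := by
    filter_upwards [hev] with k hk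
    obtain ⟨B, hBdef⟩ : ∃ B : Set (Eu n), B = {x | ‖x‖ ≤ k} := ⟨_, rfl⟩
    have hBm : MeasurableSet B := by
      rw [hBdef]
      exact measurableSet_le measurable_norm measurable_const
    rw [← hBdef] at hk ⊢
    obtain ⟨M, hM⟩ : ∃ M : ℝ, M = (mu ρ).real B := ⟨_, rfl⟩
    rw [← hM] at hk ⊢
    have hMi : 0 ≤ M⁻¹ := (inv_pos.2 hk).le
    have hd : Sx (fun x => M⁻¹ * B.indicator ρ x) := by
      have hb1 : Sx (B.indicator ρ) := by
        rw [hBdef]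
        exact (hbas ρ hρ).2.1 k
      exact (hbas _ hb1).2.2.1 _ hMi
    have hb : Bdd (fun x => M⁻¹ * B.indicator ρ x) := by
      refine ⟨k, fun x hx => ?_⟩
      show M⁻¹ * B.indicator ρ x = 0
      rw [Set.indicator_of_notMem, mul_zero]
      rw [hBdef]
      exact not_le.2 hx
    have hmu := Pool.Agent.H212R2.KLS.g2_mu ρ hρ.nonneg hρ.meas B hBm M⁻¹ hMi
    have hmass : mu (fun x => M⁻¹ * B.indicator ρ x) Set.univ = 1 := by
      rw [hmu, Measure.smul_apply, Measure.restrict_apply_univ, smul_eq_mul]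
      have h2 : mu ρ B = ENNReal.ofReal M := by
        rw [hM, Measure.real, ENNReal.ofReal_toReal (measure_ne_top _ _)]
      rw [h2, ← ENNReal.ofReal_mul hMi, inv_mul_cancel₀ hk.ne', ENNReal.ofReal_one]
    have hint : ∀ g : Eu n → ℝ,
        ∫ x, g x ∂(mu (fun x => M⁻¹ * B.indicator ρ x)) = M⁻¹ * ∫ x in B, g x ∂(mu ρ) := by
      intro g
      rw [hmu, integral_smul_measure, ENNReal.toReal_ofReal hMi, smul_eq_mul]
    have hle : ∀ g : Eu n → ℝ, Continuous g →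
        (∀ x, 0 ≤ g x) → ∀ a : ℝ, 0 ≤ a →
        ∫⁻ x, ENNReal.ofReal (g x) ∂(mu ρ) ≤ ENNReal.ofReal a → ∫ x in B, g x ∂(mu ρ) ≤ a := by
      intro g hg hg0 a ha hga
      rw [integral_eq_lintegral_of_nonneg_ae (Eventually.of_forall hg0)
        hg.aestronglyMeasurable]
      apply ENNReal.toReal_le_of_le_ofReal ha
      exact le_trans (setLIntegral_le_lintegral _ _) hga
    refine ⟨_, hd, hb, hmass, ?_, ?_, hk⟩
    · intro θ
      rw [hint]
      have h2 := hle (fun x => ⟪θ, x⟫_ℝ ^ 2) (by fun_prop) (fun x => sq_nonneg _) (s * ‖θ‖ ^ 2)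
        (by positivity) (hmom θ)
      calc M⁻¹ * ∫ x in B, ⟪θ, x⟫_ℝ ^ 2 ∂(mu ρ) ≤ M⁻¹ * (s * ‖θ‖ ^ 2) :=
            mul_le_mul_of_nonneg_left h2 hMi
        _ = (s * M⁻¹) * ‖θ‖ ^ 2 := by ring
    · have hc : mu (fun x => M⁻¹ * B.indicator ρ x) = ProbabilityTheory.cond (mu ρ) B := by
        rw [hmu]
        unfold ProbabilityTheory.cond
        rw [ENNReal.ofReal_inv_of_pos hk, hM, Measure.real, ENNReal.ofReal_toReal (measure_ne_top _ _)]
      rw [hc, hκ, cond_cond_eq_cond_inter hBm hcm, cond_cond_eq_cond_inter hcm hBm, Set.inter_comm]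
  have hsub : ∀ (ρk : Eu n → ℝ) (k : ℕ), Sx ρk → Bdd ρk → mu ρk Set.univ = 1 →
      ProbabilityTheory.cond (mu ρk) (cone R) = ProbabilityTheory.cond κ {x : Eu n | ‖x‖ ≤ k} →
      variance f (ProbabilityTheory.cond κ {x : Eu n | ‖x‖ ≤ k})
        = ∫ x, f x ^ 2 ∂(ProbabilityTheory.cond (mu ρk) (cone R))
          - (∫ x, f x ∂(ProbabilityTheory.cond (mu ρk) (cone R))) ^ 2 := by
    intro ρk k h2 h3 h4 h5
    have hp : IsProbabilityMeasure (mu ρk) := ⟨h4⟩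
    have hcp : IsProbabilityMeasure (ProbabilityTheory.cond (mu ρk) (cone R)) :=
      cond_isProbabilityMeasure (cone_ne' h2 h4 hR)
    rw [← h5, variance_eq_sub (bounded_memLp cond_absolutelyContinuous h2.meas h3 hf.continuous)]
    rfl
  have hlim := ball_limit κ hnorm (by positivity : 0 < C * s) hD hf
  rw [← hκ]
  refine ⟨fun hf1 => hlim.1 hf1 ?_, fun hf1 => hlim.2 hf1 ?_⟩
  · filter_upwards [key] with k hk
    obtain ⟨ρk, h2, h3, h4, h5, h6, h7⟩ := hk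
    rw [hsub ρk k h2 h3 h4 h6]
    exact hcore ρk hn h2 h3 h4 R hR _ (mul_pos hs (inv_pos.2 h7)) h5 f hf hf1
  · filter_upwards [key] with k hk
    obtain ⟨ρk, h2, h3, h4, h5, h6, h7⟩ := hk
    rw [hsub ρk k h2 h3 h4 h6, ← h6]
    exact core_bounded hC hcore hn h2 h3 h4 hR (mul_pos hs (inv_pos.2 h7)) h5 hf hf1

end Pool.Agent.K6.H24.KR
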