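import Pool.Agent.K6.H24.KR.X4

/-!
# From second moments to the covariance
-/

set_option autoImplicit false

namespace Pool.Agent.K6.H24.KR

open MeasureTheory Filter Topology ProbabilityTheory Pool.Agent.K6.H24.OP
open Pool.Agent.H212R2.KLS (mu Bdd)
open Pool.Agent.W586.SX (Sx S_BAS)
open Pool.Agent.W376.SX (mean lin_mean map_shift mean_eq)
open scoped InnerProductSpace ENNReal

variable {n : ℕ}

/-- the two bounds, with the constant `D` -/
def VB (μ : Measure (Eu n)) (D : ℝ) : Prop := ∀ f : Eu n → ℝ, ContDiff ℝ 1 f →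
  ((∀ x, ‖fderiv ℝ f x‖ ≤ 1) → MemLp f 2 μ ∧ variance f μ ≤ D) ∧
  ((∀ x, |f x| ≤ 1) → ENNReal.ofReal (variance f μ ^ 2) ≤
    ENNReal.ofReal D * ∫⁻ x, ENNReal.ofReal (‖fderiv ℝ f x‖ ^ 2) ∂μ)

lemma cone_shift (R : Fin n → Fin n → Prop) (c : ℝ) (x : Eu n) :
    x + c • Pool.Agent.W586.SX.ee n ∈ cone R ↔ x ∈ cone R := by
  have e : ∀ k, (x + c • Pool.Agent.W586.SX.ee n : Eu n) k = x k + c * (1 / Real.sqrt n) := fun k => rfl
  simp only [cone, Set.mem_ofPred_eq, e, add_le_add_iff_right]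

lemma cond_shift {m : Measure (Eu n)} (R : Fin n → Fin n → Prop) (c : ℝ) :
    ProbabilityTheory.cond (Measure.map (fun x => x + c • Pool.Agent.W586.SX.ee n) m) (cone R)
      = Measure.map (fun x => x + c • Pool.Agent.W586.SX.ee n) (ProbabilityTheory.cond m (cone R)) := by
  have hT : Measurable fun x : Eu n => x + c • Pool.Agent.W586.SX.ee n := measurable_add_const _
  have hpre : (fun x : Eu n => x + c • Pool.Agent.W586.SX.ee n) ⁻¹' (cone R) = cone R := by
    ext x; exact cone_shift R c x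
  unfold ProbabilityTheory.cond
  rw [Measure.map_apply hT (closed_cone R).measurableSet, hpre, Measure.map_smul,
    Measure.restrict_map hT (closed_cone R).measurableSet, hpre]

/-- **arbitrary exchangeable log-concave probability densities** -/
theorem cone_cov (hbas : S_BAS) {C : ℝ} (hC : 0 < C) (hcore : CoreCone C) {ρ : Eu n → ℝ}
    (hn : 1 ≤ n) (hρ : Sx ρ) (h1 : mu ρ Set.univ = 1) {R : Fin n → Fin n → Prop} (hR : Ext R)
    {s : ℝ} (hs : 0 < s)
    (hvar : ∀ θ : Eu n, evariance (fun x => ⟪θ, x⟫_ℝ) (mu ρ) ≤ ENNReal.ofReal (s * ‖θ‖ ^ 2)) :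
    VB (ProbabilityTheory.cond (mu ρ) (cone R)) (8 * (C * s)) := by
  intro f hf
  classical
  have : IsProbabilityMeasure (mu ρ) := ⟨h1⟩
  have hL2 : ∀ θ : Eu n, MemLp (fun x : Eu n => ⟪θ, x⟫_ℝ) 2 (mu ρ) := by
    intro θ
    have hmeas : AEStronglyMeasurable (fun x : Eu n => ⟪θ, x⟫_ℝ) (mu ρ) := by
      have : Continuous (fun x : Eu n => ⟪θ, x⟫_ℝ) := by fun_prop
      exact this.aestronglyMeasurable
    rw [← evariance_lt_top_iff_memLp hmeas]
    exact lt_of_le_of_lt (hvar θ) ENNReal.ofReal_lt_top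
  have hint : ∀ k, Integrable (fun x : Eu n => x k) (mu ρ) := by
    intro k
    have h2 := (hL2 (EuclideanSpace.single k 1)).integrable (by norm_num)
    refine h2.congr ?_
    filter_upwards with x
    rw [EuclideanSpace.inner_single_left]
    simp
  obtain ⟨c, hc⟩ := mean_eq hn ρ hρ
  obtain ⟨a, ha⟩ : ∃ a, a = mean (mu ρ) := ⟨_, rfl⟩
  rw [← ha] at hc
  have hρ' : Sx (fun x => ρ (x + a)) := by
    rw [hc]
    exact (hbas ρ hρ).2.2.2.1 c
  have hmap := map_shift ρ hρ.meas a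
  have hemb : MeasurableEmbedding (fun x : Eu n => x + a) := measurableEmbedding_addRight a
  have h1' : mu (fun x => ρ (x + a)) Set.univ = 1 := by
    have h2 := congrArg (fun m : Measure (Eu n) => m Set.univ) hmap
    rw [Measure.map_apply (measurable_add_const a) MeasurableSet.univ, Set.preimage_univ, h1] at h2
    exact h2
  have hI : ∀ g : Eu n → ℝ,
      ∫ x, g x ∂(mu ρ) = ∫ x, g (x + a) ∂(mu fun x => ρ (x + a)) := by
    intro g
    conv_lhs => rw [← hmap]
    exact hemb.integral_map g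
  have hLI : ∀ g : Eu n → ℝ≥0∞,
      ∫⁻ x, g x ∂(mu ρ) = ∫⁻ x, g (x + a) ∂(mu fun x => ρ (x + a)) := by
    intro g
    conv_lhs => rw [← hmap]
    exact hemb.lintegral_map g
  have hvar' : ∀ θ : Eu n,
      ∫⁻ x, ENNReal.ofReal (⟪θ, x⟫_ℝ ^ 2) ∂(mu fun x => ρ (x + a)) ≤
        ENNReal.ofReal (s * ‖θ‖ ^ 2) := by
    intro θ
    have h2 := hvar θ
    unfold ProbabilityTheory.evariance at h2
    rw [hLI] at h2
    refine le_trans (le_of_eq ?_) h2
    refine lintegral_congr fun x => ?_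
    have h3 : ∫ x, ⟪θ, x⟫_ℝ ∂(mu ρ) = ⟪θ, a⟫_ℝ := by
      have h4 := lin_mean (mu ρ) hint (innerₛₗ ℝ θ)
      simp only [innerₛₗ_apply_apply] at h4
      rw [ha]
      exact h4.symm
    rw [h3]
    show ENNReal.ofReal (⟪θ, x⟫_ℝ ^ 2) = ‖⟪θ, x + a⟫_ℝ - ⟪θ, a⟫_ℝ‖ₑ ^ 2
    rw [inner_add_right, add_sub_cancel_right, ← ofReal_norm,
      ← ENNReal.ofReal_pow (norm_nonneg _), Real.norm_eq_abs, sq_abs]
  have hg : ContDiff ℝ 1 (fun x => f (x + a)) := hf.comp (contDiff_id.add contDiff_const)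
  have hfd : ∀ x, fderiv ℝ (fun x => f (x + a)) x = fderiv ℝ f (x + a) := fun x => by
    rw [fderiv_comp_add_right]
  have key := cone_second hbas hC hcore hn hρ' h1' hR hs hvar' hg
  -- the shifted conditioned law
  obtain ⟨κ, hκ⟩ : ∃ κ, κ = ProbabilityTheory.cond (mu fun x => ρ (x + a)) (cone R) := ⟨_, rfl⟩
  have hκm : ProbabilityTheory.cond (mu ρ) (cone R) = Measure.map (fun x => x + a) κ := by
    rw [← hmap, hκ, hc, cond_shift]
  rw [← hκ] at key
  rw [hκm]
  have hv : variance (fun x => f (x + a)) κ = variance f (Measure.map (fun x => x + a) κ) := by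
    rw [variance_map hf.continuous.measurable.aemeasurable (measurable_add_const a).aemeasurable]
    rfl
  rw [hv] at key
  refine ⟨fun hL => ?_, fun hb => ?_⟩
  · obtain ⟨k1, k2⟩ := key.1 (fun x => by rw [hfd]; exact hL (x + a))
    refine ⟨(hemb.memLp_map_measure_iff).mpr k1, k2.trans ?_⟩
    have : 0 < C * s := by positivity
    linarith
  · have k := key.2 (fun x => hb (x + a))
    rw [hemb.lintegral_map]
    refine k.trans (le_of_eq ?_)
    congr 1
    refine lintegral_congr fun x => ?_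
    rw [hfd]

end Pool.Agent.K6.H24.KR
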