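import Pool.Agent.K6.H24.KR.X5
import Pool.Agent.K6.H24.KR.PieceL
import Pool.Agent.K6.H24.KR.PieceM

/-!
# The covariance of the conditioned law
-/

set_option autoImplicit false

namespace Pool.Agent.K6.H24.KR

open MeasureTheory Filter Topology ProbabilityTheory Pool.Agent.K6.H24.OP
open Pool.Agent.H212R2.KLS (mu Bdd)
open Pool.Agent.W586.SX (Sx S_BAS)
open scoped InnerProductSpace ENNReal

variable {n : ℕ}

/-- `Var ⟪θ, X⟫ ≤ s ‖θ‖²` -/
def CL (μ : Measure (Eu n)) (s : ℝ) : Prop :=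
  ∀ θ : Eu n, evariance (fun x => ⟪θ, x⟫_ℝ) μ ≤ ENNReal.ofReal (s * ‖θ‖ ^ 2)

/-- the relations do not connect all points -/
def Dis (R : Fin n → Fin n → Prop) : Prop :=
  ∃ A : Finset (Fin n), A.Nonempty ∧ Aᶜ.Nonempty ∧ ∀ i ∈ A, ∀ j ∉ A, ¬ R i j ∧ ¬ R j i

lemma inner_eq (θ : Eu n) (x : Fin n → ℝ) :
    ⟪θ, (WithLp.toLp 2 x : Eu n)⟫_ℝ = ∑ i, θ i * x i := by
  rw [PiLp.inner_apply]
  refine Finset.sum_congr rfl fun i _ => ?_
  simp [mul_comm]

lemma evar_toLp {ν : Measure (Fin n → ℝ)} (θ : Eu n) :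
    evariance (fun x : Eu n => ⟪θ, x⟫_ℝ) (Measure.map (WithLp.toLp 2) ν)
      = evariance (fun x : Fin n → ℝ => ∑ i, θ i * x i) ν := by
  have hc : Continuous fun x : Eu n => ⟪θ, x⟫_ℝ := by fun_prop
  have e1 : ∫ x, ⟪θ, x⟫_ℝ ∂(Measure.map (WithLp.toLp 2) ν) = ∫ x : Fin n → ℝ, ∑ i, θ i * x i ∂ν := by
    rw [int_toLp hc]
    simp only [inner_eq]
  unfold evariance
  rw [e1, lintegral_map (by fun_prop) meas_toLp]
  simp only [inner_eq]

/-- variance bounds of linear forms from `CL` -/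
lemma CL_coord {ν : Measure (Fin n → ℝ)} [IsProbabilityMeasure ν] {s : ℝ}
    (h : CL (Measure.map (WithLp.toLp 2) ν) s) (hs : 0 ≤ s) (θ : Fin n → ℝ) :
    MemLp (fun x : Fin n → ℝ => ∑ i, θ i * x i) 2 ν ∧
      variance (fun x : Fin n → ℝ => ∑ i, θ i * x i) ν ≤ s * ∑ i, θ i ^ 2 := by
  have h1 := h (WithLp.toLp 2 θ)
  rw [evar_toLp, EuclideanSpace.real_norm_sq_eq] at h1
  have h1' : evariance (fun x : Fin n → ℝ => ∑ i, θ i * x i) ν ≤ ENNReal.ofReal (s * ∑ i, θ i ^ 2) := h1
  have hc : Continuous fun x : Fin n → ℝ => ∑ i, θ i * x i := by fun_prop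
  refine ⟨(evariance_lt_top_iff_memLp hc.aestronglyMeasurable).1
    (lt_of_le_of_lt h1' ENNReal.ofReal_lt_top), ?_⟩
  unfold variance
  exact ENNReal.toReal_le_of_le_ofReal (mul_nonneg hs (Finset.sum_nonneg fun i _ => sq_nonneg _)) h1'

/-- the coordinates are square integrable before the conditioning -/
lemma coord_memLp {ν : Measure (Fin n → ℝ)} [IsProbabilityMeasure ν]
    (hex : ∀ σ : Equiv.Perm (Fin n), Measure.map (fun x : Fin n → ℝ => x ∘ σ) ν = ν)
    (hties : ∀ i j : Fin n, i ≠ j → ν {x | x i = x j} = 0) {R : Fin n → Fin n → Prop}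
    (hpos : 0 < ν.real (cn R))
    (h : ∀ i, MemLp (fun x : Fin n → ℝ => x i) 2 (ProbabilityTheory.cond ν (cn R))) (i : Fin n) :
    MemLp (fun x : Fin n → ℝ => x i) 2 ν := by
  have hT : Continuous fun x : Fin n → ℝ => Real.sqrt (∑ i, x i ^ 2) := by fun_prop
  have h1 : MemLp (fun x : Fin n → ℝ => Real.sqrt (∑ i, x i ^ 2)) 2
      (ProbabilityTheory.cond ν (cn R)) := by
    rw [memLp_two_iff_integrable_sq hT.aestronglyMeasurable]
    have e : (fun x : Fin n → ℝ => Real.sqrt (∑ i, x i ^ 2) ^ 2) = fun x => ∑ i, x i ^ 2 := by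
      funext x
      exact Real.sq_sqrt (Finset.sum_nonneg fun i _ => sq_nonneg _)
    rw [e]
    exact integrable_finsetSum _ fun i _ => (h i).integrable_sq
  have h2 := memLp_of_cond (T := fun x : Fin n → ℝ => Real.sqrt (∑ i, x i ^ 2)) hex hties hpos hT
    (fun σ x => by
      have : ∑ i, (x ∘ σ) i ^ 2 = ∑ i, x i ^ 2 := Equiv.sum_comp σ fun i => x i ^ 2
      simp only [this]) h1
  refine h2.mono (continuous_apply i).aestronglyMeasurable (Filter.Eventually.of_forall fun x => ?_)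
  rw [Real.norm_eq_abs, Real.norm_of_nonneg (Real.sqrt_nonneg _)]
  refine Real.abs_le_sqrt ?_
  exact Finset.single_le_sum (f := fun i => x i ^ 2) (fun i _ => sq_nonneg _) (Finset.mem_univ i)

/-- the variance of block symmetric functions does not change -/
lemma var_block {ν : Measure (Fin n → ℝ)} [IsProbabilityMeasure ν]
    (hex : ∀ σ : Equiv.Perm (Fin n), Measure.map (fun x : Fin n → ℝ => x ∘ σ) ν = ν)
    (hties : ∀ i j : Fin n, i ≠ j → ν {x | x i = x j} = 0) {R : Fin n → Fin n → Prop}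
    (hpos : 0 < ν.real (cn R)) {A : Finset (Fin n)}
    (hA : ∀ i ∈ A, ∀ j ∉ A, ¬ R i j ∧ ¬ R j i) {T : (Fin n → ℝ) → ℝ} (hT : MemLp T 2 ν)
    (hs : ∀ σ : Equiv.Perm (Fin n), (∀ i, σ i ∈ A ↔ i ∈ A) → ∀ x : Fin n → ℝ, T (x ∘ σ) = T x) :
    variance T (ProbabilityTheory.cond ν (cn R)) = variance T ν := by
  have hne : ν (cn R) ≠ 0 := by
    intro h
    rw [Measure.real, h] at hpos
    simp at hpos
  have hprob : IsProbabilityMeasure (ProbabilityTheory.cond ν (cn R)) :=
    cond_isProbabilityMeasure hne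
  have hm' : MemLp T 2 (ProbabilityTheory.cond ν (cn R)) := by
    unfold ProbabilityTheory.cond
    exact (hT.restrict _).smul_measure (ENNReal.inv_ne_top.2 hne)
  have key : ∀ Ψ : (Fin n → ℝ) → ℝ, Integrable Ψ ν →
      (∀ σ : Equiv.Perm (Fin n), (∀ i, σ i ∈ A ↔ i ∈ A) → ∀ x : Fin n → ℝ, Ψ (x ∘ σ) = Ψ x) →
      ∫ x, Ψ x ∂(ProbabilityTheory.cond ν (cn R)) = ∫ x, Ψ x ∂ν := by
    intro Ψ h1 h2
    rw [int_cond]
    have h3 : ∫ x in cn R, Ψ x ∂ν = ν.real (cn R) * ∫ x, Ψ x ∂ν :=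
      block_mean hex hties R A hA h1 h2
    rw [h3, ← mul_assoc, inv_mul_cancel₀ hpos.ne', one_mul]
  rw [variance_eq_sub hT, variance_eq_sub hm']
  have h1 : ∫ x, (T ^ 2) x ∂(ProbabilityTheory.cond ν (cn R)) = ∫ x, (T ^ 2) x ∂ν :=
    key _ hT.integrable_sq (fun σ hσ x => by simp only [Pi.pow_apply]; rw [hs σ hσ])
  have h2 : ∫ x, T x ∂(ProbabilityTheory.cond ν (cn R)) = ∫ x, T x ∂ν :=
    key _ (hT.integrable one_le_two) hs
  rw [h1, h2]

/-- **the covariance of the exchangeable law is controlled by the one of the conditioned law** -/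
theorem CL_transfer (hn : 1 ≤ n) {ρ : Eu n → ℝ} (hρ : Sx ρ) (h1 : mu ρ Set.univ = 1)
    {R : Fin n → Fin n → Prop} (hR : Ext R) {s : ℝ} (hs : 0 ≤ s)
    (hcl : CL (ProbabilityTheory.cond (mu ρ) (cone R)) s)
    (hor : Dis R ∨ ∀ i j : Fin n, i ≠ j → 0 ≤ covariance (fun x : Eu n => x i) (fun x => x j) (mu ρ)) :
    CL (mu ρ) s := by
  have hp := lx_prob hρ.meas h1
  have hex := lx_perm hρ
  have hties := lx_ties ρ
  have hpos := cone_mass hρ h1 hR
  have hne : lx ρ (cn R) ≠ 0 := by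
    intro h
    rw [Measure.real, h] at hpos
    simp at hpos
  have hκp : IsProbabilityMeasure (ProbabilityTheory.cond (lx ρ) (cn R)) :=
    cond_isProbabilityMeasure hne
  rw [← lx_map hρ.meas] at hcl hor ⊢
  rw [cond_map] at hcl
  have hc := CL_coord hcl hs
  have hco : ∀ i, MemLp (fun x : Fin n → ℝ => x i) 2 (ProbabilityTheory.cond (lx ρ) (cn R)) := by
    intro i
    have h2 := (hc (Pi.single i 1)).1
    refine h2.congr_norm (continuous_apply i).aestronglyMeasurable
      (Filter.Eventually.of_forall fun x => ?_)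
    congr 1
    rw [Finset.sum_eq_single i]
    · simp
    · intro j _ hj
      simp [hj]
    · intro h; exact absurd (Finset.mem_univ i) h
  have hL := coord_memLp hex hties hpos hco
  have hLθ : ∀ θ : Fin n → ℝ, MemLp (fun x : Fin n → ℝ => ∑ i, θ i * x i) 2 (lx ρ) := fun θ =>
    memLp_finsetSum _ fun i _ => (hL i).const_mul (θ i)
  have hone : variance (fun x : Fin n → ℝ => ∑ i, x i) (lx ρ) ≤ n * s := by
    have hT : MemLp (ts : (Fin n → ℝ) → ℝ) 2 (lx ρ) := by
      have := hLθ fun _ => 1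
      simp only [one_mul] at this
      exact this
    have h2 := var_cond hex hties hpos ts_symm hT
    have h3 := (hc fun _ => 1).2
    simp only [one_mul, one_pow, Finset.sum_const, Finset.card_univ, Fintype.card_fin,
      nsmul_eq_mul, mul_one] at h3
    have h4 : variance (fun x : Fin n → ℝ => ∑ i, x i) (ProbabilityTheory.cond (lx ρ) (cn R))
        = variance (fun x : Fin n → ℝ => ∑ i, x i) (lx ρ) := h2
    rw [← h4]
    linarith
  have hθ : ∀ θ : Fin n → ℝ, ∑ i, θ i ^ 2 = 1 →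
      variance (fun x : Fin n → ℝ => ∑ i, θ i * x i) (lx ρ) ≤ s := by
    refine cov_transfer (R := R) hn hex hL hone ?_
    rcases hor with ⟨A, hA1, hA2, hA⟩ | hcov
    · left
      refine ⟨A, hA1, hA2, ?_⟩
      set v : Fin n → ℝ := fun i => if i ∈ A then (Aᶜ.card : ℝ) else -(A.card : ℝ) with hv
      have h2 := var_block (T := fun x : Fin n → ℝ => ∑ i, v i * x i) hex hties hpos hA (hLθ v)
        (by
          intro σ hσ x
          have e : ∀ i, v i * (x ∘ σ) i = v (σ i) * x (σ i) := by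
            intro i
            have : v (σ i) = v i := by
              simp only [hv]
              by_cases hi : i ∈ A
              · rw [if_pos hi, if_pos ((hσ i).2 hi)]
              · rw [if_neg hi, if_neg fun h => hi ((hσ i).1 h)]
            rw [this]; rfl
          simp only [e]
          exact Equiv.sum_comp σ fun i => v i * x i)
      have h3 := (hc v).2
      rw [h2] at h3
      rw [mul_comm]
      exact h3
    · right
      intro i j hij
      have h2 := hcov i j hij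
      have ci : Continuous fun x : Eu n => x i := by fun_prop
      have cj : Continuous fun x : Eu n => x j := by fun_prop
      rw [covariance_map_fun ci.aestronglyMeasurable cj.aestronglyMeasurable
        meas_toLp.aemeasurable] at h2
      exact h2
  intro θ
  rw [evar_toLp]
  have hm := hLθ (fun i => θ i)
  rw [← hm.ofReal_variance_eq]
  refine ENNReal.ofReal_le_ofReal ?_
  have e0 : ‖θ‖ ^ 2 = ∑ i, θ i ^ 2 := EuclideanSpace.real_norm_sq_eq θ
  rw [e0]
  set N := ∑ i, θ i ^ 2 with hN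
  have hN0 : 0 ≤ N := Finset.sum_nonneg fun i _ => sq_nonneg _
  rcases hN0.eq_or_lt with h0 | h0
  · have hz : ∀ i, θ i = 0 := by
      intro i
      have h2 : θ i ^ 2 ≤ N := Finset.single_le_sum (f := fun i => θ i ^ 2)
        (fun i _ => sq_nonneg _) (Finset.mem_univ i)
      rw [← h0] at h2
      exact pow_eq_zero_iff (two_ne_zero) |>.1 (le_antisymm h2 (sq_nonneg _))
    have e : (fun x : Fin n → ℝ => ∑ i, θ i * x i) = fun _ => 0 := by
      funext x; simp [hz]
    rw [e, ← h0, mul_zero]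
    exact (variance_zero (lx ρ)).le
  · have hsq : 0 < Real.sqrt N := Real.sqrt_pos.2 h0
    have h2 := hθ (fun i => θ i / Real.sqrt N) (by
      simp only [div_pow, Real.sq_sqrt h0.le]
      rw [← Finset.sum_div, ← hN, div_self h0.ne'])
    have e : (fun x : Fin n → ℝ => ∑ i, θ i * x i)
        = fun x => Real.sqrt N * ∑ i, θ i / Real.sqrt N * x i := by
      funext x
      rw [Finset.mul_sum]
      refine Finset.sum_congr rfl fun i _ => ?_
      field_simp
    rw [e, variance_const_mul, Real.sq_sqrt h0.le, mul_comm s]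
    exact mul_le_mul_of_nonneg_left h2 h0.le

end Pool.Agent.K6.H24.KR
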