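import Pool.Agent.K6.H24.KR.X6

/-!
# The final form
-/

set_option autoImplicit false

namespace Pool.Agent.K6.H24.KR

open MeasureTheory Filter Topology ProbabilityTheory Pool.Agent.K6.H24.OP
open Pool.Agent.H212R2.KLS (mu Bdd)
open Pool.Agent.W586.SX (Sx S_BAS)
open scoped InnerProductSpace ENNReal

variable {n : ℕ}

lemma pos_of_CL (hn : 1 ≤ n) {ν : Measure (Fin n → ℝ)} [IsProbabilityMeasure ν]
    (hac : ν ≪ volume) {s : ℝ} (h : CL (Measure.map (WithLp.toLp 2) ν) s) : 0 < s := by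
  by_contra hs
  push Not at hs
  have i0 : Fin n := ⟨0, hn⟩
  have h1 := h (EuclideanSpace.single i0 1)
  rw [evar_toLp, ENNReal.ofReal_of_nonpos (mul_nonpos_of_nonpos_of_nonneg hs (sq_nonneg _))] at h1
  have e : (fun x : Fin n → ℝ => ∑ i, (EuclideanSpace.single i0 (1:ℝ) : Eu n) i * x i)
      = fun x => x i0 := by
    funext x
    rw [Finset.sum_eq_single i0]
    · simp
    · intro j _ hj
      simp [hj]
    · intro h; exact absurd (Finset.mem_univ i0) h
  rw [e] at h1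
  have h2 : evariance (fun x : Fin n → ℝ => x i0) ν = 0 := le_antisymm h1 bot_le
  rw [evariance_eq_zero_iff (measurable_pi_apply i0).aemeasurable] at h2
  set c := ∫ x : Fin n → ℝ, x i0 ∂ν with hc
  have h3 : ν {x | x i0 = c} = 0 := by
    refine hac ?_
    rw [volume_pi]
    exact Measure.pi_hyperplane (fun _ : Fin n => (volume : Measure ℝ)) i0 c
  have h4 : ν {x | x i0 = c}ᶜ = 0 := by
    have := ae_iff.1 h2
    exact this
  have h5 : ν Set.univ = 0 := by
    rw [← Set.union_compl_self {x : Fin n → ℝ | x i0 = c}]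
    exact measure_union_null h3 h4
  rw [measure_univ] at h5
  exact one_ne_zero h5

lemma mu_univ (w : Eu n → ℝ) : mu w Set.univ = ∫⁻ x, ENNReal.ofReal (w x) := by
  unfold mu
  rw [withDensity_apply _ MeasurableSet.univ, Measure.restrict_univ]

lemma nrm_eq (w : Eu n → ℝ) : nrm w = (mu w Set.univ)⁻¹ • mu w := by
  rw [mu_univ]; rfl

/-- the normalised measure is the one of the normalised density -/
lemma nrm_mu {ρ : Eu n → ℝ} (hm : Measurable ρ) (h0 : ∀ x, 0 ≤ ρ x) (hpos : 0 < ∫ x, ρ x) :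
    nrm ρ = mu (fun x => (∫ y, ρ y)⁻¹ * ρ x) := by
  have hi : Integrable ρ := by
    by_contra h
    rw [integral_undef h] at hpos
    exact lt_irrefl _ hpos
  have h1 : ∫⁻ x, ENNReal.ofReal (ρ x) = ENNReal.ofReal (∫ x, ρ x) :=
    (ofReal_integral_eq_lintegral_ofReal hi (Filter.Eventually.of_forall h0)).symm
  unfold nrm mu
  rw [h1, ← ENNReal.ofReal_inv_of_pos hpos, ← withDensity_smul _ hm.ennreal_ofReal]
  congr 1
  funext x
  simp only [Pi.smul_apply, smul_eq_mul]
  rw [← ENNReal.ofReal_mul (inv_nonneg.2 hpos.le)]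

/-- the conditioned law has the density proportional to the restriction -/
lemma nrm_cone {ρ : Eu n → ℝ} (hm : Measurable ρ) (h0 : ∀ x, 0 ≤ ρ x) (hpos : 0 < ∫ x, ρ x)
    (R : Fin n → Fin n → Prop) :
    nrm (dc ρ R) = ProbabilityTheory.cond (nrm ρ) (cone R) := by
  have hi : Integrable ρ := by
    by_contra h
    rw [integral_undef h] at hpos
    exact lt_irrefl _ hpos
  have hcm := (closed_cone R).measurableSet
  have h1 : mu ρ Set.univ = ENNReal.ofReal (∫ x, ρ x) := by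
    rw [mu_univ]
    exact (ofReal_integral_eq_lintegral_ofReal hi (Filter.Eventually.of_forall h0)).symm
  have hz : mu ρ Set.univ ≠ 0 := by
    rw [h1]
    simpa using hpos
  have ht : mu ρ Set.univ ≠ ⊤ := by
    rw [h1]; exact ENNReal.ofReal_ne_top
  have e1 : mu (dc ρ R) = (mu ρ).restrict (cone R) := by
    have := Pool.Agent.H212R2.KLS.g2_mu ρ h0 hm (cone R) hcm 1 zero_le_one
    simp only [one_mul, ENNReal.ofReal_one, one_smul] at this
    exact this
  rw [nrm_eq, nrm_eq, e1, Measure.restrict_apply_univ]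
  unfold ProbabilityTheory.cond
  rw [Measure.smul_apply, Measure.restrict_smul, smul_smul, smul_eq_mul]
  congr 1
  rw [ENNReal.mul_inv (Or.inl (ENNReal.inv_ne_zero.2 ht)) (Or.inl (ENNReal.inv_ne_top.2 hz)),
    inv_inv, mul_comm (mu ρ Set.univ), mul_assoc, ENNReal.mul_inv_cancel hz ht, mul_one]

/-- **KLS for exchangeable log-concave densities conditioned on order relations** -/
theorem exch_order : ∃ C : ℝ, 0 < C ∧ ∀ (n : ℕ) (R : Fin n → Fin n → Prop) (ρ : Eu n → ℝ), 1 ≤ n →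
    Ext R → Sx ρ → 0 < ∫ x, ρ x →
    IsProbabilityMeasure (nrm ρ) ∧ IsProbabilityMeasure (nrm (dc ρ R)) ∧
    ∀ s : ℝ, (CL (nrm ρ) s ∨ (CL (nrm (dc ρ R)) s ∧ (Dis R ∨
      ∀ i j : Fin n, i ≠ j → 0 ≤ covariance (fun x : Eu n => x i) (fun x => x j) (nrm ρ)))) →
      VB (nrm (dc ρ R)) (C * s) := by
  have hbas : Pool.Agent.W586.SX.S_BAS := Pool.Agent.W586.SXBas.bas
  have hflow : Pool.Agent.W586.SX.S_FLOW := Pool.Agent.W891.SX.Flow.flow Pool.Agent.W474.SX.dir
    Pool.Agent.W133.SX.zzsx Pool.Agent.W876.SK.ibp Pool.Agent.W193.SK.lim Pool.Agent.W398.SX.field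
  have hhardy : Pool.Agent.W586.SX.S_HARDY := Pool.Agent.W852.SX.hardy hflow
    Pool.Agent.W398.SX.field Pool.Agent.W40.SX.half Pool.Agent.W99.SX.cut
  have hsym : Pool.Agent.W586.SX.S_SYM := Pool.Agent.W586.SXSym.sym Pool.Agent.W124.SX.iter
  obtain ⟨C, hC, hcore⟩ := core_cone hhardy hsym Pool.Agent.W62.SX.Seq.seq
    Pool.Agent.W380.SX.tail Pool.Agent.W865.SX.multi hbas
  refine ⟨8 * C, by positivity, ?_⟩
  intro n R ρ hn hR hρ hpos
  have e0 := nrm_mu hρ.meas hρ.nonneg hpos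
  have hc := nrm_cone hρ.meas hρ.nonneg hpos R
  have hρ1 : Sx (fun x => (∫ y, ρ y)⁻¹ * ρ x) := (hbas ρ hρ).2.2.1 _ (inv_nonneg.2 hpos.le)
  have h1 : mu (fun x => (∫ y, ρ y)⁻¹ * ρ x) Set.univ = 1 := by
    have hi : Integrable ρ := by
      by_contra h
      rw [integral_undef h] at hpos
      exact lt_irrefl _ hpos
    rw [mu_univ, ← ofReal_integral_eq_lintegral_ofReal (hi.const_mul _)
      (Filter.Eventually.of_forall fun x => mul_nonneg (inv_nonneg.2 hpos.le) (hρ.nonneg x)),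
      integral_const_mul, inv_mul_cancel₀ hpos.ne', ENNReal.ofReal_one]
  rw [hc, e0]
  set ρ1 : Eu n → ℝ := fun x => (∫ y, ρ y)⁻¹ * ρ x with hρ1d
  have hp : IsProbabilityMeasure (mu ρ1) := ⟨h1⟩
  have hne := cone_ne' hρ1 h1 hR
  have hκ : IsProbabilityMeasure (ProbabilityTheory.cond (mu ρ1) (cone R)) :=
    cond_isProbabilityMeasure hne
  refine ⟨hp, hκ, fun s hor => ?_⟩
  have hp' := lx_prob hρ1.meas h1
  have hpos' := cone_mass hρ1 h1 hR
  have hne' : lx ρ1 (cn R) ≠ 0 := by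
    intro h
    rw [Measure.real, h] at hpos'
    simp at hpos'
  have hs : 0 < s := by
    rcases hor with h | ⟨h, -⟩
    · rw [← lx_map hρ1.meas] at h
      exact pos_of_CL hn (lx_ac ρ1) h
    · rw [← lx_map hρ1.meas, cond_map] at h
      have : IsProbabilityMeasure (ProbabilityTheory.cond (lx ρ1) (cn R)) :=
        cond_isProbabilityMeasure hne'
      exact pos_of_CL hn (cond_absolutelyContinuous.trans (lx_ac ρ1)) h
  have hcl : CL (mu ρ1) s := by
    rcases hor with h | ⟨h, h'⟩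
    · exact h
    · exact CL_transfer hn hρ1 h1 hR hs.le h h'
  have hfin := cone_cov hbas hC (fun ρ hn hρ hb h1 R hR s hs hmom f hf hf1 =>
    hcore ρ hn hρ hb h1 R hR s hs hmom f hf hf1) hn hρ1 h1 hR hs hcl
  have e : 8 * (C * s) = 8 * C * s := by ring
  rwa [e] at hfin

end Pool.Agent.K6.H24.KR
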