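import Pool.Agent.K6.H24.KR.X7

/-!
# The comparison theorem for arbitrary exchangeable laws on Euclidean space
-/

set_option autoImplicit false

namespace Pool.Agent.K6.H24.KR

open MeasureTheory Filter Topology ProbabilityTheory Pool.Agent.K6.H24.OP
open scoped InnerProductSpace ENNReal

variable {n : ℕ}

lemma meas_ofLp : Measurable (WithLp.ofLp : Eu n → Fin n → ℝ) :=
  (PiLp.continuous_ofLp 2 _).measurable

lemma map_map_lp (m : Measure (Eu n)) :
    Measure.map (WithLp.toLp 2) (Measure.map (WithLp.ofLp : Eu n → Fin n → ℝ) m) = m := by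
  rw [Measure.map_map meas_toLp meas_ofLp]
  have : (WithLp.toLp 2 ∘ WithLp.ofLp : Eu n → Eu n) = id := by
    funext x; rfl
  rw [this, Measure.map_id]

/-- Poincare inequality in coordinates -/
lemma PB_meas {m : Measure (Eu n)} [IsProbabilityMeasure m] {C : ℝ} (hP : PI m C) :
    PB (Measure.map (WithLp.ofLp : Eu n → Fin n → ℝ) m) C := by
  intro f hf ⟨K1, hK1⟩ ⟨K2, hK2⟩
  set ν := Measure.map (WithLp.ofLp : Eu n → Fin n → ℝ) m with hν
  have hνp : IsProbabilityMeasure ν := Measure.isProbabilityMeasure_map meas_ofLp.aemeasurable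
  set g : Eu n → ℝ := fun y => f (WithLp.ofLp y) with hg
  have hgc : ContDiff ℝ 1 g :=
    hf.comp (PiLp.continuousLinearEquiv 2 ℝ (fun _ : Fin n => ℝ)).contDiff
  have hgf : (fun y : Fin n → ℝ => g (WithLp.toLp 2 y)) = f := rfl
  have hgrad : ∀ x : Fin n → ℝ, gsq f x = ‖fderiv ℝ g (WithLp.toLp 2 x)‖ ^ 2 := by
    intro x
    have := gsq_toLp hgc x
    rwa [hgf] at this
  have hb : ∀ y : Eu n, ‖fderiv ℝ g y‖ ^ 2 ≤ n * K2 ^ 2 := by
    intro y
    have h1 := hgrad (WithLp.ofLp y)
    rw [WithLp.toLp_ofLp] at h1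
    rw [← h1]
    unfold gsq
    calc ∑ i, (fderiv ℝ f (WithLp.ofLp y) (Pi.single i 1)) ^ 2 ≤ ∑ _i : Fin n, K2 ^ 2 := by
          refine Finset.sum_le_sum fun i _ => ?_
          rw [← sq_abs]
          exact pow_le_pow_left₀ (abs_nonneg _) (hK2 _ i) 2
      _ = n * K2 ^ 2 := by simp
  have hgn : Continuous fun y => ‖fderiv ℝ g y‖ := (hgc.continuous_fderiv one_ne_zero).norm
  have hcg : Continuous fun y => ‖fderiv ℝ g y‖ ^ 2 := hgn.pow 2
  obtain ⟨-, hc⟩ := hP g hgc (MemLp.of_bound hgn.aestronglyMeasurable (Real.sqrt (n * K2 ^ 2))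
    (Filter.Eventually.of_forall fun x => by
      rw [Real.norm_eq_abs, abs_of_nonneg (norm_nonneg _)]
      exact Real.le_sqrt_of_sq_le (hb x)))
  have hm := map_map_lp m
  rw [← hν] at hm
  have e1 : ∫ y, ‖fderiv ℝ g y‖ ^ 2 ∂m = ∫ x, gsq f x ∂ν := by
    conv_lhs => rw [← hm]
    rw [int_toLp hcg]
    exact integral_congr_ae (Filter.Eventually.of_forall fun x => (hgrad x).symm)
  have hfm : MemLp f 2 ν := MemLp.of_bound hf.continuous.aestronglyMeasurable K1
    (Filter.Eventually.of_forall fun x => by rw [Real.norm_eq_abs]; exact hK1 _)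
  have e2 : variance g m = ∫ x, f x ^ 2 ∂ν - (∫ x, f x ∂ν) ^ 2 := by
    conv_lhs => rw [← hm]
    rw [var_toLp hgc.continuous, hgf, variance_eq_sub hfm]
    rfl
  rw [e1, e2] at hc
  exact hc

/-- **comparison theorem** -/
theorem PI_exch (hn : 1 ≤ n) {m : Measure (Eu n)} [IsProbabilityMeasure m]
    (hex : ∀ σ : Equiv.Perm (Fin n),
      Measure.map (fun x : Eu n => WithLp.toLp 2 fun i => x (σ i)) m = m)
    (hties : ∀ i j : Fin n, i ≠ j → m {x | x i = x j} = 0)
    {C : ℝ} (hC : 0 ≤ C) (hP : PI m C) {R : Fin n → Fin n → Prop} (hR : Ext R) :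
    IsProbabilityMeasure (ProbabilityTheory.cond m (cone R)) ∧
      PI (ProbabilityTheory.cond m (cone R)) C := by
  set ν := Measure.map (WithLp.ofLp : Eu n → Fin n → ℝ) m with hν
  have hνp : IsProbabilityMeasure ν := Measure.isProbabilityMeasure_map meas_ofLp.aemeasurable
  have hm := map_map_lp m
  rw [← hν] at hm
  have hex' : ∀ σ : Equiv.Perm (Fin n), Measure.map (fun x : Fin n → ℝ => x ∘ σ) ν = ν := by
    intro σ
    have hσ : Measurable fun x : Fin n → ℝ => x ∘ σ :=
      measurable_pi_lambda _ fun i => measurable_pi_apply (σ i)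
    have hσ' : Measurable fun x : Eu n => (WithLp.toLp 2 fun i => x (σ i) : Eu n) :=
      meas_toLp.comp (hσ.comp meas_ofLp)
    conv_rhs => rw [hν, ← hex σ, Measure.map_map meas_ofLp hσ']
    rw [hν, Measure.map_map hσ meas_ofLp]
    rfl
  have hties' : ∀ i j : Fin n, i ≠ j → ν {x | x i = x j} = 0 := by
    intro i j hij
    have hms : MeasurableSet {x : Fin n → ℝ | x i = x j} :=
      measurableSet_eq_fun (measurable_pi_apply i) (measurable_pi_apply j)
    rw [hν, Measure.map_apply meas_ofLp hms]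
    exact hties i j hij
  have hpos : 0 < ν.real (cn R) := cone_pos hex' hR
  have h := PI_cond (R := R) hn hex' hties' hC (PB_meas hP) hpos
  rw [hm] at h
  refine ⟨?_, h⟩
  refine cond_isProbabilityMeasure fun h0 => ?_
  rw [← hm, Measure.map_apply meas_toLp (closed_cone R).measurableSet, cone_pre] at h0
  rw [Measure.real, h0] at hpos
  simp at hpos

end Pool.Agent.K6.H24.KR
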