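import Pool.Agent.K6.H24.KR.X8

/-!
# All parts with one constant
-/

set_option autoImplicit false

namespace Pool.Agent.K6.H24.KR

open MeasureTheory Filter Topology ProbabilityTheory Pool.Agent.K6.H24.OP
open Pool.Agent.H212R2.KLS (mu Bdd)
open Pool.Agent.W586.SX (Sx S_BAS)
open Pool.Agent.Results.MP_6d896a_gt.OneSymmetric (SymDensity)
open scoped InnerProductSpace ENNReal

variable {n : ℕ}

lemma s_pos (hn : 1 ≤ n) {ρ : Eu n → ℝ} (hρ : Sx ρ) (hpos : 0 < ∫ x, ρ x)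
    {R : Fin n → Fin n → Prop} (hR : Ext R) {s : ℝ}
    (hor : CL (nrm ρ) s ∨ CL (nrm (dc ρ R)) s) : 0 < s := by
  have hbas : Pool.Agent.W586.SX.S_BAS := Pool.Agent.W586.SXBas.bas
  have e0 := nrm_mu hρ.meas hρ.nonneg hpos
  have hc := nrm_cone hρ.meas hρ.nonneg hpos R
  have hρ1 : Sx (fun x => (∫ y, ρ y)⁻¹ * ρ x) := (hbas ρ hρ).2.2.1 _ (inv_nonneg.2 hpos.le)
  have h1 : mu (fun x => (∫ y, ρ y)⁻¹ * ρ x) Set.univ = 1 := by
    have hi : Integrable ρ := by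
      by_contra h
      rw [integral_undef h] at hpos
      exact lt_irrefl _ hpos
    rw [mu_univ, ← ofReal_integral_eq_lintegral_ofReal (hi.const_mul _)
      (Filter.Eventually.of_forall fun x => mul_nonneg (inv_nonneg.2 hpos.le) (hρ.nonneg x)),
      integral_const_mul, inv_mul_cancel₀ hpos.ne', ENNReal.ofReal_one]
  rw [hc, e0] at hor
  have hp' := lx_prob hρ1.meas h1
  have hpos' := cone_mass hρ1 h1 hR
  have hne' : lx (fun x => (∫ y, ρ y)⁻¹ * ρ x) (cn R) ≠ 0 := by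
    intro h
    rw [Measure.real, h] at hpos'
    simp at hpos'
  rcases hor with h | h
  · rw [← lx_map hρ1.meas] at h
    exact pos_of_CL hn (lx_ac _) h
  · rw [← lx_map hρ1.meas, cond_map] at h
    have : IsProbabilityMeasure (ProbabilityTheory.cond (lx _) (cn R)) :=
      cond_isProbabilityMeasure hne'
    exact pos_of_CL hn (cond_absolutelyContinuous.trans (lx_ac _)) h

lemma VB_mono {μ : Measure (Eu n)} {D D' : ℝ} (h : VB μ D) (hD : D ≤ D') : VB μ D' := by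
  intro f hf
  refine ⟨fun h1 => ⟨((h f hf).1 h1).1, (((h f hf).1 h1).2).trans hD⟩, fun h1 => ?_⟩
  refine ((h f hf).2 h1).trans ?_
  exact mul_le_mul' (ENNReal.ofReal_le_ofReal hD) le_rfl

lemma PI_mono {μ : Measure (Eu n)} {D D' : ℝ} (h : PI μ D) (hD : D ≤ D') : PI μ D' := by
  intro f hf hg
  obtain ⟨h1, h2⟩ := h f hf hg
  exact ⟨h1, h2.trans (mul_le_mul_of_nonneg_right hD (integral_nonneg fun x => sq_nonneg _))⟩

/-- **all parts** -/
theorem exch_order' : ∃ C : ℝ, 0 < C ∧ ∀ (n : ℕ) (R : Fin n → Fin n → Prop) (ρ : Eu n → ℝ), 1 ≤ n →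
    Ext R → Sx ρ → 0 < ∫ x, ρ x →
    IsProbabilityMeasure (nrm ρ) ∧ IsProbabilityMeasure (nrm (dc ρ R)) ∧
    (∀ s : ℝ, CL (nrm ρ) s → VB (nrm (dc ρ R)) (C * s)) ∧
    (∀ s : ℝ, CL (nrm (dc ρ R)) s → (Dis R ∨
      ∀ i j : Fin n, i ≠ j → 0 ≤ covariance (fun x : Eu n => x i) (fun x => x j) (nrm ρ)) →
      VB (nrm (dc ρ R)) (C * s)) ∧
    (∀ s : ℝ, CL (nrm (dc ρ R)) s → (∀ x y : Eu n, (∀ i, |y i| = |x i|) → ρ y = ρ x) →
      PI (nrm (dc ρ R)) (C * s)) := by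
  obtain ⟨C1, hC1, H1⟩ := exch_order
  obtain ⟨C2, hC2, H2⟩ := one_symm
  refine ⟨C1 + C2, by positivity, ?_⟩
  intro n R ρ hn hR hρ hpos
  obtain ⟨h1, h2, h3⟩ := H1 n R ρ hn hR hρ hpos
  refine ⟨h1, h2, fun s hs => ?_, fun s hs hd => ?_, fun s hs hsym => ?_⟩
  · have h0 := s_pos hn hρ hpos hR (Or.inl hs)
    exact VB_mono (h3 s (Or.inl hs)) (by nlinarith)
  · have h0 := s_pos hn hρ hpos hR (Or.inr hs)
    exact VB_mono (h3 s (Or.inr ⟨hs, hd⟩)) (by nlinarith)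
  · have h0 := s_pos hn hρ hpos hR (Or.inr hs)
    have hS : SymDensity ρ := by
      refine ⟨hρ.nonneg, hρ.meas, hρ.logc, fun σ x y h => ?_⟩
      have e1 : ρ (WithLp.toLp 2 fun i => x (σ i)) = ρ x := hρ.inv σ _ _ fun i => rfl
      rw [← e1]
      exact hsym _ _ h
    obtain ⟨-, h5⟩ := H2 n R ρ hn hR hS hpos
    refine PI_mono (h5 s fun θ hθ => ?_) (by nlinarith)
    have h6 := hs θ
    rw [hθ, one_pow, mul_one] at h6
    have e : (fun x : Eu n => ⟪x, θ⟫_ℝ) = fun x => ⟪θ, x⟫_ℝ := by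
      funext x; exact real_inner_comm θ x
    rw [e]
    exact h6

end Pool.Agent.K6.H24.KR
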